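import Pool.Agent.H246KN.Stubs

/-!
# T6: lattice polygons are simple
-/

set_option autoImplicit false

namespace KN

namespace SIM

theorem chain_getD (l : List V) : ∀ (p : V) (i : ℕ), i < l.length →
    ∀ h : i < (chain p l).length, (chain p l)[i] = ((p :: l).getD i 0, l.getD i 0) := by
  induction l with
  | nil => intro p i hi; simp at hi
  | cons q l ih =>
    intro p i hi h
    cases i with
    | zero => simp [chain]
    | succ i =>
      simp only [List.length_cons] at hi
      have h' : i < (chain q l).length := by rw [chain_length]; omega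
      have := ih q i (by omega) h'
      simp only [chain, List.getElem_cons_succ, this, List.getD_cons_succ]

theorem edges_getD (l : List V) (i : ℕ) (h : i < (edges l).length) :
    (edges l)[i] = (l.getD i 0, l.getD ((i + 1) % l.length) 0) := by
  cases l with
  | nil => simp [edges] at h
  | cons p l =>
    have hl : i < l.length + 1 := by rw [edges_length] at h; simpa using h
    have h1 : i < (l ++ [p]).length := by simpa using hl
    have h2 := chain_getD (l ++ [p]) p i h1 h
    have h3 : (edges (p :: l))[i] = (chain p (l ++ [p]))[i]'h := rfl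
    rw [h3, h2]
    have e1 : (p :: (l ++ [p])).getD i 0 = (p :: l).getD i 0 := by
      rw [← List.cons_append, List.getD_append _ _ _ _ (by simpa using hl)]
    rw [e1]
    congr 1
    rcases Nat.lt_or_ge i l.length with hi | hi
    · rw [List.getD_append _ _ _ _ hi, List.length_cons, Nat.mod_eq_of_lt (by omega),
        List.getD_cons_succ]
    · have : i = l.length := by omega
      subst this
      rw [List.length_cons, Nat.mod_self, List.getD_append_right _ _ _ _ (le_refl _)]
      simp

theorem emb_zero : emb 0 = 0 := by simp [emb]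

theorem path_getD (w : List Dir) (i : ℕ) : (path w).getD i 0 = pos (w.drop i) := by
  rcases Nat.lt_or_ge i (path w).length with h | h
  · rw [List.getD_eq_getElem _ _ h, path_getElem]
  · rw [List.getD_eq_default _ _ h]
    rw [path_length] at h
    rw [List.drop_eq_nil_of_le (by omega)]
    rfl

theorem coord (a b : ℤ) (u v : ℤ) (s t : ℝ) (hs0 : 0 ≤ s) (hs1 : s < 1) (ht0 : 0 ≤ t) (ht1 : t < 1)
    (hu : u = -1 ∨ u = 0 ∨ u = 1) (hv : v = -1 ∨ v = 0 ∨ v = 1)
    (h : (a : ℝ) + s * u = b + t * v) : a = b ∨ (b = a + u ∧ a = b + v) := by
  have key : ∀ m : ℤ, ((a : ℝ) < (b : ℝ) + m → a < b + m) := by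
    intro m hm; exact_mod_cast hm
  have key' : ∀ m : ℤ, ((b : ℝ) < (a : ℝ) + m → b < a + m) := by
    intro m hm; exact_mod_cast hm
  rcases hu with rfl | rfl | rfl <;> rcases hv with rfl | rfl | rfl <;> push_cast at h
  · have h1 := key 1 (by push_cast; linarith)
    have h2 := key' 1 (by push_cast; linarith)
    left; omega
  · have h1 := key 1 (by push_cast; linarith)
    have h2 := key' 1 (by push_cast; linarith)
    left; omega
  · have h1 := key 2 (by push_cast; linarith)
    have h2 := key' 1 (by push_cast; linarith)
    omega
  · have h1 := key 1 (by push_cast; linarith)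
    have h2 := key' 1 (by push_cast; linarith)
    left; omega
  · have h1 := key 1 (by push_cast; linarith)
    have h2 := key' 1 (by push_cast; linarith)
    left; omega
  · have h1 := key 1 (by push_cast; linarith)
    have h2 := key' 1 (by push_cast; linarith)
    left; omega
  · have h1 := key 1 (by push_cast; linarith)
    have h2 := key' 2 (by push_cast; linarith)
    omega
  · have h1 := key 1 (by push_cast; linarith)
    have h2 := key' 1 (by push_cast; linarith)
    left; omega
  · have h1 := key 1 (by push_cast; linarith)
    have h2 := key' 1 (by push_cast; linarith)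
    left; omega

theorem vec_cases (u : Dir) : ((vec u).1 = -1 ∨ (vec u).1 = 0 ∨ (vec u).1 = 1) ∧
    ((vec u).2.1 = -1 ∨ (vec u).2.1 = 0 ∨ (vec u).2.1 = 1) ∧
    ((vec u).2.2 = -1 ∨ (vec u).2.2 = 0 ∨ (vec u).2.2 = 1) := by
  cases u <;> decide

theorem disj_edge (P Q : Z3) (u v : Dir) (h1 : P ≠ Q)
    (h2 : ¬ (P + vec u = Q ∧ Q + vec v = P)) :
    Disj (emb P, emb (P + vec u)) (emb Q, emb (Q + vec v)) := by
  intro s t hs0 hs1 ht0 ht1 he
  obtain ⟨a, b, c⟩ := P
  obtain ⟨a', b', c'⟩ := Q
  have e1 := congrArg Prod.fst he
  have e2 := congrArg (fun x : V => x.2.1) he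
  have e3 := congrArg (fun x : V => x.2.2) he
  simp only [lerp, emb, Prod.smul_fst, Prod.smul_snd, Prod.fst_add, Prod.snd_add, smul_eq_mul]
    at e1 e2 e3
  push_cast at e1 e2 e3
  have c1 := coord a a' (vec u).1 (vec v).1 s t hs0 hs1 ht0 ht1 (vec_cases u).1 (vec_cases v).1
    (by linarith)
  have c2 := coord b b' (vec u).2.1 (vec v).2.1 s t hs0 hs1 ht0 ht1 (vec_cases u).2.1
    (vec_cases v).2.1 (by linarith)
  have c3 := coord c c' (vec u).2.2 (vec v).2.2 s t hs0 hs1 ht0 ht1 (vec_cases u).2.2
    (vec_cases v).2.2 (by linarith)
  have h1' : ¬ (a = a' ∧ b = b' ∧ c = c') := by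
    rintro ⟨rfl, rfl, rfl⟩; exact h1 rfl
  have h2' : ¬ ((a + (vec u).1 = a' ∧ b + (vec u).2.1 = b' ∧ c + (vec u).2.2 = c') ∧
      (a' + (vec v).1 = a ∧ b' + (vec v).2.1 = b ∧ c' + (vec v).2.2 = c)) := by
    rintro ⟨⟨g1, g2, g3⟩, g4, g5, g6⟩
    apply h2
    constructor
    · exact Prod.ext g1 (Prod.ext g2 g3)
    · exact Prod.ext g4 (Prod.ext g5 g6)
  clear he e1 e2 e3 h1 h2
  cases u <;> cases v <;> simp only [vec] at c1 c2 c3 h2' <;> omega

theorem emb_inj {p q : Z3} (h : emb p = emb q) : p = q := by
  obtain ⟨a, b, c⟩ := p
  obtain ⟨a', b', c'⟩ := q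
  simp only [emb, Prod.mk.injEq, Int.cast_inj] at h
  obtain ⟨rfl, rfl, rfl⟩ := h
  rfl

end SIM

open SIM in
theorem S_simple_proof : S_simple := by
  intro w hw
  obtain ⟨hlen, hpos, hnd⟩ := hw
  cases w with
  | nil => simp at hlen
  | cons d w =>
    simp only [List.length_cons] at hlen
    simp only [path, List.tail_cons] at hnd
    simp only [pos] at hpos
    have hvl : vl (d :: w) = (path w).map emb := rfl
    rw [hvl]
    set n := w.length + 1 with hn
    have hL : (path w).length = n := path_length w
    -- the starts
    set S : ℕ → Z3 := fun i => pos (w.drop i) with hS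
    have hinj : ∀ i j, i < n → j < n → S i = S j → i = j := by
      intro i j hi hj hij
      have hi' : i < (path w).length := by omega
      have hj' : j < (path w).length := by omega
      have e1 := path_getElem w i hi'
      have e2 := path_getElem w j hj'
      have : (path w)[i] = (path w)[j] := by rw [e1, e2]; exact hij
      exact (List.Nodup.getElem_inj_iff hnd).1 this
    have hget : ∀ i (h : i < (edges ((path w).map emb)).length),
        (edges ((path w).map emb))[i] = (emb (S i), emb (S ((i + 1) % n))) := by
      intro i h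
      rw [edges_getD, List.length_map, hL]
      have : ∀ j, ((path w).map emb).getD j 0 = emb (S j) := by
        intro j
        rw [← emb_zero, List.getD_map, path_getD]
      rw [this, this]
    have hlen' : (edges ((path w).map emb)).length = n := by
      rw [edges_length, List.length_map, hL]
    -- the ends
    have hend : ∀ i, i < n → ∃ u : Dir, S ((i + 1) % n) = S i + vec u := by
      intro i hi
      rcases Nat.lt_or_ge (i + 1) n with h | h
      · refine ⟨neg (w.getD i .xp), ?_⟩
        rw [Nat.mod_eq_of_lt h]
        have := pos_drop w i (by omega)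
        simp only [hS]
        rw [this, vec_neg]
        abel
      · have : i + 1 = n := by omega
        rw [this, Nat.mod_self]
        refine ⟨neg d, ?_⟩
        have hi2 : i = w.length := by omega
        subst hi2
        simp only [hS, List.drop_zero, List.drop_length, pos, vec_neg]
        rw [zero_add]
        exact eq_neg_of_add_eq_zero_left hpos
    refine ⟨?_, ?_, ?_⟩
    · intro h
      rw [List.map_eq_nil_iff] at h
      exact path_ne_nil w h
    · rw [List.pairwise_iff_getElem]
      intro i j hi hj hij
      rw [hget, hget]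
      rw [hlen'] at hi hj
      obtain ⟨u, hu⟩ := hend i hi
      obtain ⟨v, hv⟩ := hend j hj
      rw [hu, hv]
      apply disj_edge
      · intro h
        have := hinj i j hi hj h
        omega
      · rintro ⟨h1, h2⟩
        rw [← hu, Nat.mod_eq_of_lt (by omega)] at h1
        rw [← hv] at h2
        have h3 := hinj (i + 1) j (by omega) hj h1
        rcases Nat.lt_or_ge (j + 1) n with h | h
        · rw [Nat.mod_eq_of_lt h] at h2
          have := hinj _ _ h hi h2
          omega
        · have hj2 : j + 1 = n := by omega
          rw [hj2, Nat.mod_self] at h2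
          have := hinj _ _ (by omega) hi h2
          omega
    · intro e he hee
      obtain ⟨i, hi, rfl⟩ := List.getElem_of_mem he
      rw [hget] at hee
      rw [hlen'] at hi
      obtain ⟨u, hu⟩ := hend i hi
      rw [hu] at hee
      have := emb_inj hee
      have h0 : vec u = 0 := by
        have h := this
        simpa using h.symm
      cases u <;> exact absurd h0 (by decide)

end KN
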