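import Pool.Agent.H246KN.Stubs

set_option autoImplicit false

namespace KN

open Finset Filter Topology
open scoped Classical

namespace ATT

theorem posv {v : List Dir} (h : SAP (.zm :: v)) : pos v = vec .zp := by
  have h1 := h.2.1
  simp only [pos] at h1
  have : pos v = - vec .zm := eq_neg_of_add_eq_zero_left h1
  rw [this]; decide

theorem drop1 (l1 v l2 : List Dir) : (glue l1 v l2).drop (l1.length + 1) = v ++ .xp :: l2 := by
  unfold glue
  rw [show l1.length + 1 = l1.length + 1 from rfl, ← List.drop_drop, List.drop_left]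
  rfl

theorem drop2 (l1 v l2 : List Dir) :
    (glue l1 v l2).drop (l1.length + 1 + v.length) = .xp :: l2 := by
  rw [← List.drop_drop, drop1, List.drop_left]

theorem upA {l1 v l2 : List Dir} (h : GH l1 v l2) :
    (pos l2).1 < (pos ((glue l1 v l2).drop (l1.length + 1))).1 := by
  rw [drop1, pos_append, posv h.2.2.1]
  simp [pos, vec]

theorem upB {l1 v l2 : List Dir} (_h : GH l1 v l2) :
    (pos l2).1 < (pos ((glue l1 v l2).drop (l1.length + 1 + v.length))).1 := by
  rw [drop2]
  simp [pos, vec]

theorem low {l1 v l2 : List Dir} (h : GH l1 v l2) (i : ℕ)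
    (hX : (pos l2).1 < (pos ((glue l1 v l2).drop i)).1) :
    l1.length + 1 ≤ i ∧ i ≤ l1.length + 1 + v.length := by
  constructor
  · by_contra hlt
    have hi : i ≤ l1.length := by omega
    have e1 : (glue l1 v l2).drop i = l1.drop i ++ .xm :: (v ++ .xp :: l2) := by
      unfold glue; rw [List.drop_append_of_le_length hi]
    have e2 : pos ((glue l1 v l2).drop i) = pos ((l1 ++ .zp :: l2).drop i) := by
      rw [e1, List.drop_append_of_le_length hi, pos_append, pos_append]
      congr 1
      simp only [pos, pos_append, posv h.2.2.1]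
      ext <;> simp [vec, add_comm]
    rw [e2] at hX
    have := h.2.1 (pos ((l1 ++ .zp :: l2).drop i))
      ((mem_path_iff _ _).2 ⟨i, by simp; omega, rfl⟩)
    omega
  · by_contra hlt
    obtain ⟨j, rfl⟩ : ∃ j, i = l1.length + 1 + v.length + (j + 1) := ⟨i - (l1.length + 1 + v.length) - 1, by omega⟩
    have e1 : (glue l1 v l2).drop (l1.length + 1 + v.length + (j + 1)) = l2.drop j := by
      rw [← List.drop_drop, drop2]; rfl
    rw [e1] at hX
    have e2 : (l1 ++ .zp :: l2).drop (l1.length + (j + 1)) = l2.drop j := by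
      rw [← List.drop_drop, List.drop_left]; rfl
    by_cases hj : j ≤ l2.length
    · have := h.2.1 (pos ((l1 ++ .zp :: l2).drop (l1.length + (j + 1))))
        ((mem_path_iff _ _).2 ⟨l1.length + (j + 1), by simp; omega, rfl⟩)
      rw [e2] at this
      omega
    · have hd : l2.drop j = [] := List.drop_eq_nil_of_le (by omega)
      have := h.2.1 0 (zero_mem_path _)
      rw [hd] at hX
      simp [pos] at hX this
      omega

theorem glue_inj {l1 v l2 l1' l2' : List Dir} (h : GH l1 v l2) (h' : GH l1' v l2')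
    (e : glue l1 v l2 = glue l1' v l2') : l1 = l1' ∧ l2 = l2' := by
  have key : l1.length = l1'.length := by
    rcases le_total (pos l2).1 (pos l2').1 with hX | hX
    · have a1 := upA h'
      have a2 := upB h'
      rw [← e] at a1 a2
      have b1 := low h _ (lt_of_le_of_lt hX a1)
      have b2 := low h _ (lt_of_le_of_lt hX a2)
      omega
    · have a1 := upA h
      have a2 := upB h
      rw [e] at a1 a2
      have b1 := low h' _ (lt_of_le_of_lt hX a1)
      have b2 := low h' _ (lt_of_le_of_lt hX a2)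
      omega
  unfold glue at e
  obtain ⟨e1, e2⟩ := List.append_inj e key
  refine ⟨e1, ?_⟩
  have e3 := List.cons.inj e2 |>.2
  have e4 := List.append_cancel_left e3
  exact (List.cons.inj e4).2

end ATT

open ATT in
theorem S_attach_proof (hg : S_glueSAP) (hg2 : S_glue2) (hw : S_words) (hsq : S_sq)
    (hR : S_quartR) (hL : S_quartL) : S_attach := by
  intro k hk
  obtain ⟨w0, hs0, hk0⟩ := hk
  have inv1 : ∀ (k : List V) (w : List Dir), SAP w → (KT k w ↔ KT k (w.map rx)) := by
    intro k w h
    have h1 := (hw w h).1.2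
    constructor
    · rintro (h2 | h2)
      · exact Or.inl (h1.symm.trans h2)
      · exact Or.inr (h1.symm.trans h2)
    · rintro (h2 | h2)
      · exact Or.inl (h1.trans h2)
      · exact Or.inr (h1.trans h2)
  have inv2 : ∀ (k : List V) (w : List Dir), SAP w → ∀ j : ℕ, (KT k w ↔ KT k (w.rotate j)) := by
    intro k w h j
    have h1 := ((hw w h).2.2 j).2
    constructor
    · rintro (h2 | h2)
      · exact Or.inl (h1.symm.trans h2)
      · exact Or.inr (h1.symm.trans h2)
    · rintro (h2 | h2)
      · exact Or.inl (h1.trans h2)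
      · exact Or.inr (h1.trans h2)
  -- the fixed right polygon
  have hpos : 0 < a (KT k) w0.length := by
    unfold a
    exact card_pos.2 ⟨w0, mem_K.2 ⟨rfl, hs0, hk0⟩⟩
  have hL' := hL (KT k) (fun w h => inv1 k w h) (fun w h j => inv2 k w h j) w0.length
  have hne : ((K (KT k) w0.length).filter (fun w => ∃ v : List Dir, w = .zm :: v ∧
      ∀ p ∈ path v, 0 ≤ p.1)).Nonempty := by
    rw [← card_pos]
    by_contra h0
    have h00 : ((K (KT k) w0.length).filter (fun w => ∃ v : List Dir, w = .zm :: v ∧
      ∀ p ∈ path v, 0 ≤ p.1)).card = 0 := by omega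
    rw [h00] at hL'
    omega
  obtain ⟨w1, hw1⟩ := hne
  rw [mem_filter] at hw1
  obtain ⟨hw1K, v, rfl, hv⟩ := hw1
  obtain ⟨hlen, hsv, hkv⟩ := mem_K.1 hw1K
  refine ⟨w0.length, fun n => ?_⟩
  have hR' := hR U (fun w h => inv1 sq w h) n
  refine hR'.trans (Nat.mul_le_mul_left 4 ?_)
  -- the map
  set A := (K U n).filter (fun w => ∃ l1 l2 : List Dir, w = l1 ++ .zp :: l2 ∧
    ∀ p ∈ path w, p.1 ≤ (pos l2).1) with hA
  have hdec : ∀ w ∈ A, ∃ q : List Dir × List Dir, w = q.1 ++ .zp :: q.2 ∧ GH q.1 v q.2 ∧
      glue q.1 v q.2 ∈ K (KT k) (n + w0.length) := by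
    intro w hwA
    rw [hA, mem_filter] at hwA
    obtain ⟨hwK, l1, l2, rfl, hle⟩ := hwA
    obtain ⟨hl, hs, hu⟩ := mem_K.1 hwK
    have hGH : GH l1 v l2 := ⟨hs, hle, hsv, hv⟩
    refine ⟨(l1, l2), rfl, hGH, mem_K.2 ⟨?_, hg l1 v l2 hGH, ?_⟩⟩
    · unfold glue
      simp only [List.length_append, List.length_cons] at hl hlen ⊢
      omega
    · have hsame : Same (vl (l1 ++ .zp :: l2)) sq := by
        rcases hu with h | h
        · exact h
        · exact h.trans hsq.2.2.symm
      have h3 := hg2 l1 v l2 hGH hsame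
      rcases hkv with h4 | h4
      · exact Or.inl (h3.trans h4)
      · exact Or.inr (h3.trans h4)
  choose! f hf1 hf2 hf3 using hdec
  unfold a
  refine card_le_card_of_injOn (fun w => glue (f w).1 v (f w).2) (fun w hw => hf3 w hw) ?_
  intro w hwA w' hwA' he
  simp only at he
  have := glue_inj (hf2 w hwA) (hf2 w' hwA') he
  rw [hf1 w hwA, hf1 w' hwA', this.1, this.2]

end KN
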