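import Pool.Agent.H246KN.Stubs

/-! Task BEAD (helper797): insertion of a bead gives a simple polygon. -/

set_option autoImplicit false

namespace KN

open Finset Filter Topology
open scoped Classical

namespace BEAD

theorem lerp_fst (p q : V) (u : ℝ) : (lerp p q u).1 = (1 - u) * p.1 + u * q.1 := rfl
theorem lerp_snd1 (p q : V) (u : ℝ) : (lerp p q u).2.1 = (1 - u) * p.2.1 + u * q.2.1 := rfl
theorem lerp_snd2 (p q : V) (u : ℝ) : (lerp p q u).2.2 = (1 - u) * p.2.2 + u * q.2.2 := rfl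

theorem V_ext {x y : V} (h1 : x.1 = y.1) (h2 : x.2.1 = y.2.1) (h3 : x.2.2 = y.2.2) : x = y :=
  Prod.ext h1 (Prod.ext h2 h3)

theorem Fm_1 (p q u w x : V) :
    (Fm p q u w x).1 = p.1 + x.1 * (q.1 - p.1) + x.2.1 * u.1 + x.2.2 * w.1 := rfl
theorem Fm_2 (p q u w x : V) : (Fm p q u w x).2.1 =
    p.2.1 + x.1 * (q.2.1 - p.2.1) + x.2.1 * u.2.1 + x.2.2 * w.2.1 := rfl
theorem Fm_3 (p q u w x : V) : (Fm p q u w x).2.2 =
    p.2.2 + x.1 * (q.2.2 - p.2.2) + x.2.1 * u.2.2 + x.2.2 * w.2.2 := rfl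

theorem Fm_lerp (p q u w a b : V) (t : ℝ) :
    lerp (Fm p q u w a) (Fm p q u w b) t = Fm p q u w (lerp a b t) := by
  apply V_ext
  · rw [lerp_fst, Fm_1, Fm_1, Fm_1, lerp_fst, lerp_snd1, lerp_snd2]; ring
  · rw [lerp_snd1, Fm_2, Fm_2, Fm_2, lerp_fst, lerp_snd1, lerp_snd2]; ring
  · rw [lerp_snd2, Fm_3, Fm_3, Fm_3, lerp_fst, lerp_snd1, lerp_snd2]; ring

theorem Fm_zero (p q u w : V) : Fm p q u w 0 = p := by
  apply V_ext
  · rw [Fm_1]; simp
  · rw [Fm_2]; simp
  · rw [Fm_3]; simp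

theorem Fm_one (p q u w : V) : Fm p q u w (1, 0, 0) = q := by
  apply V_ext
  · rw [Fm_1]; simp
  · rw [Fm_2]; simp
  · rw [Fm_3]; simp

theorem Fm_inj {p q u w : V} (h : det3 (q - p) u w ≠ 0) {x y : V}
    (hxy : Fm p q u w x = Fm p q u w y) : x = y := by
  have e1 : (Fm p q u w x).1 = (Fm p q u w y).1 := by rw [hxy]
  have e2 : (Fm p q u w x).2.1 = (Fm p q u w y).2.1 := by rw [hxy]
  have e3 : (Fm p q u w x).2.2 = (Fm p q u w y).2.2 := by rw [hxy]
  rw [Fm_1, Fm_1] at e1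
  rw [Fm_2, Fm_2] at e2
  rw [Fm_3, Fm_3] at e3
  have hd : det3 (q - p) u w = (q.1 - p.1) * (u.2.1 * w.2.2 - u.2.2 * w.2.1) -
      (q.2.1 - p.2.1) * (u.1 * w.2.2 - u.2.2 * w.1) +
      (q.2.2 - p.2.2) * (u.1 * w.2.1 - u.2.1 * w.1) := rfl
  have k1 : (x.1 - y.1) * det3 (q - p) u w = 0 := by
    rw [hd]
    linear_combination (u.2.1 * w.2.2 - u.2.2 * w.2.1) * e1 - (u.1 * w.2.2 - u.2.2 * w.1) * e2 +
      (u.1 * w.2.1 - u.2.1 * w.1) * e3
  have k2 : (x.2.1 - y.2.1) * det3 (q - p) u w = 0 := by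
    rw [hd]
    linear_combination (-(q.2.1 - p.2.1) * w.2.2 + (q.2.2 - p.2.2) * w.2.1) * e1 +
      ((q.1 - p.1) * w.2.2 - (q.2.2 - p.2.2) * w.1) * e2 +
      (-(q.1 - p.1) * w.2.1 + (q.2.1 - p.2.1) * w.1) * e3
  have k3 : (x.2.2 - y.2.2) * det3 (q - p) u w = 0 := by
    rw [hd]
    linear_combination ((q.2.1 - p.2.1) * u.2.2 - (q.2.2 - p.2.2) * u.2.1) * e1 +
      (-(q.1 - p.1) * u.2.2 + (q.2.2 - p.2.2) * u.1) * e2 +
      ((q.1 - p.1) * u.2.1 - (q.2.1 - p.2.1) * u.1) * e3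
  apply V_ext
  · exact sub_eq_zero.1 ((mul_eq_zero.1 k1).resolve_right h)
  · exact sub_eq_zero.1 ((mul_eq_zero.1 k2).resolve_right h)
  · exact sub_eq_zero.1 ((mul_eq_zero.1 k3).resolve_right h)

theorem Disj_map {p q u w : V} (h : det3 (q - p) u w ≠ 0) {e e' : V × V} (he : Disj e e') :
    Disj (Fm p q u w e.1, Fm p q u w e.2) (Fm p q u w e'.1, Fm p q u w e'.2) := by
  intro s t hs hs' ht ht' heq
  simp only [Fm_lerp] at heq
  exact he s t hs hs' ht ht' (Fm_inj h heq)

theorem mem_chain {p r : V} {α : List V} {e : V × V} (he : e ∈ chain p (α ++ [r])) :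
    (e.1 = p ∨ e.1 ∈ α) ∧ (e.2 ∈ α ∨ e.2 = r) := by
  induction α generalizing p with
  | nil =>
    simp only [List.nil_append, chain, List.mem_singleton] at he
    subst he
    exact ⟨Or.inl rfl, Or.inr rfl⟩
  | cons a α ih =>
    simp only [List.cons_append, chain, List.mem_cons] at he
    rcases he with rfl | he
    · exact ⟨Or.inl rfl, Or.inl (List.mem_cons_self)⟩
    · obtain ⟨h1, h2⟩ := ih he
      refine ⟨Or.inr ?_, ?_⟩
      · rcases h1 with h1 | h1
        · rw [h1]; exact List.mem_cons_self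
        · exact List.mem_cons_of_mem _ h1
      · rcases h2 with h2 | h2
        · exact Or.inl (List.mem_cons_of_mem _ h2)
        · exact Or.inr h2

theorem cone_lerp {κ : ℝ} (hκ : 0 ≤ κ) {x y : V} (hx : Cone κ x) (hy : Cone κ y) {t : ℝ}
    (h0 : 0 ≤ t) (h1 : t ≤ 1) : Cone κ (lerp x y t) := by
  obtain ⟨a1, a2, a3, a4⟩ := hx
  obtain ⟨b1, b2, b3, b4⟩ := hy
  have ht : 0 ≤ 1 - t := by linarith
  have hm : (1 - t) * min x.1 (1 - x.1) + t * min y.1 (1 - y.1) ≤
      min (lerp x y t).1 (1 - (lerp x y t).1) := by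
    rw [lerp_fst]
    apply le_min
    · have := mul_le_mul_of_nonneg_left (min_le_left x.1 (1 - x.1)) ht
      have := mul_le_mul_of_nonneg_left (min_le_left y.1 (1 - y.1)) h0
      linarith
    · have := mul_le_mul_of_nonneg_left (min_le_right x.1 (1 - x.1)) ht
      have := mul_le_mul_of_nonneg_left (min_le_right y.1 (1 - y.1)) h0
      linarith
  have hm' := mul_le_mul_of_nonneg_left hm hκ
  refine ⟨?_, ?_, ?_, ?_⟩
  · rw [lerp_fst]; positivity
  · rw [lerp_fst]
    have := mul_le_mul_of_nonneg_left a2 ht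
    have := mul_le_mul_of_nonneg_left b2 h0
    linarith
  · rw [lerp_snd1]
    have h2 : |(1 - t) * x.2.1 + t * y.2.1| ≤ (1 - t) * |x.2.1| + t * |y.2.1| := by
      have := abs_add_le ((1 - t) * x.2.1) (t * y.2.1)
      rwa [abs_mul, abs_mul, abs_of_nonneg ht, abs_of_nonneg h0] at this
    have := mul_le_mul_of_nonneg_left a3 ht
    have := mul_le_mul_of_nonneg_left b3 h0
    nlinarith
  · rw [lerp_snd2]
    have h2 : |(1 - t) * x.2.2 + t * y.2.2| ≤ (1 - t) * |x.2.2| + t * |y.2.2| := by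
      have := abs_add_le ((1 - t) * x.2.2) (t * y.2.2)
      rwa [abs_mul, abs_mul, abs_of_nonneg ht, abs_of_nonneg h0] at this
    have := mul_le_mul_of_nonneg_left a4 ht
    have := mul_le_mul_of_nonneg_left b4 h0
    nlinarith

end BEAD

open BEAD in
theorem S_bead_proof : S_bead := by
  intro κ l α u w hl hα hCF hdet
  obtain ⟨hne, hpw, hnd⟩ := hl
  obtain ⟨p, l', rfl⟩ := List.exists_cons_of_ne_nil hne
  rcases List.eq_nil_or_concat' l' with rfl | ⟨l'', q, rfl⟩
  · exact absurd rfl (hnd (p, p) (by simp [edges, chain]))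
  have hlast : (p :: (l'' ++ [q])).getLastD 0 = q := by
    rw [← List.cons_append, List.getLastD_concat]
  have hhead : (p :: (l'' ++ [q])).headD 0 = p := rfl
  -- edges of `l`
  have hE : edges (p :: (l'' ++ [q])) = chain p (l'' ++ [q]) ++ [(q, p)] := by
    simp only [edges]
    rw [List.append_assoc, List.singleton_append, chain_append]
    rfl
  have hE' : edges (insB (p :: (l'' ++ [q])) α u w) = chain p (l'' ++ [q]) ++
      (chain 0 (α ++ [((1, 0, 0) : V)])).map (fun e => (Fm q p u w e.1, Fm q p u w e.2)) := by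
    unfold insB
    rw [hlast, hhead]
    simp only [List.cons_append, edges, List.append_assoc]
    rw [chain_append, ← chain_map, Fm_zero, List.map_append]
    simp only [List.map_cons, List.map_nil, Fm_one, List.nil_append]
  rw [hlast, hhead] at hdet
  rw [hE] at hpw hnd
  have hκ : 0 ≤ κ := by
    obtain ⟨x, hx⟩ := List.exists_mem_of_ne_nil _ hα.ne
    obtain ⟨h1, h2, -, -, h3, -⟩ := hα.cone x hx
    by_contra hcon
    push Not at hcon
    have h4 : 0 < min x.1 (1 - x.1) := lt_min h1 (by linarith)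
    have h5 := abs_nonneg x.2.1
    have h6 := mul_neg_of_neg_of_pos hcon h4
    linarith
  have hc0 : Cone κ (0 : V) := by
    refine ⟨le_rfl, by norm_num, ?_, ?_⟩ <;> simp
  have hc1 : Cone κ ((1, 0, 0) : V) := by
    refine ⟨by norm_num, by norm_num, ?_, ?_⟩ <;> simp
  have hpa := List.pairwise_append.1 hpw
  refine ⟨by simp [insB], ?_, ?_⟩
  · rw [hE', List.pairwise_append]
    refine ⟨hpa.1, ?_, ?_⟩
    · rw [List.pairwise_map]
      exact hα.disj.imp (fun {e e'} h => Disj_map hdet h)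
    · intro e he e' he'
      rw [List.mem_map] at he'
      obtain ⟨f, hf, rfl⟩ := he'
      obtain ⟨m1, m2⟩ := mem_chain hf
      have g1 : Cone κ f.1 ∧ f.1.1 < 1 := by
        rcases m1 with h | h
        · rw [h]; exact ⟨hc0, by norm_num⟩
        · exact ⟨(hα.cone _ h).2.2, (hα.cone _ h).2.1⟩
      have g2 : Cone κ f.2 := by
        rcases m2 with h | h
        · exact (hα.cone _ h).2.2
        · rw [h]; exact hc1
      intro s t hs hs' ht ht' heq
      simp only [Fm_lerp] at heq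
      have hx := cone_lerp hκ g1.1 g2 ht ht'.le
      have hx1 : (lerp f.1 f.2 t).1 < 1 := by
        rw [lerp_fst]
        have := mul_lt_mul_of_pos_left g1.2 (show 0 < 1 - t by linarith)
        have := mul_le_mul_of_nonneg_left g2.2.1 ht
        linarith
      have hcf := hCF _ hx hx1 e he s hs hs'
      rw [hlast, hhead] at hcf
      exact hcf heq.symm
  · intro e he
    rw [hE', List.mem_append] at he
    rcases he with he | he
    · exact hnd e (List.mem_append_left _ he)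
    · rw [List.mem_map] at he
      obtain ⟨f, hf, rfl⟩ := he
      intro h
      exact hα.nd f hf (Fm_inj hdet h)

end KN
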