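import Pool.Agent.H246KN.Stubs

/-!
# An insertion changes the statistics by bounded amounts
-/

set_option autoImplicit false

namespace KN.CHG

open Finset KN
open scoped Classical

theorem card_le {α β : Type*} (S E : Finset α) (T : Finset β) (f : α → β)
    (hf : ∀ x ∈ S, x ∉ E → f x ∈ T)
    (hinj : ∀ x ∈ S, x ∉ E → ∀ y ∈ S, y ∉ E → f x = f y → x = y) :
    S.card ≤ T.card + E.card := by
  have h1 : S.card ≤ (S \ E).card + E.card := by
    have := Finset.card_le_card_sdiff_add_card (s := S) (t := E)
    omega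
  have h2 : (S \ E).card ≤ T.card := by
    apply Finset.card_le_card_of_injOn f
    · intro x hx
      have hx' := Finset.mem_sdiff.1 (Finset.mem_coe.1 hx)
      exact hf x hx'.1 hx'.2
    · intro x hx y hy h
      have hx' := Finset.mem_sdiff.1 (Finset.mem_coe.1 hx)
      have hy' := Finset.mem_sdiff.1 (Finset.mem_coe.1 hy)
      exact hinj x hx'.1 hx'.2 y hy'.1 hy'.2 h
  omega

theorem inj1 (w : List Dir) (hn : (path w).tail.Nodup) (k k' : ℕ) (hk : k < w.length)
    (hk' : k' < w.length) (h : pos (w.drop (k + 1)) = pos (w.drop (k' + 1))) : k = k' := by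
  have hl : (path w).tail.length = w.length := by
    rw [List.length_tail, path_length]; omega
  have e : ∀ m (hm : m < (path w).tail.length), (path w).tail[m] = pos (w.drop (m + 1)) := by
    intro m hm
    rw [List.getElem_tail]
    exact path_getElem w (m + 1) _
  have h1 := e k (by omega)
  have h2 := e k' (by omega)
  exact (hn.getElem_inj_iff (hi := by omega) (hj := by omega)).1 (h1.trans (h.trans h2.symm))

theorem inj0 (w : List Dir) (hn : (path w).tail.Nodup) (h0 : pos w = 0) (k k' : ℕ)
    (hk : k < w.length) (hk' : k' < w.length) (h : pos (w.drop k) = pos (w.drop k')) :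
    k = k' := by
  have hlast : pos (w.drop (w.length - 1 + 1)) = 0 := by
    have : w.length - 1 + 1 = w.length := by omega
    rw [this, List.drop_length]; rfl
  rcases Nat.eq_zero_or_pos k with hz | hp
  · rcases Nat.eq_zero_or_pos k' with hz' | hp'
    · omega
    · exfalso
      subst hz
      rw [List.drop_zero, h0] at h
      obtain ⟨m, rfl⟩ := Nat.exists_eq_add_of_lt hp'
      have := inj1 w hn (w.length - 1) (0 + m) (by omega) (by omega) (by rw [hlast, h])
      omega
  · rcases Nat.eq_zero_or_pos k' with hz' | hp'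
    · exfalso
      subst hz'
      rw [List.drop_zero, h0] at h
      obtain ⟨m, rfl⟩ := Nat.exists_eq_add_of_lt hp
      have := inj1 w hn (w.length - 1) (0 + m) (by omega) (by omega) (by rw [hlast, ← h])
      omega
    · obtain ⟨m, rfl⟩ := Nat.exists_eq_add_of_lt hp
      obtain ⟨m', rfl⟩ := Nat.exists_eq_add_of_lt hp'
      have := inj1 w hn (0 + m) (0 + m') (by omega) (by omega) h
      omega

/-- index map on the old edges -/
def ph (i k : ℕ) : ℕ := if k < i then k else k + 2

section
variable (l1 l2 : List Dir) (d e : Dir)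

theorem getD_old (k : ℕ) (hk : k ≠ l1.length) :
    (l1 ++ neg d :: e :: d :: l2).getD (ph l1.length k) .xp = (l1 ++ e :: l2).getD k .xp := by
  unfold ph
  split
  · rename_i h
    rw [List.getD_append _ _ _ _ h, List.getD_append _ _ _ _ h]
  · rename_i h
    have h' : l1.length ≤ k := by omega
    rw [List.getD_append_right _ _ _ _ h', List.getD_append_right _ _ _ _ (by omega)]
    obtain ⟨m, rfl⟩ := Nat.exists_eq_add_of_lt (lt_of_le_of_ne h' (Ne.symm hk))
    have e1 : l1.length + m + 1 + 2 - l1.length = m + 3 := by omega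
    have e2 : l1.length + m + 1 - l1.length = m + 1 := by omega
    rw [e1, e2]
    simp

theorem pos_old (k : ℕ) (hk : k ≠ l1.length) :
    pos ((l1 ++ neg d :: e :: d :: l2).drop (ph l1.length k + 1)) =
      pos ((l1 ++ e :: l2).drop (k + 1)) := by
  unfold ph
  split
  · rename_i h
    rw [List.drop_append_of_le_length (by omega), List.drop_append_of_le_length (by omega),
      pos_append, pos_append]
    simp only [pos, vec_neg]
    abel
  · rename_i h
    have h' : l1.length < k := by omega
    obtain ⟨m, rfl⟩ := Nat.exists_eq_add_of_lt h'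
    have hd : ∀ (L : List Dir) (s : ℕ), (l1 ++ L).drop (l1.length + s) = L.drop s := by
      intro L s
      rw [List.drop_append]
      simp
    have e1 : l1.length + m + 1 + 2 + 1 = l1.length + (m + 4) := by omega
    have e2 : l1.length + m + 1 + 1 = l1.length + (m + 2) := by omega
    rw [e1, e2, hd, hd]
    simp only [List.drop_succ_cons]

theorem mem_new (p : Z3) : p ∈ path (l1 ++ neg d :: e :: d :: l2) ↔
    p ∈ path (l1 ++ e :: l2) ∨ p = pos l2 + vec d + vec e ∨ p = pos l2 + vec d := by
  have hQ : pos l2 + vec d + vec e + vec (neg d) = pos l2 + vec e := by rw [vec_neg]; abel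
  rw [path_append, path_append]
  simp only [path, pos, hQ, List.mem_append, List.mem_cons]
  tauto

theorem ph_inj (i k k' : ℕ) (hk : k ≠ i) (hk' : k' ≠ i) (h : ph i k = ph i k') : k = k' := by
  unfold ph at h
  split at h <;> split at h <;> omega

theorem ph_ne (i k : ℕ) (hk : k ≠ i) : ph i k ≠ i ∧ ph i k ≠ i + 1 ∧ ph i k ≠ i + 2 := by
  unfold ph
  split <;> omega

/-- the inverse index map -/
def ps (i k : ℕ) : ℕ := if k < i then k else k - 2

theorem ph_ps (i k : ℕ) (h0 : k ≠ i) (h1 : k ≠ i + 1) (h2 : k ≠ i + 2) :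
    ph i (ps i k) = k ∧ ps i k ≠ i := by
  unfold ph ps
  by_cases h : k < i
  · simp only [h, if_true]; exact ⟨trivial, by omega⟩
  · have h3 : ¬ (k - 2 < i) := by omega
    simp only [h, if_false, h3]
    omega

/-! ### free plaquettes -/

theorem card_perp (e : Dir) : ((univ : Finset Dir).filter (fun v => perp v e)).card = 4 := by
  cases e <;> decide

/-- pairs (edge, direction) of `w` with a prescribed first point -/
noncomputable def E1 (w : List Dir) (T : Z3) : Finset (ℕ × Dir) :=
  (range w.length ×ˢ (univ : Finset Dir)).filter (fun q => pos (w.drop (q.1 + 1)) + vec q.2 = T)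

/-- pairs (edge, direction) of `w` with a prescribed second point -/
noncomputable def E2 (w : List Dir) (T : Z3) : Finset (ℕ × Dir) :=
  (range w.length ×ˢ (univ : Finset Dir)).filter (fun q => pos (w.drop q.1) + vec q.2 = T)

theorem card_E1 (w : List Dir) (hn : (path w).tail.Nodup) (T : Z3) : (E1 w T).card ≤ 6 := by
  have : (E1 w T).card ≤ (univ : Finset Dir).card := by
    apply Finset.card_le_card_of_injOn (fun q => q.2)
    · intro q _; simp
    · intro q hq q' hq' h
      have h1 := Finset.mem_coe.1 hq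
      have h2 := Finset.mem_coe.1 hq'
      unfold E1 at h1 h2
      simp only [mem_filter, mem_product, mem_range, mem_univ, and_true] at h1 h2
      simp only at h
      have h3 : pos (w.drop (q.1 + 1)) = pos (w.drop (q'.1 + 1)) := by
        have := h1.2.trans h2.2.symm
        rw [h] at this
        exact add_right_cancel this
      exact Prod.ext (inj1 w hn _ _ h1.1 h2.1 h3) h
  exact this

theorem card_E2 (w : List Dir) (hn : (path w).tail.Nodup) (h0 : pos w = 0) (T : Z3) :
    (E2 w T).card ≤ 6 := by
  have : (E2 w T).card ≤ (univ : Finset Dir).card := by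
    apply Finset.card_le_card_of_injOn (fun q => q.2)
    · intro q _; simp
    · intro q hq q' hq' h
      have h1 := Finset.mem_coe.1 hq
      have h2 := Finset.mem_coe.1 hq'
      unfold E2 at h1 h2
      simp only [mem_filter, mem_product, mem_range, mem_univ, and_true] at h1 h2
      simp only at h
      have h3 : pos (w.drop q.1) = pos (w.drop q'.1) := by
        have := h1.2.trans h2.2.symm
        rw [h] at this
        exact add_right_cancel this
      exact Prod.ext (inj0 w hn h0 _ _ h1.1 h2.1 h3) h
  exact this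

/-- the possible sites on the `k`-th edge -/
noncomputable def E3 (w : List Dir) (k : ℕ) : Finset (ℕ × Dir) :=
  ({k} : Finset ℕ) ×ˢ (univ : Finset Dir).filter (fun v => perp v (w.getD k .xp))

theorem card_E3 (w : List Dir) (k : ℕ) : (E3 w k).card = 4 := by
  unfold E3
  rw [Finset.card_product, card_perp]; simp

theorem mem_E3 {w : List Dir} {k : ℕ} {v : Dir} (h : site w k v) : (k, v) ∈ E3 w k := by
  unfold E3
  simp only [mem_product, mem_singleton, mem_filter, mem_univ, true_and]
  exact h.2.1

theorem lt_new {k : ℕ} (hk : k < (l1 ++ e :: l2).length) (hk' : k ≠ l1.length) :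
    ph l1.length k < (l1 ++ neg d :: e :: d :: l2).length := by
  unfold ph
  simp only [List.length_append, List.length_cons] at hk ⊢
  split <;> omega

theorem lt_old {k : ℕ} (hk : k < (l1 ++ neg d :: e :: d :: l2).length) (h0 : k ≠ l1.length)
    (h1 : k ≠ l1.length + 1) (h2 : k ≠ l1.length + 2) :
    ps l1.length k < (l1 ++ e :: l2).length := by
  unfold ps
  simp only [List.length_append, List.length_cons] at hk ⊢
  split <;> omega

theorem fr_down (hw : SAP (l1 ++ e :: l2)) :
    fr (l1 ++ e :: l2) ≤ fr (l1 ++ neg d :: e :: d :: l2) + 28 := by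
  obtain ⟨-, h0, hn⟩ := hw
  set w := l1 ++ e :: l2 with hwdef
  set A := pos l2 + vec d + vec e with hA
  set B := pos l2 + vec d with hB
  have hc := card_le (sites w) (E3 w l1.length ∪ (E1 w A ∪ (E1 w B ∪ (E2 w A ∪ E2 w B))))
    (sites (l1 ++ neg d :: e :: d :: l2)) (fun q => (ph l1.length q.1, q.2)) ?_ ?_
  · have h1 := Finset.card_union_le (E3 w l1.length) (E1 w A ∪ (E1 w B ∪ (E2 w A ∪ E2 w B)))
    have h2 := Finset.card_union_le (E1 w A) (E1 w B ∪ (E2 w A ∪ E2 w B))
    have h3 := Finset.card_union_le (E1 w B) (E2 w A ∪ E2 w B)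
    have h4 := Finset.card_union_le (E2 w A) (E2 w B)
    have h5 := card_E3 w l1.length
    have h6 := card_E1 w hn A
    have h7 := card_E1 w hn B
    have h8 := card_E2 w hn h0 A
    have h9 := card_E2 w hn h0 B
    unfold fr
    omega
  · rintro ⟨k, v⟩ hq hqE
    rw [mem_sites] at hq
    simp only [Finset.mem_union, not_or] at hqE
    obtain ⟨hE3, hE1A, hE1B, hE2A, hE2B⟩ := hqE
    have hki : k ≠ l1.length := by
      rintro rfl
      exact hE3 (mem_E3 hq)
    obtain ⟨q1, q2, q3, q4⟩ := hq
    rw [mem_sites]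
    refine ⟨lt_new l1 l2 d e q1 hki, ?_, ?_, ?_⟩
    · show perp v ((l1 ++ neg d :: e :: d :: l2).getD (ph l1.length k) .xp)
      rw [getD_old l1 l2 d e k hki]; exact q2
    · show pos ((l1 ++ neg d :: e :: d :: l2).drop (ph l1.length k + 1)) + vec v ∉ _
      rw [pos_old l1 l2 d e k hki, mem_new]
      rintro (h | h | h)
      · exact q3 h
      · apply hE1A
        unfold E1
        simp only [mem_filter, mem_product, mem_range, mem_univ, and_true]
        exact ⟨q1, h⟩
      · apply hE1B
        unfold E1
        simp only [mem_filter, mem_product, mem_range, mem_univ, and_true]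
        exact ⟨q1, h⟩
    · show pos ((l1 ++ neg d :: e :: d :: l2).drop (ph l1.length k + 1)) + vec v +
        vec ((l1 ++ neg d :: e :: d :: l2).getD (ph l1.length k) .xp) ∉ _
      rw [pos_old l1 l2 d e k hki, getD_old l1 l2 d e k hki, mem_new]
      have hpd : pos (w.drop k) + vec v = pos (w.drop (k + 1)) + vec v + vec (w.getD k .xp) := by
        rw [pos_drop w k q1]; abel
      rintro (h | h | h)
      · exact q4 h
      · apply hE2A
        unfold E2
        simp only [mem_filter, mem_product, mem_range, mem_univ, and_true]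
        exact ⟨q1, hpd.trans h⟩
      · apply hE2B
        unfold E2
        simp only [mem_filter, mem_product, mem_range, mem_univ, and_true]
        exact ⟨q1, hpd.trans h⟩
  · rintro ⟨k, v⟩ hq hqE ⟨k', v'⟩ hq' hqE' h
    rw [mem_sites] at hq hq'
    simp only [Finset.mem_union, not_or] at hqE hqE'
    have hki : k ≠ l1.length := by
      rintro rfl
      exact hqE.1 (mem_E3 hq)
    have hki' : k' ≠ l1.length := by
      rintro rfl
      exact hqE'.1 (mem_E3 hq')
    simp only [Prod.mk.injEq] at h
    exact Prod.ext (ph_inj _ _ _ hki hki' h.1) h.2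

theorem fr_up : fr (l1 ++ neg d :: e :: d :: l2) ≤ fr (l1 ++ e :: l2) + 12 := by
  set w' := l1 ++ neg d :: e :: d :: l2 with hwdef
  have hc := card_le (sites w') (E3 w' l1.length ∪ (E3 w' (l1.length + 1) ∪ E3 w' (l1.length + 2)))
    (sites (l1 ++ e :: l2)) (fun q => (ps l1.length q.1, q.2)) ?_ ?_
  · have h1 := Finset.card_union_le (E3 w' l1.length) (E3 w' (l1.length + 1) ∪ E3 w' (l1.length + 2))
    have h2 := Finset.card_union_le (E3 w' (l1.length + 1)) (E3 w' (l1.length + 2))
    have h5 := card_E3 w' l1.length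
    have h6 := card_E3 w' (l1.length + 1)
    have h7 := card_E3 w' (l1.length + 2)
    unfold fr
    omega
  · rintro ⟨k, v⟩ hq hqE
    rw [mem_sites] at hq
    simp only [Finset.mem_union, not_or] at hqE
    have k0 : k ≠ l1.length := by rintro rfl; exact hqE.1 (mem_E3 hq)
    have k1 : k ≠ l1.length + 1 := by rintro rfl; exact hqE.2.1 (mem_E3 hq)
    have k2 : k ≠ l1.length + 2 := by rintro rfl; exact hqE.2.2 (mem_E3 hq)
    obtain ⟨m1, m2⟩ := ph_ps l1.length k k0 k1 k2
    obtain ⟨q1, q2, q3, q4⟩ := hq
    rw [mem_sites]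
    have g := getD_old l1 l2 d e (ps l1.length k) m2
    have p := pos_old l1 l2 d e (ps l1.length k) m2
    rw [m1] at g p
    refine ⟨lt_old l1 l2 d e q1 k0 k1 k2, ?_, ?_, ?_⟩
    · show perp v ((l1 ++ e :: l2).getD (ps l1.length k) .xp)
      rw [← g]; exact q2
    · show pos ((l1 ++ e :: l2).drop (ps l1.length k + 1)) + vec v ∉ _
      rw [← p]
      intro h
      exact q3 ((mem_new l1 l2 d e _).2 (Or.inl h))
    · show pos ((l1 ++ e :: l2).drop (ps l1.length k + 1)) + vec v +
        vec ((l1 ++ e :: l2).getD (ps l1.length k) .xp) ∉ _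
      rw [← p, ← g]
      intro h
      exact q4 ((mem_new l1 l2 d e _).2 (Or.inl h))
  · rintro ⟨k, v⟩ hq hqE ⟨k', v'⟩ hq' hqE' h
    rw [mem_sites] at hq hq'
    simp only [Finset.mem_union, not_or] at hqE hqE'
    have k0 : k ≠ l1.length := by rintro rfl; exact hqE.1 (mem_E3 hq)
    have k1 : k ≠ l1.length + 1 := by rintro rfl; exact hqE.2.1 (mem_E3 hq)
    have k2 : k ≠ l1.length + 2 := by rintro rfl; exact hqE.2.2 (mem_E3 hq)
    have k0' : k' ≠ l1.length := by rintro rfl; exact hqE'.1 (mem_E3 hq')
    have k1' : k' ≠ l1.length + 1 := by rintro rfl; exact hqE'.2.1 (mem_E3 hq')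
    have k2' : k' ≠ l1.length + 2 := by rintro rfl; exact hqE'.2.2 (mem_E3 hq')
    simp only [Prod.mk.injEq] at h
    have a1 := (ph_ps l1.length k k0 k1 k2).1
    have a2 := (ph_ps l1.length k' k0' k1' k2').1
    exact Prod.ext (by rw [← a1, ← a2, h.1]) h.2

/-! ### bumps -/

theorem ph_add (i j : ℕ) (h : j + 2 < i ∨ i < j) :
    ph i (j + 1) = ph i j + 1 ∧ ph i (j + 2) = ph i j + 2 := by
  unfold ph
  rcases h with h | h
  · rw [if_pos (by omega), if_pos (by omega), if_pos (by omega)]; omega
  · rw [if_neg (by omega), if_neg (by omega), if_neg (by omega)]; omega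

theorem bump_iff (j : ℕ) (h : j + 2 < l1.length ∨ l1.length < j) :
    bump (l1 ++ neg d :: e :: d :: l2) (ph l1.length j) ↔ bump (l1 ++ e :: l2) j := by
  obtain ⟨a1, a2⟩ := ph_add l1.length j h
  have g0 := getD_old l1 l2 d e j (by omega)
  have g1 := getD_old l1 l2 d e (j + 1) (by omega)
  have g2 := getD_old l1 l2 d e (j + 2) (by omega)
  rw [a1] at g1
  rw [a2] at g2
  unfold bump
  rw [g0, g1, g2]
  have : ph l1.length j + 2 < (l1 ++ neg d :: e :: d :: l2).length ↔
      j + 2 < (l1 ++ e :: l2).length := by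
    unfold ph
    simp only [List.length_append, List.length_cons]
    split <;> omega
  rw [this]

theorem bu_up : bu (l1 ++ neg d :: e :: d :: l2) ≤ bu (l1 ++ e :: l2) + 5 := by
  set i := l1.length with hi
  have hex : ∀ j, j ∉ Finset.Icc (i - 2) (i + 2) → ph i (ps i j) = j ∧
      (ps i j + 2 < i ∨ i < ps i j) := by
    intro j hj
    rw [Finset.mem_Icc] at hj
    have h1 := ph_ps i j (by omega) (by omega) (by omega)
    refine ⟨h1.1, ?_⟩
    unfold ps
    split <;> omega
  have hc := card_le (bumps (l1 ++ neg d :: e :: d :: l2)) (Finset.Icc (i - 2) (i + 2))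
    (bumps (l1 ++ e :: l2)) (ps i) ?_ ?_
  · have h1 : (Finset.Icc (i - 2) (i + 2)).card ≤ 5 := by rw [Nat.card_Icc]; omega
    unfold bu
    omega
  · intro j hj hjE
    obtain ⟨a, b⟩ := hex j hjE
    rw [mem_bumps] at hj ⊢
    rw [← bump_iff l1 l2 d e _ b, ← hi, a]
    exact hj
  · intro j _ hjE j' _ hjE' h
    rw [← (hex j hjE).1, ← (hex j' hjE').1, h]

theorem bu_down : bu (l1 ++ e :: l2) ≤ bu (l1 ++ neg d :: e :: d :: l2) + 3 := by
  set i := l1.length with hi
  have hex : ∀ j, j ∉ Finset.Icc (i - 2) i → (j + 2 < i ∨ i < j) := by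
    intro j hj
    rw [Finset.mem_Icc] at hj
    omega
  have hc := card_le (bumps (l1 ++ e :: l2)) (Finset.Icc (i - 2) i)
    (bumps (l1 ++ neg d :: e :: d :: l2)) (ph i) ?_ ?_
  · have h1 : (Finset.Icc (i - 2) i).card ≤ 3 := by rw [Nat.card_Icc]; omega
    unfold bu
    omega
  · intro j hj hjE
    rw [mem_bumps] at hj ⊢
    rw [hi, bump_iff l1 l2 d e _ (hex j hjE)]
    exact hj
  · intro j _ hjE j' _ hjE' h
    have h1 := hex j hjE
    have h2 := hex j' hjE'
    exact ph_inj i j j' (by omega) (by omega) h

end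

end KN.CHG

namespace KN

theorem S_change_proof : S_change := by
  intro w i d hw hs
  have hi := hs.1
  have hw1 : w = w.take i ++ w.getD i .xp :: w.drop (i + 1) := by
    conv_lhs => rw [← List.take_append_drop i w, drop_eq_getD_cons w i hi]
  have hlen : (w.take i).length = i := by rw [List.length_take]; omega
  have hins : ins w i d = w.take i ++ neg d :: w.getD i .xp :: d :: w.drop (i + 1) := by
    unfold ins; simp
  have c1 := CHG.fr_down (w.take i) (w.drop (i + 1)) d (w.getD i .xp) (hw1 ▸ hw)
  have c2 := CHG.fr_up (w.take i) (w.drop (i + 1)) d (w.getD i .xp)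
  have c3 := CHG.bu_up (w.take i) (w.drop (i + 1)) d (w.getD i .xp)
  have c4 := CHG.bu_down (w.take i) (w.drop (i + 1)) d (w.getD i .xp)
  rw [← hins, ← hw1] at c1 c2 c3 c4
  exact ⟨c1, c2, c3, c4⟩

end KN
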