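import Pool.Agent.H246KN.Stubs

set_option autoImplicit false

namespace KN

open Finset Filter Topology
open scoped Classical

theorem S_class_proof (hp : S_pattern) (hc : S_convex) (hk : S_kesten) : S_class := by
  intro Q hQ μ hμ1 hμ2 hup ε hε
  have hμ0 : 0 < μ := by linarith
  obtain ⟨θ, C, hθ0, hθ1, hbad⟩ := hp Q hQ μ hμ1 hμ2 hup
  obtain ⟨D, hD0, hD⟩ := hc Q hQ μ θ ((1 + θ) / 2) C hμ0 hθ0 (by linarith) hbad
  have hupper : ∀ τ : ℝ, 0 < τ → ∀ᶠ k : ℕ in atTop,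
      (fun k : ℕ => (a Q (2 * k) : ℝ)) k ≤ ((1 + τ) * μ) ^ (2 * k) := by
    intro τ hτ
    obtain ⟨C', hC'⟩ := hup (τ / 2) (by linarith)
    have hq : 1 < (1 + τ) / (1 + τ / 2) := by
      rw [one_lt_div (by linarith)]; linarith
    have h1 : Tendsto (fun k : ℕ => ((1 + τ) / (1 + τ / 2)) ^ (2 * k)) atTop atTop :=
      (tendsto_pow_atTop_atTop_of_one_lt hq).comp
        (tendsto_id.const_mul_atTop' (by norm_num : 0 < 2))
    filter_upwards [h1.eventually_ge_atTop C'] with k hk'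
    refine (hC' (2 * k)).trans ?_
    have h2 : 0 < ((1 + τ / 2) * μ) ^ (2 * k) := by positivity
    calc C' * ((1 + τ / 2) * μ) ^ (2 * k) ≤
        ((1 + τ) / (1 + τ / 2)) ^ (2 * k) * ((1 + τ / 2) * μ) ^ (2 * k) :=
          mul_le_mul_of_nonneg_right hk' h2.le
      _ = ((1 + τ) * μ) ^ (2 * k) := by
          rw [← mul_pow]
          congr 1
          field_simp
  exact hk (fun k => (a Q (2 * k) : ℝ)) μ D ((1 + θ) / 2) hμ0 hD0 (by linarith) (by linarith)
    (fun k => Nat.cast_nonneg _) hupper hD ε hε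

end KN
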