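import Pool.Agent.H246KN.Stubs

set_option autoImplicit false

namespace KN

open Finset Filter Topology
open scoped Classical

namespace CONE

theorem chain_getElem (p : V) (l : List V) (i : ℕ) (h : i < (chain p l).length) :
    (chain p l)[i] = ((p :: l).getD i 0, l.getD i 0) := by
  induction l generalizing p i with
  | nil => simp [chain] at h
  | cons q l ih =>
    cases i with
    | zero => simp [chain]
    | succ i =>
      simp only [chain, List.getElem_cons_succ, List.getD_cons_succ]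
      rw [ih q i (by simpa [chain] using h)]

theorem edges_ofFn (n : ℕ) (g : Fin (n + 1) → V) :
    edges (List.ofFn g) = List.ofFn (fun i => (g i, g (i + 1))) := by
  have key : edges (List.ofFn g) =
      chain (g 0) (List.ofFn (fun j : Fin n => g j.succ) ++ [g 0]) := by
    rw [List.ofFn_succ]; rfl
  rw [key]
  apply List.ext_getElem
  · rw [chain_length]; simp
  · intro i h1 h2
    have hi : i < n + 1 := by simpa using h2
    rw [List.getElem_ofFn, chain_getElem]
    congr 1
    · cases i with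
      | zero => simp
      | succ j =>
        have hj : j < n := by omega
        rw [List.getD_cons_succ, List.getD_append _ _ _ _ (by simpa using hj),
          List.getD_eq_getElem _ _ (by simpa using hj), List.getElem_ofFn]
        rfl
    · by_cases hin : i < n
      · rw [List.getD_append _ _ _ _ (by simpa using hin),
          List.getD_eq_getElem _ _ (by simpa using hin), List.getElem_ofFn]
        congr 1
        apply Fin.ext
        rw [Fin.val_add_one_of_lt (by rw [Fin.lt_def]; simpa using hin)]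
        rfl
      · have : i = n := by omega
        subst this
        rw [List.getD_append_right _ _ _ _ (by simp)]
        simp only [List.length_ofFn, Nat.sub_self, List.getD_cons_zero]
        congr 1
        symm
        exact Fin.last_add_one i

theorem facts (n : ℕ) (g : Fin (n + 1) → V) (h : Simple (List.ofFn g)) :
    (∀ i j, i ≠ j → Disj (g i, g (i + 1)) (g j, g (j + 1))) ∧ ∀ i, g i ≠ g (i + 1) := by
  obtain ⟨-, h1, h2⟩ := h
  rw [edges_ofFn] at h1 h2
  rw [List.pairwise_ofFn] at h1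
  constructor
  · intro i j hij
    rcases lt_or_gt_of_ne hij with h | h
    · exact h1 h
    · exact (h1 h).symm
  · intro i
    exact h2 (g i, g (i + 1)) (by rw [List.mem_ofFn]; exact ⟨i, rfl⟩)

theorem mem_oe (n : ℕ) (g : Fin (n + 1) → V) (e : V × V) (he : e ∈ oe (List.ofFn g)) :
    ∃ i : Fin (n + 1), i ≠ Fin.last n ∧ e = (g i, g (i + 1)) := by
  have key : oe (List.ofFn g) = chain (g 0) (List.ofFn (fun j : Fin n => g j.succ)) := by
    rw [List.ofFn_succ]; rfl
  rw [key] at he
  obtain ⟨i, hi, rfl⟩ := List.getElem_of_mem he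
  have hi' : i < n := by rw [chain_length] at hi; simpa using hi
  refine ⟨⟨i, by omega⟩, ?_, ?_⟩
  · intro h
    have := congrArg Fin.val h
    simp at this
    omega
  · rw [chain_getElem]
    congr 1
    · cases i with
      | zero => simp
      | succ j =>
        have hj : j < n := by omega
        rw [List.getD_cons_succ, List.getD_eq_getElem _ _ (by simpa using hj),
          List.getElem_ofFn]
        rfl
    · rw [List.getD_eq_getElem _ _ (by simpa using hi'), List.getElem_ofFn]
      congr 1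
      apply Fin.ext
      rw [Fin.val_add_one_of_lt (by rw [Fin.lt_def]; simpa using hi')]
      rfl

theorem sep (A B u w : ℝ → V) (hA : Continuous A) (hB : Continuous B) (hu : Continuous u)
    (hw : Continuous w) (t0 κ : ℝ) (hκ0 : 0 ≤ κ)
    (hAB : ∀ σ : ℝ, 0 ≤ σ → σ ≤ 1 → σ • A t0 ≠ (1 - σ) • B t0) :
    ∀ᶠ z : ℝ × ℝ in 𝓝 (0, t0), ∀ s r y y' : ℝ, 0 ≤ s → 0 ≤ r → 0 < s + r → |y| ≤ κ * s →
      |y'| ≤ κ * s → s • A z.2 + z.1 • (y • u z.2 + y' • w z.2) ≠ r • B z.2 := by
  have hK : IsCompact (Set.Icc (0 : ℝ) 1 ×ˢ (Set.Icc (-κ) κ ×ˢ Set.Icc (-κ) κ)) :=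
    isCompact_Icc.prod (isCompact_Icc.prod isCompact_Icc)
  have h := hK.eventually_forall_of_forall_eventually (x₀ := ((0 : ℝ), t0))
    (P := fun z q => q.1 • (A z.2 + z.1 • (q.2.1 • u z.2 + q.2.2 • w z.2)) ≠ (1 - q.1) • B z.2) ?_
  · filter_upwards [h] with z hz s r y y' hs hr hsr hy hy' heq
    have hsr' : s + r ≠ 0 := hsr.ne'
    rcases hs.eq_or_lt with hs0 | hs0
    · subst hs0
      have y0 : y = 0 := by simpa using hy
      have y0' : y' = 0 := by simpa using hy'
      subst y0 y0'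
      have hκ : (0 : ℝ) ∈ Set.Icc (-κ) κ := ⟨by linarith, hκ0⟩
      have hr0 : 0 < r := by linarith
      have hB0 : B z.2 = 0 := by
        have : r • B z.2 = 0 := by rw [← heq]; simp
        rcases smul_eq_zero.1 this with h | h
        · exact absurd h hr0.ne'
        · exact h
      refine hz (0, 0, 0) ⟨⟨le_rfl, zero_le_one⟩, hκ, hκ⟩ ?_
      simp [hB0]
    · have hsne := hs0.ne'
      refine hz (s / (s + r), y / s, y' / s)
        ⟨⟨by positivity, by rw [div_le_one hsr]; linarith⟩, ?_, ?_⟩ ?_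
      · rw [Set.mem_Icc, ← abs_le, abs_div, abs_of_pos hs0, div_le_iff₀ hs0]; exact hy
      · rw [Set.mem_Icc, ← abs_le, abs_div, abs_of_pos hs0, div_le_iff₀ hs0]; exact hy'
      · have e1 : (s / (s + r)) • (A z.2 + z.1 • ((y / s) • u z.2 + (y' / s) • w z.2)) =
            (1 / (s + r)) • (s • A z.2 + z.1 • (y • u z.2 + y' • w z.2)) := by
          match_scalars <;> field_simp
        have e2 : (1 - s / (s + r)) • B z.2 = (1 / (s + r)) • (r • B z.2) := by
          match_scalars
          field_simp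
          ring
        show (s / (s + r)) • (A z.2 + z.1 • ((y / s) • u z.2 + (y' / s) • w z.2)) =
          (1 - s / (s + r)) • B z.2
        rw [e1, e2, heq]
  · intro q hq
    have hopen : IsOpen {z : (ℝ × ℝ) × (ℝ × ℝ × ℝ) |
        z.2.1 • (A z.1.2 + z.1.1 • (z.2.2.1 • u z.1.2 + z.2.2.2 • w z.1.2)) ≠
          (1 - z.2.1) • B z.1.2} := by
      apply isOpen_ne_fun
      · fun_prop
      · fun_prop
    refine hopen.mem_nhds ?_
    show q.1 • (A t0 + (0 : ℝ) • (q.2.1 • u t0 + q.2.2 • w t0)) ≠ (1 - q.1) • B t0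
    rw [zero_smul, add_zero]
    exact hAB q.1 hq.1.1 hq.1.2

theorem compact_cone (κ : ℝ) (hκ : 0 ≤ κ) : IsCompact {x : V | Cone κ x} := by
  have hK : IsCompact (Set.Icc (0 : ℝ) 1 ×ˢ (Set.Icc (-κ) κ ×ˢ Set.Icc (-κ) κ)) :=
    isCompact_Icc.prod (isCompact_Icc.prod isCompact_Icc)
  refine hK.of_isClosed_subset ?_ ?_
  · have h1 : IsClosed {x : V | 0 ≤ x.1} := isClosed_le (by fun_prop) (by fun_prop)
    have h2 : IsClosed {x : V | x.1 ≤ 1} := isClosed_le (by fun_prop) (by fun_prop)
    have h3 : IsClosed {x : V | |x.2.1| ≤ κ * min x.1 (1 - x.1)} :=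
      isClosed_le (by fun_prop) (by fun_prop)
    have h4 : IsClosed {x : V | |x.2.2| ≤ κ * min x.1 (1 - x.1)} :=
      isClosed_le (by fun_prop) (by fun_prop)
    exact h1.inter (h2.inter (h3.inter h4))
  · rintro x ⟨h1, h2, h3, h4⟩
    have h5 : κ * min x.1 (1 - x.1) ≤ κ := by
      have : min x.1 (1 - x.1) ≤ 1 := (min_le_left _ _).trans h2
      nlinarith
    refine ⟨⟨h1, h2⟩, ?_, ?_⟩
    · rw [Set.mem_Icc, ← abs_le]; exact h3.trans h5
    · rw [Set.mem_Icc, ← abs_le]; exact h4.trans h5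

theorem key (n : ℕ) (γ : ℝ → Fin (n + 1) → V) (u w : ℝ → V) (κ : ℝ) (hκ : 0 ≤ κ)
    (hγ : ∀ i, Continuous (fun t => γ t i)) (hu : Continuous u) (hw : Continuous w)
    (hs : ∀ t : ℝ, 0 ≤ t → t ≤ 1 → Simple (List.ofFn (γ t))) (i : Fin (n + 1))
    (hi : i ≠ Fin.last n) :
    ∀ᶠ δ : ℝ in 𝓝 0, ∀ p ∈ (Set.Icc (0 : ℝ) 1 ×ˢ ({x : V | Cone κ x} ×ˢ Set.Icc (0 : ℝ) 1)),
      0 < δ → p.2.1.1 < 1 → p.2.2 < 1 →
        Fm (γ p.1 (Fin.last n)) (γ p.1 0) (δ • u p.1) (δ • w p.1) p.2.1 ≠
          lerp (γ p.1 i) (γ p.1 (i + 1)) p.2.2 := by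
  have hK : IsCompact (Set.Icc (0 : ℝ) 1 ×ˢ ({x : V | Cone κ x} ×ˢ Set.Icc (0 : ℝ) 1)) :=
    isCompact_Icc.prod ((compact_cone κ hκ).prod isCompact_Icc)
  have hmain := hK.eventually_forall_of_forall_eventually (x₀ := (0 : ℝ))
    (P := fun (δ : ℝ) (p : ℝ × V × ℝ) => Cone κ p.2.1 → 0 ≤ p.2.2 → 0 < δ → p.2.1.1 < 1 →
      p.2.2 < 1 →
        Fm (γ p.1 (Fin.last n)) (γ p.1 0) (δ • u p.1) (δ • w p.1) p.2.1 ≠
          lerp (γ p.1 i) (γ p.1 (i + 1)) p.2.2) ?_
  · filter_upwards [hmain] with δ hδ p hp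
    exact hδ p hp hp.2.1 hp.2.2.1
  rintro ⟨t0, x0, r0⟩ ⟨⟨ht0, ht1⟩, hx0, hr0, hr1⟩
  dsimp only at ht0 ht1 hx0 hr0 hr1
  have gL := hγ (Fin.last n)
  have g0 := hγ 0
  have gi := hγ i
  have gi1 := hγ (i + 1)
  obtain ⟨hdis, hnd⟩ := facts n (γ t0) (hs t0 ht0 ht1)
  have hL1 : Fin.last n + 1 = 0 := Fin.last_add_one n
  have hclose : ∀ j, j ≠ Fin.last n → Disj (γ t0 (Fin.last n), γ t0 0) (γ t0 j, γ t0 (j + 1)) := by
    intro j hj
    have := hdis (Fin.last n) j hj.symm
    rwa [hL1] at this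
  have hndL : γ t0 (Fin.last n) ≠ γ t0 0 := by
    have := hnd (Fin.last n)
    rwa [hL1] at this
  by_cases hy : Fm (γ t0 (Fin.last n)) (γ t0 0) ((0 : ℝ) • u t0) ((0 : ℝ) • w t0) x0 =
      lerp (γ t0 i) (γ t0 (i + 1)) r0
  · have hy' : lerp (γ t0 (Fin.last n)) (γ t0 0) x0.1 = lerp (γ t0 i) (γ t0 (i + 1)) r0 := by
      rw [← hy]
      simp only [Fm, lerp, zero_smul, smul_zero, add_zero]
      module
    obtain ⟨hx00, hx01, hx02, hx03⟩ := hx0
    have hi1 : i + 1 ≠ 0 := by
      intro h
      rw [← hL1] at h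
      exact hi (add_right_cancel h)
    rcases hx01.eq_or_lt with hx1 | hx1
    · rw [hx1, lerp_one] at hy'
      rcases hr1.eq_or_lt with hr | hr
      · exfalso
        rw [hr, lerp_one] at hy'
        refine hdis 0 (i + 1) hi1.symm 0 0 le_rfl zero_lt_one le_rfl zero_lt_one ?_
        simpa only [lerp_zero] using hy'
      · by_cases hi0 : i = 0
        · subst hi0
          rw [zero_add] at gi1 hi1 ⊢
          -- case A
          have hAB : ∀ σ : ℝ, 0 ≤ σ → σ ≤ 1 →
              σ • (γ t0 (Fin.last n) - γ t0 0) ≠ (1 - σ) • (γ t0 1 - γ t0 0) := by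
            intro σ hσ0 hσ1 h
            rcases hσ0.eq_or_lt with hσ | hσ
            · subst hσ
              rw [zero_smul, sub_zero, one_smul] at h
              have := hnd 0
              rw [zero_add] at this
              exact this (sub_eq_zero.1 h.symm).symm
            · have hd := hclose 0 hi
              rw [zero_add] at hd
              refine hd (1 - σ) (1 - σ) (by linarith) (by linarith) (by linarith) (by linarith) ?_
              show (1 - (1 - σ)) • γ t0 (Fin.last n) + (1 - σ) • γ t0 0 =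
                (1 - (1 - σ)) • γ t0 0 + (1 - σ) • γ t0 1
              have e1 : (1 - (1 - σ)) • γ t0 (Fin.last n) + (1 - σ) • γ t0 0 =
                γ t0 0 + σ • (γ t0 (Fin.last n) - γ t0 0) := by module
              have e2 : (1 - (1 - σ)) • γ t0 0 + (1 - σ) • γ t0 1 =
                γ t0 0 + (1 - σ) • (γ t0 1 - γ t0 0) := by module
              rw [e1, e2, h]
          have hsep := sep (fun t => γ t (Fin.last n) - γ t 0) (fun t => γ t 1 - γ t 0) u w
            (gL.sub g0) (gi1.sub g0) hu hw t0 κ hκ hAB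
          have hproj : Tendsto (fun z : ℝ × (ℝ × V × ℝ) => (z.1, z.2.1))
              (𝓝 (0, (t0, x0, r0))) (𝓝 (0, t0)) := by
            have : Continuous (fun z : ℝ × (ℝ × V × ℝ) => (z.1, z.2.1)) := by fun_prop
            exact this.tendsto _
          have hev := hproj.eventually hsep
          filter_upwards [hev] with z hz hcone hr _ hx1 _ heq
          obtain ⟨hc0, hc1, hc2, hc3⟩ := hcone
          have hs1 : 0 < 1 - z.2.2.1.1 := by linarith
          have hm : κ * min z.2.2.1.1 (1 - z.2.2.1.1) ≤ κ * (1 - z.2.2.1.1) :=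
            mul_le_mul_of_nonneg_left (min_le_right _ _) hκ
          refine hz (1 - z.2.2.1.1) z.2.2.2 z.2.2.1.2.1 z.2.2.1.2.2 hs1.le hr (by linarith)
            (hc2.trans hm) (hc3.trans hm) ?_
          have e1 : (1 - z.2.2.1.1) • (γ z.2.1 (Fin.last n) - γ z.2.1 0) +
              z.1 • (z.2.2.1.2.1 • u z.2.1 + z.2.2.1.2.2 • w z.2.1) =
              Fm (γ z.2.1 (Fin.last n)) (γ z.2.1 0) (z.1 • u z.2.1) (z.1 • w z.2.1) z.2.2.1 -
                γ z.2.1 0 := by
            unfold Fm
            module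
          have e2 : z.2.2.2 • (γ z.2.1 1 - γ z.2.1 0) =
              lerp (γ z.2.1 0) (γ z.2.1 1) z.2.2.2 - γ z.2.1 0 := by
            unfold lerp
            module
          show (1 - z.2.2.1.1) • (γ z.2.1 (Fin.last n) - γ z.2.1 0) +
              z.1 • (z.2.2.1.2.1 • u z.2.1 + z.2.2.1.2.2 • w z.2.1) =
              z.2.2.2 • (γ z.2.1 1 - γ z.2.1 0)
          rw [e1, e2, heq]
        · exfalso
          refine hdis 0 i (Ne.symm hi0) 0 r0 le_rfl zero_lt_one hr0 hr ?_
          simpa only [lerp_zero] using hy'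
    · rcases hr1.eq_or_lt with hr | hr
      · rw [hr, lerp_one] at hy'
        by_cases hiL : i + 1 = Fin.last n
        · -- case B
          rw [hiL] at gi1 hi1 hy' ⊢
          have hx10 : x0.1 = 0 := by
            by_contra hne
            have hpos : 0 < x0.1 := lt_of_le_of_ne hx00 (Ne.symm hne)
            apply hndL
            have e1 : x0.1 • (γ t0 0 - γ t0 (Fin.last n)) = 0 := by
              have : lerp (γ t0 (Fin.last n)) (γ t0 0) x0.1 =
                γ t0 (Fin.last n) + x0.1 • (γ t0 0 - γ t0 (Fin.last n)) := by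
                unfold lerp; module
              rw [this] at hy'
              simpa using hy'
            rcases smul_eq_zero.1 e1 with h | h
            · exact absurd h hne
            · exact (sub_eq_zero.1 h).symm
          have hdi := hclose i hi
          have hndi := hnd i
          rw [hiL] at hdi hndi
          have hAB : ∀ σ : ℝ, 0 ≤ σ → σ ≤ 1 →
              σ • (γ t0 0 - γ t0 (Fin.last n)) ≠ (1 - σ) • (γ t0 i - γ t0 (Fin.last n)) := by
            intro σ hσ0 hσ1 h
            rcases hσ1.eq_or_lt with hσ | hσ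
            · subst hσ
              rw [sub_self, zero_smul, one_smul] at h
              exact hndL (sub_eq_zero.1 h).symm
            · refine hdi σ σ hσ0 hσ hσ0 hσ ?_
              show (1 - σ) • γ t0 (Fin.last n) + σ • γ t0 0 =
                (1 - σ) • γ t0 i + σ • γ t0 (Fin.last n)
              have e1 : (1 - σ) • γ t0 (Fin.last n) + σ • γ t0 0 =
                γ t0 (Fin.last n) + σ • (γ t0 0 - γ t0 (Fin.last n)) := by module
              have e2 : (1 - σ) • γ t0 i + σ • γ t0 (Fin.last n) =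
                γ t0 (Fin.last n) + (1 - σ) • (γ t0 i - γ t0 (Fin.last n)) := by module
              rw [e1, e2, h]
          have hsep := sep (fun t => γ t 0 - γ t (Fin.last n)) (fun t => γ t i - γ t (Fin.last n))
            u w (g0.sub gL) (gi.sub gL) hu hw t0 κ hκ hAB
          have hproj : Tendsto (fun z : ℝ × (ℝ × V × ℝ) => (z.1, z.2.1))
              (𝓝 (0, (t0, x0, r0))) (𝓝 (0, t0)) := by
            have : Continuous (fun z : ℝ × (ℝ × V × ℝ) => (z.1, z.2.1)) := by fun_prop
            exact this.tendsto _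
          have hev := hproj.eventually hsep
          filter_upwards [hev] with z hz hcone hr _ hx1 hr1 heq
          obtain ⟨hc0, hc1, hc2, hc3⟩ := hcone
          have hm : κ * min z.2.2.1.1 (1 - z.2.2.1.1) ≤ κ * z.2.2.1.1 :=
            mul_le_mul_of_nonneg_left (min_le_left _ _) hκ
          refine hz z.2.2.1.1 (1 - z.2.2.2) z.2.2.1.2.1 z.2.2.1.2.2 hc0 (by linarith)
            (by linarith) (hc2.trans hm) (hc3.trans hm) ?_
          have e1 : z.2.2.1.1 • (γ z.2.1 0 - γ z.2.1 (Fin.last n)) +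
              z.1 • (z.2.2.1.2.1 • u z.2.1 + z.2.2.1.2.2 • w z.2.1) =
              Fm (γ z.2.1 (Fin.last n)) (γ z.2.1 0) (z.1 • u z.2.1) (z.1 • w z.2.1) z.2.2.1 -
                γ z.2.1 (Fin.last n) := by
            unfold Fm
            module
          have e2 : (1 - z.2.2.2) • (γ z.2.1 i - γ z.2.1 (Fin.last n)) =
              lerp (γ z.2.1 i) (γ z.2.1 (Fin.last n)) z.2.2.2 - γ z.2.1 (Fin.last n) := by
            unfold lerp
            module
          show z.2.2.1.1 • (γ z.2.1 0 - γ z.2.1 (Fin.last n)) +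
              z.1 • (z.2.2.1.2.1 • u z.2.1 + z.2.2.1.2.2 • w z.2.1) =
              (1 - z.2.2.2) • (γ z.2.1 i - γ z.2.1 (Fin.last n))
          rw [e1, e2, heq]
        · exfalso
          refine hclose (i + 1) hiL x0.1 0 hx00 hx1 le_rfl zero_lt_one ?_
          simpa only [lerp_zero] using hy'
      · exfalso
        exact hclose i hi x0.1 r0 hx00 hx1 hr0 hr hy'
  · have hopen : IsOpen {z : ℝ × (ℝ × V × ℝ) |
        Fm (γ z.2.1 (Fin.last n)) (γ z.2.1 0) (z.1 • u z.2.1) (z.1 • w z.2.1) z.2.2.1 ≠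
          lerp (γ z.2.1 i) (γ z.2.1 (i + 1)) z.2.2.2} := by
      apply isOpen_ne_fun
      · unfold Fm
        fun_prop
      · unfold lerp
        fun_prop
    filter_upwards [hopen.mem_nhds hy] with z hz _ _ _ _ _
    exact hz

end CONE

/-- B1: uniform thinness -/
theorem S_cone_proof : S_cone := by
  intro k γ u w κ hκ hγ hu hw hs
  cases k with
  | zero => exact absurd (hs 0 le_rfl zero_le_one).1 (by simp)
  | succ n =>
    have all : ∀ᶠ δ : ℝ in 𝓝 0, ∀ i : Fin (n + 1), i ≠ Fin.last n →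
        ∀ p ∈ (Set.Icc (0 : ℝ) 1 ×ˢ ({x : V | Cone κ x} ×ˢ Set.Icc (0 : ℝ) 1)),
      0 < δ → p.2.1.1 < 1 → p.2.2 < 1 →
        Fm (γ p.1 (Fin.last n)) (γ p.1 0) (δ • u p.1) (δ • w p.1) p.2.1 ≠
          lerp (γ p.1 i) (γ p.1 (i + 1)) p.2.2 := by
      rw [eventually_all]
      intro i
      by_cases hi : i = Fin.last n
      · exact Eventually.of_forall fun _ h => absurd hi h
      · filter_upwards [CONE.key n γ u w κ hκ hγ hu hw hs i hi] with δ hδ _
        exact hδ
    obtain ⟨ε, hε, h⟩ := Metric.eventually_nhds_iff.1 all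
    refine ⟨ε / 2, by positivity, ?_⟩
    intro t ht0 ht1 δ hδ hδ' x hx hx1 e he r hr0 hr1
    obtain ⟨i, hi, rfl⟩ := CONE.mem_oe n (γ t) e he
    have hd : dist δ 0 < ε := by
      rw [Real.dist_eq, sub_zero, abs_of_pos hδ]; linarith
    have hh := h hd i hi (t, x, r) ⟨⟨ht0, ht1⟩, hx, hr0, hr1.le⟩ hδ hx1 hr1
    have e1 : (List.ofFn (γ t)).getLastD 0 = γ t (Fin.last n) := by
      rw [List.ofFn_succ', List.concat_eq_append, List.getLastD_concat]
    have e2 : (List.ofFn (γ t)).headD 0 = γ t 0 := by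
      rw [List.ofFn_succ]; rfl
    rw [e1, e2]
    exact hh

end KN
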