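import Pool.Agent.H246KN.Stubs

set_option autoImplicit false

namespace KN

open Finset Filter Topology
open scoped Classical

theorem CON.det {lv : List V} (h : HR lv) :
    0 < det3 (lv.headD 0 - lv.getLastD 0) (-1, 0, 0) (0, -1, 0) := by
  obtain ⟨-, -, h1, h2⟩ := h
  have e1 : lv.headD 0 = (1, 0, 1) := by
    cases lv with
    | nil => simp at h1
    | cons p l => simpa using h1
  have e2 : lv.getLastD 0 = (1, 0, 0) := by
    rw [List.getLastD_eq_getLast?, h2]
    rfl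
  rw [e1, e2]
  unfold det3
  norm_num

theorem S_connect_proof (hA : S_shA) (hB : S_shB) (hC : S_shC) (hD : S_shD) (hG : S_gs) :
    S_connect := by
  intro lw lv lv' hl hr hr' hs
  obtain ⟨s, κ, hs0, hs1, hb⟩ := hA lw hl
  have key : ∀ l : List V, HR l → ∀ δ : ℝ, 0 < δ → δ ≤ 1 →
      Same (l ++ lw) (insB l (bd s lw) (δ • (-1, 0, 0)) (δ • (0, -1, 0))) := by
    intro l h δ h0 h1
    exact ((hB lw l hl h s hs0 hs1).1.trans (hC lw l hl h s hs0 hs1)).trans
      (hD lw l hl h s hs0 hs1 δ h0 h1)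
  obtain ⟨δ₀, h0, h1⟩ := hG κ lv lv' (bd s lw) hr.1 hr'.1 hb hs (-1, 0, 0) (0, -1, 0) (-1, 0, 0)
    (0, -1, 0) (CON.det hr) (CON.det hr')
  have h2 : 0 < min δ₀ 1 := lt_min h0 one_pos
  have h3 := h1 (min δ₀ 1) (min δ₀ 1) h2 (min_le_left _ _) h2 (min_le_left _ _)
  exact ((key lv hr _ h2 (min_le_right _ _)).trans h3).trans
    (key lv' hr' _ h2 (min_le_right _ _)).symm

end KN
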