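import Pool.Agent.H246KN.Stubs

/-!
# Approximate logarithmic convexity
-/

set_option autoImplicit false

namespace KN

open Finset Filter Topology
open scoped Classical

noncomputable section

namespace CONV

theorem fin_ineq (A0 A1 A2 E S1 S2 n : ℝ) (hn : 10 ^ 10 ≤ n) (hA0 : 0 ≤ A0) (hA1 : 0 ≤ A1)
    (_hS1 : 0 ≤ S1) (hS : S1 ^ 2 ≤ A0 * S2)
    (h1 : A1 - E ≤ (1 + 6 * 10 ^ 7 / n) * S1) (hE : E ≤ A1 / n)
    (h2 : (1 - 43 * 10 ^ 7 / n) * S2 ≤ A2) (hA2 : 0 ≤ A2) :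
    A1 ^ 2 ≤ A0 * A2 * (1 + 10 ^ 9 / n) := by
  have hn0 : 0 < n := by linarith
  obtain ⟨y, hy⟩ : ∃ y : ℝ, y = 10 ^ 9 / n := ⟨_, rfl⟩
  have hy0 : 0 < y := by rw [hy]; positivity
  have hy1 : y ≤ 1 / 10 := by
    rw [hy, div_le_div_iff₀ hn0 (by norm_num)]; linarith
  have e1 : 6 * 10 ^ 7 / n = 6 / 100 * y := by rw [hy]; ring
  have e2 : 43 * 10 ^ 7 / n = 43 / 100 * y := by rw [hy]; ring
  have e3 : A1 / n = A1 * (y / 10 ^ 9) := by rw [hy]; field_simp
  rw [e1] at h1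
  rw [e2] at h2
  rw [e3] at hE
  rw [← hy]
  have k1 : A1 * (1 - y / 10 ^ 9) ≤ (1 + 6 / 100 * y) * S1 := by linarith
  have k0 : 0 ≤ A1 * (1 - y / 10 ^ 9) := by
    apply mul_nonneg hA1
    have : y / 10 ^ 9 ≤ 1 := by
      rw [div_le_one (by norm_num)]; linarith
    linarith
  have k2 : (A1 * (1 - y / 10 ^ 9)) ^ 2 ≤ ((1 + 6 / 100 * y) * S1) ^ 2 :=
    pow_le_pow_left₀ k0 k1 2
  have k3 : (A1 * (1 - y / 10 ^ 9)) ^ 2 ≤ (1 + 6 / 100 * y) ^ 2 * (A0 * S2) := by
    refine k2.trans ?_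
    rw [mul_pow]
    exact mul_le_mul_of_nonneg_left hS (by positivity)
  have p1 : 0 < 1 - 43 / 100 * y := by linarith
  have k4 : (A1 * (1 - y / 10 ^ 9)) ^ 2 * (1 - 43 / 100 * y) ≤
      (1 + 6 / 100 * y) ^ 2 * (A0 * A2) := by
    calc (A1 * (1 - y / 10 ^ 9)) ^ 2 * (1 - 43 / 100 * y)
        ≤ (1 + 6 / 100 * y) ^ 2 * (A0 * S2) * (1 - 43 / 100 * y) :=
          mul_le_mul_of_nonneg_right k3 p1.le
      _ = (1 + 6 / 100 * y) ^ 2 * (A0 * ((1 - 43 / 100 * y) * S2)) := by ring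
      _ ≤ (1 + 6 / 100 * y) ^ 2 * (A0 * A2) :=
          mul_le_mul_of_nonneg_left (mul_le_mul_of_nonneg_left h2 hA0) (by positivity)
  have p2 : 0 < 1 - y / 10 ^ 9 := by
    have : y / 10 ^ 9 < 1 := by
      rw [div_lt_one (by norm_num)]; linarith
    linarith
  have k5 : (1 + 6 / 100 * y) ^ 2 ≤ (1 + y) * ((1 - y / 10 ^ 9) ^ 2 * (1 - 43 / 100 * y)) := by
    have q1 : 1 - 1 / 100 * y ≤ (1 - y / 10 ^ 9) ^ 2 := by nlinarith
    have q2 : (1 + 6 / 100 * y) ^ 2 ≤ (1 + y) * ((1 - 1 / 100 * y) * (1 - 43 / 100 * y)) := by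
      nlinarith [mul_pos hy0 hy0, mul_nonneg hy0.le (sub_nonneg.mpr hy1),
        mul_nonneg (mul_pos hy0 hy0).le (sub_nonneg.mpr hy1)]
    refine q2.trans ?_
    exact mul_le_mul_of_nonneg_left (mul_le_mul_of_nonneg_right q1 p1.le) (by linarith)
  have p3 : 0 < (1 - y / 10 ^ 9) ^ 2 * (1 - 43 / 100 * y) := by positivity
  have k6 : A1 ^ 2 * ((1 - y / 10 ^ 9) ^ 2 * (1 - 43 / 100 * y)) ≤
      (A0 * A2 * (1 + y)) * ((1 - y / 10 ^ 9) ^ 2 * (1 - 43 / 100 * y)) := by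
    calc A1 ^ 2 * ((1 - y / 10 ^ 9) ^ 2 * (1 - 43 / 100 * y))
        = (A1 * (1 - y / 10 ^ 9)) ^ 2 * (1 - 43 / 100 * y) := by ring
      _ ≤ (1 + 6 / 100 * y) ^ 2 * (A0 * A2) := k4
      _ ≤ ((1 + y) * ((1 - y / 10 ^ 9) ^ 2 * (1 - 43 / 100 * y))) * (A0 * A2) :=
          mul_le_mul_of_nonneg_right k5 (mul_nonneg hA0 hA2)
      _ = _ := by ring
  exact le_of_mul_le_mul_right k6 p3

/-- good words -/
def good (n : ℕ) (w : List Dir) : Prop := n < 10 ^ 7 * fr w ∧ n < 10 ^ 7 * bu w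

theorem not_good (n : ℕ) (w : List Dir) :
    ¬ good n w ↔ (10 ^ 7 * fr w ≤ n ∨ 10 ^ 7 * bu w ≤ n) := by
  unfold good; rw [not_and_or]; push Not; rfl

theorem fr_le (w : List Dir) : fr w ≤ 6 * w.length := by
  unfold fr sites
  refine (card_filter_le _ _).trans ?_
  rw [card_product, card_range]
  have : (univ : Finset Dir).card = 6 := rfl
  rw [this]; omega

theorem inv_le_one (b : ℕ) : (1 / (b : ℝ)) ≤ 1 := by
  rcases Nat.eq_zero_or_pos b with h | h
  · subst h; simp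
  · rw [div_le_one (by exact_mod_cast h)]; exact_mod_cast h

theorem sum_inv_le (w : List Dir) : ∑ _j ∈ bumps w, (1 / (bu w : ℝ)) ≤ 1 := by
  rw [sum_const, nsmul_eq_mul]
  change (bu w : ℝ) * (1 / (bu w : ℝ)) ≤ 1
  rcases Nat.eq_zero_or_pos (bu w) with h | h
  · rw [h]; simp
  · rw [mul_one_div, div_self (by exact_mod_cast h.ne')]

theorem sum_inv_eq (w : List Dir) (h : 0 < bu w) : ∑ _j ∈ bumps w, (1 / (bu w : ℝ)) = 1 := by
  rw [sum_const, nsmul_eq_mul]
  change (bu w : ℝ) * (1 / (bu w : ℝ)) = 1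
  rw [mul_one_div, div_self (by exact_mod_cast h.ne')]

/-- upper bound for `a (n+2)` -/
theorem upper (hsum : S_sum) (hch : S_change) (Q : List Dir → Prop) (hQ : Inv Q) (n : ℕ)
    (hn : 10 ^ 10 ≤ n) :
    (a Q (n + 2) : ℝ) ≤ (bad Q (n + 2) + 6 * n * bad Q n) +
      ∑ w ∈ (K Q n).filter (good n), (fr w : ℝ) / ((bu w : ℝ) - 3) := by
  set F : List Dir → List Dir → ℝ := fun _ w' => if good (n + 2) w' then 1 / (bu w' : ℝ) else 0
    with hF
  have hS := hsum Q hQ n (by omega) F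
  have h1 : (a Q (n + 2) : ℝ) ≤ bad Q (n + 2) + ∑ w ∈ K Q (n + 2), ∑ j ∈ bumps w, F (rem w j) w := by
    have e1 : (a Q (n + 2) : ℝ) = ∑ w ∈ K Q (n + 2), (1 : ℝ) := by
      unfold a; rw [sum_const, nsmul_eq_mul, mul_one]
    have e2 : (bad Q (n + 2) : ℝ) = ∑ w ∈ K Q (n + 2), (if ¬ good (n + 2) w then (1 : ℝ) else 0) := by
      unfold bad
      rw [← sum_filter, sum_const, nsmul_eq_mul, mul_one]
      congr 2
      apply filter_congr
      intro w _
      rw [not_good]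
    rw [e1, e2, ← sum_add_distrib]
    apply sum_le_sum
    intro w _
    by_cases hg : good (n + 2) w
    · have hb : 0 < bu w := by
        have h2 : n + 2 < 10 ^ 7 * bu w := hg.2
        omega
      rw [if_neg (not_not.mpr hg), zero_add]
      simp only [hF, if_pos hg]
      rw [sum_inv_eq w hb]
    · rw [if_pos hg]
      simp only [hF, if_neg hg]
      simp
  rw [← hS] at h1
  refine h1.trans ?_
  rw [add_assoc]
  refine add_le_add le_rfl ?_
  have h2 : ∀ w ∈ K Q n, ∑ q ∈ sites w, F w (ins w q.1 q.2) ≤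
      (if ¬ good n w then (6 * n : ℝ) else 0) +
        (if good n w then (fr w : ℝ) / ((bu w : ℝ) - 3) else 0) := by
    intro w hw
    rw [mem_K] at hw
    have hFle : ∀ w', F w w' ≤ 1 := by
      intro w'
      simp only [hF]
      split_ifs
      · exact inv_le_one _
      · norm_num
    by_cases hg : good n w
    · rw [if_neg (not_not.mpr hg), if_pos hg, zero_add]
      have hb : 1000 < bu w := by
        have := hg.2; omega
      have hb' : (1000 : ℝ) < bu w := by exact_mod_cast hb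
      have : ∀ q ∈ sites w, F w (ins w q.1 q.2) ≤ 1 / ((bu w : ℝ) - 3) := by
        intro q hq
        have hs : site w q.1 q.2 := mem_sites.mp hq
        have := (hch w q.1 q.2 hw.2.1 hs).2.2.2
        have h3 : (bu w : ℝ) ≤ bu (ins w q.1 q.2) + 3 := by exact_mod_cast this
        simp only [hF]
        split_ifs
        · apply one_div_le_one_div_of_le <;> linarith
        · apply one_div_nonneg.mpr; linarith
      refine (sum_le_sum this).trans ?_
      rw [sum_const, nsmul_eq_mul, mul_one_div]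
      rfl
    · rw [if_pos hg, if_neg hg, add_zero]
      refine (sum_le_sum (fun q _ => hFle _)).trans ?_
      rw [sum_const, nsmul_eq_mul, mul_one]
      have := fr_le w
      rw [hw.1] at this
      have h3 : ((sites w).card : ℝ) ≤ 6 * n := by exact_mod_cast this
      exact h3
  refine (sum_le_sum h2).trans ?_
  rw [sum_add_distrib, ← sum_filter, ← sum_filter, sum_const, nsmul_eq_mul]
  refine add_le_add (le_of_eq ?_) le_rfl
  rw [mul_comm]
  congr 2
  unfold bad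
  congr 1
  apply filter_congr
  intro w _
  rw [not_good]

/-- lower bound for `a (n+4)` -/
theorem lower (hins : S_ins) (hsum : S_sum) (hch : S_change) (Q : List Dir → Prop) (hQ : Inv Q)
    (n : ℕ) (hn : 10 ^ 10 ≤ n) :
    ∑ w ∈ (K Q n).filter (good n), (fr w : ℝ) * ((fr w : ℝ) - 28) /
      (((bu w : ℝ) + 5) * ((bu w : ℝ) + 10)) ≤ a Q (n + 4) := by
  set h : List Dir → ℝ := fun w' =>
    ∑ j ∈ bumps w', (if good n (rem w' j) then (1 / (bu w') : ℝ) else 0) with hh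
  set g : List Dir → ℝ := fun w' => ∑ q ∈ sites w', (1 / (bu (ins w' q.1 q.2)) : ℝ) with hg
  have h_nonneg : ∀ w, 0 ≤ h w := by
    intro w; apply sum_nonneg; intro j _; split_ifs <;> positivity
  have g_nonneg : ∀ w, 0 ≤ g w := by
    intro w; apply sum_nonneg; intro j _; positivity
  have h_le : ∀ w, h w ≤ 1 := by
    intro w
    refine le_trans ?_ (sum_inv_le w)
    apply sum_le_sum
    intro j _
    split_ifs
    · exact le_rfl
    · positivity
  have s1 : ∑ w ∈ K Q (n + 4), ∑ j ∈ bumps w, h (rem w j) * (1 / (bu w) : ℝ) ≤ a Q (n + 4) := by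
    have e1 : (a Q (n + 4) : ℝ) = ∑ w ∈ K Q (n + 4), (1 : ℝ) := by
      unfold a; rw [sum_const, nsmul_eq_mul, mul_one]
    rw [e1]
    apply sum_le_sum
    intro w _
    refine le_trans ?_ (sum_inv_le w)
    apply sum_le_sum
    intro j _
    calc h (rem w j) * (1 / (bu w) : ℝ) ≤ 1 * (1 / (bu w) : ℝ) :=
          mul_le_mul_of_nonneg_right (h_le _) (by positivity)
      _ = _ := one_mul _
  have s2 := hsum Q hQ (n + 2) (by omega) (fun w' w'' => h w' * (1 / (bu w'') : ℝ))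
  have s3 := hsum Q hQ n (by omega)
    (fun w w' => (if good n w then (1 / (bu w') : ℝ) else 0) * g w')
  refine le_trans ?_ s1
  have e2 : n + 2 + 2 = n + 4 := by ring
  rw [e2] at s2
  rw [← s2]
  have s4 : ∑ w ∈ K Q (n + 2), ∑ q ∈ sites w, h w * (1 / (bu (ins w q.1 q.2)) : ℝ) =
      ∑ w ∈ K Q (n + 2), ∑ j ∈ bumps w,
        (if good n (rem w j) then (1 / (bu w) : ℝ) else 0) * g w := by
    apply sum_congr rfl
    intro w _
    rw [← mul_sum, ← sum_mul]
  rw [s4, ← s3, sum_filter]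
  apply sum_le_sum
  intro w hw
  rw [mem_K] at hw
  by_cases hgw : good n w
  · rw [if_pos hgw]
    simp only [if_pos hgw]
    have hb : 1000 < bu w := by
      have := hgw.2; omega
    have hf : 1000 < fr w := by
      have := hgw.1; omega
    have hb' : (1000 : ℝ) < bu w := by exact_mod_cast hb
    have hf' : (1000 : ℝ) < fr w := by exact_mod_cast hf
    have key : ∀ q ∈ sites w, ((fr w : ℝ) - 28) / (((bu w : ℝ) + 5) * ((bu w : ℝ) + 10)) ≤
        (1 / (bu (ins w q.1 q.2)) : ℝ) * g (ins w q.1 q.2) := by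
      intro q hq
      have hs : site w q.1 q.2 := mem_sites.mp hq
      obtain ⟨c1, c2, c3, c4⟩ := hch w q.1 q.2 hw.2.1 hs
      obtain ⟨i1, i2, i3, i4, i5⟩ := hins w q.1 q.2 hw.2.1 hs
      set w' := ins w q.1 q.2 with hw'
      have c1' : (fr w : ℝ) ≤ fr w' + 28 := by exact_mod_cast c1
      have c3' : (bu w' : ℝ) ≤ bu w + 5 := by exact_mod_cast c3
      have c4' : (bu w : ℝ) ≤ bu w' + 3 := by exact_mod_cast c4
      have hpos : (0 : ℝ) < bu w' := by linarith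
      have hg1 : ((fr w : ℝ) - 28) / ((bu w : ℝ) + 10) ≤ g w' := by
        have : ∀ q' ∈ sites w', 1 / ((bu w : ℝ) + 10) ≤ (1 / (bu (ins w' q'.1 q'.2)) : ℝ) := by
          intro q' hq'
          have hs' : site w' q'.1 q'.2 := mem_sites.mp hq'
          obtain ⟨d1, d2, d3, d4⟩ := hch w' q'.1 q'.2 i1 hs'
          have d3' : (bu (ins w' q'.1 q'.2) : ℝ) ≤ bu w' + 5 := by exact_mod_cast d3
          have d4' : (bu w' : ℝ) ≤ bu (ins w' q'.1 q'.2) + 3 := by exact_mod_cast d4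
          apply one_div_le_one_div_of_le <;> linarith
        calc ((fr w : ℝ) - 28) / ((bu w : ℝ) + 10)
            ≤ (fr w' : ℝ) * (1 / ((bu w : ℝ) + 10)) := by
              rw [mul_one_div]
              apply div_le_div_of_nonneg_right <;> linarith
          _ = ∑ q' ∈ sites w', 1 / ((bu w : ℝ) + 10) := by
              rw [sum_const, nsmul_eq_mul]; rfl
          _ ≤ g w' := sum_le_sum this
      have hb1 : 1 / ((bu w : ℝ) + 5) ≤ (1 / (bu w') : ℝ) := by
        apply one_div_le_one_div_of_le <;> linarith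
      calc ((fr w : ℝ) - 28) / (((bu w : ℝ) + 5) * ((bu w : ℝ) + 10))
          = (1 / ((bu w : ℝ) + 5)) * (((fr w : ℝ) - 28) / ((bu w : ℝ) + 10)) := by
            field_simp
        _ ≤ (1 / (bu w') : ℝ) * g w' := by
            apply mul_le_mul hb1 hg1
            · apply div_nonneg <;> linarith
            · positivity
    calc (fr w : ℝ) * ((fr w : ℝ) - 28) / (((bu w : ℝ) + 5) * ((bu w : ℝ) + 10))
        = ∑ q ∈ sites w, ((fr w : ℝ) - 28) / (((bu w : ℝ) + 5) * ((bu w : ℝ) + 10)) := by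
          rw [sum_const, nsmul_eq_mul, ← mul_div_assoc]; rfl
      _ ≤ _ := sum_le_sum key
  · rw [if_neg hgw]
    apply sum_nonneg
    intro q _
    rw [if_neg hgw, zero_mul]

theorem term1 (F B n : ℝ) (hn : 10 ^ 10 ≤ n) (hF : 0 ≤ F) (hB : n < 10 ^ 7 * B) :
    F / (B - 3) ≤ (1 + 6 * 10 ^ 7 / n) * (F / B) := by
  have hn0 : 0 < n := by linarith
  have hB0 : 1000 < B := by linarith
  have h1 : 6 / B ≤ 6 * 10 ^ 7 / n := by
    rw [div_le_div_iff₀ (by linarith) hn0]; nlinarith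
  have h2 : F / (B - 3) ≤ (1 + 6 / B) * (F / B) := by
    have e : (1 + 6 / B) * (F / B) = F * (B + 6) / (B * B) := by
      field_simp
    rw [e, div_le_div_iff₀ (by linarith) (by positivity)]
    have : B * B ≤ (B + 6) * (B - 3) := by nlinarith
    calc F * (B * B) ≤ F * ((B + 6) * (B - 3)) := mul_le_mul_of_nonneg_left this hF
      _ = _ := by ring
  refine h2.trans ?_
  apply mul_le_mul_of_nonneg_right
  · linarith
  · apply div_nonneg hF; linarith

theorem term2 (F B n : ℝ) (hn : 10 ^ 10 ≤ n) (hF : n < 10 ^ 7 * F) (hB : n < 10 ^ 7 * B) :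
    (1 - 43 * 10 ^ 7 / n) * (F / B) ^ 2 ≤ F * (F - 28) / ((B + 5) * (B + 10)) := by
  have hn0 : 0 < n := by linarith
  have hB0 : 1000 < B := by linarith
  have hF0 : 1000 < F := by linarith
  obtain ⟨x, hx⟩ : ∃ x : ℝ, x = 10 ^ 7 / n := ⟨_, rfl⟩
  have hx0 : 0 < x := by rw [hx]; positivity
  have hx1 : x ≤ 1 / 1000 := by
    rw [hx, div_le_div_iff₀ hn0 (by norm_num)]; linarith
  have e1 : 43 * 10 ^ 7 / n = 43 * x := by rw [hx]; ring
  have xF : 1 ≤ x * F := by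
    rw [hx, div_mul_eq_mul_div, le_div_iff₀ hn0]; linarith
  have xB : 1 ≤ x * B := by
    rw [hx, div_mul_eq_mul_div, le_div_iff₀ hn0]; linarith
  rw [e1, div_pow, ← mul_div_assoc, div_le_div_iff₀ (by positivity) (by positivity)]
  -- (1 - 43x) F^2 (B+5)(B+10) ≤ F (F-28) B^2
  have a1 : (1 - 28 * x) * F ≤ F - 28 := by nlinarith
  have a2 : (1 - 5 * x) * (B + 5) ≤ B := by nlinarith
  have a3 : (1 - 10 * x) * (B + 10) ≤ B := by nlinarith
  have b0 : (1 - 43 * x) ≤ (1 - 28 * x) * ((1 - 5 * x) * (1 - 10 * x)) := by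
    have : 0 ≤ x ^ 2 * (470 - 1400 * x) := by
      apply mul_nonneg (sq_nonneg x); linarith
    have e : (1 - 28 * x) * ((1 - 5 * x) * (1 - 10 * x)) =
        1 - 43 * x + x ^ 2 * (470 - 1400 * x) := by ring
    linarith
  have c1 : ((1 - 5 * x) * (B + 5)) * ((1 - 10 * x) * (B + 10)) ≤ B * B := by
    apply mul_le_mul a2 a3
    · apply mul_nonneg <;> linarith
    · linarith
  calc (1 - 43 * x) * F ^ 2 * ((B + 5) * (B + 10))
      ≤ ((1 - 28 * x) * ((1 - 5 * x) * (1 - 10 * x))) * F ^ 2 * ((B + 5) * (B + 10)) := by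
        apply mul_le_mul_of_nonneg_right _ (by positivity)
        apply mul_le_mul_of_nonneg_right b0 (by positivity)
    _ = F * ((1 - 28 * x) * F) * (((1 - 5 * x) * (B + 5)) * ((1 - 10 * x) * (B + 10))) := by ring
    _ ≤ F * (F - 28) * (B * B) := by
        apply mul_le_mul
        · apply mul_le_mul_of_nonneg_left a1; linarith
        · exact c1
        · apply mul_nonneg
          · apply mul_nonneg <;> linarith
          · apply mul_nonneg <;> linarith
        · apply mul_nonneg <;> linarith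
    _ = F * (F - 28) * B ^ 2 := by ring

theorem errors (μ θ θ₁ C : ℝ) (hμ : 0 < μ) (hθ : 0 < θ) (hθ₁ : θ < θ₁) :
    ∀ᶠ n : ℕ in atTop, (n : ℝ) * (C * (θ * μ) ^ (n + 2) + 6 * n * (C * (θ * μ) ^ n)) ≤
      (θ₁ * μ) ^ (n + 2) := by
  have hθ1' : 0 < θ₁ := hθ.trans hθ₁
  set r : ℝ := θ / θ₁ with hr
  have hr0 : 0 ≤ r := by positivity
  have hr1 : r < 1 := by rw [hr, div_lt_one hθ1']; exact hθ₁
  have t1 := tendsto_pow_const_mul_const_pow_of_lt_one 1 hr0 hr1
  have t2 := tendsto_pow_const_mul_const_pow_of_lt_one 2 hr0 hr1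
  have t3 : Tendsto (fun n : ℕ => (C * r ^ 2) * ((n : ℝ) ^ 1 * r ^ n) +
      (6 * C / (θ₁ * μ) ^ 2) * ((n : ℝ) ^ 2 * r ^ n)) atTop (𝓝 0) := by
    have := (t1.const_mul (C * r ^ 2)).add (t2.const_mul (6 * C / (θ₁ * μ) ^ 2))
    simpa using this
  filter_upwards [t3.eventually_le_const (show (0 : ℝ) < 1 by norm_num)] with n hn
  have hp : 0 < (θ₁ * μ) ^ (n + 2) := by positivity
  have hrn : (θ * μ) ^ n = r ^ n * (θ₁ * μ) ^ n := by
    rw [hr, ← mul_pow]; congr 1; field_simp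
  have hrn2 : (θ * μ) ^ (n + 2) = r ^ (n + 2) * (θ₁ * μ) ^ (n + 2) := by
    rw [hr, ← mul_pow]; congr 1; field_simp
  have e : (n : ℝ) * (C * (θ * μ) ^ (n + 2) + 6 * n * (C * (θ * μ) ^ n)) =
      ((C * r ^ 2) * ((n : ℝ) ^ 1 * r ^ n) +
      (6 * C / (θ₁ * μ) ^ 2) * ((n : ℝ) ^ 2 * r ^ n)) * (θ₁ * μ) ^ (n + 2) := by
    rw [hrn, hrn2]
    have : (θ₁ * μ) ^ 2 ≠ 0 := by positivity
    field_simp
    ring
  rw [e]
  calc _ ≤ 1 * (θ₁ * μ) ^ (n + 2) := mul_le_mul_of_nonneg_right hn hp.le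
    _ = _ := one_mul _

end CONV

theorem S_convex_proof (hins : S_ins) (hsum : S_sum) (hch : S_change) : S_convex := by
  intro Q hQ μ θ θ₁ C hμ hθ hθ₁ hbad
  refine ⟨10 ^ 9, by norm_num, ?_⟩
  have ht : Tendsto (fun k : ℕ => 2 * k) atTop atTop :=
    tendsto_id.const_mul_atTop' (by norm_num)
  filter_upwards [ht.eventually (CONV.errors μ θ θ₁ C hμ hθ hθ₁),
    ht.eventually (eventually_ge_atTop (10 ^ 10))] with k hk1 hk2 hbig
  obtain ⟨n, hn⟩ : ∃ n : ℕ, n = 2 * k := ⟨_, rfl⟩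
  have e2 : 2 * k + 2 = n + 2 := by omega
  have e4 : 2 * k + 4 = n + 4 := by omega
  rw [← hn] at hk1 hk2
  rw [e2] at hbig
  rw [e2, e4, ← hn]
  have hn' : (10 : ℝ) ^ 10 ≤ n := by exact_mod_cast hk2
  have hn0 : (0 : ℝ) < n := by linarith
  have up := CONV.upper hsum hch Q hQ n hk2
  have lo := CONV.lower hins hsum hch Q hQ n hk2
  set G := (K Q n).filter (CONV.good n) with hG
  set S1 : ℝ := ∑ w ∈ G, (fr w : ℝ) / (bu w : ℝ) with hS1
  set S2 : ℝ := ∑ w ∈ G, ((fr w : ℝ) / (bu w : ℝ)) ^ 2 with hS2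
  have hgood : ∀ w ∈ G, (n : ℝ) < 10 ^ 7 * fr w ∧ (n : ℝ) < 10 ^ 7 * bu w := by
    intro w hw
    have := (mem_filter.mp hw).2
    exact ⟨by exact_mod_cast this.1, by exact_mod_cast this.2⟩
  have hS2' : 0 ≤ S2 := by apply sum_nonneg; intro w _; positivity
  have hcs : S1 ^ 2 ≤ (a Q n : ℝ) * S2 := by
    have h1 : S1 ^ 2 ≤ (G.card : ℝ) * S2 := sq_sum_le_card_mul_sum_sq
    refine h1.trans ?_
    apply mul_le_mul_of_nonneg_right _ hS2'
    have : G.card ≤ a Q n := card_filter_le _ _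
    exact_mod_cast this
  have u1 : (a Q (n + 2) : ℝ) - (bad Q (n + 2) + 6 * n * bad Q n) ≤
      (1 + 6 * 10 ^ 7 / n) * S1 := by
    have : ∑ w ∈ G, (fr w : ℝ) / ((bu w : ℝ) - 3) ≤ (1 + 6 * 10 ^ 7 / n) * S1 := by
      rw [hS1, mul_sum]
      apply sum_le_sum
      intro w hw
      exact CONV.term1 _ _ _ hn' (by positivity) (hgood w hw).2
    linarith
  have u2 : (1 - 43 * 10 ^ 7 / n) * S2 ≤ a Q (n + 4) := by
    refine le_trans ?_ lo
    rw [hS2, mul_sum]
    apply sum_le_sum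
    intro w hw
    exact CONV.term2 _ _ _ hn' (hgood w hw).1 (hgood w hw).2
  have u3 : (bad Q (n + 2) + 6 * n * bad Q n : ℝ) ≤ (a Q (n + 2) : ℝ) / n := by
    rw [le_div_iff₀ hn0]
    have b1 := hbad (n + 2)
    have b2 := hbad n
    calc (bad Q (n + 2) + 6 * n * bad Q n : ℝ) * n
        ≤ (C * (θ * μ) ^ (n + 2) + 6 * n * (C * (θ * μ) ^ n)) * n := by
          apply mul_le_mul_of_nonneg_right _ hn0.le
          apply add_le_add b1
          exact mul_le_mul_of_nonneg_left b2 (by positivity)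
      _ = n * (C * (θ * μ) ^ (n + 2) + 6 * n * (C * (θ * μ) ^ n)) := mul_comm _ _
      _ ≤ (θ₁ * μ) ^ (n + 2) := hk1
      _ ≤ _ := hbig
  have fin := CONV.fin_ineq (a Q n) (a Q (n + 2)) (a Q (n + 4))
    (bad Q (n + 2) + 6 * n * bad Q n) S1 S2 n hn' (by positivity) (by positivity)
    (sum_nonneg (fun w _ => by positivity)) hcs u1 u3 u2 (by positivity)
  refine fin.trans ?_
  apply mul_le_mul_of_nonneg_left _ (by positivity)
  have hkn : (n : ℝ) = 2 * k := by rw [hn]; push_cast; ring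
  have hk0 : (0 : ℝ) < k := by linarith
  have : (10 : ℝ) ^ 9 / n ≤ 10 ^ 9 / k := by
    apply div_le_div_of_nonneg_left (by norm_num) hk0; linarith
  linarith

end

end KN
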