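import Pool.Agent.H246KN.Stubs

set_option autoImplicit false

namespace KN

open Finset Filter Topology
open scoped Classical

namespace CORN

theorem chain_snd (b : V) (l : List V) (e : V × V) (he : e ∈ chain b l) : e.2 ∈ l := by
  induction l generalizing b with
  | nil => simp [chain] at he
  | cons q l ih =>
    simp only [chain, List.mem_cons] at he ⊢
    rcases he with rfl | he
    · exact Or.inl rfl
    · exact Or.inr (ih q he)

theorem chain_first (b p : V) (l : List V) : ∃ z, (b, z) ∈ chain b (l ++ [p]) := by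
  cases l with
  | nil => exact ⟨p, by simp [chain]⟩
  | cons q l => exact ⟨q, by simp [chain]⟩

theorem chain_start (b p : V) (l : List V) (y : V) (hy : y ∈ l) :
    ∃ z, (y, z) ∈ chain b (l ++ [p]) := by
  induction l generalizing b with
  | nil => simp at hy
  | cons q l ih =>
    rcases List.mem_cons.1 hy with rfl | hy
    · obtain ⟨z, hz⟩ := chain_first y p l
      exact ⟨z, by simp [chain, hz]⟩
    · obtain ⟨z, hz⟩ := ih q hy
      exact ⟨z, by simp [chain, hz]⟩

theorem edges_old (p b q : V) (l : List V) :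
    edges (p :: b :: (l ++ [q])) = (p, b) :: (chain b (l ++ [q]) ++ [(q, p)]) := by
  have h : chain b (l ++ q :: [p]) = chain b (l ++ [q]) ++ chain q [p] := chain_append b q l [p]
  simp only [edges, List.cons_append, List.append_assoc, chain, List.nil_append]
  rw [h]
  simp [chain]

theorem edges_new (v B b q A : V) (l : List V) :
    edges (v :: B :: b :: (l ++ [q, A])) =
      (v, B) :: (B, b) :: (chain b (l ++ [q]) ++ [(q, A), (A, v)]) := by
  have h : chain b (l ++ q :: [A, v]) = chain b (l ++ [q]) ++ chain q [A, v] :=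
    chain_append b q l [A, v]
  simp only [edges, List.cons_append, List.append_assoc, chain, List.nil_append]
  rw [h]
  simp [chain]

theorem far (p D1 D2 : V) (E : List (V × V))
    (h : ∀ e ∈ E, ∀ r : ℝ, 0 ≤ r → r ≤ 1 → lerp e.1 e.2 r ≠ p) :
    ∀ᶠ ρ : ℝ in 𝓝 0, ∀ x y : ℝ, 0 ≤ x → x ≤ 1 → 0 ≤ y → y ≤ 1 → ∀ e ∈ E, ∀ r : ℝ, 0 ≤ r →
      r < 1 → p + (ρ * x) • D1 + (ρ * y) • D2 ≠ lerp e.1 e.2 r := by
  have hfin : {e : V × V | e ∈ E}.Finite := List.finite_toSet E
  set T : Set V := ⋃ e ∈ {e : V × V | e ∈ E}, (fun r : ℝ => lerp e.1 e.2 r) '' Set.Icc 0 1 with hT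
  have hclosed : IsClosed T := by
    apply hfin.isClosed_biUnion
    intro e _
    apply IsCompact.isClosed
    apply isCompact_Icc.image
    unfold lerp
    fun_prop
  have hp : p ∉ T := by
    intro hp
    simp only [hT, Set.mem_iUnion, Set.mem_image] at hp
    obtain ⟨e, he, r, hr, hp⟩ := hp
    exact h e he r hr.1 hr.2 hp
  have hK : IsCompact (Set.Icc (0 : ℝ) 1 ×ˢ Set.Icc (0 : ℝ) 1) := isCompact_Icc.prod isCompact_Icc
  have hev := hK.eventually_forall_of_forall_eventually (x₀ := (0 : ℝ))
    (P := fun (ρ : ℝ) (z : ℝ × ℝ) => p + (ρ * z.1) • D1 + (ρ * z.2) • D2 ∉ T) ?_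
  · filter_upwards [hev] with ρ hρ x y hx hx' hy hy' e he r hr hr' heq
    apply hρ (x, y) ⟨⟨hx, hx'⟩, ⟨hy, hy'⟩⟩
    rw [heq]
    simp only [hT, Set.mem_iUnion, Set.mem_image]
    exact ⟨e, he, r, ⟨hr, hr'.le⟩, rfl⟩
  · rintro z -
    have hopen : IsOpen {w : ℝ × (ℝ × ℝ) | p + (w.1 * w.2.1) • D1 + (w.1 * w.2.2) • D2 ∉ T} := by
      have : Continuous (fun w : ℝ × (ℝ × ℝ) => p + (w.1 * w.2.1) • D1 + (w.1 * w.2.2) • D2) := by
        fun_prop
      exact hclosed.isOpen_compl.preimage this
    refine hopen.mem_nhds ?_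
    show p + ((0 : ℝ) * z.1) • D1 + ((0 : ℝ) * z.2) • D2 ∉ T
    simpa using hp

theorem indep (p b q : V) (hd : Disj (p, b) (q, p)) (hb : p ≠ b) (hq : q ≠ p) (x y : ℝ)
    (h : x • (b - p) + y • (q - p) = 0) :
    (x = 0 ∧ y = 0) ∨ (0 < x ∧ 0 < y) ∨ (x < 0 ∧ y < 0) := by
  -- `x ≥ 0`, `y ≥ 0`, `x D1 = y D2`
  have key : ∀ x y : ℝ, 0 ≤ x → 0 ≤ y → x • (b - p) = y • (q - p) → x = 0 ∧ y = 0 := by
    intro x y hx hy he
    rcases hy.eq_or_lt with hy0 | hy0
    · subst hy0
      rw [zero_smul] at he
      rcases smul_eq_zero.1 he with h0 | h0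
      · exact ⟨h0, rfl⟩
      · exact absurd (sub_eq_zero.1 h0).symm hb
    · exfalso
      set M : ℝ := x + y + 1 with hM
      have hM0 : 0 < M := by positivity
      refine hd (x / M) (1 - y / M) (by positivity) ?_ ?_ ?_ ?_
      · rw [div_lt_one hM0]; linarith
      · have : y / M ≤ 1 := by rw [div_le_one hM0]; linarith
        linarith
      · have : 0 < y / M := by positivity
        linarith
      · show (1 - x / M) • p + (x / M) • b = (1 - (1 - y / M)) • q + (1 - y / M) • p
        have e1 : (1 - x / M) • p + (x / M) • b = p + (1 / M) • (x • (b - p)) := by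
          match_scalars <;> field_simp <;> ring
        have e2 : (1 - (1 - y / M)) • q + (1 - y / M) • p = p + (1 / M) • (y • (q - p)) := by
          match_scalars <;> field_simp <;> ring
        rw [e1, e2, he]
  rcases le_or_gt 0 x with hx | hx
  · rcases le_or_gt 0 y with hy | hy
    · rcases hx.eq_or_lt with hx0 | hx0
      · rcases hy.eq_or_lt with hy0 | hy0
        · exact Or.inl ⟨hx0.symm, hy0.symm⟩
        · exfalso
          rw [← hx0, zero_smul, zero_add] at h
          rcases smul_eq_zero.1 h with h0 | h0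
          · exact hy0.ne' h0
          · exact hq (sub_eq_zero.1 h0)
      · rcases hy.eq_or_lt with hy0 | hy0
        · exfalso
          rw [← hy0, zero_smul, add_zero] at h
          rcases smul_eq_zero.1 h with h0 | h0
          · exact hx0.ne' h0
          · exact hb (sub_eq_zero.1 h0).symm
        · exact Or.inr (Or.inl ⟨hx0, hy0⟩)
    · exfalso
      have := key x (-y) hx (by linarith) (by
        rw [neg_smul]; exact eq_neg_of_add_eq_zero_left h)
      linarith [this.2]
  · rcases le_or_gt y 0 with hy | hy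
    · rcases hy.eq_or_lt with hy0 | hy0
      · exfalso
        rw [hy0, zero_smul, add_zero] at h
        rcases smul_eq_zero.1 h with h0 | h0
        · exact hx.ne h0
        · exact hb (sub_eq_zero.1 h0).symm
      · exact Or.inr (Or.inr ⟨hx, hy0⟩)
    · exfalso
      have := key (-x) y (by linarith) hy.le (by
        rw [neg_smul]; exact (eq_neg_of_add_eq_zero_right h).symm)
      linarith [this.1]

end CORN

/-- B8: cutting a corner -/
theorem S_corner_proof : S_corner := by
  intro p b q l hs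
  obtain ⟨-, hpw, hnd⟩ := hs
  rw [CORN.edges_old] at hpw hnd
  rw [List.pairwise_cons, List.pairwise_append] at hpw
  obtain ⟨h1, h2, -, h3⟩ := hpw
  have hb : p ≠ b := hnd (p, b) (by simp)
  have hq : q ≠ p := hnd (q, p) (by simp)
  have hd : Disj (p, b) (q, p) := h1 (q, p) (by simp)
  have hpE : ∀ e ∈ chain b (l ++ [q]), Disj (p, b) e := fun e he => h1 e (by simp [he])
  have hqE : ∀ e ∈ chain b (l ++ [q]), Disj e (q, p) := fun e he => h3 e he (q, p) (by simp)
  have hfar0 : ∀ e ∈ chain b (l ++ [q]), ∀ r : ℝ, 0 ≤ r → r ≤ 1 → lerp e.1 e.2 r ≠ p := by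
    intro e he r hr0 hr1 heq
    rcases hr1.eq_or_lt with hr | hr
    · rw [hr, lerp_one] at heq
      obtain ⟨z, hz⟩ := CORN.chain_start b p (l ++ [q]) e.2 (CORN.chain_snd _ _ _ he)
      have hz' : (e.2, z) ∈ chain b (l ++ [q]) ++ [(q, p)] := by
        have h : chain b (l ++ q :: [p]) = chain b (l ++ [q]) ++ chain q [p] :=
          chain_append b q l [p]
        have h' : chain q [p] = [(q, p)] := rfl
        rw [← h', ← h]
        simpa using hz
      refine h1 _ hz' 0 0 le_rfl zero_lt_one le_rfl zero_lt_one ?_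
      simp only [lerp_zero]
      exact heq.symm
    · refine hpE e he 0 r le_rfl zero_lt_one hr0 hr ?_
      simp only [lerp_zero]
      exact heq.symm
  have hfar := CORN.far p (b - p) (q - p) _ hfar0
  have hin := CORN.indep p b q hd hb hq
  obtain ⟨ε, hε, hρ⟩ := Metric.eventually_nhds_iff.1 hfar
  set ρ : ℝ := min (ε / 2) (1 / 4) with hρdef
  have hρ0 : 0 < ρ := lt_min (by positivity) (by norm_num)
  have hρ1 : ρ ≤ 1 / 4 := min_le_right _ _
  have hρε : dist ρ 0 < ε := by
    rw [Real.dist_eq, sub_zero, abs_of_pos hρ0]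
    have : ρ ≤ ε / 2 := min_le_left _ _
    linarith
  have hfarρ := hρ hρε
  refine ⟨ρ, hρ0, by linarith, ?_⟩
  intro s hs0 hs1
  set σ : ℝ := s / 2 with hσ
  have hσ0 : 0 ≤ σ := by positivity
  have hσ1 : σ ≤ 1 / 2 := by rw [hσ]; linarith
  have hv : p + (s * ρ / 2) • ((q - p) + (b - p)) = p + (σ * ρ) • ((q - p) + (b - p)) := by
    rw [hσ]; congr 2; ring
  rw [hv]
  set A : V := p + ρ • (q - p) with hA
  set B : V := p + ρ • (b - p) with hB
  set v : V := p + (σ * ρ) • ((q - p) + (b - p)) with hvd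
  -- points on the four new edges
  have pvB : ∀ τ : ℝ, lerp v B τ = p + (ρ * (σ * (1 - τ) + τ)) • (b - p) +
      (ρ * (σ * (1 - τ))) • (q - p) := by
    intro τ; rw [hvd, hB]; unfold lerp; module
  have pBb : ∀ τ : ℝ, lerp B b τ = p + (ρ + τ * (1 - ρ)) • (b - p) := by
    intro τ; rw [hB]; unfold lerp; module
  have pBb' : ∀ τ : ℝ, lerp B b τ = lerp p b (ρ + τ * (1 - ρ)) := by
    intro τ; rw [hB]; unfold lerp; module
  have pqA : ∀ τ : ℝ, lerp q A τ = p + (1 - τ * (1 - ρ)) • (q - p) := by
    intro τ; rw [hA]; unfold lerp; module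
  have pqA' : ∀ τ : ℝ, lerp q A τ = lerp q p (τ * (1 - ρ)) := by
    intro τ; rw [hA]; unfold lerp; module
  have pAv : ∀ τ : ℝ, lerp A v τ = p + (ρ * (τ * σ)) • (b - p) +
      (ρ * ((1 - τ) + τ * σ)) • (q - p) := by
    intro τ; rw [hvd, hA]; unfold lerp; module
  -- disjointness
  have vB_E : ∀ e ∈ chain b (l ++ [q]), Disj (v, B) e := by
    intro e he x y hx0 hx1 hy0 hy1 heq
    have heq' : lerp v B x = lerp e.1 e.2 y := heq
    rw [pvB] at heq'
    exact hfarρ _ _ (by nlinarith) (by nlinarith) (by nlinarith) (by nlinarith) e he y hy0 hy1 heq'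
  have Av_E : ∀ e ∈ chain b (l ++ [q]), Disj (A, v) e := by
    intro e he x y hx0 hx1 hy0 hy1 heq
    have heq' : lerp A v x = lerp e.1 e.2 y := heq
    rw [pAv] at heq'
    exact hfarρ _ _ (by nlinarith) (by nlinarith) (by nlinarith) (by nlinarith) e he y hy0 hy1 heq'
  have Bb_E : ∀ e ∈ chain b (l ++ [q]), Disj (B, b) e := by
    intro e he x y hx0 hx1 hy0 hy1 heq
    have heq' : lerp B b x = lerp e.1 e.2 y := heq
    rw [pBb'] at heq'
    exact hpE e he _ y (by nlinarith) (by nlinarith) hy0 hy1 heq'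
  have qA_E : ∀ e ∈ chain b (l ++ [q]), Disj e (q, A) := by
    intro e he y x hy0 hy1 hx0 hx1 heq
    have heq' : lerp e.1 e.2 y = lerp q A x := heq
    rw [pqA'] at heq'
    exact hqE e he y _ hy0 hy1 (by nlinarith) (by nlinarith) heq'
  have Bb_qA : Disj (B, b) (q, A) := by
    intro x y hx0 hx1 hy0 hy1 heq
    have heq' : lerp B b x = lerp q A y := heq
    rw [pBb', pqA'] at heq'
    exact hd _ _ (by nlinarith) (by nlinarith) (by nlinarith) (by nlinarith) heq'
  have vB_Bb : Disj (v, B) (B, b) := by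
    intro x y hx0 hx1 hy0 hy1 heq
    have heq' : lerp v B x = lerp B b y := heq
    rw [pvB, pBb] at heq'
    have hz : (ρ * (σ * (1 - x) + x) - (ρ + y * (1 - ρ))) • (b - p) +
        (ρ * (σ * (1 - x))) • (q - p) = 0 := by
      have e : (ρ * (σ * (1 - x) + x) - (ρ + y * (1 - ρ))) • (b - p) +
        (ρ * (σ * (1 - x))) • (q - p) = (p + (ρ * (σ * (1 - x) + x)) • (b - p) +
        (ρ * (σ * (1 - x))) • (q - p)) - (p + (ρ + y * (1 - ρ)) • (b - p)) := by module
      rw [e, heq', sub_self]
    have hneg : ρ * (σ * (1 - x) + x) - (ρ + y * (1 - ρ)) < 0 := by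
      have h1 : 0 < ρ * ((1 - x) * (1 - σ)) := by
        have : 0 < (1 - x) * (1 - σ) := mul_pos (by linarith) (by linarith)
        positivity
      have h2 : 0 ≤ y * (1 - ρ) := mul_nonneg hy0 (by linarith)
      nlinarith
    have hpos : 0 ≤ ρ * (σ * (1 - x)) := by
      have : 0 ≤ σ * (1 - x) := mul_nonneg hσ0 (by linarith)
      positivity
    rcases hin _ _ hz with h | h | h
    · linarith [h.1]
    · linarith [h.1]
    · linarith [h.2]
  have vB_qA : Disj (v, B) (q, A) := by
    intro x y hx0 hx1 hy0 hy1 heq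
    have heq' : lerp v B x = lerp q A y := heq
    rw [pvB, pqA] at heq'
    have hz : (ρ * (σ * (1 - x) + x)) • (b - p) +
        (ρ * (σ * (1 - x)) - (1 - y * (1 - ρ))) • (q - p) = 0 := by
      have e : (ρ * (σ * (1 - x) + x)) • (b - p) +
        (ρ * (σ * (1 - x)) - (1 - y * (1 - ρ))) • (q - p) = (p + (ρ * (σ * (1 - x) + x)) • (b - p) +
        (ρ * (σ * (1 - x))) • (q - p)) - (p + (1 - y * (1 - ρ)) • (q - p)) := by module
      rw [e, heq', sub_self]
    have h1 : 0 ≤ ρ * (σ * (1 - x) + x) := by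
      have : 0 ≤ σ * (1 - x) + x := by nlinarith
      positivity
    have h2 : ρ * (σ * (1 - x)) - (1 - y * (1 - ρ)) < 0 := by
      have h3 : σ * (1 - x) ≤ 1 / 2 := by nlinarith
      have h4 : ρ * (σ * (1 - x)) ≤ ρ * (1 / 2) := mul_le_mul_of_nonneg_left h3 hρ0.le
      have h5 : y * (1 - ρ) ≤ 1 * (1 - ρ) := mul_le_mul_of_nonneg_right hy1.le (by linarith)
      linarith
    rcases hin _ _ hz with h | h | h
    · linarith [h.2]
    · linarith [h.2]
    · linarith [h.1]
  have vB_Av : Disj (v, B) (A, v) := by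
    intro x y hx0 hx1 hy0 hy1 heq
    have heq' : lerp v B x = lerp A v y := heq
    rw [pvB, pAv] at heq'
    have hz : (ρ * (σ * (1 - x) + x) - ρ * (y * σ)) • (b - p) +
        (ρ * (σ * (1 - x)) - ρ * ((1 - y) + y * σ)) • (q - p) = 0 := by
      have e : (ρ * (σ * (1 - x) + x) - ρ * (y * σ)) • (b - p) +
        (ρ * (σ * (1 - x)) - ρ * ((1 - y) + y * σ)) • (q - p) =
        (p + (ρ * (σ * (1 - x) + x)) • (b - p) +
        (ρ * (σ * (1 - x))) • (q - p)) - (p + (ρ * (y * σ)) • (b - p) +
      (ρ * ((1 - y) + y * σ)) • (q - p)) := by module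
      rw [e, heq', sub_self]
    have h1 : 0 ≤ ρ * (σ * (1 - x) + x) - ρ * (y * σ) := by
      have : 0 ≤ σ * (1 - y) + (1 - σ) * x := by
        have := mul_nonneg hσ0 (by linarith : (0 : ℝ) ≤ 1 - y)
        have := mul_nonneg (by linarith : (0 : ℝ) ≤ 1 - σ) hx0
        linarith
      nlinarith
    have h2 : ρ * (σ * (1 - x)) - ρ * ((1 - y) + y * σ) < 0 := by
      have : 0 < (1 - σ) * (1 - y) + σ * x := by
        have := mul_pos (by linarith : (0 : ℝ) < 1 - σ) (by linarith : (0 : ℝ) < 1 - y)
        have := mul_nonneg hσ0 hx0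
        linarith
      nlinarith
    rcases hin _ _ hz with h | h | h
    · linarith [h.2]
    · linarith [h.2]
    · linarith [h.1]
  have Bb_Av : Disj (B, b) (A, v) := by
    intro x y hx0 hx1 hy0 hy1 heq
    have heq' : lerp B b x = lerp A v y := heq
    rw [pBb, pAv] at heq'
    have hz : (ρ + x * (1 - ρ) - ρ * (y * σ)) • (b - p) +
        (-(ρ * ((1 - y) + y * σ))) • (q - p) = 0 := by
      have e : (ρ + x * (1 - ρ) - ρ * (y * σ)) • (b - p) +
        (-(ρ * ((1 - y) + y * σ))) • (q - p) =
        (p + (ρ + x * (1 - ρ)) • (b - p)) - (p + (ρ * (y * σ)) • (b - p) +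
      (ρ * ((1 - y) + y * σ)) • (q - p)) := by module
      rw [e, heq', sub_self]
    have h1 : 0 < ρ + x * (1 - ρ) - ρ * (y * σ) := by
      have h3 : 0 ≤ x * (1 - ρ) := mul_nonneg hx0 (by linarith)
      have h4 : y * σ ≤ 1 / 2 := by nlinarith
      have h5 : ρ * (y * σ) ≤ ρ * (1 / 2) := mul_le_mul_of_nonneg_left h4 hρ0.le
      linarith
    have h2 : -(ρ * ((1 - y) + y * σ)) ≤ 0 := by
      have : 0 ≤ (1 - y) + y * σ := by nlinarith
      have := mul_nonneg hρ0.le this
      linarith
    rcases hin _ _ hz with h | h | h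
    · linarith [h.1]
    · linarith [h.2]
    · linarith [h.1]
  have qA_Av : Disj (q, A) (A, v) := by
    intro x y hx0 hx1 hy0 hy1 heq
    have heq' : lerp q A x = lerp A v y := heq
    rw [pqA, pAv] at heq'
    have hz : (-(ρ * (y * σ))) • (b - p) +
        ((1 - x * (1 - ρ)) - ρ * ((1 - y) + y * σ)) • (q - p) = 0 := by
      have e : (-(ρ * (y * σ))) • (b - p) +
        ((1 - x * (1 - ρ)) - ρ * ((1 - y) + y * σ)) • (q - p) =
        (p + (1 - x * (1 - ρ)) • (q - p)) - (p + (ρ * (y * σ)) • (b - p) +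
      (ρ * ((1 - y) + y * σ)) • (q - p)) := by module
      rw [e, heq', sub_self]
    have h1 : -(ρ * (y * σ)) ≤ 0 := by
      have := mul_nonneg hρ0.le (mul_nonneg hy0 hσ0)
      linarith
    have h2 : 0 < (1 - x * (1 - ρ)) - ρ * ((1 - y) + y * σ) := by
      have h3 : x * (1 - ρ) < 1 * (1 - ρ) := mul_lt_mul_of_pos_right hx1 (by linarith)
      have h4 : (1 - y) + y * σ ≤ 1 := by nlinarith
      have h5 : ρ * ((1 - y) + y * σ) ≤ ρ * 1 := mul_le_mul_of_nonneg_left h4 hρ0.le
      linarith
    rcases hin _ _ hz with h | h | h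
    · linarith [h.2]
    · linarith [h.1]
    · linarith [h.2]
  refine ⟨by simp, ?_, ?_⟩
  · rw [CORN.edges_new]
    rw [List.pairwise_cons, List.pairwise_cons, List.pairwise_append]
    refine ⟨?_, ?_, h2, ?_, ?_⟩
    · intro e he
      simp only [List.mem_cons, List.mem_append, List.not_mem_nil, or_false] at he
      rcases he with rfl | he | rfl | rfl
      · exact vB_Bb
      · exact vB_E e he
      · exact vB_qA
      · exact vB_Av
    · intro e he
      simp only [List.mem_cons, List.mem_append, List.not_mem_nil, or_false] at he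
      rcases he with he | rfl | rfl
      · exact Bb_E e he
      · exact Bb_qA
      · exact Bb_Av
    · simp only [List.pairwise_cons, List.mem_cons, List.not_mem_nil, or_false, forall_eq,
        false_imp_iff, implies_true, List.Pairwise.nil, and_true]
      exact qA_Av
    · intro e he e' he'
      simp only [List.mem_cons, List.not_mem_nil, or_false] at he'
      rcases he' with rfl | rfl
      · exact qA_E e he
      · exact (Av_E e he).symm
  · rw [CORN.edges_new]
    intro e he
    simp only [List.mem_cons, List.mem_append, List.not_mem_nil, or_false] at he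
    rcases he with rfl | rfl | he | rfl | rfl
    · -- v ≠ B
      intro h
      have h' : v = B := h
      have hz : (ρ * (σ - 1)) • (b - p) + (ρ * σ) • (q - p) = 0 := by
        have e : (ρ * (σ - 1)) • (b - p) + (ρ * σ) • (q - p) = v - B := by
          rw [hvd, hB]; module
        rw [e, h', sub_self]
      have h1 : ρ * (σ - 1) < 0 := by nlinarith
      have h2 : 0 ≤ ρ * σ := by positivity
      rcases hin _ _ hz with h | h | h
      · linarith [h.1]
      · linarith [h.1]
      · linarith [h.2]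
    · -- B ≠ b
      intro h
      have h' : B = b := h
      have hz : (1 - ρ) • (b - p) = 0 := by
        have e : (1 - ρ) • (b - p) = b - B := by rw [hB]; module
        rw [e, h', sub_self]
      rcases smul_eq_zero.1 hz with h | h
      · linarith
      · exact hb (sub_eq_zero.1 h).symm
    · exact hnd e (by simp [he])
    · intro h
      have h' : q = A := h
      have hz : (1 - ρ) • (q - p) = 0 := by
        have e : (1 - ρ) • (q - p) = q - A := by rw [hA]; module
        rw [e, ← h', sub_self]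
      rcases smul_eq_zero.1 hz with h | h
      · linarith
      · exact hq (sub_eq_zero.1 h)
    · intro h
      have h' : A = v := h
      have hz : (-(ρ * σ)) • (b - p) + (ρ * (1 - σ)) • (q - p) = 0 := by
        have e : (-(ρ * σ)) • (b - p) + (ρ * (1 - σ)) • (q - p) = A - v := by
          rw [hvd, hA]; module
        rw [e, h', sub_self]
      have h1 : -(ρ * σ) ≤ 0 := by
        have : 0 ≤ ρ * σ := by positivity
        linarith
      have h2 : 0 < ρ * (1 - σ) := by
        have : 0 < 1 - σ := by linarith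
        positivity
      rcases hin _ _ hz with h | h | h
      · linarith [h.2]
      · linarith [h.1]
      · linarith [h.2]

end KN
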