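import Pool.Agent.H246KN.Stubs

/-!
# B3: families with beads
-/

set_option autoImplicit false

namespace KN

open Finset Filter Topology
open scoped Classical

namespace FAM

theorem last_chain (p x : V) (l : List V) : ((p :: l).getLastD 0, x) ∈ chain p (l ++ [x]) := by
  induction l generalizing p with
  | nil => simp [chain]
  | cons q l ih =>
    have h := ih q
    have e : (p :: q :: l).getLastD (0 : V) = (q :: l).getLastD 0 := by simp
    rw [e]
    exact List.mem_cons_of_mem _ h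

theorem closing_ne {l : List V} (h : Simple l) : l.getLastD 0 ≠ l.headD 0 := by
  obtain ⟨h1, _, h2⟩ := h
  cases l with
  | nil => exact absurd rfl h1
  | cons p l =>
    have h3 := h2 _ (last_chain p p l)
    exact h3

theorem frame_exists {D : V} (h : D ≠ 0) : ∃ u w : V, 0 < det3 D u w := by
  obtain ⟨a, b, c⟩ := D
  by_cases ha : a = 0
  · by_cases hb : b = 0
    · have hc : c ≠ 0 := by
        intro hc
        apply h
        rw [ha, hb, hc]
        rfl
      refine ⟨(c, 0, 0), (0, 1, 0), ?_⟩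
      simp only [det3]
      have : 0 < c * c := mul_self_pos.2 hc
      nlinarith
    · refine ⟨(0, 0, b), (1, 0, 0), ?_⟩
      simp only [det3]
      have : 0 < b * b := mul_self_pos.2 hb
      nlinarith
  · refine ⟨(0, a, 0), (0, 0, 1), ?_⟩
    simp only [det3]
    have : 0 < a * a := mul_self_pos.2 ha
    nlinarith

theorem det3_smul (D u w : V) (δ : ℝ) : det3 D (δ • u) (δ • w) = δ ^ 2 * det3 D u w := by
  simp only [det3, Prod.smul_fst, Prod.smul_snd, smul_eq_mul]
  ring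

theorem ofFn_ne_nil {k : ℕ} {f : Fin k → V} (h : Simple (List.ofFn f)) : 0 < k := by
  rcases Nat.eq_zero_or_pos k with h0 | h0
  · subst h0
    exact absurd (List.ofFn_zero) h.1
  · exact h0

theorem headD_ofFn {n : ℕ} (f : Fin (n + 1) → V) : (List.ofFn f).headD 0 = f 0 := by
  simp [List.ofFn_succ]

theorem lastD_ofFn {n : ℕ} (f : Fin (n + 1) → V) :
    (List.ofFn f).getLastD 0 = f (Fin.last n) := by
  rw [List.ofFn_succ']
  simp

/-- Step 1: a fixed frame. -/
theorem fixed_frame (hcone : S_cone) (hbead : S_bead) (hrefl : S_gsRefl) (n m : ℕ)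
    (γ : ℝ → Fin (n + 1) → V) (α : ℝ → Fin m → V) (κ : ℝ) (hκ : 0 ≤ κ)
    (hγ : ∀ i, Continuous (fun t => γ t i)) (hα : ∀ i, Continuous (fun t => α t i))
    (hS : ∀ t : ℝ, 0 ≤ t → t ≤ 1 → Simple (List.ofFn (γ t)))
    (hB : ∀ t : ℝ, 0 ≤ t → t ≤ 1 → IsBead κ (List.ofFn (α t))) (u w : V)
    (hd : ∀ t : ℝ, 0 ≤ t → t ≤ 1 → 0 < det3 (γ t 0 - γ t (Fin.last n)) u w) :
    GS (List.ofFn (γ 0)) (List.ofFn (α 0)) (List.ofFn (γ 1)) (List.ofFn (α 1)) := by
  obtain ⟨δ₀, hδ₀, hCF⟩ := hcone (n + 1) γ (fun _ => u) (fun _ => w) κ hκ hγ continuous_const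
    continuous_const hS
  have hmot : ∀ δ : ℝ, 0 < δ → δ ≤ δ₀ →
      Same (insB (List.ofFn (γ 0)) (List.ofFn (α 0)) (δ • u) (δ • w))
        (insB (List.ofFn (γ 1)) (List.ofFn (α 1)) (δ • u) (δ • w)) := by
    intro δ h0 h1
    set Γ : ℝ → Fin (n + 1 + m) → V := fun t => Fin.append (γ t)
      (fun j => Fm (γ t (Fin.last n)) (γ t 0) (δ • u) (δ • w) (α t j)) with hΓ
    have hins : ∀ t, insB (List.ofFn (γ t)) (List.ofFn (α t)) (δ • u) (δ • w) =
        List.ofFn (Γ t) := by
      intro t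
      rw [hΓ]
      simp only
      rw [List.ofFn_fin_append, insB, headD_ofFn, lastD_ofFn, List.map_ofFn]
      rfl
    rw [hins, hins]
    refine Same.of_move (Move.iso (n + 1 + m) Γ ?_ ?_)
    · intro i
      refine Fin.addCases (fun i => ?_) (fun j => ?_) i
      · simp only [hΓ, Fin.append_left]
        exact hγ i
      · simp only [hΓ, Fin.append_right, Fm]
        have h1 := hγ 0
        have h2 := hγ (Fin.last n)
        have h3 := hα j
        fun_prop
    · intro t ht0 ht1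
      rw [← hins]
      refine hbead κ _ _ _ _ (hS t ht0 ht1) (hB t ht0 ht1) (hCF t ht0 ht1 δ h0 h1) ?_
      rw [headD_ofFn, lastD_ofFn, det3_smul]
      have := hd t ht0 ht1
      positivity
  intro u1 w1 u2 w2 h1 h2
  have hh0 : 0 < det3 ((List.ofFn (γ 0)).headD 0 - (List.ofFn (γ 0)).getLastD 0) u w := by
    rw [headD_ofFn, lastD_ofFn]
    exact hd 0 le_rfl zero_le_one
  have hh1 : 0 < det3 ((List.ofFn (γ 1)).headD 0 - (List.ofFn (γ 1)).getLastD 0) u w := by
    rw [headD_ofFn, lastD_ofFn]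
    exact hd 1 zero_le_one le_rfl
  obtain ⟨δ₁, hδ₁, hr1⟩ := hrefl κ _ _ (hS 0 le_rfl zero_le_one) (hB 0 le_rfl zero_le_one)
    u1 w1 u w h1 hh0
  obtain ⟨δ₂, hδ₂, hr2⟩ := hrefl κ _ _ (hS 1 zero_le_one le_rfl) (hB 1 zero_le_one le_rfl)
    u w u2 w2 hh1 h2
  set δ₃ := min δ₀ (min δ₁ δ₂) with hδ₃
  have h3 : 0 < δ₃ := lt_min hδ₀ (lt_min hδ₁ hδ₂)
  have h30 : δ₃ ≤ δ₀ := min_le_left _ _
  have h31 : δ₃ ≤ δ₁ := (min_le_right _ _).trans (min_le_left _ _)
  have h32 : δ₃ ≤ δ₂ := (min_le_right _ _).trans (min_le_right _ _)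
  refine ⟨δ₃, h3, fun δ δ' hδ0 hδ1 hδ0' hδ1' => ?_⟩
  refine (hr1 δ δ₃ hδ0 (hδ1.trans h31) h3 h31).trans ?_
  refine (hmot δ₃ h3 h30).trans ?_
  exact hr2 δ₃ δ' h3 h32 hδ0' (hδ1'.trans h32)

end FAM

open FAM in
theorem S_fam_proof (hcone : S_cone) (hbead : S_bead) (hrefl : S_gsRefl) (htr : S_gsTrans) :
    S_fam := by
  intro k m γ α κ hκ hγ hα hS hB
  have hk : 0 < k := ofFn_ne_nil (hS 0 le_rfl zero_le_one)
  obtain ⟨n, rfl⟩ : ∃ n, k = n + 1 := ⟨k - 1, by omega⟩
  have key := (isPreconnected_Icc (a := (0 : ℝ)) (b := 1)).induction₂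
    (fun s t => GS (List.ofFn (γ s)) (List.ofFn (α s)) (List.ofFn (γ t)) (List.ofFn (α t)))
    (by
      intro t0 ht0
      have hne := closing_ne (hS t0 ht0.1 ht0.2)
      rw [headD_ofFn, lastD_ofFn] at hne
      obtain ⟨u, w, huw⟩ := frame_exists (sub_ne_zero.2 hne.symm)
      have hcont : Continuous fun t => det3 (γ t 0 - γ t (Fin.last n)) u w := by
        have h1 := hγ 0
        have h2 := hγ (Fin.last n)
        simp only [det3]
        fun_prop
      obtain ⟨ε, hε, hb⟩ := Metric.eventually_nhds_iff.1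
        (hcont.continuousAt.eventually (lt_mem_nhds huw))
      refine eventually_nhdsWithin_iff.2 (Metric.eventually_nhds_iff.2 ⟨ε, hε, ?_⟩)
      intro t ht ht1
      have hseg : ∀ s : ℝ, 0 ≤ s → s ≤ 1 → 0 ≤ t0 + s * (t - t0) ∧ t0 + s * (t - t0) ≤ 1 := by
        intro s hs0 hs1
        have h1 : t0 + s * (t - t0) = (1 - s) * t0 + s * t := by ring
        rw [h1]
        have h2 : 0 ≤ 1 - s := by linarith
        constructor
        · have := mul_nonneg h2 ht0.1
          have := mul_nonneg hs0 ht1.1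
          linarith
        · have := mul_le_mul_of_nonneg_left ht0.2 h2
          have := mul_le_mul_of_nonneg_left ht1.2 hs0
          linarith
      have h1 := fixed_frame hcone hbead hrefl n m (fun s => γ (t0 + s * (t - t0)))
        (fun s => α (t0 + s * (t - t0))) κ hκ
        (fun i => (hγ i).comp (by fun_prop)) (fun i => (hα i).comp (by fun_prop))
        (fun s hs0 hs1 => hS _ (hseg s hs0 hs1).1 (hseg s hs0 hs1).2)
        (fun s hs0 hs1 => hB _ (hseg s hs0 hs1).1 (hseg s hs0 hs1).2) u w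
        (fun s hs0 hs1 => hb (by
          rw [Real.dist_eq] at ht ⊢
          have h2 : t0 + s * (t - t0) - t0 = s * (t - t0) := by ring
          rw [h2, abs_mul, abs_of_nonneg hs0]
          calc s * |t - t0| ≤ 1 * |t - t0| := by gcongr
            _ < ε := by rw [one_mul]; exact ht))
      simpa using h1)
    (fun x y z _ hy _ h1 h2 => htr.2 _ _ _ _ _ _ (hS y hy.1 hy.2) h1 h2)
    (fun x y _ _ h => htr.1 _ _ _ _ h)
    (x := 0) (y := 1) (by simp) (by simp)
  exact key

end KN
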