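import Pool.Agent.H246KN.Stubs

set_option autoImplicit false

namespace KN.FIN

open KN

/-- index -/
def idx : Dir → ℕ
  | .xp => 0
  | .xm => 1
  | .yp => 2
  | .ym => 3
  | .zp => 4
  | .zm => 5

def axn : Dir → ℕ
  | .xp => 0
  | .xm => 0
  | .yp => 1
  | .ym => 1
  | .zp => 2
  | .zm => 2

def eqB (x y : Dir) : Bool := Nat.beq (idx x) (idx y)
def prpB (x y : Dir) : Bool := !(Nat.beq (axn x) (axn y))

def bn : Bool → ℕ
  | true => 1
  | false => 0

def cnt (f : Dir → Bool) : ℕ :=
  bn (f .xp) + bn (f .xm) + bn (f .yp) + bn (f .ym) + bn (f .zp) + bn (f .zm)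

def HN (p b : Dir) (u : Bool) (k : ℕ) : ℕ :=
  bif eqB p b then 460 + 10 * k else bif u then 432 + 12 * k else 370 + 11 * k

/-- exponent plus five -/
def EE (p b : Dir) (j bb : Dir → Bool) (v : Dir) : ℕ :=
  2 * cnt j + cnt (fun d => j d && (prpB d b && !(eqB d (neg p)))) + 1 +
    (bif prpB v b then (bif bb v then 1 else 2) else 0) + cnt (fun d => j d && prpB d v)

def tm (p b : Dir) (j bb : Dir → Bool) (v : Dir) : ℕ :=
  bif eqB v (neg b) || j v then 0 else
    21 ^ (EE p b j bb v) * 20 ^ (27 - EE p b j bb v) *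
      (bif eqB v (neg p) && prpB v b then 1 else 1000) *
      HN b v (bb v || eqB v (neg p)) (cnt (fun d => j d && prpB d v))

def mk6 (a b c d e f : Bool) : Dir → Bool
  | .xp => a
  | .xm => b
  | .yp => c
  | .ym => d
  | .zp => e
  | .zm => f

def chk (p b : Dir) (j bb : Dir → Bool) : Bool :=
  eqB p (neg b) || j (neg b) || bb b || bb (neg p) ||
    Nat.ble (4 * (tm p b j bb .xp + tm p b j bb .xm + tm p b j bb .yp + tm p b j bb .ym +
      tm p b j bb .zp + tm p b j bb .zm))
      (15 * HN p b (j (neg p)) (cnt (fun d => bb d && prpB d b)) * (21 ^ 5 * 20 ^ 22 * 1000))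

def allB (f : Bool → Bool) : Bool := f true && f false

def allD (f : Dir → Bool) : Bool := f .xp && f .xm && f .yp && f .ym && f .zp && f .zm

def all6 (f : (Dir → Bool) → Bool) : Bool :=
  allB fun a => allB fun b => allB fun c => allB fun d => allB fun e => allB fun g =>
    f (mk6 a b c d e g)

def chkp (p b : Dir) : Bool :=
  eqB p (neg b) || all6 fun j => j (neg b) || all6 fun bb => chk p b j bb

set_option maxRecDepth 100000 in
theorem chk_all : (allD fun p => allD fun b => chkp p b) = true := by decide +kernel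

theorem allB_iff {f : Bool → Bool} : allB f = true ↔ ∀ x, f x = true := by
  unfold allB
  rw [Bool.and_eq_true]
  constructor
  · rintro ⟨h1, h2⟩ x
    cases x
    · exact h2
    · exact h1
  · intro h
    exact ⟨h _, h _⟩

theorem allD_spec {f : Dir → Bool} (h : allD f = true) (x : Dir) : f x = true := by
  unfold allD at h
  simp only [Bool.and_eq_true] at h
  cases x <;> tauto

theorem mk6_eq (f : Dir → Bool) :
    mk6 (f .xp) (f .xm) (f .yp) (f .ym) (f .zp) (f .zm) = f := by
  funext d
  cases d <;> rfl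

theorem all6_spec {f : (Dir → Bool) → Bool} (h : all6 f = true) (g : Dir → Bool) : f g = true := by
  unfold all6 at h
  have h1 := allB_iff.1 h (g .xp)
  have h2 := allB_iff.1 h1 (g .xm)
  have h3 := allB_iff.1 h2 (g .yp)
  have h4 := allB_iff.1 h3 (g .ym)
  have h5 := allB_iff.1 h4 (g .zp)
  have h6 := allB_iff.1 h5 (g .zm)
  rwa [mk6_eq] at h6

theorem eqB_iff (x y : Dir) : eqB x y = true ↔ x = y := by
  cases x <;> cases y <;> simp [eqB, idx]

theorem prpB_iff (x y : Dir) : prpB x y = true ↔ perp x y := by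
  cases x <;> cases y <;> decide

theorem eqB_false (x y : Dir) : eqB x y = false ↔ x ≠ y := by
  rw [← Bool.not_eq_true, eqB_iff]

theorem prpB_false (x y : Dir) : prpB x y = false ↔ ¬ perp x y := by
  rw [← Bool.not_eq_true, prpB_iff]

/-- the finite inequality, in integers -/
theorem main_nat (p b : Dir) (j bb : Dir → Bool) (h1 : p ≠ neg b) (h2 : j (neg b) = false)
    (h3 : bb b = false) (h4 : bb (neg p) = false) :
    4 * (tm p b j bb .xp + tm p b j bb .xm + tm p b j bb .yp + tm p b j bb .ym +
      tm p b j bb .zp + tm p b j bb .zm) ≤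
      15 * HN p b (j (neg p)) (cnt (fun d => bb d && prpB d b)) * (21 ^ 5 * 20 ^ 22 * 1000) := by
  have h := allD_spec (allD_spec chk_all p) b
  unfold chkp at h
  rw [(eqB_false p (neg b)).2 h1, Bool.false_or] at h
  have h5 := all6_spec h j
  rw [h2, Bool.false_or] at h5
  have h6 := all6_spec h5 bb
  unfold chk at h6
  rw [(eqB_false p (neg b)).2 h1, h2, h3, h4] at h6
  simp only [Bool.false_or] at h6
  exact Nat.le_of_ble_eq_true h6

theorem sumD {M : Type} [AddCommMonoid M] (f : Dir → M) :
    ∑ d : Dir, f d = f .xp + f .xm + f .yp + f .ym + f .zp + f .zm := by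
  have h : (Finset.univ : Finset Dir) = {.xp, .xm, .yp, .ym, .zp, .zm} := rfl
  rw [h]
  rw [Finset.sum_insert (by decide), Finset.sum_insert (by decide), Finset.sum_insert (by decide),
    Finset.sum_insert (by decide), Finset.sum_insert (by decide), Finset.sum_singleton]
  simp only [add_assoc]

theorem card_cnt (f : Dir → Bool) (S : Finset Dir) (h : ∀ d, d ∈ S ↔ f d = true) :
    S.card = cnt f := by
  have h1 : S = (Finset.univ : Finset Dir).filter (fun d => f d = true) := by
    ext d
    rw [h, Finset.mem_filter]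
    simp
  rw [h1, Finset.card_filter, sumD]
  unfold cnt
  have h2 : ∀ x : Bool, (if x = true then 1 else 0) = bn x := by
    intro x
    cases x <;> rfl
  simp only [h2]

theorem cnt_le (f : Dir → Bool) : cnt f ≤ 6 := by
  unfold cnt
  have : ∀ x, bn x ≤ 1 := by intro x; cases x <;> simp [bn]
  have h1 := this (f .xp)
  have h2 := this (f .xm)
  have h3 := this (f .yp)
  have h4 := this (f .ym)
  have h5 := this (f .zp)
  have h6 := this (f .zm)
  omega

theorem HN_eq (p b : Dir) (P : Prop) (u : Bool) (h : u = true ↔ P) (k : ℕ) :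
    Hs p b P k = (HN p b u k : ℝ) := by
  unfold HN Hs
  by_cases h1 : p = b
  · rw [if_pos h1, (eqB_iff p b).2 h1]
    simp
  · rw [if_neg h1, (eqB_false p b).2 h1]
    by_cases h2 : P
    · rw [if_pos h2, h.2 h2]
      simp
    · have h3 : u = false := by
        rw [← Bool.not_eq_true, h]
        exact h2
      rw [if_neg h2, h3]
      simp

theorem EE_eq (p b : Dir) (J B : Finset Dir) (v : Dir) :
    e0 p b J B v =
      (EE p b (fun d => decide (d ∈ J)) (fun d => decide (d ∈ B)) v : ℤ) - 5 := by
  unfold e0 EE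
  have c1 : J.card = cnt (fun d => decide (d ∈ J)) := card_cnt _ _ (by intro d; simp)
  have c2 : (J.filter (fun j => perp j b ∧ j ≠ neg p)).card =
      cnt (fun d => decide (d ∈ J) && (prpB d b && !(eqB d (neg p)))) := card_cnt _ _ (by
    intro d
    rw [Finset.mem_filter, Bool.and_eq_true, Bool.and_eq_true, Bool.not_eq_true', prpB_iff,
      eqB_false, decide_eq_true_iff])
  have c3 : (J.filter (fun j => perp j v)).card =
      cnt (fun d => decide (d ∈ J) && prpB d v) := card_cnt _ _ (by
    intro d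
    rw [Finset.mem_filter, Bool.and_eq_true, prpB_iff, decide_eq_true_iff])
  rw [c1, c2, c3]
  by_cases h1 : perp v b
  · rw [if_pos h1, (prpB_iff v b).2 h1]
    by_cases h2 : v ∈ B
    · rw [if_pos ⟨h1, h2⟩]
      simp only [h2, decide_true, cond_true]
      push_cast
      ring
    · rw [if_neg (fun h => h2 h.2)]
      simp only [h2, decide_false, cond_true, cond_false]
      push_cast
      ring
  · rw [if_neg h1, (prpB_false v b).2 h1, if_neg (fun h => h1 h.1)]
    simp only [cond_false]
    push_cast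
    ring

theorem EE_le (p b : Dir) (j bb : Dir → Bool) (v : Dir) : EE p b j bb v ≤ 27 := by
  unfold EE
  have h1 := cnt_le j
  have h2 := cnt_le (fun d => j d && (prpB d b && !(eqB d (neg p))))
  have h3 := cnt_le (fun d => j d && prpB d v)
  have h4 : (bif prpB v b then (bif bb v then 1 else 2) else 0) ≤ 2 := by
    cases prpB v b <;> cases bb v <;> simp
  omega

theorem pow_eq (E : ℕ) (hE : E ≤ 27) :
    (21 / 20 : ℝ) ^ ((E : ℤ) - 5) * (21 ^ 5 * 20 ^ 22) = 21 ^ E * 20 ^ (27 - E) := by
  rw [zpow_sub₀ (by norm_num), zpow_natCast]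
  have h1 : ((21 / 20 : ℝ)) ^ (5 : ℤ) = 21 ^ 5 / 20 ^ 5 := by norm_num
  rw [h1, div_pow]
  have h2 : (20 : ℝ) ^ 27 = 20 ^ E * 20 ^ (27 - E) := by
    rw [← pow_add]
    congr 1
    omega
  have h3 : (20 : ℝ) ^ E ≠ 0 := by positivity
  field_simp
  rw [h2, mul_comm]

open scoped Classical in
theorem tm_eq (p b : Dir) (J B : Finset Dir) (v : Dir) :
    (if v ≠ neg b ∧ v ∉ J then (21 / 20 : ℝ) ^ (e0 p b J B v) *
      (if v = neg p ∧ perp v b then (1 / 1000 : ℝ) else 1) *
      Hs b v (v ∈ B ∨ v = neg p) (J.filter (fun j => perp j v)).card else 0) *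
      (21 ^ 5 * 20 ^ 22 * 1000) =
      (tm p b (fun d => decide (d ∈ J)) (fun d => decide (d ∈ B)) v : ℝ) := by
  unfold tm
  beta_reduce
  by_cases h0 : v ≠ neg b ∧ v ∉ J
  · rw [if_pos h0, (eqB_false v (neg b)).2 h0.1, decide_eq_false h0.2, Bool.false_or, cond_false]
    have c3 : (J.filter (fun j => perp j v)).card =
        cnt (fun d => decide (d ∈ J) && prpB d v) := card_cnt _ _ (by
      intro d
      rw [Finset.mem_filter, Bool.and_eq_true, prpB_iff, decide_eq_true_iff])
    rw [HN_eq b v (v ∈ B ∨ v = neg p) (decide (v ∈ B) || eqB v (neg p)) (by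
      rw [Bool.or_eq_true, decide_eq_true_iff, eqB_iff]), c3, EE_eq]
    have hp := pow_eq _ (EE_le p b (fun d => decide (d ∈ J)) (fun d => decide (d ∈ B)) v)
    push_cast
    rw [← hp]
    have hw : (if v = neg p ∧ perp v b then (1 / 1000 : ℝ) else 1) * 1000 =
        (((bif eqB v (neg p) && prpB v b then 1 else 1000 : ℕ)) : ℝ) := by
      by_cases h1 : v = neg p ∧ perp v b
      · rw [if_pos h1, (eqB_iff _ _).2 h1.1, (prpB_iff _ _).2 h1.2]
        norm_num
      · rw [if_neg h1]
        have h2 : (eqB v (neg p) && prpB v b) = false := by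
          rw [← Bool.not_eq_true, Bool.and_eq_true, eqB_iff, prpB_iff]
          exact h1
        rw [h2]
        norm_num
    rw [← hw]
    ring
  · rw [if_neg h0, zero_mul]
    have h1 : (eqB v (neg b) || decide (v ∈ J)) = true := by
      rw [Bool.or_eq_true, eqB_iff, decide_eq_true_iff]
      by_contra h
      push Not at h
      exact h0 h
    rw [h1, cond_true, Nat.cast_zero]

end KN.FIN

namespace KN

open KN.FIN

theorem S_fin_proof : S_fin := by
  intro p b J B h1 h2 h3 h4
  have hm := main_nat p b (fun d => decide (d ∈ J)) (fun d => decide (d ∈ B)) h1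
    (decide_eq_false h2) (decide_eq_false h3) (decide_eq_false h4)
  have hm' : (4 : ℝ) * ((tm p b (fun d => decide (d ∈ J)) (fun d => decide (d ∈ B)) .xp : ℝ) +
      tm p b (fun d => decide (d ∈ J)) (fun d => decide (d ∈ B)) .xm +
      tm p b (fun d => decide (d ∈ J)) (fun d => decide (d ∈ B)) .yp +
      tm p b (fun d => decide (d ∈ J)) (fun d => decide (d ∈ B)) .ym +
      tm p b (fun d => decide (d ∈ J)) (fun d => decide (d ∈ B)) .zp +
      tm p b (fun d => decide (d ∈ J)) (fun d => decide (d ∈ B)) .zm) ≤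
      15 * (HN p b (decide (neg p ∈ J)) (cnt (fun d => decide (d ∈ B) && prpB d b)) : ℝ) *
        (21 ^ 5 * 20 ^ 22 * 1000) := by
    exact_mod_cast hm
  have c3 : (B.filter (fun j => perp j b)).card =
      cnt (fun d => decide (d ∈ B) && prpB d b) := card_cnt _ _ (by
    intro d
    rw [Finset.mem_filter, Bool.and_eq_true, prpB_iff, decide_eq_true_iff])
  rw [HN_eq p b (neg p ∈ J) (decide (neg p ∈ J)) (by rw [decide_eq_true_iff]), c3,
    Finset.sum_filter, sumD]
  simp only [← tm_eq] at hm'
  have hpos : (0 : ℝ) < 21 ^ 5 * 20 ^ 22 * 1000 := by positivity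
  rw [← mul_le_mul_iff_left₀ hpos]
  linarith

end KN
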