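import Pool.Agent.H246KN.Stubs

/-! Task FIVE (helper51): trivial upper bound. -/

set_option autoImplicit false

namespace KN

open Finset Filter Topology
open scoped Classical

namespace FIVE

theorem inj {w : List Dir} (h : SAP w) {i j : ℕ} (hi : 1 ≤ i) (hi' : i ≤ w.length) (hj : 1 ≤ j)
    (hj' : j ≤ w.length) (he : pos (w.drop i) = pos (w.drop j)) : i = j := by
  have h1 : i < (path w).length := by rw [path_length]; omega
  have h2 : j < (path w).length := by rw [path_length]; omega
  rw [← path_getElem w i h1, ← path_getElem w j h2] at he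
  have h3 := h.2.2
  obtain ⟨i, rfl⟩ : ∃ k, i = k + 1 := ⟨i - 1, by omega⟩
  obtain ⟨j, rfl⟩ : ∃ k, j = k + 1 := ⟨j - 1, by omega⟩
  have h4 : i < (path w).tail.length := by rw [List.length_tail]; omega
  have h5 : j < (path w).tail.length := by rw [List.length_tail]; omega
  have h6 : (path w).tail[i] = (path w).tail[j] := by
    rw [List.getElem_tail, List.getElem_tail]; exact he
  rw [(List.Nodup.getElem_inj_iff h3).1 h6]

/-- no immediate reversals -/
def NB (w : List Dir) : Prop := List.IsChain (fun a b => a ≠ neg b) w

theorem nb_of_sap {w : List Dir} (h : SAP w) : NB w := by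
  unfold NB
  rw [List.isChain_iff_getElem]
  intro i hi he
  have h1 : pos (w.drop i) = pos (w.drop (i + 2)) := by
    rw [pos_drop w i (by omega), pos_drop w (i + 1) hi, List.getD_eq_getElem _ _ hi,
      List.getD_eq_getElem _ _ (by omega : i < w.length), he, vec_neg]
    abel
  have h4 := h.1
  rcases Nat.eq_zero_or_pos i with h0 | h0
  · subst h0
    have h2 : pos (w.drop 0) = pos (w.drop w.length) := by
      rw [List.drop_zero, List.drop_length, h.2.1]; rfl
    rw [h2] at h1
    have := inj h (by omega) (by omega) (by omega) (by omega) h1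
    omega
  · have := inj h h0 (by omega) (by omega) (by omega) h1
    omega

/-- words without immediate reversals -/
noncomputable def SS (n : ℕ) : Finset (List Dir) := (W n).filter NB

theorem card_SS (n : ℕ) : (SS (n + 1)).card ≤ 6 * 5 ^ n := by
  induction n with
  | zero =>
    have h1 : (SS 1).card ≤ (W 1).card := card_le_card (filter_subset _ _)
    have h2 : (W 1).card ≤ 6 := by
      unfold W
      refine card_image_le.trans ?_
      rw [card_univ, Fintype.card_fun, Fintype.card_fin]
      exact le_of_eq (by rfl)
    simpa using h1.trans h2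
  | succ n ih =>
    have h1 : SS (n + 1 + 1) ⊆ (SS (n + 1)).biUnion (fun u =>
        ((univ : Finset Dir).erase (neg (u.headD .xp))).image (fun d => d :: u)) := by
      intro w hw
      unfold SS at hw
      rw [mem_filter, mem_W] at hw
      obtain ⟨h1, h2⟩ := hw
      match w, h1, h2 with
      | a :: b :: l, h1, h2 =>
        rw [mem_biUnion]
        unfold NB at h2
        rw [List.isChain_cons_cons] at h2
        refine ⟨b :: l, ?_, ?_⟩
        · unfold SS
          rw [mem_filter, mem_W]
          refine ⟨by simpa using h1, h2.2⟩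
        · rw [mem_image]
          exact ⟨a, mem_erase.2 ⟨h2.1, mem_univ _⟩, rfl⟩
    have h2 : ∀ u ∈ SS (n + 1), (((univ : Finset Dir).erase (neg (u.headD .xp))).image
        (fun d => d :: u)).card ≤ 5 := by
      intro u _
      refine card_image_le.trans ?_
      rw [card_erase_of_mem (mem_univ _), card_univ]
      exact le_of_eq (by rfl)
    have h3 := (card_le_card h1).trans (card_biUnion_le_card_mul _ _ _ h2)
    rw [pow_succ]
    omega

end FIVE

theorem S_five_proof : S_five := by
  intro Q n
  have h1 : a Q n ≤ (FIVE.SS n).card := by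
    apply card_le_card
    intro w hw
    rw [mem_K] at hw
    unfold FIVE.SS
    rw [mem_filter, mem_W]
    exact ⟨hw.1, FIVE.nb_of_sap hw.2.1⟩
  cases n with
  | zero =>
    have h2 : a Q 0 = 0 := by
      unfold a
      rw [card_eq_zero, eq_empty_iff_forall_notMem]
      intro w hw
      rw [mem_K] at hw
      have := hw.2.1.1
      omega
    rw [h2]; norm_num
  | succ n =>
    have h2 : ((a Q (n + 1) : ℕ) : ℝ) ≤ ((6 * 5 ^ n : ℕ) : ℝ) := by
      exact_mod_cast h1.trans (FIVE.card_SS n)
    refine h2.trans ?_
    push_cast
    rw [pow_succ]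
    have : (0:ℝ) < 5 ^ n := by positivity
    linarith

end KN
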