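import Pool.Agent.H246KN.Stubs

set_option autoImplicit false

namespace KN

namespace GL1

open Finset Filter Topology
open scoped Classical

theorem map_tail_eq {α β : Type*} (f : α → β) (l : List α) : (l.map f).tail = l.tail.map f := by
  cases l <;> rfl

/-- the path of a walk, split at its last letter -/
theorem dropLast_append_zero (w : List Dir) : (path w).dropLast ++ [(0 : Z3)] = path w := by
  have h := List.dropLast_append_getLast (path_ne_nil w)
  rw [path_getLast] at h
  exact h

theorem path_append_cons (l1 : List Dir) (d : Dir) (l2 : List Dir) :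
    path (l1 ++ d :: l2) = (path l1).map (fun p => p + pos (d :: l2)) ++ path l2 := by
  rw [path_append]
  have h2 : path (d :: l2) = pos (d :: l2) :: path l2 := rfl
  rw [h2]
  conv_rhs => rw [← dropLast_append_zero l1]
  simp

theorem path_glue (l1 v l2 : List Dir) (hv : pos v = (0, 0, 1)) :
    path (glue l1 v l2) = (path l1).map (fun p => p + pos (.zp :: l2)) ++
      ((path v).map (fun p => p + pos (.xp :: l2)) ++ path l2) := by
  unfold glue
  rw [path_append_cons, path_append_cons]
  congr 1
  have : pos (.xm :: (v ++ .xp :: l2)) = pos (.zp :: l2) := by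
    simp only [pos, pos_append, hv, vec]
    ext <;> simp
    ring
  rw [this]

theorem tail_path (w : List Dir) (hw : w ≠ []) : path w.tail = (path w).tail := by
  cases w with
  | nil => exact absurd rfl hw
  | cons d l => rfl

theorem vl_eq (w : List Dir) (hw : w ≠ []) : vl w = (path w).tail.map emb := by
  unfold vl; rw [tail_path w hw]

theorem emb_add (p q : Z3) : emb (p + q) = emb p + emb q := by
  unfold emb; ext <;> simp

theorem emb_zero : emb (0 : Z3) = 0 := by unfold emb; ext <;> simp

/-- vertices of the left polygon after the distinguished edge -/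
noncomputable def L1 (l1 l2 : List Dir) : List V :=
  ((path l1).tail.map (fun p => p + pos (.zp :: l2))).map emb

noncomputable def L2 (l2 : List Dir) : List V := (path l2).map emb

noncomputable def LV (v l2 : List Dir) : List V :=
  ((path v).map (fun p => p + pos (.xp :: l2))).map emb

theorem vl_P (l1 l2 : List Dir) : vl (l1 ++ .zp :: l2) = L1 l1 l2 ++ L2 l2 := by
  rw [vl_eq _ (by simp), path_append_cons, List.tail_append_of_ne_nil (by
    simpa using path_ne_nil l1), map_tail_eq, List.map_append]
  rfl

theorem vl_glue (l1 v l2 : List Dir) (hv : pos v = (0, 0, 1)) :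
    vl (glue l1 v l2) = L1 l1 l2 ++ (LV v l2 ++ L2 l2) := by
  rw [vl_eq _ (by unfold glue; simp), path_glue l1 v l2 hv, List.tail_append_of_ne_nil (by
    simpa using path_ne_nil l1), map_tail_eq, List.map_append, List.map_append]
  rfl

theorem pos_v {v : List Dir} (h : SAP (.zm :: v)) : pos v = (0, 0, 1) := by
  have h2 := h.2.1
  simp only [pos] at h2
  have : pos v = - vec .zm := by
    rw [← sub_neg_eq_add, sub_eq_zero] at h2
    rw [h2]
  rw [this]; rfl

/-- the translate of the left polygon -/
noncomputable def lw (l1 l2 : List Dir) : List V :=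
  (L2 l2 ++ L1 l1 l2).map (fun p => p + (-emb (pos l2)))

noncomputable def lv (v : List Dir) : List V := (vl (.zm :: v)).map (fun p => p + ((1, 0, 0) : V))

theorem lv_eq (v l2 : List Dir) : (LV v l2).map (fun p => p + (-emb (pos l2))) = lv v := by
  unfold LV lv vl
  simp only [List.map_map, List.tail_cons]
  apply List.map_congr_left
  intro p _
  simp only [Function.comp, emb_add, pos]
  have : emb (vec .xp) = ((1, 0, 0) : V) := by unfold emb vec; simp
  rw [this]
  abel

theorem glue_same (hsimple : S_simple) (hrot : S_rot) (hmot : S_motion)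
    (l1 v l2 : List Dir) (hv : pos v = (0, 0, 1)) (hs : SAP (glue l1 v l2)) :
    Same (vl (glue l1 v l2)) (lv v ++ lw l1 l2) := by
  have h1 : Simple (L1 l1 l2 ++ (LV v l2 ++ L2 l2)) := by
    rw [← vl_glue l1 v l2 hv]; exact hsimple _ hs
  obtain ⟨h2, h3⟩ := hrot _ _ h1
  rw [vl_glue l1 v l2 hv]
  refine h3.trans ?_
  have h4 := ((hmot _ h2).1 (-emb (pos l2))).1
  refine h4.trans ?_
  rw [List.append_assoc, List.map_append, lv_eq]
  exact Same.refl _

theorem HL_lw (hsimple : S_simple) (hrot : S_rot) (hmot : S_motion)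
    (l1 l2 : List Dir) (hs : SAP (l1 ++ .zp :: l2))
    (hx : ∀ p ∈ path (l1 ++ .zp :: l2), p.1 ≤ (pos l2).1) : HL (lw l1 l2) := by
  have h1 : Simple (L1 l1 l2 ++ L2 l2) := by
    rw [← vl_P]; exact hsimple _ hs
  obtain ⟨h2, h3⟩ := hrot _ _ h1
  have hmem : ∀ p ∈ lw l1 l2, ∃ q ∈ path (l1 ++ .zp :: l2), p = emb q + (-emb (pos l2)) := by
    intro p hp
    unfold lw at hp
    rw [List.mem_map] at hp
    obtain ⟨q, hq, rfl⟩ := hp
    rw [List.mem_append] at hq
    rw [path_append_cons]
    rcases hq with hq | hq
    · unfold L2 at hq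
      rw [List.mem_map] at hq
      obtain ⟨r, hr, rfl⟩ := hq
      exact ⟨r, List.mem_append_right _ hr, rfl⟩
    · unfold L1 at hq
      rw [List.mem_map] at hq
      obtain ⟨r, hr, rfl⟩ := hq
      rw [List.mem_map] at hr
      obtain ⟨s, hs', rfl⟩ := hr
      exact ⟨_, List.mem_append_left _ (List.mem_map.2 ⟨s, List.mem_of_mem_tail hs', rfl⟩), rfl⟩
  refine ⟨((hmot _ h2).1 (-emb (pos l2))).2, ?_, ?_, ?_⟩
  · intro p hp
    obtain ⟨q, hq, rfl⟩ := hmem p hp
    have := hx q hq
    have h' : (q.1 : ℝ) ≤ ((pos l2).1 : ℝ) := by exact_mod_cast this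
    simp only [emb, Prod.fst_add, Prod.fst_neg]
    linarith
  · unfold lw L2
    rw [List.map_append]
    have : (path l2).map emb = emb (pos l2) :: ((path l2).tail.map emb) := by
      cases l2 <;> rfl
    rw [this]
    simp only [List.map_cons, List.cons_append, List.head?_cons, add_neg_cancel]
    rfl
  · have hc : emb (pos (.zp :: l2)) + (-emb (pos l2)) = ((0, 0, 1) : V) := by
      simp only [pos, emb_add]
      have : emb (vec .zp) = ((0, 0, 1) : V) := by unfold emb vec; simp
      rw [this]; abel
    unfold lw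
    rw [List.map_append, List.getLast?_append]
    by_cases hl : l1 = []
    · subst hl
      have h0 : pos (.zp :: l2) = 0 := hs.2.1
      have e1 : L1 [] l2 = [] := rfl
      rw [e1]
      have e2 : (L2 l2).getLast? = some (emb 0) := by
        unfold L2
        rw [List.getLast?_map, List.getLast?_eq_getLast_of_ne_nil (path_ne_nil l2), path_getLast]
        rfl
      rw [List.getLast?_map, List.getLast?_map, e2]
      simp only [List.getLast?_nil, Option.map_none, Option.none_or, Option.map_some]
      rw [← hc, h0]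
    · obtain ⟨d, l, rfl⟩ := List.exists_cons_of_ne_nil hl
      have e2 : (L1 (d :: l) l2).getLast? = some (emb (pos (.zp :: l2))) := by
        unfold L1
        have : (path (d :: l)).tail = path l := rfl
        rw [this, List.getLast?_map, List.getLast?_map,
          List.getLast?_eq_getLast_of_ne_nil (path_ne_nil l), path_getLast]
        simp
      rw [List.getLast?_map, e2]
      simp only [Option.map_some, Option.some_or]
      rw [hc]

theorem HR_lv (hsimple : S_simple) (hmot : S_motion) (v : List Dir) (hs : SAP (.zm :: v))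
    (hx : ∀ p ∈ path v, 0 ≤ p.1) : HR (lv v) := by
  have h1 : Simple (vl (.zm :: v)) := hsimple _ hs
  refine ⟨((hmot _ h1).1 (1, 0, 0)).2, ?_, ?_, ?_⟩
  · intro p hp
    unfold lv vl at hp
    simp only [List.tail_cons, List.mem_map] at hp
    obtain ⟨q, ⟨r, hr, rfl⟩, rfl⟩ := hp
    have h' : (0 : ℝ) ≤ (r.1 : ℝ) := by exact_mod_cast hx r hr
    simp only [emb, Prod.fst_add]
    linarith
  · unfold lv vl
    rw [List.tail_cons]
    have : (path v).map emb = emb (pos v) :: ((path v).tail.map emb) := by
      cases v <;> rfl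
    rw [this, pos_v hs]
    simp [emb]
  · unfold lv vl
    rw [List.tail_cons, List.getLast?_map, List.getLast?_map,
      List.getLast?_eq_getLast_of_ne_nil (path_ne_nil v), path_getLast]
    simp [emb_zero]

theorem SAP_sqw : SAP sqw := by
  unfold SAP sqw
  refine ⟨by simp, by decide, by decide⟩

end GL1

open GL1 in
theorem S_glue1_proof (hSAP : S_glueSAP) (hcon : S_connect) (hsimple : S_simple) (hrot : S_rot)
    (hmot : S_motion) (hloc : S_local) (hins : S_ins) : S_glue1 := by
  intro l1 v l2 hG hsq
  obtain ⟨hP, hPx, hV, hVx⟩ := hG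
  have hpv := pos_v hV
  have hGlue := hSAP l1 v l2 ⟨hP, hPx, hV, hVx⟩
  -- the small square
  have hV' : SAP (.zm :: [.xm, .zp, .xp]) := SAP_sqw
  have hVx' : ∀ p ∈ path [.xm, .zp, .xp], 0 ≤ p.1 := by decide
  have hpv' := pos_v hV'
  have hGlue' := hSAP l1 [.xm, .zp, .xp] l2 ⟨hP, hPx, hV', hVx'⟩
  have e1 := glue_same hsimple hrot hmot l1 v l2 hpv hGlue
  have e2 := glue_same hsimple hrot hmot l1 _ l2 hpv' hGlue'
  have e3 : Same (lv v) (lv [.xm, .zp, .xp]) := by
    have a1 := ((hmot _ (hsimple _ hV)).1 (1, 0, 0)).1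
    have a2 := ((hmot _ (hsimple _ hV')).1 (1, 0, 0)).1
    exact (a1.symm.trans hsq).trans a2
  have e4 := hcon _ _ _ (HL_lw hsimple hrot hmot l1 l2 hP hPx) (HR_lv hsimple hmot v hV hVx)
    (HR_lv hsimple hmot _ hV' hVx') e3
  refine (e1.trans (e4.trans e2.symm)).trans ?_
  -- two local moves
  have hi : l1.length < (l1 ++ .zp :: l2).length := by simp
  have hget : (l1 ++ Dir.zp :: l2).getD l1.length .xp = .zp := by simp
  have hdrop : (l1 ++ Dir.zp :: l2).drop (l1.length + 1) = l2 := by
    rw [← List.drop_drop]; simp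
  have s1 : site (l1 ++ .zp :: l2) l1.length .xp := by
    refine ⟨hi, ?_, ?_, ?_⟩
    · rw [hget]; decide
    · rw [hdrop]
      intro h
      have := hPx _ h
      simp [vec] at this
    · rw [hdrop, hget]
      intro h
      have := hPx _ h
      simp [vec] at this
  obtain ⟨hP', -, -, -, -⟩ := hins _ _ _ hP s1
  have f1 := hloc _ _ _ hP s1
  have hP'eq : ins (l1 ++ .zp :: l2) l1.length .xp = (l1 ++ [.xm]) ++ .zp :: (.xp :: l2) := by
    unfold ins
    rw [hget, hdrop]
    simp [neg]
  have hpath' : path (ins (l1 ++ .zp :: l2) l1.length .xp) =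
      (path l1).map (fun p => p + pos (.zp :: l2)) ++
      ((path [.zp]).map (fun p => p + pos (.xp :: l2)) ++ path l2) := by
    rw [← path_glue l1 [.zp] l2 (by decide)]
    rw [hP'eq]
    unfold glue
    simp
  have hle : ∀ p ∈ path (ins (l1 ++ .zp :: l2) l1.length .xp), p.1 ≤ (pos l2).1 + 1 := by
    rw [hpath']
    intro p hp
    rw [path_append_cons] at hPx
    rw [List.mem_append, List.mem_append] at hp
    rcases hp with hp | hp | hp
    · have := hPx p (List.mem_append_left _ hp); omega
    · simp only [path, pos, List.map_cons, List.map_nil, List.mem_cons, List.not_mem_nil,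
        or_false] at hp
      rcases hp with rfl | rfl <;> simp [vec]
    · have := hPx p (List.mem_append_right _ hp); omega
  have hi2 : l1.length + 1 < (ins (l1 ++ .zp :: l2) l1.length .xp).length := by
    rw [hP'eq]; simp
  have hget2 : (ins (l1 ++ .zp :: l2) l1.length .xp).getD (l1.length + 1) .xp = .zp := by
    rw [hP'eq]
    have : l1.length + 1 = (l1 ++ [Dir.xm]).length := by simp
    rw [this]; simp
  have hdrop2 : (ins (l1 ++ .zp :: l2) l1.length .xp).drop (l1.length + 1 + 1) = .xp :: l2 := by
    rw [hP'eq]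
    have : l1.length + 1 = (l1 ++ [Dir.xm]).length := by simp
    rw [this, ← List.drop_drop]; simp
  have s2 : site (ins (l1 ++ .zp :: l2) l1.length .xp) (l1.length + 1) .xp := by
    refine ⟨hi2, ?_, ?_, ?_⟩
    · rw [hget2]; decide
    · rw [hdrop2]
      intro h
      have := hle _ h
      simp [vec, pos] at this
    · rw [hdrop2, hget2]
      intro h
      have := hle _ h
      simp [vec, pos] at this
  have f2 := hloc _ _ _ hP' s2
  have hfin : ins (ins (l1 ++ .zp :: l2) l1.length .xp) (l1.length + 1) .xp =
      glue l1 [.xm, .zp, .xp] l2 := by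
    rw [ins, hget2, hdrop2]
    have : (ins (l1 ++ Dir.zp :: l2) l1.length .xp).take (l1.length + 1) = l1 ++ [.xm] := by
      rw [hP'eq]
      have : l1.length + 1 = (l1 ++ [Dir.xm]).length := by simp
      rw [this, List.take_left']
      rfl
    rw [this]
    unfold glue
    simp [neg]
  rw [hfin] at f2
  exact (f1.trans f2).symm

end KN
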