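import Pool.Agent.H246KN.Stubs

/-!
# KN, task GL2: the left polygon is unknotted
-/

set_option autoImplicit false

namespace KN

open Finset Filter Topology
open scoped Classical

namespace GL2

/-- rotation by 180 degrees around the second axis -/
def rR (d : Dir) : Dir := rz (rx (rx d))

/-- the corresponding map of the lattice -/
def R (p : Z3) : Z3 := (-p.1, p.2.1, -p.2.2)

theorem R_add (p q : Z3) : R (p + q) = R p + R q := by
  simp only [R, Prod.fst_add, Prod.snd_add, Prod.mk_add_mk, Prod.mk.injEq]
  refine ⟨by ring, trivial, by ring⟩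

theorem R_vec (d : Dir) : vec (rR d) = R (vec d) := by cases d <;> decide

theorem pos_map (w : List Dir) : pos (w.map rR) = R (pos w) := by
  induction w with
  | nil => rfl
  | cons d l ih => rw [List.map_cons, pos, pos, ih, R_add, R_vec]

theorem path_map (w : List Dir) : path (w.map rR) = (path w).map R := by
  induction w with
  | nil => rfl
  | cons d l ih =>
    rw [List.map_cons, path, path, List.map_cons, ih, R_add, R_vec, pos_map]

theorem mem_path_suffix (w : List Dir) (p : Z3) :
    p ∈ path w ↔ ∃ a b : List Dir, w = a ++ b ∧ p = pos b := by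
  rw [mem_path_iff]
  constructor
  · rintro ⟨i, _, rfl⟩
    exact ⟨w.take i, w.drop i, (List.take_append_drop i w).symm, rfl⟩
  · rintro ⟨a, b, rfl, rfl⟩
    exact ⟨a.length, by simp, by simp⟩

theorem SAP_map (h8 : S_words) {w : List Dir} (hw : SAP w) :
    SAP (w.map rR) ∧ Same (vl w) (vl (w.map rR)) := by
  obtain ⟨⟨h1, s1⟩, -, -⟩ := h8 w hw
  obtain ⟨⟨h2, s2⟩, -, -⟩ := h8 _ h1
  obtain ⟨-, ⟨h3, s3⟩, -⟩ := h8 _ h2
  have e : w.map rR = ((w.map rx).map rx).map rz := by
    simp only [List.map_map]; rfl
  rw [e]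
  exact ⟨h3, (s1.trans s2).trans s3⟩

theorem SAP_rot (h8 : S_words) {w : List Dir} (hw : SAP w) (k : ℕ) :
    SAP (w.rotate k) ∧ Same (vl w) (vl (w.rotate k)) := (h8 w hw).2.2 k

theorem rotate_append (l1 l2 : List Dir) : (l1 ++ l2).rotate l1.length = l2 ++ l1 :=
  List.rotate_append_length_eq l1 l2

end GL2

open GL2 in
theorem S_glue2_proof (h1 : S_glue1) (h8 : S_words) (hS : S_glueSAP) : S_glue2 := by
  intro l1 v l2 hG hsame
  have hg : SAP (glue l1 v l2) := hS l1 v l2 hG
  obtain ⟨hA, hAx, hB, hBx⟩ := hG
  set V : List Dir := (l2 ++ l1).map rR with hV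
  -- the rotated word
  have hrot1 : (glue l1 v l2).rotate (l1.length + 1) = v ++ Dir.xp :: (l2 ++ (l1 ++ [Dir.xm])) := by
    have e : glue l1 v l2 = (l1 ++ [.xm]) ++ (v ++ .xp :: l2) := by simp [glue]
    have e2 : l1.length + 1 = (l1 ++ [Dir.xm]).length := by simp
    rw [e, e2, rotate_append]; simp
  have hrot2 : ((v ++ Dir.xp :: (l2 ++ (l1 ++ [Dir.xm]))).map rR).rotate v.length =
      glue [] V (v.map rR) := by
    have e : (v ++ Dir.xp :: (l2 ++ (l1 ++ [Dir.xm]))).map rR =
        v.map rR ++ (Dir.xm :: (V ++ [Dir.xp])) := by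
      rw [hV]; simp only [List.map_append, List.map_cons, List.map_nil, List.append_assoc]
      rfl
    have e2 : v.length = (v.map rR).length := by simp
    rw [e, e2, rotate_append]; simp [glue]
  have hs : Same (vl (glue l1 v l2)) (vl (glue [] V (v.map rR))) := by
    obtain ⟨ha, sa⟩ := SAP_rot h8 hg (l1.length + 1)
    rw [hrot1] at ha sa
    obtain ⟨hb, sb⟩ := SAP_map h8 ha
    obtain ⟨hc, sc⟩ := SAP_rot h8 hb v.length
    rw [hrot2] at hc sc
    exact (sa.trans sb).trans sc
  -- the right polygon, rotated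
  obtain ⟨hB', sB⟩ := SAP_map h8 hB
  have eB : (Dir.zm :: v).map rR = .zp :: v.map rR := rfl
  rw [eB] at hB' sB
  -- the left polygon, rotated
  have hrotA : (l1 ++ .zp :: l2).rotate l1.length = .zp :: (l2 ++ l1) := by
    rw [rotate_append]; simp
  obtain ⟨hA1, sA1⟩ := SAP_rot h8 hA l1.length
  rw [hrotA] at hA1 sA1
  obtain ⟨hA2, sA2⟩ := SAP_map h8 hA1
  have eA : (Dir.zp :: (l2 ++ l1)).map rR = .zm :: V := rfl
  rw [eA] at hA2 sA2
  have hVsq : Same (vl (.zm :: V)) sq := ((sA1.trans sA2).symm).trans hsame
  have hGH : GH [] V (v.map rR) := by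
    refine ⟨hB', ?_, hA2, ?_⟩
    · intro p hp
      have hpos : pos v + vec .zm = 0 := hB.2.1
      have hp1 : (pos v).1 = 0 := by
        have := congrArg Prod.fst hpos
        simpa [vec] using this
      rw [pos_map]
      simp only [R, hp1, neg_zero]
      rw [List.nil_append, path, List.mem_cons] at hp
      rcases hp with rfl | hp
      · rw [pos_map]; simp [R, vec, hp1]
      · rw [path_map, List.mem_map] at hp
        obtain ⟨q, hq, rfl⟩ := hp
        have := hBx q hq
        simp only [R]; omega
    · intro p hp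
      rw [hV, path_map, List.mem_map] at hp
      obtain ⟨q, hq, rfl⟩ := hp
      have hpos : pos (l1 ++ .zp :: l2) = 0 := hA.2.1
      rw [pos_append, pos] at hpos
      have hp1 : (pos l1).1 + (pos l2).1 = 0 := by
        have := congrArg Prod.fst hpos
        simpa [vec] using this
      have hq1 : q.1 ≤ 0 := by
        rw [mem_path_suffix] at hq
        obtain ⟨a, b, hab, rfl⟩ := hq
        rw [List.append_eq_append_iff] at hab
        rcases hab with ⟨c, h1, h2⟩ | ⟨c, h1, h2⟩
        · -- `b` is a suffix of `l1`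
          have hm : pos (b ++ .zp :: l2) ∈ path (l1 ++ .zp :: l2) := by
            rw [mem_path_suffix]
            exact ⟨c, b ++ .zp :: l2, by rw [h2]; simp, rfl⟩
          have := hAx _ hm
          rw [pos_append, pos] at this
          simp only [Prod.fst_add, vec, add_zero] at this
          omega
        · -- `b = c ++ l1`, `c` a suffix of `l2`
          have hm : pos c ∈ path (l1 ++ .zp :: l2) := by
            rw [mem_path_suffix]
            exact ⟨l1 ++ .zp :: a, c, by rw [h1]; simp, rfl⟩
          have := hAx _ hm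
          rw [h2, pos_append, Prod.fst_add]
          omega
      simp only [R]; omega
  have := h1 [] V (v.map rR) hGH hVsq
  exact (hs.trans this).trans sB.symm

end KN
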