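import Pool.Agent.H246KN.Stubs

/-! Task GSAP (helper218): the glued word is a polygon. -/

set_option autoImplicit false

namespace KN

namespace GSAP

theorem dropLast_map_append (w : List Dir) (c : Z3) :
    ((path w).dropLast.map (fun p => p + c)) ++ [c] = (path w).map (fun p => p + c) := by
  have h : (path w).dropLast ++ [0] = path w := by
    have := List.dropLast_append_getLast (path_ne_nil w)
    rwa [path_getLast] at this
  conv_rhs => rw [← h]
  simp

theorem nodup_insert {α : Type*} (M X Y : List α) (A : α) (h : (M ++ A :: Y).tail.Nodup)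
    (hX : X.Nodup) (hd : ∀ x ∈ X, x ∉ M ++ A :: Y) : (M ++ A :: (X ++ Y)).tail.Nodup := by
  cases M with
  | nil =>
    simp only [List.nil_append, List.tail_cons] at h hd ⊢
    rw [List.nodup_append]
    refine ⟨hX, h, fun a ha b hb hab => ?_⟩
    subst hab
    exact hd a ha (List.mem_cons_of_mem _ hb)
  | cons m M =>
    simp only [List.cons_append, List.tail_cons] at h hd ⊢
    have hp : (M ++ A :: (X ++ Y)).Perm (X ++ (M ++ A :: Y)) := by
      have h1 : (M ++ A :: (X ++ Y)).Perm ((M ++ [A]) ++ (X ++ Y)) := by simp
      have h2 : ((M ++ [A]) ++ (X ++ Y)).Perm (X ++ ((M ++ [A]) ++ Y)) := by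
        rw [← List.append_assoc, ← List.append_assoc X]
        exact List.Perm.append_right _ List.perm_append_comm
      exact h1.trans (h2.trans (by simp))
    rw [hp.nodup_iff, List.nodup_append]
    refine ⟨hX, h, fun a ha b hb hab => ?_⟩
    subst hab
    exact hd a ha (List.mem_cons_of_mem _ hb)

end GSAP

open GSAP

theorem S_glueSAP_proof : S_glueSAP := by
  intro l1 v l2 ⟨hP, hPx, hz, hv⟩
  obtain ⟨hP1, hP2, hP3⟩ := hP
  obtain ⟨hz1, hz2, hz3⟩ := hz
  have hpv : pos v = vec .zp := by
    have h : pos v + vec .zm = 0 := hz2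
    have h2 : vec Dir.zm = - vec Dir.zp := vec_neg .zp
    rw [h2, ← sub_eq_add_neg, sub_eq_zero] at h
    exact h
  have hxx : vec Dir.xm = - vec Dir.xp := vec_neg .xp
  -- the common vertex
  have hA : pos (.xm :: (v ++ .xp :: l2)) = pos l2 + vec .zp := by
    simp only [pos, pos_append]
    rw [hpv, hxx]
    abel
  have hpathP : path (l1 ++ .zp :: l2) =
      (path l1).dropLast.map (fun p => p + (pos l2 + vec .zp)) ++
        (pos l2 + vec .zp) :: path l2 := by
    rw [path_append]
    rfl
  have hrest : path (v ++ .xp :: l2) =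
      (path v).map (fun p => p + (pos l2 + vec .xp)) ++ path l2 := by
    rw [path_append, ← dropLast_map_append]
    simp [path, pos]
  have hpathG : path (glue l1 v l2) =
      (path l1).dropLast.map (fun p => p + (pos l2 + vec .zp)) ++
        (pos l2 + vec .zp) :: ((path v).map (fun p => p + (pos l2 + vec .xp)) ++ path l2) := by
    unfold glue
    rw [path_append, hA]
    have : path (.xm :: (v ++ .xp :: l2)) = pos (.xm :: (v ++ .xp :: l2)) :: path (v ++ .xp :: l2) :=
      rfl
    rw [this, hA, hrest]
  refine ⟨?_, ?_, ?_⟩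
  · unfold glue
    simp only [List.length_append, List.length_cons] at hz1 ⊢
    omega
  · unfold glue
    rw [pos_append, hA]
    rw [pos_append] at hP2
    exact hP2
  · rw [hpathG]
    rw [hpathP] at hP3
    apply nodup_insert _ _ _ _ hP3
    · refine List.Nodup.map (fun a b hab => ?_) hz3
      exact add_right_cancel hab
    · intro x hx hx2
      rw [List.mem_map] at hx
      obtain ⟨p, hp, rfl⟩ := hx
      have h1 := hv p hp
      have h2 := hPx _ (by rw [hpathP]; exact hx2)
      simp only [Prod.fst_add, vec] at h2
      omega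

end KN
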