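import Pool.Agent.H246KN.Stubs

/-!
# Task GSROT: the bead moves past a vertex
-/

set_option autoImplicit false

namespace KN

open Finset Filter Topology

namespace GSROT

theorem kappa_nonneg {κ : ℝ} {α : List V} (h : IsBead κ α) : 0 ≤ κ := by
  obtain ⟨p, hp⟩ := List.exists_mem_of_ne_nil α h.ne
  obtain ⟨h0, h1, hc⟩ := h.cone p hp
  have hm : 0 < min p.1 (1 - p.1) := lt_min h0 (by linarith)
  have h2 := (abs_nonneg _).trans hc.2.2.1
  by_contra hcon
  push Not at hcon
  nlinarith

theorem long {p : V} {l : List V} (h : Simple (p :: l)) :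
    ∃ (b q : V) (l' : List V), l = b :: (l' ++ [q]) := by
  obtain ⟨-, h1, h2⟩ := h
  match l with
  | [] => exact absurd rfl (h2 (p, p) (by simp [edges, chain]))
  | [q] =>
    exfalso
    have h3 : (edges [p, q]) = [(p, q), (q, p)] := rfl
    rw [h3] at h1
    have h4 : Disj (p, q) (q, p) := by
      have := List.pairwise_cons.1 h1
      exact this.1 _ (by simp)
    have h5 := h4 (1 / 2) (1 / 2) (by norm_num) (by norm_num) (by norm_num) (by norm_num)
    apply h5
    simp only [lerp]
    rw [add_comm]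
    norm_num
  | b :: c :: l'' =>
    refine ⟨b, (c :: l'').getLast (by simp), (c :: l'').dropLast, ?_⟩
    rw [List.dropLast_append_getLast]

theorem gl (T : List V) (q : V) : (T ++ [q]).getLastD 0 = q := by
  cases T with
  | nil => rfl
  | cons a T => simp [List.getLastD]

/-- families given by lists -/
theorem fam (hf : S_fam) {κ : ℝ} {α : List V} (hα : IsBead κ α) (k : ℕ) (L : ℝ → List V)
    (hlen : ∀ t, (L t).length = k) (hcont : ∀ i, Continuous (fun t => (L t).getD i 0))
    (hs : ∀ t, 0 ≤ t → t ≤ 1 → Simple (L t)) : GS (L 0) α (L 1) α := by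
  have h1 : ∀ t, List.ofFn (fun i : Fin k => (L t).getD i 0) = L t := by
    intro t
    apply List.ext_getElem
    · simp [hlen]
    · intro i h1 h2
      simp only [List.getElem_ofFn]
      rw [List.getD_eq_getElem _ _ h2]
  have h2 : List.ofFn (fun i : Fin α.length => α.get i) = α := List.ofFn_get α
  have h3 := hf k α.length (fun t i => (L t).getD i 0) (fun _ i => α.get i) κ (kappa_nonneg hα)
    (fun i => hcont i) (fun i => (continuous_const : Continuous (fun _ : ℝ => α.get i)))
    (fun t h0 h1' => by rw [h1 t]; exact hs t h0 h1')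
    (fun t _ _ => by rw [h2]; exact hα)
  simp only [h1, h2] at h3
  exact h3

theorem fam_head (hf : S_fam) {κ : ℝ} {α : List V} (hα : IsBead κ α) (T : List V) (v : ℝ → V)
    (hv : Continuous v) (hs : ∀ t, 0 ≤ t → t ≤ 1 → Simple (v t :: T)) :
    GS (v 0 :: T) α (v 1 :: T) α := by
  refine fam hf hα (T.length + 1) (fun t => v t :: T) (fun t => by simp) ?_ hs
  intro i
  cases i with
  | zero => simpa using hv
  | succ i =>
    have : (fun t => (v t :: T).getD (i + 1) 0) = fun _ : ℝ => T.getD i 0 := by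
      funext t; simp
    rw [this]; exact continuous_const

theorem fam_last (hf : S_fam) {κ : ℝ} {α : List V} (hα : IsBead κ α) (T : List V) (v : ℝ → V)
    (hv : Continuous v) (hs : ∀ t, 0 ≤ t → t ≤ 1 → Simple (T ++ [v t])) :
    GS (T ++ [v 0]) α (T ++ [v 1]) α := by
  refine fam hf hα (T.length + 1) (fun t => T ++ [v t]) (fun t => by simp) ?_ hs
  intro i
  rcases lt_or_ge i T.length with h | h
  · have : (fun t => (T ++ [v t]).getD i 0) = fun _ => T.getD i 0 := by
      funext t; exact List.getD_append _ _ _ _ h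
    rw [this]; exact continuous_const
  · have : (fun t => (T ++ [v t]).getD i 0) = fun t => [v t].getD (i - T.length) 0 := by
      funext t; exact List.getD_append_right _ _ _ _ h
    rw [this]
    generalize i - T.length = j
    cases j with
    | zero => simpa using hv
    | succ j =>
      have : (fun t => [v t].getD (j + 1) 0) = fun _ : ℝ => (0 : V) := by
        funext t; simp
      rw [this]; exact continuous_const

end GSROT

open GSROT

theorem S_gsRot_proof (hL : S_subL) (hR : S_subR) (hM : S_subM) (hC : S_corner) (hF : S_fam)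
    (hT : S_gsTrans) (hrot : S_rot) (hsub : S_sub) : S_gsRot := by
  intro κ p l α hs hα
  obtain ⟨hsym, htr⟩ := hT
  obtain ⟨b, q, l', rfl⟩ := long hs
  obtain ⟨ρ, hρ0, hρ1, hcor⟩ := hC p b q l' hs
  set A : V := p + ρ • (q - p) with hA
  set B : V := p + ρ • (b - p) with hB
  set v : ℝ → V := fun s => p + (s * ρ / 2) • ((q - p) + (b - p)) with hv
  have hA' : lerp q p (1 - ρ) = A := by rw [hA, lerp]; module
  have hB' : lerp p b ρ = B := by rw [hB, lerp]; module
  have hv0 : v 0 = p := by simp [hv]
  have hv1 : lerp A B (1 / 2) = v 1 := by simp only [hA, hB, hv, lerp]; module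
  have hvc : Continuous v := by
    simp only [hv]; fun_prop
  -- simple polygons
  have s2v : ∀ s, 0 ≤ s → s ≤ 1 → Simple (v s :: B :: b :: (l' ++ [q, A])) := hcor
  have s3 : Simple (v 1 :: B :: b :: (l' ++ [q, A])) := s2v 1 (by norm_num) le_rfl
  have s2 : Simple (p :: B :: b :: (l' ++ [q, A])) := by
    have := s2v 0 le_rfl (by norm_num)
    rwa [hv0] at this
  have s1 : Simple (p :: b :: (l' ++ [q, A])) := by
    have h := (hsub [] (l' ++ [q, A]) p b [ρ] (by simp) (by simp; constructor <;> linarith)).1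
    simp only [List.map_cons, List.map_nil, hB', List.nil_append] at h
    exact h.2 s2
  have s0v : ∀ s, 0 ≤ s → s ≤ 1 → Simple ((B :: b :: (l' ++ [q, A])) ++ [v s]) := fun s h0 h1 =>
    (hrot [v s] (B :: b :: (l' ++ [q, A])) (s2v s h0 h1)).1
  have s0 : Simple (B :: b :: (l' ++ [q, A])) := by
    have h := (hsub [] (b :: (l' ++ [q])) A B [1 / 2] (by simp) (by simp; norm_num)).1
    simp only [List.map_cons, List.map_nil, hv1, List.nil_append] at h
    have h1 : Simple ([A] ++ (v 1 :: B :: b :: (l' ++ [q]))) := by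
      refine (hrot (v 1 :: B :: b :: (l' ++ [q])) [A] ?_).1
      simpa using s3
    have h2 : Simple (A :: B :: b :: (l' ++ [q])) := h.2 (by simpa using h1)
    have h3 := (hrot [A] (B :: b :: (l' ++ [q])) (by simpa using h2)).1
    simpa using h3
  have sQ : Simple (b :: (l' ++ [q, A, p])) := by
    have h3 := (hrot [p] (b :: (l' ++ [q, A])) (by simpa using s1)).1
    simpa using h3
  have sR : Simple (b :: (l' ++ [q, p])) := by
    have h3 := (hrot [p] (b :: (l' ++ [q])) (by simpa using hs)).1
    simpa using h3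
  have s4 : Simple ((B :: b :: (l' ++ [q, A])) ++ [p]) := by
    have := s0v 0 le_rfl (by norm_num)
    rwa [hv0] at this
  -- the chain
  have g1 : GS (p :: b :: (l' ++ [q])) α (p :: b :: (l' ++ [q, A])) α := by
    have h := hL κ (p :: b :: (l' ++ [q])) α (1 - ρ) hs hα (by linarith) (by linarith)
    have e1 : (p :: b :: (l' ++ [q])).getLastD 0 = q := gl (p :: b :: l') q
    have e2 : (p :: b :: (l' ++ [q])).headD 0 = p := rfl
    rw [e1, e2, hA'] at h
    simpa using h
  have g2 : GS (p :: b :: (l' ++ [q, A])) α (p :: B :: b :: (l' ++ [q, A])) α := by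
    have h := hM κ [] (l' ++ [q, A]) α p b ρ (by simpa using s1) hα hρ0 (by linarith)
    rw [hB'] at h
    simpa using h
  have g3 : GS (p :: B :: b :: (l' ++ [q, A])) α (v 1 :: B :: b :: (l' ++ [q, A])) α := by
    have h := fam_head hF hα (B :: b :: (l' ++ [q, A])) v hvc s2v
    rwa [hv0] at h
  have eL : (B :: b :: (l' ++ [q, A])).getLastD 0 = A := by
    have := gl (B :: b :: (l' ++ [q])) A
    simpa using this
  have g4 : GS (B :: b :: (l' ++ [q, A])) α (v 1 :: B :: b :: (l' ++ [q, A])) α := by
    have h := hR κ (B :: b :: (l' ++ [q, A])) α (1 / 2) s0 hα (by norm_num) (by norm_num)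
    rw [eL, show (B :: b :: (l' ++ [q, A])).headD 0 = B from rfl, hv1] at h
    exact h
  have g5 : GS (B :: b :: (l' ++ [q, A])) α ((B :: b :: (l' ++ [q, A])) ++ [v 1]) α := by
    have h := hL κ (B :: b :: (l' ++ [q, A])) α (1 / 2) s0 hα (by norm_num) (by norm_num)
    rw [eL, show (B :: b :: (l' ++ [q, A])).headD 0 = B from rfl, hv1] at h
    exact h
  have g6 : GS ((B :: b :: (l' ++ [q, A])) ++ [p]) α ((B :: b :: (l' ++ [q, A])) ++ [v 1]) α := by
    have h := fam_last hF hα (B :: b :: (l' ++ [q, A])) v hvc s0v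
    rwa [hv0] at h
  have g7 : GS (b :: (l' ++ [q, A, p])) α ((B :: b :: (l' ++ [q, A])) ++ [p]) α := by
    have h := hR κ (b :: (l' ++ [q, A, p])) α ρ sQ hα hρ0 (by linarith)
    have e1 : (b :: (l' ++ [q, A, p])).getLastD 0 = p := by
      have := gl (b :: (l' ++ [q, A])) p
      simpa using this
    rw [e1, show (b :: (l' ++ [q, A, p])).headD 0 = b from rfl, hB'] at h
    simpa using h
  have g8 : GS (b :: (l' ++ [q, p])) α (b :: (l' ++ [q, A, p])) α := by
    have h := hM κ (b :: l') [] α q p (1 - ρ) (by simpa using sR) hα (by linarith) (by linarith)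
    rw [hA'] at h
    simpa using h
  have t1 := htr _ _ _ _ _ _ s1 g1 g2
  have t2 := htr _ _ _ _ _ _ s2 t1 g3
  have t3 := htr _ _ _ _ _ _ s3 t2 (hsym _ _ _ _ g4)
  have t4 := htr _ _ _ _ _ _ s0 t3 g5
  have t5 := htr _ _ _ _ _ _ (s0v 1 (by norm_num) le_rfl) t4 (hsym _ _ _ _ g6)
  have t6 := htr _ _ _ _ _ _ s4 t5 (hsym _ _ _ _ g7)
  have t7 := htr _ _ _ _ _ _ sQ t6 (hsym _ _ _ _ g8)
  simpa using t7

end KN
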