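import Pool.Agent.H246KN.Stubs

set_option autoImplicit false

namespace KN.HG

open Finset Filter Topology
open scoped Classical

theorem mem_chain {p : V} {l : List V} {e : V × V} (h : e ∈ chain p l) :
    e.1 ∈ p :: l ∧ e.2 ∈ l := by
  induction l generalizing p with
  | nil => simp [chain] at h
  | cons q l ih =>
    simp only [chain, List.mem_cons] at h
    rcases h with h | h
    · subst h; simp
    · have := ih h
      exact ⟨List.mem_cons_of_mem _ this.1, List.mem_cons_of_mem _ this.2⟩

end KN.HG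

namespace KN

theorem S_hg_proof : S_hg := by
  intro lv β hs hx hhead hlast hd he
  obtain ⟨m, rfl⟩ : ∃ m, lv = (1, 0, 1) :: m := by
    cases lv with
    | nil => simp at hhead
    | cons q m => simp at hhead; exact ⟨m, by rw [hhead]⟩
  have hm : m ≠ [] := by
    rintro rfl
    simp at hlast
  obtain ⟨m', rfl⟩ : ∃ m', m = m' ++ [(1, 0, 0)] := by
    refine ⟨m.dropLast, ?_⟩
    rw [List.getLast?_cons, List.getLast?_eq_some_getLast hm] at hlast
    simp only [Option.getD_some, Option.some.injEq] at hlast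
    rw [← hlast]
    exact (List.dropLast_append_getLast hm).symm
  have e1 : edges (((1, 0, 1) : V) :: (m' ++ [((1, 0, 0) : V)])) =
      chain (1, 0, 1) (m' ++ [(1, 0, 0)]) ++ [((1, 0, 0), (1, 0, 1))] := by
    have h := chain_append (1, 0, 1) (1, 0, 0) m' [(1, 0, 1)]
    simp only [chain] at h
    simp only [edges, List.append_assoc, List.cons_append, List.nil_append]
    exact h
  have e2 : edges ((((1, 0, 1) : V) :: (m' ++ [((1, 0, 0) : V)])) ++ β) =
      chain (1, 0, 1) (m' ++ [(1, 0, 0)]) ++ chain (1, 0, 0) (β ++ [(1, 0, 1)]) := by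
    have h := chain_append (1, 0, 1) (1, 0, 0) m' (β ++ [(1, 0, 1)])
    simp only [edges, List.append_assoc, List.cons_append, List.nil_append]
    exact h
  obtain ⟨hne, hp, hnd⟩ := hs
  rw [e1, List.pairwise_append] at hp
  rw [e1] at hnd
  refine ⟨by simp, ?_, ?_⟩
  · rw [e2, List.pairwise_append]
    refine ⟨hp.1, hd, ?_⟩
    intro e hea e' hea' u v hu0 hu1 hv0 hv1 heq
    have hmem := HG.mem_chain hea
    have h1 : 1 ≤ e.1.1 := hx _ hmem.1
    have h2 : 1 ≤ e.2.1 := hx _ (List.mem_cons_of_mem _ hmem.2)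
    have h3 : (1 : ℝ) ≤ (lerp e.1 e.2 u).1 := by
      show (1 : ℝ) ≤ (1 - u) * e.1.1 + u * e.2.1
      nlinarith
    rcases (he e' hea').2 v hv0 hv1 with h4 | ⟨h4, h5, h6, h7⟩
    · rw [heq] at h3; linarith
    · have h8 := hp.2.2 e hea ((1, 0, 0), (1, 0, 1)) (by simp) u (lerp e'.1 e'.2 v).2.2 hu0 hu1 h6 h7
      apply h8
      rw [heq]
      have h9 : lerp ((1, 0, 0) : V) (1, 0, 1) (lerp e'.1 e'.2 v).2.2 =
          (1, 0, (lerp e'.1 e'.2 v).2.2) := by
        simp [lerp]
      rw [h9]
      exact Prod.ext h4 (Prod.ext h5 rfl)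
  · rw [e2]
    intro e hea
    rw [List.mem_append] at hea
    rcases hea with hea | hea
    · exact hnd e (List.mem_append_left _ hea)
    · exact (he e hea).1

end KN
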