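import Pool.Agent.H246KN.Stubs

/-!
# Task INS: insertion of a bump
-/

set_option autoImplicit false

namespace KN

open Finset Filter Topology
open scoped Classical

namespace INS

theorem ax_neg (d : Dir) : ax (neg d) = ax d := by cases d <;> rfl

theorem vec_ne (d : Dir) : vec d ≠ 0 := by cases d <;> decide

theorem split (w : List Dir) (i : ℕ) (h : i < w.length) :
    w = w.take i ++ w.getD i .xp :: w.drop (i + 1) := by
  conv_lhs => rw [← List.take_append_drop i w, drop_eq_getD_cons w i h]

theorem tail_app {α : Type} (A R : List α) (c : α) : (A ++ c :: R).tail = (A ++ [c]).tail ++ R := by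
  cases A <;> simp

/-- the statement for a word written as `l1 ++ e :: l2` -/
theorem core (l1 l2 : List Dir) (e d : Dir) (hw : SAP (l1 ++ e :: l2)) (hp : perp d e)
    (h1 : pos l2 + vec d ∉ path (l1 ++ e :: l2))
    (h2 : pos l2 + vec d + vec e ∉ path (l1 ++ e :: l2)) :
    SAP (l1 ++ [neg d, e, d] ++ l2) ∧ (l1 ++ [neg d, e, d] ++ l2).length = (l1 ++ e :: l2).length + 2 ∧
      bump (l1 ++ [neg d, e, d] ++ l2) l1.length ∧
      rem (l1 ++ [neg d, e, d] ++ l2) l1.length = l1 ++ e :: l2 ∧
      (l1 ++ [neg d, e, d] ++ l2).getD (l1.length + 2) .xp = d := by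
  obtain ⟨hlen, hpos, hnd⟩ := hw
  have e0 : l1 ++ [neg d, e, d] ++ l2 = l1 ++ (neg d :: e :: d :: l2) := by simp
  have hP : pos (neg d :: e :: d :: l2) = pos (e :: l2) := by
    simp only [pos, vec_neg]
    abel
  have hlen2 : (l1 ++ (neg d :: e :: d :: l2)).length = (l1 ++ e :: l2).length + 2 := by
    simp only [List.length_append, List.length_cons]
    omega
  have g0 : ∀ k, (l1 ++ (neg d :: e :: d :: l2)).getD (l1.length + k) .xp =
      (neg d :: e :: d :: l2).getD k .xp := by
    intro k
    rw [List.getD_append_right _ _ _ _ (Nat.le_add_right _ _), Nat.add_sub_cancel_left]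
  rw [e0]
  refine ⟨⟨?_, ?_, ?_⟩, hlen2, ⟨?_, ?_, ?_⟩, ?_, ?_⟩
  · rw [hlen2]
    omega
  · rw [pos_append, hP, ← pos_append]
    exact hpos
  · set c := pos (e :: l2) with hc
    set A := (path l1).dropLast.map (fun p => p + c) with hA
    have p1 : path (l1 ++ e :: l2) = A ++ c :: path l2 := by
      rw [path_append]
      rfl
    have p2 : path (l1 ++ (neg d :: e :: d :: l2)) =
        A ++ c :: (pos l2 + vec d + vec e) :: (pos l2 + vec d) :: path l2 := by
      rw [path_append, hP]
      congr 1
      show pos (neg d :: e :: d :: l2) :: (pos l2 + vec d + vec e) :: (pos l2 + vec d) :: path l2 = _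
      rw [hP]
    rw [p1, tail_app] at hnd
    rw [p2, tail_app]
    have hsub : ∀ x, x ∈ (A ++ [c]).tail ++ path l2 → x ∈ path (l1 ++ e :: l2) := by
      intro x hx
      rw [p1]
      rw [List.mem_append] at hx
      rcases hx with hx | hx
      · have := List.mem_of_mem_tail hx
        rw [List.mem_append, List.mem_singleton] at this
        rw [List.mem_append, List.mem_cons]
        rcases this with h | h
        · exact Or.inl h
        · exact Or.inr (Or.inl h)
      · rw [List.mem_append, List.mem_cons]
        exact Or.inr (Or.inr hx)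
    have hne : pos l2 + vec d + vec e ≠ pos l2 + vec d := by
      intro h
      exact vec_ne e (by simpa using h)
    rw [List.perm_middle.nodup_iff, List.nodup_cons]
    refine ⟨?_, ?_⟩
    · intro h
      rw [List.mem_append, List.mem_cons] at h
      rcases h with h | h | h
      · exact h2 (hsub _ (List.mem_append.2 (Or.inl h)))
      · exact hne h
      · exact h2 (hsub _ (List.mem_append.2 (Or.inr h)))
    · rw [List.perm_middle.nodup_iff, List.nodup_cons]
      exact ⟨fun h => h1 (hsub _ h), hnd⟩
  · rw [hlen2, List.length_append, List.length_cons]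
    omega
  · have := g0 0
    rw [Nat.add_zero] at this
    rw [this, g0 2]
    rfl
  · have := g0 0
    rw [Nat.add_zero] at this
    rw [this, g0 1]
    show ax (neg d) ≠ ax e
    rw [ax_neg]
    exact hp
  · unfold rem
    rw [g0 1]
    have t1 : (l1 ++ (neg d :: e :: d :: l2)).take l1.length = l1 := by
      rw [List.take_left]
    have t2 : (l1 ++ (neg d :: e :: d :: l2)).drop (l1.length + 3) = l2 := by
      rw [List.drop_append]
      simp
    rw [t1, t2]
    simp
  · rw [g0 2]
    rfl

end INS

theorem S_ins_proof : S_ins := by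
  intro w i d hw hs
  obtain ⟨hi, hp, h1, h2⟩ := hs
  have hsp := INS.split w i hi
  have hl : (w.take i).length = i := by
    rw [List.length_take]
    omega
  have h := INS.core (w.take i) (w.drop (i + 1)) (w.getD i .xp) d (by rw [← hsp]; exact hw) hp
    (by rw [← hsp]; exact h1) (by rw [← hsp]; exact h2)
  rw [← hsp, hl] at h
  exact h

end KN
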