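import Pool.Agent.H246KN.Stubs

/-! TASK INV of project KN (helper246), proof by helper439. -/

set_option autoImplicit false

namespace KN

open Finset Filter Topology
open scoped Classical

theorem S_inv_proof (h : S_local) : S_inv := by
  intro k w hw i d hs
  have h1 := h w i d hw hs
  unfold KT
  constructor
  · rintro (h2 | h2)
    · exact Or.inl (h1.symm.trans h2)
    · exact Or.inr (h1.symm.trans h2)
  · rintro (h2 | h2)
    · exact Or.inl (h1.trans h2)
    · exact Or.inr (h1.trans h2)

end KN
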