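import Pool.Agent.H246KN.Stubs

/-! Project KN, task LAYN (helper541): number of layered words. -/

set_option autoImplicit false

namespace KN

namespace LAYN

/-! ### enumeration of planar self-avoiding words -/

/-- planar self-avoiding words of length `j` -/
def enum : ℕ → List (List Dir)
  | 0 => [[]]
  | j + 1 => ((enum j).flatMap fun w => [Dir.xp :: w, Dir.xm :: w, Dir.yp :: w, Dir.ym :: w]).filter
      fun w => decide (path w).Nodup

/-- the number -/
def cnt : ℕ → ℕ
  | 0 => 1
  | 1 => 4
  | 2 => 12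
  | 3 => 36
  | _ => 100

def good (j : ℕ) : Prop := (enum j).Nodup ∧ (enum j).length = cnt j ∧
  ∀ w ∈ enum j, w.length = j ∧ (path w).Nodup ∧ ∀ d ∈ w, d ≠ Dir.zp ∧ d ≠ Dir.zm

instance (j : ℕ) : Decidable (good j) := by unfold good; infer_instance

theorem good_all : ∀ j < 5, good j := by
  intro j hj
  interval_cases j
  · decide +kernel
  · decide +kernel
  · decide +kernel
  · decide +kernel
  · decide +kernel

theorem split_inj {q q' w w' : List Dir} (h : Dir.zp ∉ q) (h' : Dir.zp ∉ q')
    (e : q ++ Dir.zp :: w = q' ++ Dir.zp :: w') : q = q' ∧ w = w' := by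
  induction q generalizing q' with
  | nil =>
    cases q' with
    | nil => simp at e; exact ⟨rfl, e⟩
    | cons b q' =>
      simp only [List.nil_append, List.cons_append, List.cons.injEq] at e
      exact absurd (by rw [e.1]; exact List.mem_cons_self) h'
  | cons b q ih =>
    cases q' with
    | nil =>
      simp only [List.nil_append, List.cons_append, List.cons.injEq] at e
      exact absurd (by rw [← e.1]; exact List.mem_cons_self) h
    | cons b' q' =>
      simp only [List.cons_append, List.cons.injEq] at e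
      obtain ⟨h1, h2⟩ := ih (fun hh => h (List.mem_cons_of_mem _ hh))
        (fun hh => h' (List.mem_cons_of_mem _ hh)) e.2
      exact ⟨by rw [e.1, h1], h2⟩

end LAYN

end KN

namespace KN

open Finset Filter Topology
open scoped Classical

noncomputable section

namespace LAYN

/-- the level sets of `PW` -/
def P (j : ℕ) : Finset (List Dir) :=
  (W j).filter (fun w => SAW w ∧ ∀ d ∈ w, d ≠ .zp ∧ d ≠ .zm)

theorem P_card {j : ℕ} (hj : j < 5) : cnt j ≤ (P j).card := by
  obtain ⟨h1, h2, h3⟩ := good_all j hj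
  rw [← h2, ← List.toFinset_card_of_nodup h1]
  refine card_le_card fun w hw => ?_
  rw [List.mem_toFinset] at hw
  obtain ⟨h4, h5, h6⟩ := h3 w hw
  unfold P
  rw [mem_filter, mem_W]
  exact ⟨h4, h5, h6⟩

theorem P_sub {j : ℕ} (hj : j < 5) {w : List Dir} (hw : w ∈ P j) : w ∈ PW := by
  unfold PW
  rw [mem_biUnion]
  exact ⟨j, mem_range.2 hj, hw⟩

/-- the layered words of length `m` -/
def Ls (m : ℕ) : Finset (List Dir) := (W m).filter Lay

theorem Ls_rec (m : ℕ) :
    ∑ j ∈ range 5, cnt j * (Ls (m + (4 - j))).card ≤ (Ls (m + 5)).card := by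
  have h1 : ∑ j ∈ range 5, cnt j * (Ls (m + (4 - j))).card ≤
      ((range 5).sigma fun j => P j ×ˢ Ls (m + (4 - j))).card := by
    rw [card_sigma]
    refine sum_le_sum fun j hj => ?_
    rw [card_product]
    exact Nat.mul_le_mul_right _ (P_card (mem_range.1 hj))
  refine h1.trans ?_
  refine card_le_card_of_injOn (fun x : (Σ _ : ℕ, List Dir × List Dir) => x.2.1 ++ .zp :: x.2.2)
    ?_ ?_
  · rintro ⟨j, q, w⟩ hx
    have hx' := mem_coe.1 hx
    rw [mem_sigma, mem_product] at hx'
    obtain ⟨hj, hq, hw⟩ := hx'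
    simp only at hj hq hw ⊢
    have hj5 := mem_range.1 hj
    rw [mem_coe]
    unfold Ls at hw ⊢
    rw [mem_filter, mem_W] at hw ⊢
    have hql : q.length = j := by
      unfold P at hq
      rw [mem_filter, mem_W] at hq
      exact hq.1
    refine ⟨?_, Lay.cons q w (P_sub hj5 hq) hw.2⟩
    rw [List.length_append, List.length_cons, hql, hw.1]
    omega
  · rintro ⟨j, q, w⟩ hx ⟨j', q', w'⟩ hx' he
    have h2 := mem_coe.1 hx
    have h3 := mem_coe.1 hx'
    rw [mem_sigma, mem_product] at h2 h3
    simp only at h2 h3 he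
    have hP : ∀ {j : ℕ} {q : List Dir}, q ∈ P j → q.length = j ∧ Dir.zp ∉ q := by
      intro j q hq
      unfold P at hq
      rw [mem_filter, mem_W] at hq
      exact ⟨hq.1, fun h => (hq.2.2 _ h).1 rfl⟩
    obtain ⟨a1, a2⟩ := hP h2.2.1
    obtain ⟨b1, b2⟩ := hP h3.2.1
    obtain ⟨e1, e2⟩ := split_inj a2 b2 he
    subst e1 e2
    have : j = j' := by omega
    subst this
    rfl

theorem nil_mem_PW : ([] : List Dir) ∈ PW := by
  refine P_sub (j := 0) (by norm_num) ?_
  unfold P
  rw [mem_filter, mem_W]
  refine ⟨rfl, ?_, by simp⟩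
  unfold SAW path
  simp

theorem Lay_rep (m : ℕ) : Lay (List.replicate m .zp) := by
  induction m with
  | zero => exact Lay.nil
  | succ m ih =>
    have := Lay.cons [] _ nil_mem_PW ih
    rw [List.replicate_succ]
    exact this

theorem Ls_pos (m : ℕ) : 1 ≤ (Ls m).card := by
  refine card_pos.2 ⟨List.replicate m .zp, ?_⟩
  unfold Ls
  rw [mem_filter, mem_W]
  exact ⟨List.length_replicate, Lay_rep m⟩

theorem main (m : ℕ) : (1 / 4000 : ℝ) * (97 / 25 : ℝ) ^ m ≤ ((Ls m).card : ℝ) := by
  induction m using Nat.strong_induction_on with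
  | _ m ih =>
    by_cases hm : m < 5
    · have h1 : (1 : ℝ) ≤ (Ls m).card := by exact_mod_cast Ls_pos m
      refine le_trans ?_ h1
      interval_cases m <;> norm_num
    · obtain ⟨k, rfl⟩ : ∃ k, m = k + 5 := ⟨m - 5, by omega⟩
      have h := Ls_rec k
      simp only [sum_range_succ, sum_range_zero, cnt] at h
      have h' : (1 : ℝ) * (Ls (k + 4)).card + 4 * (Ls (k + 3)).card + 12 * (Ls (k + 2)).card +
          36 * (Ls (k + 1)).card + 100 * (Ls k).card ≤ (Ls (k + 5)).card := by
        have h2 : 1 * (Ls (k + 4)).card + 4 * (Ls (k + 3)).card + 12 * (Ls (k + 2)).card +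
          36 * (Ls (k + 1)).card + 100 * (Ls k).card ≤ (Ls (k + 5)).card := by
          simpa using h
        exact_mod_cast h2
      have i0 := ih k (by omega)
      have i1 := ih (k + 1) (by omega)
      have i2 := ih (k + 2) (by omega)
      have i3 := ih (k + 3) (by omega)
      have i4 := ih (k + 4) (by omega)
      refine le_trans ?_ h'
      have hp : (0 : ℝ) < (97 / 25 : ℝ) ^ k := by positivity
      rw [pow_succ] at i1
      rw [pow_add] at i2 i3 i4 ⊢
      nlinarith

end LAYN

theorem S_layers_proof : S_layers := ⟨1 / 4000, by norm_num, fun m => LAYN.main m⟩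

end

end KN
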