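import Pool.Agent.H246KN.Stubs

set_option autoImplicit false

namespace KN

namespace LAYS

open Finset Filter Topology
open scoped Classical

theorem path_app_cons (q w : List Dir) (d : Dir) :
    path (q ++ d :: w) = (path q).map (fun p => p + (pos w + vec d)) ++ path w := by
  induction q with
  | nil => simp [path]
  | cons e q ih =>
    rw [List.cons_append, path, ih, pos_append]
    simp only [path, pos, List.map_cons, List.cons_append]
    congr 1
    abel

theorem pos_rep (d : Dir) (k : ℕ) : pos (List.replicate k d) = k • vec d := by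
  induction k with
  | zero => simp [pos]
  | succ k ih => rw [List.replicate_succ, pos, ih, succ_nsmul]

theorem pos_rep_yp (k : ℕ) : pos (List.replicate k .yp) = (0, (k : ℤ), 0) := by
  rw [pos_rep]; simp [vec]

theorem pos_rep_ym (k : ℕ) : pos (List.replicate k .ym) = (0, -(k : ℤ), 0) := by
  rw [pos_rep]; simp [vec]

theorem path_rep_yp (k : ℕ) : (path (List.replicate k .yp)).Nodup ∧
    ∀ p ∈ path (List.replicate k .yp), p.1 = 0 ∧ p.2.2 = 0 ∧ 0 ≤ p.2.1 ∧ p.2.1 ≤ k := by
  induction k with
  | zero => simp [path]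
  | succ k ih =>
    obtain ⟨h1, h2⟩ := ih
    rw [List.replicate_succ, path, pos_rep_yp]
    constructor
    · rw [List.nodup_cons]
      refine ⟨fun hm => ?_, h1⟩
      have := (h2 _ hm).2.2.2
      simp [vec] at this
    · intro p hp
      rcases List.mem_cons.1 hp with rfl | hp
      · simp [vec]; omega
      · obtain ⟨a1, a2, a3, a4⟩ := h2 p hp
        refine ⟨a1, a2, a3, ?_⟩
        push_cast; omega

theorem path_rep_ym (k : ℕ) : (path (List.replicate k .ym)).Nodup ∧
    ∀ p ∈ path (List.replicate k .ym), p.1 = 0 ∧ p.2.2 = 0 ∧ -(k : ℤ) ≤ p.2.1 ∧ p.2.1 ≤ 0 := by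
  induction k with
  | zero => simp [path]
  | succ k ih =>
    obtain ⟨h1, h2⟩ := ih
    rw [List.replicate_succ, path, pos_rep_ym]
    constructor
    · rw [List.nodup_cons]
      refine ⟨fun hm => ?_, h1⟩
      have := (h2 _ hm).2.2.1
      simp [vec] at this
    · intro p hp
      rcases List.mem_cons.1 hp with rfl | hp
      · simp [vec]
      · obtain ⟨a1, a2, a3, a4⟩ := h2 p hp
        refine ⟨a1, a2, ?_, a4⟩
        push_cast; omega

theorem path_back (w : List Dir) : path (back w) = ((path w).map (fun p => p - pos w)).reverse := by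
  induction w with
  | nil => simp [back, path, pos]
  | cons d w ih =>
    have h1 : back (d :: w) = back w ++ neg d :: [] := by simp [back]
    rw [h1, path_app_cons, ih]
    simp only [path, pos, List.map_cons, List.reverse_cons, List.map_reverse, List.map_map, vec_neg]
    have h2 : (fun p => p + (0 + -vec d)) ∘ (fun p => p - pos w) =
        fun p : Z3 => p - (pos w + vec d) := by
      funext p
      simp only [Function.comp]
      abel
    rw [h2, sub_self]

theorem pos_back (w : List Dir) : pos (back w) = - pos w := by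
  induction w with
  | nil => simp [back, pos]
  | cons d w ih =>
    have h1 : back (d :: w) = back w ++ neg d :: [] := by simp [back]
    rw [h1, pos_append, ih]
    simp only [pos, vec_neg]
    abel

/-- planar words stay in the plane -/
theorem planar (q : List Dir) (h : ∀ d ∈ q, d ≠ Dir.zp ∧ d ≠ Dir.zm) :
    (pos q).2.2 = 0 ∧ ∀ p ∈ path q, p.2.2 = 0 := by
  induction q with
  | nil => simp [pos, path]
  | cons d q ih =>
    obtain ⟨h1, h2⟩ := ih (fun e he => h e (List.mem_cons_of_mem _ he))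
    have hd := h d List.mem_cons_self
    have h3 : (vec d).2.2 = 0 := by
      cases d <;> first | rfl | exact absurd rfl hd.1 | exact absurd rfl hd.2
    have h4 : (pos q + vec d).2.2 = 0 := by
      simp only [Prod.snd_add, h1, h3, add_zero]
    refine ⟨h4, ?_⟩
    intro p hp
    rcases List.mem_cons.1 hp with rfl | hp
    · exact h4
    · exact h2 p hp

theorem mem_PW {q : List Dir} (h : q ∈ PW) : SAW q ∧ ∀ d ∈ q, d ≠ Dir.zp ∧ d ≠ Dir.zm := by
  unfold PW at h
  simp only [mem_biUnion, mem_filter] at h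
  obtain ⟨j, _, _, h1, h2⟩ := h
  exact ⟨h1, h2⟩

theorem lay (w : List Dir) (h : Lay w) : (path w).Nodup ∧
    (∀ p ∈ path w, 0 ≤ p.2.2 ∧ p.2.2 ≤ (pos w).2.2 ∧ (p.2.2 = 0 → p = 0)) := by
  induction h with
  | nil => simp [path, pos]
  | cons q w hq hw ih =>
    obtain ⟨ih1, ih2⟩ := ih
    obtain ⟨hs, hpl⟩ := mem_PW hq
    obtain ⟨hp1, hp2⟩ := planar q hpl
    have h0 : 0 ≤ (pos w).2.2 := (ih2 _ (pos_mem_path w)).1
    have hpos : (pos (q ++ .zp :: w)).2.2 = (pos w).2.2 + 1 := by
      rw [pos_append, pos]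
      simp only [Prod.snd_add, hp1, vec]
      ring
    have hz : ∀ p ∈ (path q).map (fun p => p + (pos w + vec .zp)), p.2.2 = (pos w).2.2 + 1 := by
      intro p hp
      obtain ⟨r, hr, rfl⟩ := List.mem_map.1 hp
      simp only [Prod.snd_add, hp2 r hr, vec]
      ring
    rw [path_app_cons]
    constructor
    · rw [List.nodup_append]
      refine ⟨List.Nodup.map (fun a b hab => by simpa using hab) hs, ih1, ?_⟩
      intro p hp r hr hpr
      subst hpr
      have := hz p hp
      have := (ih2 p hr).2.1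
      omega
    · intro p hp
      rw [hpos]
      rcases List.mem_append.1 hp with hp | hp
      · have := hz p hp
        exact ⟨by omega, by omega, fun h => by omega⟩
      · obtain ⟨a1, a2, a3⟩ := ih2 p hp
        exact ⟨a1, by omega, a3⟩

end LAYS

open LAYS in
theorem S_laySAP_proof : S_laySAP := by
  intro n M h A B hLH
  obtain ⟨hn, hA, hB, lA, lB, pA, pB, yA, yB⟩ := hLH
  obtain ⟨ndA, mA⟩ := lay A lA
  obtain ⟨ndB, mB⟩ := lay B lB
  set Y : ℕ := 2 * M + 2 with hY
  -- positions
  have hpos2 : pos (List.replicate Y Dir.yp ++ .zp :: A) = (0, (Y : ℤ), (h : ℤ) + 1) := by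
    rw [pos_append, pos, pos_rep_yp, pA]
    simp [vec]
  have hpos4 : pos (back B ++ .zm :: (List.replicate Y Dir.yp ++ .zp :: A)) = (0, (Y : ℤ), 0) := by
    rw [pos_append, pos_back, pos, hpos2, pB]
    simp [vec]
  have hposP : pos (PP Y A B) = 0 := by
    unfold PP
    rw [pos_append, hpos4, pos_rep_ym]
    simp
  have hlen : 4 ≤ (PP Y A B).length := by
    unfold PP
    simp [back]
    omega
  -- the path
  have e1 : PP Y A B = (Dir.ym :: List.replicate (2 * M) Dir.ym) ++ Dir.ym ::
      (back B ++ .zm :: (List.replicate Y Dir.yp ++ .zp :: A)) := by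
    unfold PP
    rw [hY, show 2 * M + 2 = (2 * M + 1) + 1 from rfl, ← List.replicate_succ]
    rw [List.replicate_succ' (n := 2 * M + 1)]
    simp
  have e2 : (path (PP Y A B)).tail =
      (path (List.replicate (2 * M) Dir.ym)).map (fun p => p + (0, (Y : ℤ) - 1, 0)) ++
      ((path (back B)).map (fun p => p + (0, (Y : ℤ), (h : ℤ))) ++
      ((path (List.replicate Y Dir.yp)).map (fun p => p + (0, 0, (h : ℤ) + 1)) ++ path A)) := by
    rw [e1, path_app_cons, path_app_cons, path_app_cons, hpos4, hpos2, pA]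
    simp only [path, List.map_cons, List.cons_append, List.tail_cons, vec]
    simp [sub_eq_add_neg]
  refine ⟨hlen, hposP, ?_⟩
  rw [e2]
  obtain ⟨nd1, m1⟩ := path_rep_ym (2 * M)
  obtain ⟨nd3, m3⟩ := path_rep_yp Y
  -- membership in the four parts
  have M1 : ∀ p : Z3, p ∈ (path (List.replicate (2 * M) Dir.ym)).map
      (fun p : Z3 => p + ((0, (Y : ℤ) - 1, 0) : Z3)) →
      p.2.2 = 0 ∧ 1 ≤ p.2.1 ∧ p.2.1 ≤ 2 * (M : ℤ) + 1 := by
    intro p hp
    obtain ⟨r, hr, rfl⟩ := List.mem_map.1 hp
    obtain ⟨a1, a2, a3, a4⟩ := m1 r hr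
    simp only [Prod.snd_add, Prod.fst_add]
    push_cast at a3
    refine ⟨by omega, by omega, by omega⟩
  have M2 : ∀ p : Z3, p ∈ (path (back B)).map (fun p : Z3 => p + ((0, (Y : ℤ), (h : ℤ)) : Z3)) →
      0 ≤ p.2.2 ∧ p.2.2 ≤ (h : ℤ) ∧ (M : ℤ) + 2 ≤ p.2.1 ∧
        (p.2.2 = 0 → p.2.1 = 2 * (M : ℤ) + 2) := by
    intro p hp
    obtain ⟨r, hr, rfl⟩ := List.mem_map.1 hp
    rw [path_back, List.mem_reverse, List.mem_map] at hr
    obtain ⟨s, hs, rfl⟩ := hr
    obtain ⟨a1, a2, a3⟩ := mB s hs
    have a4 := yB s hs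
    rw [abs_le] at a4
    rw [pB] at a2 ⊢
    simp only [Prod.snd_add, Prod.fst_add, Prod.snd_sub, Prod.fst_sub]
    simp only [] at a2
    refine ⟨by omega, by omega, by omega, ?_⟩
    intro hz
    have : s = 0 := a3 (by omega)
    subst this
    simp only [Prod.snd_zero, Prod.fst_zero]
    omega
  have M3 : ∀ p : Z3, p ∈ (path (List.replicate Y Dir.yp)).map
      (fun p : Z3 => p + ((0, 0, (h : ℤ) + 1) : Z3)) → p.2.2 = (h : ℤ) + 1 := by
    intro p hp
    obtain ⟨r, hr, rfl⟩ := List.mem_map.1 hp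
    obtain ⟨a1, a2, a3, a4⟩ := m3 r hr
    simp only [Prod.snd_add, a2]
    ring
  have M4 : ∀ p : Z3, p ∈ path A → 0 ≤ p.2.2 ∧ p.2.2 ≤ (h : ℤ) ∧ p.2.1 ≤ (M : ℤ) ∧
      (p.2.2 = 0 → p = 0) := by
    intro p hp
    obtain ⟨a1, a2, a3⟩ := mA p hp
    have a4 := yA p hp
    rw [abs_le] at a4
    rw [pA] at a2
    exact ⟨a1, a2, a4.2, a3⟩
  have inj : ∀ c : Z3, Function.Injective (fun p : Z3 => p + c) := fun c a b hab => by
    simpa using hab
  have N1 := nd1.map (inj (0, (Y : ℤ) - 1, 0))
  have N3 := nd3.map (inj (0, 0, (h : ℤ) + 1))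
  have N2 : ((path (back B)).map (fun p => p + (0, (Y : ℤ), (h : ℤ)))).Nodup := by
    refine List.Nodup.map (inj _) ?_
    rw [path_back]
    refine List.nodup_reverse.2 (List.Nodup.map ?_ ndB)
    intro a b hab
    simpa using hab
  rw [List.nodup_append]
  refine ⟨N1, ?_, ?_⟩
  · rw [List.nodup_append]
    refine ⟨N2, ?_, ?_⟩
    · rw [List.nodup_append]
      refine ⟨N3, ndA, ?_⟩
      intro p hp r hr hpr
      subst hpr
      have b1 := M3 p hp
      have b2 := (M4 p hr).2.1
      omega
    · intro p hp r hr hpr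
      subst hpr
      obtain ⟨c1, c2, c3, c4⟩ := M2 p hp
      rcases List.mem_append.1 hr with hr | hr
      · have b1 := M3 p hr
        omega
      · obtain ⟨d1, d2, d3, d4⟩ := M4 p hr
        omega
  · intro p hp r hr hpr
    subst hpr
    obtain ⟨c1, c2, c3⟩ := M1 p hp
    rcases List.mem_append.1 hr with hr | hr
    · obtain ⟨d1, d2, d3, d4⟩ := M2 p hr
      have := d4 c1
      omega
    · rcases List.mem_append.1 hr with hr | hr
      · have b1 := M3 p hr
        omega
      · obtain ⟨d1, d2, d3, d4⟩ := M4 p hr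
        have := d4 c1
        subst this
        simp at c2

end KN
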