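import Pool.Agent.H246KN.Stubs

/-!
# L3: the polygon over two layered walks is unknotted
-/

set_option autoImplicit false

namespace KN
namespace LAYU

open Finset

/-- the union of the half-open edges -/
def Pt (E : List (V × V)) (x : V) : Prop :=
  ∃ e ∈ E, ∃ u : ℝ, 0 ≤ u ∧ u < 1 ∧ x = lerp e.1 e.2 u

theorem pairwise_app {E F : List (V × V)} (hE : E.Pairwise Disj) (hF : F.Pairwise Disj)
    (h : ∀ x, Pt E x → Pt F x → False) : (E ++ F).Pairwise Disj := by
  rw [List.pairwise_append]
  exact ⟨hE, hF, fun e he f hf u v hu hu' hv hv' heq =>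
    h _ ⟨e, he, u, hu, hu', rfl⟩ ⟨f, hf, v, hv, hv', heq⟩⟩

theorem Pt_append {E F : List (V × V)} {x : V} : Pt (E ++ F) x ↔ Pt E x ∨ Pt F x := by
  unfold Pt
  constructor
  · rintro ⟨e, he, h⟩
    rcases List.mem_append.1 he with h1 | h1
    · exact Or.inl ⟨e, h1, h⟩
    · exact Or.inr ⟨e, h1, h⟩
  · rintro (⟨e, he, h⟩ | ⟨e, he, h⟩)
    · exact ⟨e, List.mem_append_left _ he, h⟩
    · exact ⟨e, List.mem_append_right _ he, h⟩

theorem mono (f : V → ℝ) (hf : ∀ p q u, f (lerp p q u) = (1 - u) * f p + u * f q) (q : V)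
    (l : List V) : ∀ p : V, (p :: (l ++ [q])).Pairwise (fun a b => f a < f b) →
    (chain p (l ++ [q])).Pairwise Disj ∧ (∀ e ∈ chain p (l ++ [q]), e.1 ≠ e.2) ∧
    (∀ x, Pt (chain p (l ++ [q])) x → f p ≤ f x ∧ f x < f q ∧ (f x = f p → x = p)) := by
  induction l with
  | nil =>
    intro p h
    have hpq : f p < f q := by
      have := (List.pairwise_cons.1 h).1 q (by simp)
      exact this
    refine ⟨by simp [chain], ?_, ?_⟩
    · intro e he
      simp only [List.nil_append, chain, List.mem_singleton] at he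
      subst he
      intro h'
      simp only at h'
      rw [h'] at hpq
      exact lt_irrefl _ hpq
    · rintro x ⟨e, he, u, hu0, hu1, rfl⟩
      simp only [List.nil_append, chain, List.mem_singleton] at he
      subst he
      simp only
      rw [hf]
      refine ⟨by nlinarith, by nlinarith, fun h' => ?_⟩
      have h2 : u * (f q - f p) = 0 := by linarith
      rcases mul_eq_zero.1 h2 with h3 | h3
      · rw [h3, lerp_zero]
      · exfalso; linarith
  | cons r l ih =>
    intro p h
    rw [List.cons_append, List.pairwise_cons] at h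
    obtain ⟨h1, h2⟩ := h
    have hpr : f p < f r := h1 r (by simp)
    have hrq : f r < f q := (List.pairwise_cons.1 h2).1 q (by simp)
    obtain ⟨i1, i2, i3⟩ := ih r h2
    have hfirst : ∀ u : ℝ, 0 ≤ u → u < 1 → f (lerp p r u) < f r := by
      intro u hu0 hu1
      rw [hf]; nlinarith
    refine ⟨?_, ?_, ?_⟩
    · rw [List.cons_append, chain, List.pairwise_cons]
      refine ⟨?_, i1⟩
      intro e he u v hu hu' hv hv' heq
      have := (i3 _ ⟨e, he, v, hv, hv', rfl⟩).1
      have h3 := hfirst u hu hu'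
      simp only at heq
      rw [heq] at h3
      linarith
    · intro e he
      rw [List.cons_append, chain, List.mem_cons] at he
      rcases he with rfl | he
      · intro h'
        simp only at h'
        rw [h'] at hpr
        exact lt_irrefl _ hpr
      · exact i2 e he
    · rintro x ⟨e, he, u, hu0, hu1, rfl⟩
      rw [List.cons_append, chain, List.mem_cons] at he
      rcases he with rfl | he
      · simp only
        have h3 := hfirst u hu0 hu1
        refine ⟨by rw [hf]; nlinarith, by linarith, fun h' => ?_⟩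
        rw [hf] at h'
        have h2 : u * (f r - f p) = 0 := by linarith
        rcases mul_eq_zero.1 h2 with h3 | h3
        · rw [h3, lerp_zero]
        · exfalso; linarith
      · obtain ⟨j1, j2, j3⟩ := i3 _ ⟨e, he, u, hu0, hu1, rfl⟩
        exact ⟨by linarith, j2, fun h' => by exfalso; linarith⟩

theorem conv (C : V → Prop) (hC : ∀ p q u, 0 ≤ u → u < 1 → C p → C q → C (lerp p q u))
    (l : List V) : ∀ p : V, (∀ x ∈ p :: l, C x) → ∀ x, Pt (chain p l) x → C x := by
  induction l with
  | nil =>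
    rintro p h x ⟨e, he, _⟩
    simp [chain] at he
  | cons r l ih =>
    rintro p h x ⟨e, he, u, hu0, hu1, rfl⟩
    rw [chain, List.mem_cons] at he
    rcases he with rfl | he
    · exact hC _ _ _ hu0 hu1 (h p (by simp)) (h r (by simp))
    · exact ih r (fun y hy => h y (List.mem_cons_of_mem _ hy)) _ ⟨e, he, u, hu0, hu1, rfl⟩

theorem lx (p q : V) (u : ℝ) : (lerp p q u).1 = (1 - u) * p.1 + u * q.1 := by simp [lerp]
theorem ly (p q : V) (u : ℝ) : (lerp p q u).2.1 = (1 - u) * p.2.1 + u * q.2.1 := by simp [lerp]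
theorem lz (p q : V) (u : ℝ) : (lerp p q u).2.2 = (1 - u) * p.2.2 + u * q.2.2 := by simp [lerp]

/-- the frame: lower, right, upper, left side -/
def fr4 (Y H : ℝ) (bot rb top la : List V) : List V :=
  (0, 0, 0) :: (bot ++ (0, Y, 0) :: (rb ++ (0, Y, H) :: (top ++ (0, 0, H) :: la)))

theorem edges_fr4 (Y H : ℝ) (bot rb top la : List V) :
    edges (fr4 Y H bot rb top la) =
      chain (0, 0, 0) (bot ++ [(0, Y, 0)]) ++ (chain (0, Y, 0) (rb ++ [(0, Y, H)]) ++
        (chain (0, Y, H) (top ++ [(0, 0, H)]) ++ chain (0, 0, H) (la ++ [(0, 0, 0)]))) := by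
  unfold fr4
  rw [edges]
  have e : (bot ++ (0, Y, 0) :: (rb ++ (0, Y, H) :: (top ++ (0, 0, H) :: la))) ++
      [((0, 0, 0) : V)] = bot ++ (0, Y, 0) :: (rb ++ (0, Y, H) :: (top ++ (0, 0, H) ::
        (la ++ [(0, 0, 0)]))) := by simp
  rw [e, chain_append (0, 0, 0) (0, Y, 0) bot _,
    chain_append (0, Y, 0) (0, Y, H) rb (top ++ (0, 0, H) :: (la ++ [(0, 0, 0)])),
    chain_append (0, Y, H) (0, 0, H) top (la ++ [(0, 0, 0)])]

theorem simple_fr4 (Y H M : ℝ) (bot rb top la : List V) (hY : 2 * M < Y) (hH : 0 < H)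
    (hM : 0 ≤ M)
    (b1 : ∀ p ∈ bot, p.2.2 = 0)
    (b2 : (((0, 0, 0) : V) :: (bot ++ [(0, Y, 0)])).Pairwise (fun a b => a.2.1 < b.2.1))
    (r1 : ∀ p ∈ rb, |p.2.1 - Y| ≤ M)
    (r2 : (((0, Y, 0) : V) :: (rb ++ [(0, Y, H)])).Pairwise (fun a b => a.2.2 < b.2.2))
    (t1 : ∀ p ∈ top, p.2.2 = H)
    (t2 : (((0, Y, H) : V) :: (top ++ [(0, 0, H)])).Pairwise (fun a b => b.2.1 < a.2.1))
    (l1 : ∀ p ∈ la, |p.2.1| ≤ M)
    (l2 : (((0, 0, H) : V) :: (la ++ [(0, 0, 0)])).Pairwise (fun a b => b.2.2 < a.2.2)) :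
    Simple (fr4 Y H bot rb top la) := by
  obtain ⟨B1, B2, B3⟩ := mono (fun p => p.2.1) (fun p q u => ly p q u) (0, Y, 0) bot (0, 0, 0) b2
  obtain ⟨R1, R2, R3⟩ := mono (fun p => p.2.2) (fun p q u => lz p q u) (0, Y, H) rb (0, Y, 0) r2
  obtain ⟨T1, T2, T3⟩ := mono (fun p => - p.2.1) (fun p q u => by rw [ly]; ring) (0, 0, H) top
    (0, Y, H) (t2.imp (fun h => by linarith))
  obtain ⟨L1, L2, L3⟩ := mono (fun p => - p.2.2) (fun p q u => by rw [lz]; ring) (0, 0, 0) la
    (0, 0, H) (l2.imp (fun h => by linarith))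
  have B4 := conv (fun p => p.2.2 = 0) (fun p q u _ _ hp hq => by rw [lz, hp, hq]; ring)
    (bot ++ [(0, Y, 0)]) (0, 0, 0) (by
      intro x hx
      simp only [List.mem_cons, List.mem_append, List.not_mem_nil, or_false] at hx
      rcases hx with rfl | hx | rfl
      · rfl
      · exact b1 x hx
      · rfl)
  have T4 := conv (fun p => p.2.2 = H) (fun p q u _ _ hp hq => by rw [lz, hp, hq]; ring)
    (top ++ [(0, 0, H)]) (0, Y, H) (by
      intro x hx
      simp only [List.mem_cons, List.mem_append, List.not_mem_nil, or_false] at hx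
      rcases hx with rfl | hx | rfl
      · rfl
      · exact t1 x hx
      · rfl)
  have R4 := conv (fun p => Y - M ≤ p.2.1)
    (fun p q u h0 h1 hp hq => by rw [ly]; nlinarith)
    (rb ++ [(0, Y, H)]) (0, Y, 0) (by
      intro x hx
      simp only [List.mem_cons, List.mem_append, List.not_mem_nil, or_false] at hx
      rcases hx with rfl | hx | rfl
      · simp only; linarith
      · have := abs_le.1 (r1 x hx); linarith [this.1]
      · simp only; linarith)
  have L4 := conv (fun p => p.2.1 ≤ M)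
    (fun p q u h0 h1 hp hq => by rw [ly]; nlinarith)
    (la ++ [(0, 0, 0)]) (0, 0, H) (by
      intro x hx
      simp only [List.mem_cons, List.mem_append, List.not_mem_nil, or_false] at hx
      rcases hx with rfl | hx | rfl
      · simp only; linarith
      · have := abs_le.1 (l1 x hx); linarith [this.2]
      · simp only; linarith)
  simp only at B3 B4 R3 R4 T3 T4 L3 L4
  refine ⟨by simp [fr4], ?_, ?_⟩
  · rw [edges_fr4]
    refine pairwise_app B1 (pairwise_app R1 (pairwise_app T1 L1 ?_) ?_) ?_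
    · -- top against left
      intro x hx hx'
      obtain ⟨a1, a2, a3⟩ := L3 x hx'
      have := T4 x hx
      have h3 := a3 (by rw [this])
      have h4 := (T3 x hx).2.1
      rw [h3] at h4
      simp at h4
    · intro x hx hx'
      rcases Pt_append.1 hx' with h | h
      · have h1 := (R3 x hx).2.1
        have h2 := T4 x h
        linarith
      · have h1 := R4 x hx
        have h2 := L4 x h
        linarith
    · intro x hx hx'
      have h0 := B4 x hx
      rcases Pt_append.1 hx' with h | h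
      · have h1 := (R3 x h).2.2 h0
        have h2 := (B3 x hx).2.1
        rw [h1] at h2
        simp at h2
      · rcases Pt_append.1 h with h | h
        · have h2 := T4 x h
          linarith
        · have h2 := (L3 x h).2.1
          linarith
  · intro e he
    rw [edges_fr4] at he
    simp only [List.mem_append] at he
    rcases he with he | he | he | he
    · exact B2 e (by simpa using he)
    · exact R2 e (by simpa using he)
    · exact T2 e (by simpa using he)
    · exact L2 e (by simpa using he)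

/-! ### insertion of points on the four sides -/

theorem insert_pts (hsub : S_sub) (l1 l2 : List V) (p q : V) (m : List V) (f : V → ℝ)
    (hm : ∀ x ∈ m, x = lerp p q (f x) ∧ 0 < f x ∧ f x < 1)
    (hs : m.Pairwise (fun a b => f a < f b)) (h : Simple (l1 ++ p :: q :: l2)) :
    Simple (l1 ++ p :: (m ++ q :: l2)) ∧ Same (l1 ++ p :: q :: l2) (l1 ++ p :: (m ++ q :: l2)) := by
  have hmm : (m.map f).map (lerp p q) = m := by
    rw [List.map_map]
    conv_rhs => rw [← List.map_id m]
    apply List.map_congr_left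
    intro x hx
    simp only [Function.comp, id]
    exact (hm x hx).1.symm
  have := hsub l1 l2 p q (m.map f) (by rw [List.pairwise_map]; exact hs) (by
    intro s hs
    obtain ⟨x, hx, rfl⟩ := List.mem_map.1 hs
    exact (hm x hx).2)
  rw [hmm] at this
  have e : l1 ++ p :: m ++ q :: l2 = l1 ++ p :: (m ++ q :: l2) := by simp
  rw [e] at this
  exact ⟨this.1.1 h, this.2 h⟩

theorem same_fr4 (hsub : S_sub) (hrot : S_rot) (Y H : ℝ) (bot rb top la : List V)
    (hY : 0 < Y) (hH : 0 < H)
    (b1 : ∀ p ∈ bot, p.1 = 0 ∧ p.2.2 = 0)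
    (b2 : (((0, 0, 0) : V) :: (bot ++ [(0, Y, 0)])).Pairwise (fun a b => a.2.1 < b.2.1))
    (r1 : ∀ p ∈ rb, p.1 = 0 ∧ p.2.1 = Y)
    (r2 : (((0, Y, 0) : V) :: (rb ++ [(0, Y, H)])).Pairwise (fun a b => a.2.2 < b.2.2))
    (t1 : ∀ p ∈ top, p.1 = 0 ∧ p.2.2 = H)
    (t2 : (((0, Y, H) : V) :: (top ++ [(0, 0, H)])).Pairwise (fun a b => b.2.1 < a.2.1))
    (l1 : ∀ p ∈ la, p.1 = 0 ∧ p.2.1 = 0)
    (l2 : (((0, 0, H) : V) :: (la ++ [(0, 0, 0)])).Pairwise (fun a b => b.2.2 < a.2.2))
    (hR : Simple (fr4 Y H [] [] [] [])) :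
    Same (fr4 Y H [] [] [] []) (fr4 Y H bot rb top la) := by
  have key : ∀ (R : V → V → Prop) (a b : V) (l : List V), (a :: (l ++ [b])).Pairwise R →
      l.Pairwise R ∧ (∀ x ∈ l, R a x) ∧ ∀ x ∈ l, R x b := by
    intro R a b l h
    rw [List.pairwise_cons, List.pairwise_append] at h
    exact ⟨h.2.1, fun x hx => h.1 x (by simp [hx]), fun x hx => h.2.2.2 x hx b (by simp)⟩
  obtain ⟨b3, b4, b5⟩ := key _ _ _ _ b2
  obtain ⟨r3, r4, r5⟩ := key _ _ _ _ r2
  obtain ⟨t3, t4, t5⟩ := key _ _ _ _ t2
  obtain ⟨l3, l4, l5⟩ := key _ _ _ _ l2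
  -- lower side
  obtain ⟨s1, e1⟩ := insert_pts hsub [] [(0, Y, H), (0, 0, H)] (0, 0, 0) (0, Y, 0) bot
    (fun p => p.2.1 / Y) (by
      intro x hx
      obtain ⟨h1, h2⟩ := b1 x hx
      refine ⟨?_, div_pos (b4 x hx) hY, (div_lt_one hY).2 (b5 x hx)⟩
      refine Prod.ext ?_ (Prod.ext ?_ ?_)
      · rw [lx, h1]; simp
      · rw [ly]; field_simp; ring
      · rw [lz, h2]; simp) (b3.imp (fun h => (div_lt_div_iff_of_pos_right hY).2 h)) hR
  -- right side
  obtain ⟨s2, e2⟩ := insert_pts hsub ((0, 0, 0) :: bot) [(0, 0, H)] (0, Y, 0) (0, Y, H) rb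
    (fun p => p.2.2 / H) (by
      intro x hx
      obtain ⟨h1, h2⟩ := r1 x hx
      refine ⟨?_, div_pos (r4 x hx) hH, (div_lt_one hH).2 (r5 x hx)⟩
      refine Prod.ext ?_ (Prod.ext ?_ ?_)
      · rw [lx, h1]; simp
      · rw [ly, h2]; simp only; ring
      · rw [lz]; field_simp; ring) (r3.imp (fun h => (div_lt_div_iff_of_pos_right hH).2 h))
      (by simpa using s1)
  -- upper side
  obtain ⟨s3, e3⟩ := insert_pts hsub ((0, 0, 0) :: (bot ++ (0, Y, 0) :: rb)) [] (0, Y, H)
    (0, 0, H) top (fun p => (Y - p.2.1) / Y) (by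
      intro x hx
      obtain ⟨h1, h2⟩ := t1 x hx
      have h3 := t4 x hx
      have h4 := t5 x hx
      simp only at h3 h4
      refine ⟨?_, div_pos (by linarith) hY, (div_lt_one hY).2 (by linarith)⟩
      refine Prod.ext ?_ (Prod.ext ?_ ?_)
      · rw [lx, h1]; simp
      · rw [ly]; field_simp; ring
      · rw [lz, h2]; simp only; ring)
      (t3.imp (fun h => (div_lt_div_iff_of_pos_right hY).2 (by linarith)))
      (by simpa using s2)
  -- rotation
  obtain ⟨s4, e4⟩ := hrot [(0, 0, 0)] (bot ++ (0, Y, 0) :: (rb ++ (0, Y, H) :: (top ++ [(0, 0, H)])))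
    (by simpa using s3)
  obtain ⟨s5, e5⟩ := insert_pts hsub (bot ++ (0, Y, 0) :: (rb ++ (0, Y, H) :: top)) [] (0, 0, H)
    (0, 0, 0) la (fun p => (H - p.2.2) / H) (by
      intro x hx
      obtain ⟨h1, h2⟩ := l1 x hx
      have h3 := l4 x hx
      have h4 := l5 x hx
      simp only at h3 h4
      refine ⟨?_, div_pos (by linarith) hH, (div_lt_one hH).2 (by linarith)⟩
      refine Prod.ext ?_ (Prod.ext ?_ ?_)
      · rw [lx, h1]; simp
      · rw [ly, h2]; simp
      · rw [lz]; field_simp; ring)
      (l3.imp (fun h => (div_lt_div_iff_of_pos_right hH).2 (by linarith)))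
      (by simpa using s4)
  obtain ⟨s6, e6⟩ := hrot (bot ++ (0, Y, 0) :: (rb ++ (0, Y, H) :: (top ++ (0, 0, H) :: la)))
    [(0, 0, 0)] (by simpa using s5)
  have f1 : Same (fr4 Y H [] [] [] []) (fr4 Y H bot [] [] []) := by simpa [fr4] using e1
  have f2 : Same (fr4 Y H bot [] [] []) (fr4 Y H bot rb [] []) := by simpa [fr4] using e2
  have f3 : Same (fr4 Y H bot rb [] []) (fr4 Y H bot rb top []) := by simpa [fr4] using e3
  have f4 : Same (fr4 Y H bot rb top [])
      ((bot ++ (0, Y, 0) :: (rb ++ (0, Y, H) :: (top ++ [(0, 0, H)]))) ++ [(0, 0, 0)]) := by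
    simpa [fr4] using e4
  have f5 : Same ((bot ++ (0, Y, 0) :: (rb ++ (0, Y, H) :: (top ++ [(0, 0, H)]))) ++ [(0, 0, 0)])
      ((bot ++ (0, Y, 0) :: (rb ++ (0, Y, H) :: (top ++ (0, 0, H) :: la))) ++ [(0, 0, 0)]) := by
    simpa using e5
  have f6 : Same ((bot ++ (0, Y, 0) :: (rb ++ (0, Y, H) :: (top ++ (0, 0, H) :: la))) ++
      [(0, 0, 0)]) (fr4 Y H bot rb top la) := by simpa [fr4] using e6
  exact f1.trans (f2.trans (f3.trans (f4.trans (f5.trans f6))))

/-! ### the words -/

/-- the vertices without the root -/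
def P (w : List Dir) : List Z3 := (path w).dropLast

theorem P_nil : P [] = [] := rfl

theorem P_cons (d : Dir) (w : List Dir) : P (d :: w) = (pos w + vec d) :: P w := by
  simp [P, path, List.dropLast_cons_of_ne_nil (path_ne_nil w)]

theorem path_eq (w : List Dir) : path w = P w ++ [0] := by
  induction w with
  | nil => rfl
  | cons d l ih => rw [path, P_cons, ih]; rfl

theorem P_length (w : List Dir) : (P w).length = w.length := by
  simp [P, path_length]

theorem path_app (l1 l2 : List Dir) :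
    path (l1 ++ l2) = (P l1).map (fun p => p + pos l2) ++ path l2 := path_append l1 l2

theorem path_back (w : List Dir) : path (back w) = (path w).reverse.map (fun p => p - pos w) := by
  induction w with
  | nil => simp [back, path, pos]
  | cons d l ih =>
    have e : back (d :: l) = back l ++ [neg d] := by simp [back]
    have h1 : (path (back l)).getLast (path_ne_nil _) = 0 := path_getLast _
    have h2 : path (back l) = P (back l) ++ [0] := path_eq _
    rw [e, path_app]
    have h3 : path [neg d] = [vec (neg d), 0] := by simp [path, pos]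
    have h4 : (P (back l)).map (fun p => p + pos [neg d]) ++ [vec (neg d)] =
        (path (back l)).map (fun p => p + vec (neg d)) := by
      rw [h2]; simp [pos]
    have h5 : (P (back l)).map (fun p => p + pos [neg d]) ++ path [neg d] =
        ((P (back l)).map (fun p => p + pos [neg d]) ++ [vec (neg d)]) ++ [0] := by
      rw [h3]; simp
    rw [h5, h4, ih, path, List.reverse_cons, List.map_append, List.map_map]
    congr 1
    · apply List.map_congr_left
      intro p _
      simp only [Function.comp, pos, vec_neg]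
      abel
    · simp [pos]

theorem pos_back (w : List Dir) : pos (back w) = - pos w := by
  induction w with
  | nil => simp [back, pos]
  | cons d l ih =>
    have e : back (d :: l) = back l ++ [neg d] := by simp [back]
    rw [e, pos_append, ih]
    simp only [pos, vec_neg]; abel

theorem P_back (B : List Dir) (q : Z3) :
    (P (back B)).map (fun p => p + (pos B + q)) ++ [pos B + q] =
      q :: ((P B).reverse.map (fun p => p + q)) := by
  have h1 : (P (back B)).map (fun p => p + (pos B + q)) ++ [pos B + q] =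
      (path (back B)).map (fun p => p + (pos B + q)) := by
    rw [path_eq (back B)]; simp
  rw [h1, path_back, path_eq B, List.map_map, List.reverse_append, List.map_append]
  simp only [List.reverse_cons, List.reverse_nil, List.nil_append, List.map_cons, List.map_nil,
    Function.comp, List.cons_append]
  congr 1
  · abel
  · apply List.map_congr_left
    intro p _
    simp only [Function.comp]
    abel

theorem pos_rep (k : ℕ) (d : Dir) : pos (List.replicate k d) = k • vec d := by
  induction k with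
  | zero => simp [pos]
  | succ k ih => rw [List.replicate_succ, pos, ih, succ_nsmul]

theorem Pym (k : ℕ) : (∀ p ∈ P (List.replicate k .ym), p.1 = 0 ∧ p.2.2 = 0 ∧ -(k : ℤ) ≤ p.2.1 ∧
    p.2.1 < 0) ∧ (P (List.replicate k .ym)).Pairwise (fun a b => a.2.1 < b.2.1) := by
  induction k with
  | zero => simp [P_nil]
  | succ k ih =>
    have e : pos (List.replicate k Dir.ym) + vec .ym = (0, -((k : ℤ) + 1), 0) := by
      rw [pos_rep]; simp [vec]; ring
    rw [List.replicate_succ, P_cons, e]
    refine ⟨?_, ?_⟩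
    · intro p hp
      rcases List.mem_cons.1 hp with rfl | hp
      · refine ⟨rfl, rfl, ?_, ?_⟩ <;> push_cast <;> linarith
      · obtain ⟨h1, h2, h3, h4⟩ := ih.1 p hp
        exact ⟨h1, h2, by push_cast; linarith, h4⟩
    · rw [List.pairwise_cons]
      refine ⟨fun p hp => ?_, ih.2⟩
      obtain ⟨h1, h2, h3, h4⟩ := ih.1 p hp
      simp only
      linarith

theorem Pyp (k : ℕ) : (∀ p ∈ P (List.replicate k .yp), p.1 = 0 ∧ p.2.2 = 0 ∧ 0 < p.2.1 ∧
    p.2.1 ≤ k) ∧ (P (List.replicate k .yp)).Pairwise (fun a b => b.2.1 < a.2.1) := by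
  induction k with
  | zero => simp [P_nil]
  | succ k ih =>
    have e : pos (List.replicate k Dir.yp) + vec .yp = (0, ((k : ℤ) + 1), 0) := by
      rw [pos_rep]; simp [vec]
    rw [List.replicate_succ, P_cons, e]
    refine ⟨?_, ?_⟩
    · intro p hp
      rcases List.mem_cons.1 hp with rfl | hp
      · refine ⟨rfl, rfl, ?_, ?_⟩ <;> push_cast <;> linarith
      · obtain ⟨h1, h2, h3, h4⟩ := ih.1 p hp
        exact ⟨h1, h2, h3, by push_cast; linarith⟩
    · rw [List.pairwise_cons]
      refine ⟨fun p hp => ?_, ih.2⟩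
      obtain ⟨h1, h2, h3, h4⟩ := ih.1 p hp
      simp only
      linarith

/-- the vertex list -/
theorem path_PP (k h : ℕ) (A B : List Dir) (hA : pos A = (0, 0, (h : ℤ)))
    (hB : pos B = (0, 0, (h : ℤ))) :
    path (PP (k + 1) A B).tail =
      (P (List.replicate k .ym)).map (fun p => p + (0, (k : ℤ) + 1, 0)) ++ (0, (k : ℤ) + 1, 0) ::
        ((P B).reverse.map (fun p => p + (0, (k : ℤ) + 1, 0)) ++ (0, (k : ℤ) + 1, (h : ℤ) + 1) ::
          ((P (List.replicate k .yp)).map (fun p => p + (0, 0, (h : ℤ) + 1)) ++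
            (0, 0, (h : ℤ) + 1) :: (P A ++ [0]))) := by
  have e0 : (PP (k + 1) A B).tail = List.replicate k .ym ++ (back B ++ .zm ::
      (List.replicate (k + 1) .yp ++ .zp :: A)) := by
    simp [PP, List.replicate_succ]
  have p1 : pos (.zp :: A) = (0, 0, (h : ℤ) + 1) := by simp [pos, hA, vec]
  have p2 : pos (List.replicate (k + 1) .yp ++ .zp :: A) = (0, (k : ℤ) + 1, (h : ℤ) + 1) := by
    rw [pos_append, p1, pos_rep]; simp [vec]
  have p3 : pos (.zm :: (List.replicate (k + 1) .yp ++ .zp :: A)) =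
      (0, (k : ℤ) + 1, (h : ℤ)) := by
    rw [pos, p2]; simp [vec]
  have p3' : pos (.zm :: (List.replicate (k + 1) .yp ++ .zp :: A)) =
      pos B + (0, (k : ℤ) + 1, 0) := by
    rw [p3, hB]; simp
  have p4 : pos (back B ++ .zm :: (List.replicate (k + 1) .yp ++ .zp :: A)) =
      (0, (k : ℤ) + 1, 0) := by
    rw [pos_append, p3, pos_back, hB]; simp
  rw [e0, path_app, p4, path_app (back B), p3']
  congr 1
  have e1 : path (.zm :: (List.replicate (k + 1) .yp ++ .zp :: A)) =
      (pos B + (0, (k : ℤ) + 1, 0)) :: path (List.replicate (k + 1) .yp ++ .zp :: A) := by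
    rw [← p3']; rfl
  have e2 := P_back B (0, (k : ℤ) + 1, 0)
  have e3 : ∀ (X Y : List Z3) (a : Z3), X ++ a :: Y = (X ++ [a]) ++ Y := by intro X Y a; simp
  rw [e1, e3, e2, List.cons_append]
  congr 2
  rw [path_app, p1, List.replicate_succ, P_cons, List.map_cons, List.cons_append]
  congr 1
  · rw [pos_rep]; simp [vec]
  · congr 1
    rw [path, ← path_eq A]
    congr 1

/-! ### the homotopy -/

/-- target of the vertical motion -/
noncomputable def line (c : ℝ) : ℕ → List V
  | 0 => []
  | k + 1 => (0, 0, c * ((k : ℝ) + 1)) :: line c k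

/-- the vertices at time `t` -/
noncomputable def mix (t c : ℝ) (w : List Dir) : List V :=
  List.zipWith (fun p q => lerp p q t) ((P w).map emb) (line c w.length)

theorem mix_nil (t c : ℝ) : mix t c [] = [] := by simp [mix, P_nil]

theorem mix_cons (t c : ℝ) (d : Dir) (w : List Dir) : mix t c (d :: w) =
    lerp (emb (pos w + vec d)) (0, 0, c * ((w.length : ℝ) + 1)) t :: mix t c w := by
  simp [mix, P_cons, line]

theorem mix_zero (c : ℝ) (w : List Dir) : mix 0 c w = (P w).map emb := by
  induction w with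
  | nil => simp [mix_nil, P_nil]
  | cons d l ih => rw [mix_cons, ih, P_cons, lerp_zero, List.map_cons]

theorem mix_length (t c : ℝ) (w : List Dir) : (mix t c w).length = w.length := by
  induction w with
  | nil => simp [mix_nil]
  | cons d l ih => rw [mix_cons, List.length_cons, ih, List.length_cons]

theorem mix_zip (t c : ℝ) (w : List Dir) :
    List.zipWith (fun p q => lerp p q t) (mix 0 c w) (mix 1 c w) = mix t c w := by
  induction w with
  | nil => simp [mix_nil]
  | cons d l ih =>
    rw [mix_cons, mix_cons, mix_cons, List.zipWith_cons_cons, ih, lerp_zero, lerp_one]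

theorem mix_one (c : ℝ) (w : List Dir) : ∀ p ∈ mix 1 c w, p.1 = 0 ∧ p.2.1 = 0 := by
  induction w with
  | nil => simp [mix_nil]
  | cons d l ih =>
    intro p hp
    rw [mix_cons, List.mem_cons] at hp
    rcases hp with rfl | hp
    · rw [lerp_one]; exact ⟨rfl, rfl⟩
    · exact ih p hp

theorem z_step {d : Dir} (hd : d ≠ .zm) : 0 ≤ (vec d).2.2 := by
  cases d <;> simp_all [vec]

theorem pos_z_nonneg (w : List Dir) (hw : ∀ d ∈ w, d ≠ .zm) : 0 ≤ (pos w).2.2 := by
  induction w with
  | nil => simp [pos]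
  | cons d l ih =>
    have h1 := ih (fun e he => hw e (List.mem_cons_of_mem _ he))
    have h2 := z_step (hw d (by simp))
    simp only [pos, Prod.snd_add]
    linarith

theorem mix_z (t c : ℝ) (ht0 : 0 < t) (ht1 : t ≤ 1) (hc : 0 < c) (w : List Dir)
    (hw : ∀ d ∈ w, d ≠ .zm) :
    (∀ p ∈ mix t c w, 0 < p.2.2 ∧ p.2.2 ≤ (1 - t) * ((pos w).2.2 : ℝ) + t * (c * w.length)) ∧
      (mix t c w).Pairwise (fun a b => b.2.2 < a.2.2) := by
  induction w with
  | nil => simp [mix_nil]
  | cons d l ih =>
    have hl : ∀ e ∈ l, e ≠ .zm := fun e he => hw e (List.mem_cons_of_mem _ he)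
    obtain ⟨i1, i2⟩ := ih hl
    have h0 : (0 : ℝ) ≤ ((pos l).2.2 : ℝ) := by exact_mod_cast pos_z_nonneg l hl
    have h1 : (0 : ℝ) ≤ ((vec d).2.2 : ℝ) := by exact_mod_cast z_step (hw d (by simp))
    have h2 : (lerp (emb (pos l + vec d)) (0, 0, c * ((l.length : ℝ) + 1)) t).2.2 =
        (1 - t) * (((pos l).2.2 : ℝ) + ((vec d).2.2 : ℝ)) + t * (c * ((l.length : ℝ) + 1)) := by
      rw [lz]; simp [emb]
    have h3 : 0 ≤ (1 - t) * ((pos l).2.2 : ℝ) := mul_nonneg (by linarith) h0
    have h4 : 0 ≤ (1 - t) * ((vec d).2.2 : ℝ) := mul_nonneg (by linarith) h1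
    have h5 : 0 < t * c := mul_pos ht0 hc
    have h6 : 0 ≤ t * c * (l.length : ℝ) := by positivity
    have h7 : (pos (d :: l)).2.2 = (pos l).2.2 + (vec d).2.2 := rfl
    rw [mix_cons]
    refine ⟨?_, ?_⟩
    · intro p hp
      rcases List.mem_cons.1 hp with rfl | hp
      · rw [h2, h7, List.length_cons]
        push_cast
        constructor
        · nlinarith
        · exact le_refl _
      · obtain ⟨j1, j2⟩ := i1 p hp
        refine ⟨j1, ?_⟩
        rw [h7, List.length_cons]
        push_cast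
        nlinarith
    · rw [List.pairwise_cons]
      refine ⟨?_, i2⟩
      intro p hp
      obtain ⟨j1, j2⟩ := i1 p hp
      rw [h2]
      nlinarith

theorem mix_y (t c : ℝ) (ht0 : 0 ≤ t) (ht1 : t ≤ 1) (M : ℕ) (w : List Dir)
    (hw : ∀ p ∈ path w, |p.2.1| ≤ M) : ∀ p ∈ mix t c w, |p.2.1| ≤ (M : ℝ) := by
  induction w with
  | nil => simp [mix_nil]
  | cons d l ih =>
    intro p hp
    rw [mix_cons, List.mem_cons] at hp
    rcases hp with rfl | hp
    · have h1 := hw (pos l + vec d) (by simp [path])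
      have h2 : |((pos l + vec d).2.1 : ℝ)| ≤ (M : ℝ) := by exact_mod_cast h1
      have h3 : (lerp (emb (pos l + vec d)) (0, 0, c * ((l.length : ℝ) + 1)) t).2.1 =
          (1 - t) * ((pos l + vec d).2.1 : ℝ) := by
        rw [ly]; simp [emb]
      rw [h3, abs_mul, abs_of_nonneg (by linarith : (0 : ℝ) ≤ 1 - t)]
      nlinarith [abs_nonneg ((pos l + vec d).2.1 : ℝ)]
    · exact ih (fun q hq => hw q (by rw [path]; exact List.mem_cons_of_mem _ hq)) p hp

theorem lay_zm {w : List Dir} (h : Lay w) : ∀ d ∈ w, d ≠ .zm := by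
  induction h with
  | nil => simp
  | cons q w hq hw ih =>
    intro d hd
    rcases List.mem_append.1 hd with h1 | h1
    · unfold PW at hq
      simp only [mem_biUnion, mem_filter] at hq
      obtain ⟨j, _, _, _, h3⟩ := hq
      exact (h3 d h1).2
    · rcases List.mem_cons.1 h1 with rfl | h1
      · decide
      · exact ih d h1

theorem lay_pos {w : List Dir} (h : Lay w) (hne : w ≠ []) : 0 < (pos w).2.2 := by
  cases h with
  | nil => exact absurd rfl hne
  | cons q w hq hw =>
    have hqz : ∀ d ∈ q, d ≠ .zm := by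
      unfold PW at hq
      simp only [mem_biUnion, mem_filter] at hq
      obtain ⟨j, _, _, _, h3⟩ := hq
      exact fun d hd => (h3 d hd).2
    have h1 := pos_z_nonneg q hqz
    have h2 := pos_z_nonneg w (lay_zm hw)
    rw [pos_append, pos]
    simp only [Prod.snd_add, vec]
    linarith

theorem emb_add (p q : Z3) : emb (p + q) = emb p + emb q := by
  simp [emb]

theorem zip_self (t : ℝ) (l : List V) : List.zipWith (fun p q => lerp p q t) l l = l := by
  induction l with
  | nil => rfl
  | cons p l ih =>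
    rw [List.zipWith_cons_cons, ih]
    congr 1
    simp only [lerp, ← add_smul]
    simp

theorem lerp_add (p q a : V) (t : ℝ) : lerp (p + a) (q + a) t = lerp p q t + a := by
  unfold lerp
  rw [smul_add, smul_add]
  have : a = (1 - t) • a + t • a := by rw [← add_smul]; simp
  nth_rewrite 3 [this]
  abel

/-- right side at time `t` -/
noncomputable def rside (Y t c : ℝ) (B : List Dir) : List V :=
  (mix t c B).reverse.map (fun p => p + (0, Y, 0))

theorem rside_zip (Y t c : ℝ) (B : List Dir) :
    List.zipWith (fun p q => lerp p q t) (rside Y 0 c B) (rside Y 1 c B) = rside Y t c B := by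
  unfold rside
  rw [List.zipWith_map]
  simp only [lerp_add]
  have e := mix_zip t c B
  rw [← e, List.reverse_zipWith (by rw [mix_length, mix_length]), List.map_zipWith]

theorem zip_fr4 (Y H t c : ℝ) (bot top : List V) (A B : List Dir) :
    List.zipWith (fun p q => lerp p q t) (fr4 Y H bot (rside Y 0 c B) top (mix 0 c A))
      (fr4 Y H bot (rside Y 1 c B) top (mix 1 c A)) =
      fr4 Y H bot (rside Y t c B) top (mix t c A) := by
  have hs : ∀ p : V, lerp p p t = p := by
    intro p
    simp only [lerp, ← add_smul]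
    simp
  have hr : (rside Y 0 c B).length = (rside Y 1 c B).length := by
    simp [rside, mix_length]
  unfold fr4
  rw [List.zipWith_cons_cons, List.zipWith_append rfl, List.zipWith_cons_cons,
    List.zipWith_append hr, List.zipWith_cons_cons, List.zipWith_append rfl,
    List.zipWith_cons_cons, mix_zip, rside_zip, zip_self, zip_self, hs, hs, hs, hs]

end LAYU

open LAYU

theorem S_layU_proof (hsimple : S_simple) (hlay : S_laySAP) (hlin : S_lin) (hrot : S_rot)
    (hsub : S_sub) (hmot : S_motion) (hsq : S_sq) (hrev : S_rev) : S_layU := by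
  intro n M h A B hLH
  obtain ⟨hn, hAl, hBl, hA, hB, hpA, hpB, hAy, hBy⟩ := hLH
  have hSAP := hlay n M h A B ⟨hn, hAl, hBl, hA, hB, hpA, hpB, hAy, hBy⟩
  have hS0 := hsimple _ hSAP
  have hAne : A ≠ [] := by intro h'; rw [h'] at hAl; simp at hAl; omega
  have hh : 0 < h := by
    have := lay_pos hA hAne
    rw [hpA] at this
    simpa using this
  set k := 2 * M + 1 with hk
  have hk2 : 2 * M + 2 = k + 1 := by omega
  set Y : ℝ := (k : ℝ) + 1 with hY
  set H : ℝ := (h : ℝ) + 1 with hH
  set c : ℝ := (h : ℝ) / n with hc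
  have hn' : (0 : ℝ) < n := by exact_mod_cast hn
  have hh' : (0 : ℝ) < h := by exact_mod_cast hh
  have hcpos : 0 < c := div_pos hh' hn'
  have hcn : c * n = h := by rw [hc]; field_simp
  set bot : List V := (P (List.replicate k .ym)).map (fun p => emb p + (0, Y, 0)) with hbot
  set top : List V := (P (List.replicate k .yp)).map (fun p => emb p + (0, 0, H)) with htop
  -- the vertex list
  have hvl : vl (PP (2 * M + 2) A B) =
      (bot ++ (0, Y, 0) :: (rside Y 0 c B ++ (0, Y, H) :: (top ++ (0, 0, H) :: mix 0 c A))) ++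
        [(0, 0, 0)] := by
    rw [hk2, vl, path_PP k h A B hpA hpB]
    simp only [List.map_append, List.map_cons, List.map_map, rside, mix_zero, List.append_assoc,
      List.cons_append, List.map_nil]
    have e1 : emb (0, (k : ℤ) + 1, 0) = (0, Y, 0) := by simp [emb, hY]
    have e2 : emb (0, (k : ℤ) + 1, (h : ℤ) + 1) = (0, Y, H) := by simp [emb, hY, hH]
    have e3 : emb (0, 0, (h : ℤ) + 1) = (0, 0, H) := by simp [emb, hH]
    have e4 : emb 0 = (0, 0, 0) := by simp [emb]
    rw [e1, e2, e3, e4]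
    congr 1
    · rw [hbot]
      apply List.map_congr_left
      intro p _
      simp only [Function.comp]
      rw [emb_add, e1]
    · congr 2
      · rw [← List.map_reverse, List.map_map]
        apply List.map_congr_left
        intro p _
        simp only [Function.comp]
        rw [emb_add, e1]
      · congr 2
        rw [htop]
        apply List.map_congr_left
        intro p _
        simp only [Function.comp]
        rw [emb_add, e3]
  -- facts on the four sides
  have hkY : (k : ℝ) < Y := by rw [hY]; linarith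
  have hMY : 2 * (M : ℝ) < Y := by rw [hY, hk]; push_cast; linarith
  have hYpos : 0 < Y := by rw [hY]; positivity
  have hHpos : 0 < H := by rw [hH]; positivity
  have b1 : ∀ p ∈ bot, p.1 = 0 ∧ p.2.2 = 0 := by
    intro p hp
    obtain ⟨q, hq, rfl⟩ := List.mem_map.1 hp
    obtain ⟨h1, h2, h3, h4⟩ := (Pym k).1 q hq
    constructor
    · simp [emb, h1]
    · simp [emb, h2]
  have b2 : (((0, 0, 0) : V) :: (bot ++ [(0, Y, 0)])).Pairwise (fun a b => a.2.1 < b.2.1) := by
    have hb : ∀ p ∈ bot, 0 < p.2.1 ∧ p.2.1 < Y := by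
      intro p hp
      obtain ⟨q, hq, rfl⟩ := List.mem_map.1 hp
      obtain ⟨h1, h2, h3, h4⟩ := (Pym k).1 q hq
      have h3' : -(k : ℝ) ≤ (q.2.1 : ℝ) := by exact_mod_cast h3
      have h4' : (q.2.1 : ℝ) < 0 := by exact_mod_cast h4
      simp only [emb, Prod.mk_add_mk]
      constructor <;> linarith
    rw [List.pairwise_cons, List.pairwise_append]
    refine ⟨?_, ?_, by simp, ?_⟩
    · intro p hp
      rcases List.mem_append.1 hp with hp | hp
      · exact (hb p hp).1
      · rw [List.mem_singleton.1 hp]; exact hYpos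
    · rw [hbot, List.pairwise_map]
      refine (Pym k).2.imp ?_
      intro a b hab
      have : (a.2.1 : ℝ) < (b.2.1 : ℝ) := by exact_mod_cast hab
      simp only [emb, Prod.mk_add_mk]
      linarith
    · intro p hp q hq
      rw [List.mem_singleton.1 hq]; exact (hb p hp).2
  have t1 : ∀ p ∈ top, p.1 = 0 ∧ p.2.2 = H := by
    intro p hp
    obtain ⟨q, hq, rfl⟩ := List.mem_map.1 hp
    obtain ⟨h1, h2, h3, h4⟩ := (Pyp k).1 q hq
    constructor
    · simp [emb, h1]
    · simp [emb, h2]
  have t2 : (((0, Y, H) : V) :: (top ++ [(0, 0, H)])).Pairwise (fun a b => b.2.1 < a.2.1) := by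
    have hb : ∀ p ∈ top, 0 < p.2.1 ∧ p.2.1 < Y := by
      intro p hp
      obtain ⟨q, hq, rfl⟩ := List.mem_map.1 hp
      obtain ⟨h1, h2, h3, h4⟩ := (Pyp k).1 q hq
      have h3' : 0 < (q.2.1 : ℝ) := by exact_mod_cast h3
      have h4' : (q.2.1 : ℝ) ≤ k := by exact_mod_cast h4
      simp only [emb, Prod.mk_add_mk]
      constructor <;> linarith
    rw [List.pairwise_cons, List.pairwise_append]
    refine ⟨?_, ?_, by simp, ?_⟩
    · intro p hp
      rcases List.mem_append.1 hp with hp | hp
      · exact (hb p hp).2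
      · rw [List.mem_singleton.1 hp]; exact hYpos
    · rw [htop, List.pairwise_map]
      refine (Pyp k).2.imp ?_
      intro a b hab
      have : (b.2.1 : ℝ) < (a.2.1 : ℝ) := by exact_mod_cast hab
      simp only [emb, Prod.mk_add_mk]
      linarith
    · intro p hp q hq
      rw [List.mem_singleton.1 hq]; exact (hb p hp).1
  have l2 : ∀ t : ℝ, 0 < t → t ≤ 1 → (((0, 0, H) : V) :: (mix t c A ++ [(0, 0, 0)])).Pairwise
      (fun a b => b.2.2 < a.2.2) := by
    intro t ht0 ht1
    obtain ⟨z1, z2⟩ := mix_z t c ht0 ht1 hcpos A (lay_zm hA)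
    have hb : ∀ p ∈ mix t c A, 0 < p.2.2 ∧ p.2.2 < H := by
      intro p hp
      obtain ⟨j1, j2⟩ := z1 p hp
      refine ⟨j1, ?_⟩
      rw [hpA, hAl, hcn] at j2
      push_cast at j2
      rw [hH]; nlinarith
    rw [List.pairwise_cons, List.pairwise_append]
    refine ⟨?_, z2, by simp, ?_⟩
    · intro p hp
      rcases List.mem_append.1 hp with hp | hp
      · exact (hb p hp).2
      · rw [List.mem_singleton.1 hp]; exact hHpos
    · intro p hp q hq
      rw [List.mem_singleton.1 hq]; exact (hb p hp).1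
  have r2 : ∀ t : ℝ, 0 < t → t ≤ 1 → (((0, Y, 0) : V) :: (rside Y t c B ++ [(0, Y, H)])).Pairwise
      (fun a b => a.2.2 < b.2.2) := by
    intro t ht0 ht1
    obtain ⟨z1, z2⟩ := mix_z t c ht0 ht1 hcpos B (lay_zm hB)
    have hb : ∀ p ∈ rside Y t c B, 0 < p.2.2 ∧ p.2.2 < H := by
      intro p hp
      obtain ⟨q, hq, rfl⟩ := List.mem_map.1 hp
      obtain ⟨j1, j2⟩ := z1 q (List.mem_reverse.1 hq)
      rw [hpB, hBl, hcn] at j2
      push_cast at j2
      simp only [Prod.snd_add, add_zero]
      refine ⟨j1, ?_⟩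
      rw [hH]; nlinarith
    rw [List.pairwise_cons, List.pairwise_append]
    refine ⟨?_, ?_, by simp, ?_⟩
    · intro p hp
      rcases List.mem_append.1 hp with hp | hp
      · exact (hb p hp).1
      · rw [List.mem_singleton.1 hp]; exact hHpos
    · rw [rside, List.pairwise_map, List.pairwise_reverse]
      refine z2.imp ?_
      intro a b hab
      simp only [Prod.snd_add, add_zero]
      exact hab
    · intro p hp q hq
      rw [List.mem_singleton.1 hq]; exact (hb p hp).2
  have r1 : ∀ t : ℝ, 0 ≤ t → t ≤ 1 → ∀ p ∈ rside Y t c B, |p.2.1 - Y| ≤ (M : ℝ) := by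
    intro t ht0 ht1 p hp
    obtain ⟨q, hq, rfl⟩ := List.mem_map.1 hp
    have := mix_y t c ht0 ht1 M B hBy q (List.mem_reverse.1 hq)
    simpa using this
  -- simplicity
  have hS0' : Simple ((bot ++ (0, Y, 0) :: (rside Y 0 c B ++ (0, Y, H) :: (top ++ (0, 0, H) ::
      mix 0 c A))) ++ [(0, 0, 0)]) := by rw [← hvl]; exact hS0
  obtain ⟨s0, e0⟩ := hrot _ _ hS0'
  have hsim : ∀ t : ℝ, 0 ≤ t → t ≤ 1 →
      Simple (fr4 Y H bot (rside Y t c B) top (mix t c A)) := by
    intro t ht0 ht1
    rcases eq_or_lt_of_le ht0 with rfl | ht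
    · simpa [fr4] using s0
    · exact simple_fr4 Y H M bot _ top _ hMY hHpos (by positivity) (fun p hp => (b1 p hp).2) b2
        (r1 t ht0 ht1) (r2 t ht ht1) (fun p hp => (t1 p hp).2) t2
        (mix_y t c ht0 ht1 M A hAy) (l2 t ht ht1)
  have e1 : Same (fr4 Y H bot (rside Y 0 c B) top (mix 0 c A))
      (fr4 Y H bot (rside Y 1 c B) top (mix 1 c A)) := by
    apply hlin
    · simp [fr4, rside, mix_length]
    · intro t ht0 ht1
      rw [zip_fr4]
      exact hsim t ht0 ht1
  -- the rectangle
  have m1 := (hmot sq.reverse ((hrev sq sq).1.1 hsq.1)).2.2.1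
  have m2 := ((hmot _ m1.2).2.2.2 1 Y H one_pos hYpos hHpos)
  have hsqr : (sq.reverse.map (fun p => (-p.2.1, p.1, p.2.2))).map
      (fun p => (1 * p.1, Y * p.2.1, H * p.2.2)) = fr4 Y H [] [] [] [] := by
    simp [sq, vl, sqw, path, pos, vec, emb, fr4]
  have hR : Simple (fr4 Y H [] [] [] []) := by rw [← hsqr]; exact m2.2
  have e2 : Same sq.reverse (fr4 Y H [] [] [] []) := by
    rw [← hsqr]; exact m1.1.trans m2.1
  have e3 := same_fr4 hsub hrot Y H bot (rside Y 1 c B) top (mix 1 c A) hYpos hHpos b1 b2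
    (by
      intro p hp
      obtain ⟨q, hq, rfl⟩ := List.mem_map.1 hp
      obtain ⟨h1, h2⟩ := mix_one c B q (List.mem_reverse.1 hq)
      exact ⟨by simp [h1], by simp [h2]⟩)
    (r2 1 one_pos le_rfl) t1 t2 (mix_one c A) (l2 1 one_pos le_rfl) hR
  refine Or.inr ?_
  rw [hvl]
  refine e0.trans (Same.trans ?_ (e1.trans (e3.symm.trans e2.symm)))
  have : [(0, 0, 0)] ++ (bot ++ (0, Y, 0) :: (rside Y 0 c B ++ (0, Y, H) :: (top ++ (0, 0, H) ::
      mix 0 c A))) = fr4 Y H bot (rside Y 0 c B) top (mix 0 c A) := by simp [fr4]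
  rw [this]
  exact Same.refl _

end KN
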