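import Pool.Agent.H246KN.Stubs

/-! Task LIN (helper51): linear motion of the vertices. -/

set_option autoImplicit false

namespace KN

theorem S_lin_proof : S_lin := by
  intro l l' hlen hs
  apply Same.of_move
  have hof : ∀ t : ℝ, List.ofFn (fun i : Fin l.length => lerp (l.get i) (l'.get (i.cast hlen)) t) =
      List.zipWith (fun p q => lerp p q t) l l' := by
    intro t
    apply List.ext_getElem
    · simp [hlen]
    · intro i h1 h2
      simp
  have h0 : List.ofFn (fun i : Fin l.length => lerp (l.get i) (l'.get (i.cast hlen)) 0) = l := by
    apply List.ext_getElem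
    · simp
    · intro i h1 h2
      simp [lerp_zero]
  have h1 : List.ofFn (fun i : Fin l.length => lerp (l.get i) (l'.get (i.cast hlen)) 1) = l' := by
    apply List.ext_getElem
    · simp [hlen]
    · intro i h1 h2
      simp [lerp_one]
  have h := Move.iso l.length (fun t i => lerp (l.get i) (l'.get (i.cast hlen)) t)
    (fun i => by unfold lerp; fun_prop)
    (fun t ht0 ht1 => by rw [hof t]; exact hs t ht0 ht1)
  rw [h0, h1] at h
  exact h

end KN
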