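import Pool.Agent.H246KN.Stubs

/-!
# A local move does not change the oriented knot type (helper239)
-/

set_option autoImplicit false

namespace KN

namespace LOC

open Finset Filter Topology
open scoped Classical

theorem emb_add (p q : Z3) : emb (p + q) = emb p + emb q := by
  simp [emb]

theorem emb_inj {p q : Z3} (h : emb p = emb q) : p = q := by
  simp only [emb, Prod.mk.injEq, Int.cast_inj] at h
  obtain ⟨h1, h2, h3⟩ := h
  exact Prod.ext h1 (Prod.ext h2 h3)

theorem coord (e d : Dir) (hp : perp d e) (a b a' b' : ℝ)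
    (h : a • emb (vec e) + b • emb (vec d) = a' • emb (vec e) + b' • emb (vec d)) :
    a = a' ∧ b = b' := by
  cases e <;> cases d <;> first
    | (exact absurd rfl hp)
    | (simp [emb, vec] at h; constructor <;> linarith)

/-- scalar lemma -/
theorem sc (n g e d : ℤ) (hg : g = -1 ∨ g = 0 ∨ g = 1) (he : e = -1 ∨ e = 0 ∨ e = 1)
    (hd : d = -1 ∨ d = 0 ∨ d = 1) (hed : e = 0 ∨ d = 0) (r a b : ℝ) (hr0 : 0 < r) (hr1 : r < 1)
    (ha0 : 0 ≤ a) (ha1 : a ≤ 1) (hb0 : 0 ≤ b) (hb1 : b ≤ 1)
    (h : (n : ℝ) + r * g = a * e + b * d) :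
    min 0 (e + d) ≤ n ∧ n ≤ max 0 (e + d) ∧ min 0 (e + d) ≤ n + g ∧ n + g ≤ max 0 (e + d) := by
  have hL : ((min 0 (e + d) : ℤ) : ℝ) ≤ a * e + b * d := by
    rcases hed with h0 | h0
    · subst h0
      rcases hd with h0 | h0 | h0 <;> subst h0 <;> norm_num <;> linarith
    · subst h0
      rcases he with h0 | h0 | h0 <;> subst h0 <;> norm_num <;> linarith
  have hU : a * e + b * d ≤ ((max 0 (e + d) : ℤ) : ℝ) := by
    rcases hed with h0 | h0
    · subst h0
      rcases hd with h0 | h0 | h0 <;> subst h0 <;> norm_num <;> linarith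
    · subst h0
      rcases he with h0 | h0 | h0 <;> subst h0 <;> norm_num <;> linarith
  rw [← h] at hL hU
  generalize min 0 (e + d) = L at hL ⊢
  generalize max 0 (e + d) = M at hU ⊢
  rcases hg with h0 | h0 | h0
  · subst h0
    have h1 : (L : ℝ) < n := by push_cast at hL; linarith
    have h2 : (n : ℝ) < M + 1 := by push_cast at hU; linarith
    have h1' : L < n := by exact_mod_cast h1
    have h2' : n < M + 1 := by exact_mod_cast h2
    omega
  · subst h0
    have h1 : (L : ℝ) ≤ n := by push_cast at hL; linarith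
    have h2 : (n : ℝ) ≤ M := by push_cast at hU; linarith
    have h1' : L ≤ n := by exact_mod_cast h1
    have h2' : n ≤ M := by exact_mod_cast h2
    omega
  · subst h0
    have h1 : (L : ℝ) < n + 1 := by push_cast at hL; linarith
    have h2 : (n : ℝ) < M := by push_cast at hU; linarith
    have h1' : L < n + 1 := by exact_mod_cast h1
    have h2' : n < M := by exact_mod_cast h2
    omega

/-- scalar lemma, `r = 0` -/
theorem sc0 (n e d : ℤ) (he : e = -1 ∨ e = 0 ∨ e = 1)
    (hd : d = -1 ∨ d = 0 ∨ d = 1) (hed : e = 0 ∨ d = 0) (a b : ℝ)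
    (ha0 : 0 ≤ a) (ha1 : a ≤ 1) (hb0 : 0 ≤ b) (hb1 : b ≤ 1)
    (h : (n : ℝ) = a * e + b * d) :
    min 0 (e + d) ≤ n ∧ n ≤ max 0 (e + d) := by
  have h1 := sc n 0 e d (Or.inr (Or.inl rfl)) he hd hed (1 / 2) a b (by norm_num) (by norm_num)
    ha0 ha1 hb0 hb1 (by simpa using h)
  exact ⟨h1.1, h1.2.1⟩

def InBox (e d : Dir) (m : Z3) : Prop :=
  (min 0 ((vec e).1 + (vec d).1) ≤ m.1 ∧ m.1 ≤ max 0 ((vec e).1 + (vec d).1)) ∧
  (min 0 ((vec e).2.1 + (vec d).2.1) ≤ m.2.1 ∧ m.2.1 ≤ max 0 ((vec e).2.1 + (vec d).2.1)) ∧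
  (min 0 ((vec e).2.2 + (vec d).2.2) ≤ m.2.2 ∧ m.2.2 ≤ max 0 ((vec e).2.2 + (vec d).2.2))

theorem box (e d : Dir) (hp : perp d e) (m : Z3) (h : InBox e d m) :
    m = 0 ∨ m = vec e ∨ m = vec d ∨ m = vec d + vec e := by
  obtain ⟨x, y, z⟩ := m
  unfold InBox at h
  cases e <;> cases d <;> first
    | (exact absurd rfl hp)
    | (simp only [vec, Prod.ext_iff, Prod.fst_add, Prod.snd_add, Prod.fst_zero,
        Prod.snd_zero] at h ⊢
       omega)

theorem vec_coord (g : Dir) : ((vec g).1 = -1 ∨ (vec g).1 = 0 ∨ (vec g).1 = 1) ∧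
    ((vec g).2.1 = -1 ∨ (vec g).2.1 = 0 ∨ (vec g).2.1 = 1) ∧
    ((vec g).2.2 = -1 ∨ (vec g).2.2 = 0 ∨ (vec g).2.2 = 1) := by
  cases g <;> decide

theorem perp_coord (e d : Dir) (hp : perp d e) : ((vec e).1 = 0 ∨ (vec d).1 = 0) ∧
    ((vec e).2.1 = 0 ∨ (vec d).2.1 = 0) ∧ ((vec e).2.2 = 0 ∨ (vec d).2.2 = 0) := by
  cases e <;> cases d <;> first
    | (exact absurd rfl hp)
    | decide

theorem geo (e d g : Dir) (hp : perp d e) (n : Z3) (r a b : ℝ) (hr0 : 0 < r) (hr1 : r < 1)
    (ha0 : 0 ≤ a) (ha1 : a ≤ 1) (hb0 : 0 ≤ b) (hb1 : b ≤ 1)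
    (h : emb n + r • emb (vec g) = a • emb (vec e) + b • emb (vec d)) :
    InBox e d n ∧ InBox e d (n + vec g) := by
  have hc := perp_coord e d hp
  have hg := vec_coord g
  have he := vec_coord e
  have hd := vec_coord d
  simp only [emb, Prod.ext_iff, Prod.fst_add, Prod.snd_add, Prod.smul_fst, Prod.smul_snd,
    smul_eq_mul] at h
  obtain ⟨h1, h2, h3⟩ := h
  have k1 := sc _ _ _ _ hg.1 he.1 hd.1 hc.1 r a b hr0 hr1 ha0 ha1 hb0 hb1 h1
  have k2 := sc _ _ _ _ hg.2.1 he.2.1 hd.2.1 hc.2.1 r a b hr0 hr1 ha0 ha1 hb0 hb1 h2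
  have k3 := sc _ _ _ _ hg.2.2 he.2.2 hd.2.2 hc.2.2 r a b hr0 hr1 ha0 ha1 hb0 hb1 h3
  exact ⟨⟨⟨k1.1, k1.2.1⟩, ⟨k2.1, k2.2.1⟩, ⟨k3.1, k3.2.1⟩⟩,
    ⟨⟨k1.2.2.1, k1.2.2.2⟩, ⟨k2.2.2.1, k2.2.2.2⟩, ⟨k3.2.2.1, k3.2.2.2⟩⟩⟩

theorem geo0 (e d : Dir) (hp : perp d e) (n : Z3) (a b : ℝ)
    (ha0 : 0 ≤ a) (ha1 : a ≤ 1) (hb0 : 0 ≤ b) (hb1 : b ≤ 1)
    (h : emb n = a • emb (vec e) + b • emb (vec d)) :
    InBox e d n := by
  have hc := perp_coord e d hp
  have he := vec_coord e
  have hd := vec_coord d
  simp only [emb, Prod.ext_iff, Prod.fst_add, Prod.snd_add, Prod.smul_fst, Prod.smul_snd,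
    smul_eq_mul] at h
  obtain ⟨h1, h2, h3⟩ := h
  exact ⟨sc0 _ _ _ he.1 hd.1 hc.1 a b ha0 ha1 hb0 hb1 h1,
    sc0 _ _ _ he.2.1 hd.2.1 hc.2.1 a b ha0 ha1 hb0 hb1 h2,
    sc0 _ _ _ he.2.2 hd.2.2 hc.2.2 a b ha0 ha1 hb0 hb1 h3⟩

/-- a lattice edge that is disjoint from the half-open edge from `P + e` to `P` and whose ends avoid
`P + d` and `P + d + e` meets the closed square only in `P` -/
theorem avoid (e d g : Dir) (hp : perp d e) (P A : Z3)
    (hD : Disj (emb (P + vec e), emb P) (emb A, emb (A + vec g)))
    (h1 : A ≠ P + vec d) (h2 : A ≠ P + vec d + vec e) (h3 : A + vec g ≠ P + vec d)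
    (h4 : A + vec g ≠ P + vec d + vec e)
    (r a b : ℝ) (hr0 : 0 ≤ r) (hr1 : r < 1)
    (ha0 : 0 ≤ a) (ha1 : a ≤ 1) (hb0 : 0 ≤ b) (hb1 : b ≤ 1)
    (h : lerp (emb A) (emb (A + vec g)) r = emb P + (a • emb (vec e) + b • emb (vec d))) :
    a = 0 ∧ b = 0 := by
  have hlerp : lerp (emb A) (emb (A + vec g)) r = emb A + r • emb (vec g) := by
    rw [emb_add]
    unfold lerp
    module
  have hAQ : A ≠ P + vec e := by
    intro hA
    apply hD 0 0 (le_refl _) one_pos (le_refl _) one_pos
    rw [lerp_zero, lerp_zero]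
    simp only
    rw [hA]
  have hn : emb (A - P) = emb A - emb P := by
    simp [emb]
  rw [hlerp] at h
  have hA0 : ∀ m : Z3, A - P = m → A = P + m := by
    intro m hm
    rw [← hm]
    abel
  rcases eq_or_lt_of_le hr0 with hr | hr
  · subst hr
    have h5 : emb (A - P) = a • emb (vec e) + b • emb (vec d) := by
      rw [hn]
      rw [zero_smul, add_zero] at h
      rw [h]
      abel
    have h6 := box e d hp _ (geo0 e d hp _ a b ha0 ha1 hb0 hb1 h5)
    rcases h6 with h6 | h6 | h6 | h6
    · have h7 : (0 : ℝ) • emb (vec e) + (0 : ℝ) • emb (vec d)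
          = a • emb (vec e) + b • emb (vec d) := by
        rw [← h5, h6]
        simp [emb]
        rfl
      have := coord e d hp _ _ _ _ h7
      exact ⟨this.1.symm, this.2.symm⟩
    · exact absurd (hA0 _ h6) hAQ
    · exact absurd (hA0 _ h6) h1
    · exact absurd (by rw [hA0 _ h6]; abel) h2
  · exfalso
    have h5 : emb (A - P) + r • emb (vec g) = a • emb (vec e) + b • emb (vec d) := by
      rw [hn]
      have : emb A - emb P + r • emb (vec g) = emb A + r • emb (vec g) - emb P := by abel
      rw [this, h]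
      abel
    obtain ⟨k1, k2⟩ := geo e d g hp _ r a b hr hr1 ha0 ha1 hb0 hb1 h5
    have hB0 : ∀ m : Z3, A - P + vec g = m → A + vec g = P + m := by
      intro m hm
      rw [← hm]
      abel
    rcases box e d hp _ k1 with c1 | c1 | c1 | c1
    · rcases box e d hp _ k2 with c2 | c2 | c2 | c2
      · -- vec g = 0
        rw [c1, zero_add] at c2
        revert c2
        cases g <;> decide
      · -- g = e : the edge from P to Q
        rw [c1, zero_add] at c2
        have hge := vec_inj c2
        have hA := hA0 _ c1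
        rw [add_zero] at hA
        subst hge
        subst hA
        apply hD (1 - r) r (by linarith) (by linarith) hr0 hr1
        simp only [lerp]
        rw [sub_sub_cancel, add_comm]
      · exact h3 (hB0 _ c2)
      · exact h4 (by rw [hB0 _ c2]; abel)
    · exact hAQ (hA0 _ c1)
    · exact h1 (hA0 _ c1)
    · exact h2 (by rw [hA0 _ c1]; abel)

theorem edges_form (X : List V) (Q : V) : ∃ (A : List (V × V)) (x : V), ∀ L : List V,
    edges (X ++ Q :: L) = A ++ chain Q (L ++ [x]) := by
  cases X with
  | nil => exact ⟨[], Q, fun L => rfl⟩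
  | cons x X =>
    refine ⟨chain x (X ++ [Q]), x, fun L => ?_⟩
    rw [List.cons_append, edges, List.append_assoc, List.cons_append, chain_append]

/-- points of the moving edges -/
theorem pt1 (P E D : V) (t u : ℝ) : lerp (P + E) (lerp (lerp (P + E) P (1 / 3)) (P + D + E) t) u
    = P + ((1 - u * ((1 - t) / 3)) • E + (u * t) • D) := by
  unfold lerp
  module

theorem pt2 (P E D : V) (t u : ℝ) : lerp (lerp (lerp (P + E) P (1 / 3)) (P + D + E) t)
    (lerp (lerp (P + E) P (2 / 3)) (P + D) t) u
    = P + (((2 + t) / 3 - u * ((1 + 2 * t) / 3)) • E + t • D) := by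
  unfold lerp
  module

theorem pt3 (P E D : V) (t u : ℝ) : lerp (lerp (lerp (P + E) P (2 / 3)) (P + D) t) P u
    = P + (((1 - t) / 3 * (1 - u)) • E + (t * (1 - u)) • D) := by
  unfold lerp
  module

theorem main (hsub : S_sub) (hlin : S_lin) (X Y : List V) (P : Z3) (e d : Dir)
    (hp : perp d e) (S : Z3 → Prop)
    (hs : Simple (X ++ emb (P + vec e) :: emb P :: Y))
    (hE : ∀ q ∈ edges (X ++ emb (P + vec e) :: emb P :: Y),
      ∃ A g, q = (emb A, emb (A + vec g)) ∧ S A ∧ S (A + vec g))
    (h1 : ¬ S (P + vec d)) (h2 : ¬ S (P + vec d + vec e)) :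
    Same (X ++ emb (P + vec e) :: emb P :: Y)
      (X ++ emb (P + vec e) :: emb (P + vec d + vec e) :: emb (P + vec d) :: emb P :: Y) := by
  set E : V := emb (vec e) with hEd
  set D : V := emb (vec d) with hDd
  have hQ : emb (P + vec e) = emb P + E := emb_add _ _
  have hPD : emb (P + vec d) = emb P + D := emb_add _ _
  have hQD : emb (P + vec d + vec e) = emb P + D + E := by rw [emb_add, emb_add]
  -- subdivision
  have hS1 := (hsub X Y (emb (P + vec e)) (emb P) [1 / 3, 2 / 3] (by
    simp; norm_num) (by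
    intro s hs'
    simp only [List.mem_cons, List.not_mem_nil, or_false] at hs'
    rcases hs' with rfl | rfl <;> norm_num)).2 hs
  refine hS1.trans ?_
  simp only [List.map_cons, List.map_nil]
  -- linear motion
  apply hlin
  · simp
  intro t ht0 ht1
  have hself : ∀ L : List V, List.zipWith (fun p q => lerp p q t) L L = L := by
    intro L
    induction L with
    | nil => rfl
    | cons a L ih =>
      rw [List.zipWith_cons_cons, ih]
      congr 1
      unfold lerp
      module
  have hlerpself : ∀ p : V, lerp p p t = p := by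
    intro p
    unfold lerp
    module
  have hassoc : X ++ [emb (P + vec e), lerp (emb (P + vec e)) (emb P) (1 / 3),
      lerp (emb (P + vec e)) (emb P) (2 / 3)] ++ emb P :: Y = X ++ emb (P + vec e) ::
      lerp (emb (P + vec e)) (emb P) (1 / 3) :: lerp (emb (P + vec e)) (emb P) (2 / 3) ::
      emb P :: Y := by simp
  rw [hassoc]
  have hzip : List.zipWith (fun p q => lerp p q t)
      (X ++ emb (P + vec e) :: lerp (emb (P + vec e)) (emb P) (1 / 3) ::
        lerp (emb (P + vec e)) (emb P) (2 / 3) :: emb P :: Y)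
      (X ++ emb (P + vec e) :: emb (P + vec d + vec e) :: emb (P + vec d) :: emb P :: Y)
      = X ++ emb (P + vec e) :: lerp (lerp (emb (P + vec e)) (emb P) (1 / 3))
          (emb (P + vec d + vec e)) t ::
        lerp (lerp (emb (P + vec e)) (emb P) (2 / 3)) (emb (P + vec d)) t :: emb P :: Y := by
    rw [List.zipWith_append rfl, hself]
    simp only [List.zipWith_cons_cons, hself, hlerpself]
  rw [hzip]
  obtain ⟨A, x, hform⟩ := edges_form X (emb (P + vec e))
  -- the old edges
  have hold := hform (emb P :: Y)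
  have hnew := hform (lerp (lerp (emb (P + vec e)) (emb P) (1 / 3)) (emb (P + vec d + vec e)) t ::
    lerp (lerp (emb (P + vec e)) (emb P) (2 / 3)) (emb (P + vec d)) t :: emb P :: Y)
  simp only [List.cons_append, chain] at hold hnew
  set B := chain (emb P) (Y ++ [x]) with hB
  set Q1 := lerp (lerp (emb (P + vec e)) (emb P) (1 / 3)) (emb (P + vec d + vec e)) t with hQ1
  set P1 := lerp (lerp (emb (P + vec e)) (emb P) (2 / 3)) (emb (P + vec d)) t with hP1
  obtain ⟨hs0, hs1, hs2⟩ := hs
  rw [hold] at hs1 hs2 hE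
  have hperm : (A ++ (emb (P + vec e), emb P) :: B).Perm ((emb (P + vec e), emb P) :: (A ++ B)) :=
    List.perm_middle
  have hs1' := (hperm.pairwise_iff (fun h => Disj.symm h)).1 hs1
  rw [List.pairwise_cons] at hs1'
  obtain ⟨hdisj, hAB⟩ := hs1'
  -- other edges avoid the square
  have hav : ∀ q ∈ A ++ B, ∀ r : ℝ, 0 ≤ r → r < 1 → ∀ a b : ℝ, 0 ≤ a → a ≤ 1 → 0 ≤ b → b ≤ 1 →
      lerp q.1 q.2 r = emb P + (a • E + b • D) → a = 0 ∧ b = 0 := by
    intro q hq r hr0 hr1 a b ha0 ha1 hb0 hb1 h
    have hq' : q ∈ A ++ (emb (P + vec e), emb P) :: B := by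
      rw [List.mem_append] at hq ⊢
      rcases hq with hq | hq
      · exact Or.inl hq
      · exact Or.inr (List.mem_cons_of_mem _ hq)
    obtain ⟨C, g, hqe, hC1, hC2⟩ := hE q hq'
    have hdq := hdisj q hq
    rw [hqe] at h hdq
    refine avoid e d g hp P C hdq ?_ ?_ ?_ ?_ r a b hr0 hr1 ha0 ha1 hb0 hb1 h
    · rintro rfl; exact h1 hC1
    · rintro rfl; exact h2 hC1
    · intro hh; rw [hh] at hC2; exact h1 hC2
    · intro hh; rw [hh] at hC2; exact h2 hC2
  have p1 : ∀ u : ℝ, lerp (emb (P + vec e)) Q1 u
      = emb P + ((1 - u * ((1 - t) / 3)) • E + (u * t) • D) := by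
    intro u
    rw [hQ1, hQ, hQD]
    exact pt1 _ _ _ _ _
  have p2 : ∀ u : ℝ, lerp Q1 P1 u
      = emb P + (((2 + t) / 3 - u * ((1 + 2 * t) / 3)) • E + t • D) := by
    intro u
    rw [hQ1, hP1, hQ, hQD, hPD]
    exact pt2 _ _ _ _ _
  have p3 : ∀ u : ℝ, lerp P1 (emb P) u
      = emb P + (((1 - t) / 3 * (1 - u)) • E + (t * (1 - u)) • D) := by
    intro u
    rw [hP1, hQ, hPD]
    exact pt3 _ _ _ _ _
  have key : ∀ a b a' b' : ℝ, emb P + (a • E + b • D) = emb P + (a' • E + b' • D) →
      a = a' ∧ b = b' := fun a b a' b' h => coord e d hp _ _ _ _ (add_left_cancel h)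
  refine ⟨by simp, ?_, ?_⟩
  · rw [hnew]
    have hperm2 : (A ++ (emb (P + vec e), Q1) :: (Q1, P1) :: (P1, emb P) :: B).Perm
        ((emb (P + vec e), Q1) :: (Q1, P1) :: (P1, emb P) :: (A ++ B)) := by
      refine List.perm_middle.trans (List.Perm.cons _ ?_)
      refine List.perm_middle.trans (List.Perm.cons _ ?_)
      exact List.perm_middle
    apply (hperm2.pairwise_iff (fun h => Disj.symm h)).2
    rw [List.pairwise_cons, List.pairwise_cons, List.pairwise_cons]
    refine ⟨?_, ?_, ?_, hAB⟩
    · intro q hq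
      rw [List.mem_cons, List.mem_cons] at hq
      rcases hq with rfl | rfl | hq
      · intro u v hu0 hu1 hv0 hv1 he
        simp only at he
        rw [p1, p2] at he
        obtain ⟨ha, hb⟩ := key _ _ _ _ he
        have : t = 0 := by
          by_contra hne
          have : 0 < t := lt_of_le_of_ne ht0 (Ne.symm hne)
          nlinarith
        subst this
        nlinarith
      · intro u v hu0 hu1 hv0 hv1 he
        simp only at he
        rw [p1, p3] at he
        obtain ⟨ha, hb⟩ := key _ _ _ _ he
        have e1 : u * ((1 - t) / 3) ≤ (1 - t) / 3 := by nlinarith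
        have e2 : (1 - t) / 3 * (1 - v) ≤ (1 - t) / 3 := by nlinarith
        linarith
      · intro u v hu0 hu1 hv0 hv1 he
        simp only at he
        rw [p1] at he
        have h5 := hav q hq v hv0 hv1 _ _ (by nlinarith) (by nlinarith) (by positivity)
          (by nlinarith) he.symm
        nlinarith [h5.1]
    · intro q hq
      rw [List.mem_cons] at hq
      rcases hq with rfl | hq
      · intro u v hu0 hu1 hv0 hv1 he
        simp only at he
        rw [p2, p3] at he
        obtain ⟨ha, hb⟩ := key _ _ _ _ he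
        have e2 : (1 - t) / 3 * (1 - v) ≤ (1 - t) / 3 := by nlinarith
        have e3 : u * ((1 + 2 * t) / 3) < (1 + 2 * t) / 3 := by nlinarith
        linarith
      · intro u v hu0 hu1 hv0 hv1 he
        simp only at he
        rw [p2] at he
        have e3 : u * ((1 + 2 * t) / 3) < (1 + 2 * t) / 3 := by nlinarith
        have e4 : 0 ≤ u * ((1 + 2 * t) / 3) := by positivity
        have h5 := hav q hq v hv0 hv1 _ _ (by linarith) (by linarith) ht0 ht1 he.symm
        linarith [h5.1]
    · intro q hq
      intro u v hu0 hu1 hv0 hv1 he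
      simp only at he
      rw [p3] at he
      have e2 : (1 - t) / 3 * (1 - u) ≤ (1 - t) / 3 := by nlinarith
      have e5 : 0 ≤ (1 - t) / 3 * (1 - u) := by
        apply mul_nonneg <;> linarith
      have e6 : 0 ≤ t * (1 - u) := by
        apply mul_nonneg <;> linarith
      have h5 := hav q hq v hv0 hv1 _ _ e5 (by linarith) e6 (by nlinarith) he.symm
      have e7 : t = 0 := by
        by_contra hne
        have : 0 < t := lt_of_le_of_ne ht0 (Ne.symm hne)
        have : 0 < t * (1 - u) := by
          apply mul_pos <;> linarith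
        linarith [h5.2]
      subst e7
      have : (0 : ℝ) < (1 - 0) / 3 * (1 - u) := by
        apply mul_pos <;> linarith
      linarith [h5.1]
  · rw [hnew]
    intro q hq
    rw [List.mem_append, List.mem_cons, List.mem_cons, List.mem_cons] at hq
    have l0 := p1 0
    have l1 := p1 1
    have l2 := p2 1
    have l3 := p3 1
    rw [lerp_zero] at l0
    rw [lerp_one] at l1 l2 l3
    rcases hq with hq | rfl | rfl | rfl | hq
    · exact hs2 q (List.mem_append_left _ hq)
    · intro he
      simp only at he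
      rw [l0, l1] at he
      obtain ⟨ha, hb⟩ := key _ _ _ _ he
      linarith
    · intro he
      simp only at he
      rw [l1, l2] at he
      obtain ⟨ha, hb⟩ := key _ _ _ _ he
      linarith
    · intro he
      simp only at he
      have he' := l2.symm.trans (he.trans l3)
      obtain ⟨ha, hb⟩ := key _ _ _ _ he'
      linarith
    · exact hs2 q (List.mem_append_right _ (List.mem_cons_of_mem _ hq))

/-- edges of lattice paths -/
theorem chain_path (l : List Dir) : ∀ q ∈ chain (emb (pos l)) ((path l).tail.map emb),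
    ∃ A g, q = (emb A, emb (A + vec g)) ∧ A ∈ path l ∧ A + vec g ∈ path l := by
  induction l with
  | nil => intro q hq; simp [path, chain] at hq
  | cons d l ih =>
    intro q hq
    have hp : path l = pos l :: (path l).tail := by
      cases l <;> rfl
    simp only [path, List.tail_cons] at hq
    rw [hp, List.map_cons, chain, List.mem_cons] at hq
    rcases hq with rfl | hq
    · refine ⟨pos l + vec d, neg d, ?_, ?_, ?_⟩
      · have : pos l + vec d + vec (neg d) = pos l := by
          rw [vec_neg]
          abel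
        rw [this]
        rfl
      · simp [path]
      · have : pos l + vec d + vec (neg d) = pos l := by
          rw [vec_neg]
          abel
        rw [this]
        exact List.mem_cons_of_mem _ (pos_mem_path l)
    · obtain ⟨A, g, h1, h2, h3⟩ := ih q hq
      exact ⟨A, g, h1, List.mem_cons_of_mem _ h2, List.mem_cons_of_mem _ h3⟩

theorem mem_chain_append (p q : V) (L : List V) (z : V × V) (hz : z ∈ chain p (L ++ [q])) :
    z ∈ chain p L ∨ z = ((p :: L).getLast (by simp), q) := by
  induction L generalizing p with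
  | nil =>
    simp only [List.nil_append, chain, List.mem_cons, List.not_mem_nil, or_false] at hz
    right
    simpa using hz
  | cons r L ih =>
    simp only [List.cons_append, chain, List.mem_cons] at hz
    rcases hz with rfl | hz
    · left
      simp [chain]
    · rcases ih r hz with h | h
      · left
        simp [chain, h]
      · right
        rw [h]
        simp only [List.getLast_cons_cons]

/-- edges of lattice polygons -/
theorem edges_vl (w : List Dir) (hw : SAP w) : ∀ q ∈ edges (vl w),
    ∃ A g, q = (emb A, emb (A + vec g)) ∧ A ∈ path w ∧ A + vec g ∈ path w := by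
  obtain ⟨h4, h0, hnd⟩ := hw
  cases w with
  | nil => simp at h4
  | cons d l =>
    intro q hq
    have hp : path l = pos l :: (path l).tail := by
      cases l <;> rfl
    have hvl : vl (d :: l) = emb (pos l) :: (path l).tail.map emb := by
      unfold vl
      rw [List.tail_cons]
      conv_lhs => rw [hp]
      rfl
    rw [hvl, edges] at hq
    rcases mem_chain_append _ _ _ _ hq with hq | hq
    · obtain ⟨A, g, h1, h2, h3⟩ := chain_path l q hq
      exact ⟨A, g, h1, List.mem_cons_of_mem _ h2, List.mem_cons_of_mem _ h3⟩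
    · have hlast : (emb (pos l) :: (path l).tail.map emb).getLast (by simp) = emb 0 := by
        have h1 : (emb (pos l) :: (path l).tail.map emb) = (path l).map emb := by
          conv_rhs => rw [hp]
          rfl
        have h2 : ((path l).map emb).getLast (by simp [path_ne_nil l]) = emb 0 := by
          rw [List.getLast_map, path_getLast]
        rw [← h2]
        congr 1
      rw [hlast] at hq
      have hpl : (0 : Z3) + vec (neg d) = pos l := by
        rw [vec_neg, zero_add]
        rw [pos] at h0
        exact (eq_neg_of_add_eq_zero_left h0).symm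
      refine ⟨0, neg d, ?_, zero_mem_path _, ?_⟩
      · rw [hpl]
        exact hq
      · rw [hpl]
        exact List.mem_cons_of_mem _ (pos_mem_path l)

end LOC

open LOC in
/-- T7 -/
theorem S_local_proof (hrot : S_rot) (hsub : S_sub) (hlin : S_lin) (hsimple : S_simple)
    (hins : S_ins) : S_local := by
  intro w i d hw hsite
  have hs := hsimple w hw
  have hw' := (hins w i d hw hsite).1
  have hs' := hsimple _ hw'
  obtain ⟨hi, hp, hn1, hn2⟩ := hsite
  set e := w.getD i .xp with he
  set l1 := w.take i with hl1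
  set l2 := w.drop (i + 1) with hl2
  have hwe : w = l1 ++ e :: l2 := by
    rw [hl1, hl2, he, ← drop_eq_getD_cons w i hi, List.take_append_drop]
  have hie : ins w i d = l1 ++ (neg d :: e :: d :: l2) := by
    unfold ins
    rw [← hl1, ← hl2, ← he]
    simp
  have hP2 : path l2 = pos l2 :: (path l2).tail := by
    cases l2 <;> rfl
  have hposn : pos (neg d :: e :: d :: l2) = pos l2 + vec e := by
    simp only [pos, vec_neg]
    abel
  have hed := edges_vl w hw
  have hpc : pos l2 + vec d + vec e = pos l2 + vec e + vec d := by abel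
  cases hl : l1 with
  | nil =>
    rw [hl] at hwe hie
    rw [List.nil_append] at hwe hie
    have hpw : pos l2 + vec e = 0 := by
      have := hw.2.1
      rw [hwe] at this
      exact this
    have hne : (path l2).tail ≠ [] := by
      intro h0
      have h1 := path_length l2
      rw [hP2, h0] at h1
      have h2 := hw.1
      rw [hwe] at h2
      simp at h1 h2
      rw [h1] at h2
      simp at h2
    have hlast : (path l2).tail.getLast hne = 0 := by
      have h1 := path_getLast l2
      rw [List.getLast_tail]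
      exact h1
    have hM : (path l2).tail = (path l2).tail.dropLast ++ [0] := by
      have := List.dropLast_append_getLast hne
      rw [hlast] at this
      exact this.symm
    set M := (path l2).tail.dropLast with hMd
    have hv1 : vl w = (emb (pos l2) :: M.map emb) ++ [emb (pos l2 + vec e)] := by
      rw [hwe]
      unfold vl
      rw [List.tail_cons, hP2, hM, hpw]
      simp
    have hv2 : vl (ins w i d) = (emb (pos l2 + vec d + vec e) :: emb (pos l2 + vec d) ::
        emb (pos l2) :: M.map emb) ++ [emb (pos l2 + vec e)] := by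
      rw [hie]
      unfold vl
      rw [List.tail_cons]
      simp only [path, pos]
      rw [hP2, hM, hpw]
      simp
    rw [hv1] at hs hed
    rw [hv2] at hs'
    have r1 := hrot _ _ hs
    have r2 := hrot _ _ hs'
    rw [hv1, hv2]
    refine r1.2.trans (Same.trans ?_ r2.2.symm)
    have hm := main hsub hlin [] (M.map emb) (pos l2) e d hp (fun A => A ∈ path w) r1.1 ?_ hn1 hn2
    · exact hm
    · intro q hq
      apply hed
      simp only [List.nil_append, edges, List.cons_append, chain, List.mem_cons] at hq ⊢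
      have h3 : List.map emb M ++ [emb (pos l2 + vec e)] ++ [emb (pos l2)]
          = List.map emb M ++ emb (pos l2 + vec e) :: [emb (pos l2)] := by simp
      rw [h3, chain_append, List.mem_append]
      rcases hq with rfl | hq
      · right
        simp [chain]
      · left
        exact hq
  | cons f l1' =>
    rw [hl] at hwe hie
    have hv1 : vl w = ((path l1').dropLast.map (fun p => p + (pos l2 + vec e))).map emb ++
        emb (pos l2 + vec e) :: emb (pos l2) :: (path l2).tail.map emb := by
      rw [hwe]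
      unfold vl
      rw [List.cons_append, List.tail_cons, path_append]
      simp only [pos, path]
      conv_lhs => rw [hP2]
      simp
    have hv2 : vl (ins w i d) = ((path l1').dropLast.map (fun p => p + (pos l2 + vec e))).map emb ++
        emb (pos l2 + vec e) :: emb (pos l2 + vec d + vec e) :: emb (pos l2 + vec d) ::
        emb (pos l2) :: (path l2).tail.map emb := by
      rw [hie]
      unfold vl
      rw [List.cons_append, List.tail_cons, path_append, hposn]
      have h5 : path (neg d :: e :: d :: l2) = (pos l2 + vec e) :: (pos l2 + vec d + vec e) ::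
          (pos l2 + vec d) :: path l2 := by
        have h6 : path (neg d :: e :: d :: l2) = pos (neg d :: e :: d :: l2) ::
          (pos l2 + vec d + vec e) :: (pos l2 + vec d) :: path l2 := rfl
        rw [h6, hposn]
      rw [h5]
      conv_lhs => rw [hP2]
      simp
    rw [hv1] at hs hed
    rw [hv1, hv2]
    exact main hsub hlin _ _ (pos l2) e d hp (fun A => A ∈ path w) hs hed hn1 hn2

end KN
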