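import Pool.Agent.H246KN.Stubs

/-!
# LOW: the lower bound for the number of unknotted polygons
-/

set_option autoImplicit false

namespace KN

open Finset Filter Topology
open scoped Classical

namespace LOW

/-! ### closure properties of layered words -/

theorem lay_append {l1 l2 : List Dir} (h1 : Lay l1) (h2 : Lay l2) : Lay (l1 ++ l2) := by
  induction h1 with
  | nil => simpa using h2
  | cons q w hq _ ih =>
    rw [List.append_assoc, List.cons_append]
    exact Lay.cons q (w ++ l2) hq ih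

theorem vec_rz (d : Dir) : vec (rz d) = (-(vec d).1, -(vec d).2.1, (vec d).2.2) := by
  cases d <;> decide

theorem pos_rz (w : List Dir) : pos (w.map rz) = (-(pos w).1, -(pos w).2.1, (pos w).2.2) := by
  induction w with
  | nil => simp only [List.map_nil, pos]; decide
  | cons d l ih =>
    simp only [List.map_cons, pos, ih, vec_rz]
    ext <;> simp only [Prod.fst_add, Prod.snd_add] <;> ring

theorem path_rz (w : List Dir) :
    path (w.map rz) = (path w).map (fun p => (-p.1, -p.2.1, p.2.2)) := by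
  induction w with
  | nil => simp only [List.map_nil, path, List.map_cons]; congr 1
  | cons d l ih =>
    simp only [List.map_cons, path, ih, pos_rz, vec_rz]
    congr 1
    ext <;> simp only [Prod.fst_add, Prod.snd_add] <;> ring

theorem saw_rz {w : List Dir} (h : SAW w) : SAW (w.map rz) := by
  unfold SAW at h ⊢
  rw [path_rz]
  refine h.map ?_
  intro p q hpq
  simp only [Prod.mk.injEq, neg_inj] at hpq
  exact Prod.ext hpq.1 (Prod.ext hpq.2.1 hpq.2.2)

theorem pw_rz {q : List Dir} (h : q ∈ PW) : q.map rz ∈ PW := by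
  unfold PW at h ⊢
  simp only [mem_biUnion, mem_range, mem_filter, mem_W] at h ⊢
  obtain ⟨j, hj, hl, hs, hd⟩ := h
  refine ⟨j, hj, by simpa using hl, saw_rz hs, ?_⟩
  intro d hd'
  obtain ⟨e, he, rfl⟩ := List.mem_map.mp hd'
  have := hd e he
  cases e <;> simp_all [rz]

theorem lay_rz {w : List Dir} (h : Lay w) : Lay (w.map rz) := by
  induction h with
  | nil => exact Lay.nil
  | cons q w hq _ ih =>
    rw [List.map_append, List.map_cons]
    exact Lay.cons _ _ (pw_rz hq) ih

theorem pos_pw {q : List Dir} (h : q ∈ PW) : (pos q).2.2 = 0 := by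
  unfold PW at h
  simp only [mem_biUnion, mem_range, mem_filter, mem_W] at h
  obtain ⟨j, hj, hl, hs, hd⟩ := h
  clear hl hs hj
  induction q with
  | nil => simp [pos]
  | cons d l ih =>
    have h1 := ih (fun e he => hd e (List.mem_cons_of_mem _ he))
    have h2 := hd d (by simp)
    simp only [pos, Prod.snd_add, h1]
    cases d <;> simp_all [vec]

theorem lay_nonneg {w : List Dir} (h : Lay w) : 0 ≤ (pos w).2.2 := by
  induction h with
  | nil => simp [pos]
  | cons q w hq _ ih =>
    rw [pos_append]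
    simp only [pos, Prod.snd_add, pos_pw hq, vec]
    omega

/-! ### bounds for displacements -/

theorem vec_bound (d : Dir) : |(vec d).1| ≤ 1 ∧ |(vec d).2.1| ≤ 1 ∧ |(vec d).2.2| ≤ 1 := by
  cases d <;> decide

theorem pos_bound (w : List Dir) :
    |(pos w).1| ≤ w.length ∧ |(pos w).2.1| ≤ w.length ∧ |(pos w).2.2| ≤ w.length := by
  induction w with
  | nil => simp [pos]
  | cons d l ih =>
    obtain ⟨h1, h2, h3⟩ := vec_bound d
    obtain ⟨g1, g2, g3⟩ := ih
    simp only [pos, Prod.fst_add, Prod.snd_add, List.length_cons]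
    push_cast
    refine ⟨?_, ?_, ?_⟩
    · exact (abs_add_le _ _).trans (by linarith)
    · exact (abs_add_le _ _).trans (by linarith)
    · exact (abs_add_le _ _).trans (by linarith)

theorem path_bound (w : List Dir) (p : Z3) (h : p ∈ path w) : |p.2.1| ≤ w.length := by
  rw [mem_path_iff] at h
  obtain ⟨i, hi, rfl⟩ := h
  have := (pos_bound (w.drop i)).2.1
  rw [List.length_drop] at this
  have h2 : ((w.length - i : ℕ) : ℤ) ≤ w.length := by omega
  exact this.trans h2

/-! ### pigeonhole -/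

/-- the box of displacements -/
noncomputable def box (m : ℕ) : Finset Z3 :=
  (Finset.Icc (-(m : ℤ)) m) ×ˢ ((Finset.Icc (-(m : ℤ)) m) ×ˢ (Finset.Icc (-(m : ℤ)) m))

theorem card_box (m : ℕ) : (box m).card = (2 * m + 1) ^ 3 := by
  unfold box
  rw [card_product, card_product, Int.card_Icc]
  have : ((m : ℤ) + 1 - -(m : ℤ)).toNat = 2 * m + 1 := by omega
  rw [this]; ring

theorem exists_fiber (m : ℕ) : ∃ D : Z3,
    ((W m).filter Lay).card ≤
      (2 * m + 1) ^ 3 * ((((W m).filter Lay)).filter (fun w => pos w = D)).card := by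
  by_contra hcon
  push Not at hcon
  have hmaps : ∀ w ∈ (W m).filter Lay, pos w ∈ box m := by
    intro w hw
    rw [mem_filter, mem_W] at hw
    obtain ⟨h1, h2, h3⟩ := pos_bound w
    rw [hw.1] at h1 h2 h3
    unfold box
    rw [mem_product, mem_product, mem_Icc, mem_Icc, mem_Icc]
    exact ⟨abs_le.mp h1, abs_le.mp h2, abs_le.mp h3⟩
  have h1 := card_eq_sum_card_fiberwise hmaps
  have h2 : (2 * m + 1) ^ 3 * ((W m).filter Lay).card =
      ∑ D ∈ box m, ((2 * m + 1) ^ 3 * ((((W m).filter Lay)).filter (fun w => pos w = D)).card) := by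
    rw [← mul_sum, ← h1]
  have h3 : ∑ D ∈ box m,
      ((2 * m + 1) ^ 3 * ((((W m).filter Lay)).filter (fun w => pos w = D)).card) <
      ∑ _D ∈ box m, ((W m).filter Lay).card := by
    apply sum_lt_sum_of_nonempty
    · rw [← card_pos, card_box]; positivity
    · intro D _; exact hcon D
  rw [sum_const, card_box, smul_eq_mul, ← h2] at h3
  exact lt_irrefl _ h3

/-- the analytic choice of the length of the blocks -/
theorem exists_m (c : ℝ) (hc : 0 < c) : ∃ m : ℕ, 1 ≤ m ∧
    (77 / 20 : ℝ) ^ m * ((2 * m + 1 : ℕ) : ℝ) ^ 3 ≤ c * (97 / 25 : ℝ) ^ m := by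
  have h1 : Tendsto (fun n : ℕ => (n : ℝ) ^ 3 * (385 / 388 : ℝ) ^ n) atTop (𝓝 0) :=
    tendsto_pow_const_mul_const_pow_of_abs_lt_one 3 (by rw [abs_of_pos] <;> norm_num)
  have h2 : ∀ᶠ n : ℕ in atTop, (n : ℝ) ^ 3 * (385 / 388 : ℝ) ^ n < c / 27 :=
    h1.eventually (gt_mem_nhds (by positivity))
  obtain ⟨m, hm, hm1⟩ := (h2.and (eventually_ge_atTop 1)).exists
  refine ⟨m, hm1, ?_⟩
  have hm1' : (1 : ℝ) ≤ m := by exact_mod_cast hm1
  have h3 : ((2 * m + 1 : ℕ) : ℝ) ^ 3 ≤ 27 * (m : ℝ) ^ 3 := by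
    have : ((2 * m + 1 : ℕ) : ℝ) ≤ 3 * m := by push_cast; linarith
    calc ((2 * m + 1 : ℕ) : ℝ) ^ 3 ≤ (3 * (m : ℝ)) ^ 3 := by gcongr
      _ = 27 * (m : ℝ) ^ 3 := by ring
  have h4 : (77 / 20 : ℝ) ^ m = (385 / 388 : ℝ) ^ m * (97 / 25 : ℝ) ^ m := by
    rw [← mul_pow]; norm_num
  rw [h4]
  have h5 : (0 : ℝ) < (97 / 25 : ℝ) ^ m := by positivity
  calc (385 / 388 : ℝ) ^ m * (97 / 25 : ℝ) ^ m * ((2 * m + 1 : ℕ) : ℝ) ^ 3
      ≤ (385 / 388 : ℝ) ^ m * (97 / 25 : ℝ) ^ m * (27 * (m : ℝ) ^ 3) := by gcongr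
    _ = 27 * ((m : ℝ) ^ 3 * (385 / 388 : ℝ) ^ m) * (97 / 25 : ℝ) ^ m := by ring
    _ ≤ 27 * (c / 27) * (97 / 25 : ℝ) ^ m := by gcongr
    _ = c * (97 / 25 : ℝ) ^ m := by ring

/-! ### concatenations of superblocks -/

/-- concatenations of `k` superblocks -/
def cat (F : Finset (List Dir)) : ℕ → Finset (List Dir)
  | 0 => {[]}
  | k + 1 => ((F ×ˢ F) ×ˢ cat F k).image (fun q => q.1.1.map rz ++ (q.1.2 ++ q.2))

theorem rz_rz (d : Dir) : rz (rz d) = d := by cases d <;> rfl

theorem map_rz_inj {u v : List Dir} (h : u.map rz = v.map rz) : u = v := by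
  have := congrArg (List.map rz) h
  simpa [List.map_map, Function.comp_def, rz_rz] using this

theorem card_cat (F : Finset (List Dir)) (m : ℕ) (hF : ∀ w ∈ F, w.length = m) (k : ℕ) :
    (cat F k).card = F.card ^ (2 * k) := by
  induction k with
  | zero => simp [cat]
  | succ k ih =>
    rw [cat, card_image_of_injOn, card_product, card_product, ih]
    · ring
    · intro q hq q' hq' h
      rw [mem_coe, mem_product, mem_product] at hq hq'
      simp only at h
      have hl : (q.1.1.map rz).length = (q'.1.1.map rz).length := by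
        rw [List.length_map, List.length_map, hF _ hq.1.1, hF _ hq'.1.1]
      obtain ⟨h1, h2⟩ := List.append_inj h hl
      obtain ⟨h3, h4⟩ := List.append_inj h2 (by rw [hF _ hq.1.2, hF _ hq'.1.2])
      exact Prod.ext (Prod.ext (map_rz_inj h1) h3) h4

theorem cat_prop (F : Finset (List Dir)) (m z : ℕ) (x y : ℤ) (hF : ∀ w ∈ F, w.length = m ∧ Lay w ∧
    pos w = (x, y, (z : ℤ))) (k : ℕ) : ∀ A ∈ cat F k, A.length = 2 * m * k ∧ Lay A ∧
      pos A = (0, 0, ((2 * z * k : ℕ) : ℤ)) ∧ ∀ p ∈ path A, |p.2.1| ≤ ((2 * m : ℕ) : ℤ) := by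
  induction k with
  | zero =>
    intro A hA
    rw [cat, mem_singleton] at hA
    subst hA
    refine ⟨by simp, Lay.nil, by simp only [pos, mul_zero, Nat.cast_zero]; rfl, ?_⟩
    intro p hp
    have hp' : p = 0 := by simpa [path] using hp
    subst hp'
    simp
  | succ k ih =>
    intro A hA
    rw [cat, mem_image] at hA
    obtain ⟨⟨⟨u, v⟩, A'⟩, hq, rfl⟩ := hA
    rw [mem_product, mem_product] at hq
    obtain ⟨⟨hu, hv⟩, hA'⟩ := hq
    simp only at hu hv hA' ⊢
    obtain ⟨u1, u2, u3⟩ := hF u hu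
    obtain ⟨v1, v2, v3⟩ := hF v hv
    obtain ⟨a1, a2, a3, a4⟩ := ih A' hA'
    refine ⟨?_, lay_append (lay_rz u2) (lay_append v2 a2), ?_, ?_⟩
    · simp only [List.length_append, List.length_map, u1, v1, a1]; ring
    · rw [pos_append, pos_append, pos_rz, u3, v3, a3]
      ext <;> simp <;> ring
    · intro p hp
      rw [← List.append_assoc, path_append, List.mem_append, List.mem_map] at hp
      rcases hp with ⟨p', hp', rfl⟩ | hp
      · have h1 := path_bound _ _ (List.mem_of_mem_dropLast hp')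
        rw [List.length_append, List.length_map, u1, v1] at h1
        rw [a3]
        simp only [Prod.snd_add, Prod.fst_add, add_zero]
        refine h1.trans (le_of_eq ?_)
        push_cast; ring
      · exact a4 p hp

theorem back_inj {u v : List Dir} (h : back u = back v) : u = v := by
  unfold back at h
  have h1 := List.reverse_injective h
  have h2 := congrArg (List.map neg) h1
  simpa [List.map_map, Function.comp_def] using h2

theorem length_back (u : List Dir) : (back u).length = u.length := by simp [back]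

theorem PP_inj {Y : ℕ} {A B A' B' : List Dir} (hB : B.length = B'.length)
    (h : PP Y A B = PP Y A' B') : A = A' ∧ B = B' := by
  unfold PP at h
  have h1 := List.append_cancel_left h
  obtain ⟨h2, h3⟩ := List.append_inj h1 (by rw [length_back, length_back, hB])
  refine ⟨?_, back_inj h2⟩
  have h4 := List.append_cancel_left (List.cons_injective h3)
  exact List.cons_injective h4

theorem length_PP (Y : ℕ) (A B : List Dir) :
    (PP Y A B).length = A.length + B.length + 2 * Y + 2 := by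
  unfold PP
  simp only [List.length_append, List.length_replicate, List.length_cons, length_back]
  ring

end LOW

open LOW in
theorem S_low_proof (hlay : S_layers) (hsap : S_laySAP) (hU : S_layU) : S_low := by
  obtain ⟨c, hc, hlay⟩ := hlay
  obtain ⟨m, hm1, hm⟩ := exists_m c hc
  obtain ⟨D, hD⟩ := exists_fiber m
  set F : Finset (List Dir) := (((W m).filter Lay)).filter (fun w => pos w = D) with hFdef
  -- the size of the fiber
  have hFcard : (77 / 20 : ℝ) ^ m ≤ (F.card : ℝ) := by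
    have h1 := hlay m
    have h2 : ((((W m).filter Lay).card : ℕ) : ℝ) ≤ ((2 * m + 1 : ℕ) : ℝ) ^ 3 * (F.card : ℝ) := by
      exact_mod_cast hD
    have h3 : (77 / 20 : ℝ) ^ m * ((2 * m + 1 : ℕ) : ℝ) ^ 3 ≤
        ((2 * m + 1 : ℕ) : ℝ) ^ 3 * (F.card : ℝ) := hm.trans (h1.trans h2)
    have h4 : (0 : ℝ) < ((2 * m + 1 : ℕ) : ℝ) ^ 3 := by positivity
    rw [mul_comm] at h3
    exact le_of_mul_le_mul_left h3 h4
  have hFne : F.Nonempty := by
    rw [← card_pos]
    have : (0 : ℝ) < (F.card : ℝ) := lt_of_lt_of_le (by positivity) hFcard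
    exact_mod_cast this
  have hD2 : 0 ≤ D.2.2 := by
    obtain ⟨w, hw⟩ := hFne
    rw [hFdef, mem_filter, mem_filter] at hw
    rw [← hw.2]
    exact lay_nonneg hw.1.2
  obtain ⟨z, hz⟩ := Int.eq_ofNat_of_zero_le hD2
  have hF : ∀ w ∈ F, w.length = m ∧ Lay w ∧ pos w = (D.1, D.2.1, (z : ℤ)) := by
    intro w hw
    rw [hFdef, mem_filter, mem_filter, mem_W] at hw
    refine ⟨hw.1.1, hw.1.2, ?_⟩
    rw [hw.2, ← hz]
  refine ⟨4 * m, 12 * m + 6, by omega, fun k => ?_⟩
  -- the map
  have hsub : ((cat F (k + 1)) ×ˢ (cat F (k + 1))).image (fun q => PP (2 * (2 * m) + 2) q.1 q.2) ⊆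
      K U (4 * m * k + (12 * m + 6)) := by
    intro w hw
    rw [mem_image] at hw
    obtain ⟨⟨A, B⟩, hq, rfl⟩ := hw
    rw [mem_product] at hq
    obtain ⟨hA, hB⟩ := hq
    simp only at hA hB ⊢
    obtain ⟨a1, a2, a3, a4⟩ := cat_prop F m z D.1 D.2.1 hF (k + 1) A hA
    obtain ⟨b1, b2, b3, b4⟩ := cat_prop F m z D.1 D.2.1 hF (k + 1) B hB
    have hLH : LH (2 * m * (k + 1)) (2 * m) (2 * z * (k + 1)) A B := by
      refine ⟨?_, a1, b1, a2, b2, a3, b3, a4, b4⟩
      have : 0 < 2 * m * (k + 1) := by positivity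
      omega
    rw [mem_K]
    refine ⟨?_, hsap _ _ _ _ _ hLH, hU _ _ _ _ _ hLH⟩
    rw [length_PP, a1, b1]
    ring
  have hinj : Set.InjOn (fun q : List Dir × List Dir => PP (2 * (2 * m) + 2) q.1 q.2)
      (((cat F (k + 1)) ×ˢ (cat F (k + 1)) : Finset (List Dir × List Dir)) :
        Set (List Dir × List Dir)) := by
    intro q hq q' hq' h
    rw [mem_coe, mem_product] at hq hq'
    simp only at h
    have l1 := (cat_prop F m z D.1 D.2.1 hF (k + 1) q.2 hq.2).1
    have l2 := (cat_prop F m z D.1 D.2.1 hF (k + 1) q'.2 hq'.2).1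
    obtain ⟨h1, h2⟩ := PP_inj (by rw [l1, l2]) h
    exact Prod.ext h1 h2
  have hcard := card_le_card hsub
  rw [card_image_of_injOn hinj, card_product,
    card_cat F m (fun w hw => (hF w hw).1) (k + 1)] at hcard
  have hcard' : ((F.card : ℝ) ^ (2 * (k + 1))) * ((F.card : ℝ) ^ (2 * (k + 1))) ≤
      (a U (4 * m * k + (12 * m + 6)) : ℝ) := by
    unfold a
    exact_mod_cast hcard
  refine le_trans ?_ hcard'
  have h1 : (77 / 20 : ℝ) ^ (4 * m * k) ≤ (77 / 20 : ℝ) ^ (4 * m * (k + 1)) :=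
    pow_le_pow_right₀ (by norm_num) (by nlinarith)
  refine h1.trans ?_
  have h2 : (77 / 20 : ℝ) ^ (4 * m * (k + 1)) = ((77 / 20 : ℝ) ^ m) ^ (4 * (k + 1)) := by
    rw [← pow_mul]; ring_nf
  rw [h2, ← pow_add]
  have h3 : 2 * (k + 1) + 2 * (k + 1) = 4 * (k + 1) := by ring
  rw [h3]
  exact pow_le_pow_left₀ (by positivity) hFcard _

end KN
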