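import Pool.Agent.H246KN.Stubs

set_option autoImplicit false

namespace KN

open Finset Filter Topology
open scoped Classical

noncomputable section

namespace MOT

/-- `f` commutes with `lerp` -/
def Aff (f : V → V) : Prop := ∀ (p q : V) (u : ℝ), f (lerp p q u) = lerp (f p) (f q) u

theorem simple_map {f : V → V} (hf : Aff f) (hi : Function.Injective f) {l : List V}
    (h : Simple l) : Simple (l.map f) := by
  obtain ⟨h1, h2, h3⟩ := h
  refine ⟨by simpa using h1, ?_, ?_⟩
  · rw [edges_map, List.pairwise_map]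
    refine h2.imp ?_
    intro e e' hd u v hu hu' hv hv' he
    refine hd u v hu hu' hv hv' (hi ?_)
    rw [hf e.1 e.2 u, hf e'.1 e'.2 v]
    exact he
  · rw [edges_map]
    intro e he
    obtain ⟨e', he', rfl⟩ := List.mem_map.1 he
    intro hh
    exact h3 e' he' (hi hh)

theorem same_map (A : ℝ → V → V) (h0 : ∀ p, A 0 p = p) (hc : ∀ p, Continuous fun s => A s p)
    (ha : ∀ s, 0 ≤ s → s ≤ 1 → Aff (A s)) (hi : ∀ s, 0 ≤ s → s ≤ 1 → Function.Injective (A s))
    {l : List V} (h : Simple l) : Same l (l.map (A 1)) ∧ Simple (l.map (A 1)) := by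
  have e : ∀ s, List.ofFn (fun i : Fin l.length => A s (l.get i)) = l.map (A s) := by
    intro s
    have e1 : (fun i : Fin l.length => A s (l.get i)) = (A s) ∘ l.get := rfl
    rw [e1, ← List.map_ofFn, List.ofFn_get]
  have m := Move.iso l.length (fun s i => A s (l.get i)) (fun i => hc _) (fun t ht0 ht1 => by
    show Simple (List.ofFn (fun i : Fin l.length => A t (l.get i)))
    rw [e]
    exact simple_map (ha t ht0 ht1) (hi t ht0 ht1) h)
  have e0 : l.map (A 0) = l := by
    have : A 0 = id := funext h0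
    rw [this, List.map_id]
  have m' : Move (List.ofFn (fun i : Fin l.length => A 0 (l.get i)))
      (List.ofFn (fun i : Fin l.length => A 1 (l.get i))) := m
  rw [e, e, e0] at m'
  exact ⟨Same.of_move m', simple_map (ha 1 zero_le_one le_rfl) (hi 1 zero_le_one le_rfl) h⟩

theorem vext {p q : V} (h1 : p.1 = q.1) (h2 : p.2.1 = q.2.1) (h3 : p.2.2 = q.2.2) : p = q :=
  Prod.ext h1 (Prod.ext h2 h3)

theorem lerp1 (p q : V) (u : ℝ) : (lerp p q u).1 = (1 - u) * p.1 + u * q.1 := by
  simp [lerp]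

theorem lerp2 (p q : V) (u : ℝ) : (lerp p q u).2.1 = (1 - u) * p.2.1 + u * q.2.1 := by
  simp [lerp]

theorem lerp3 (p q : V) (u : ℝ) : (lerp p q u).2.2 = (1 - u) * p.2.2 + u * q.2.2 := by
  simp [lerp]

/-- rotation about the first axis -/
def Rx (c d : ℝ) (p : V) : V := (p.1, c * p.2.1 - d * p.2.2, d * p.2.1 + c * p.2.2)

/-- rotation about the third axis -/
def Rz (c d : ℝ) (p : V) : V := (c * p.1 - d * p.2.1, d * p.1 + c * p.2.1, p.2.2)

/-- scaling -/
def Sc (r s t : ℝ) (p : V) : V := (r * p.1, s * p.2.1, t * p.2.2)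

theorem aff_tr (t : V) : Aff (fun p => p + t) := by
  intro p q u
  refine vext ?_ ?_ ?_
  · show (lerp p q u).1 + t.1 = _
    rw [lerp1, lerp1]
    show _ = (1 - u) * (p.1 + t.1) + u * (q.1 + t.1)
    ring
  · show (lerp p q u).2.1 + t.2.1 = _
    rw [lerp2, lerp2]
    show _ = (1 - u) * (p.2.1 + t.2.1) + u * (q.2.1 + t.2.1)
    ring
  · show (lerp p q u).2.2 + t.2.2 = _
    rw [lerp3, lerp3]
    show _ = (1 - u) * (p.2.2 + t.2.2) + u * (q.2.2 + t.2.2)
    ring

theorem aff_Rx (c d : ℝ) : Aff (Rx c d) := by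
  intro p q u
  refine vext ?_ ?_ ?_
  · rw [lerp1]; show (lerp p q u).1 = (1 - u) * p.1 + u * q.1
    rw [lerp1]
  · rw [lerp2]
    show c * (lerp p q u).2.1 - d * (lerp p q u).2.2 =
      (1 - u) * (c * p.2.1 - d * p.2.2) + u * (c * q.2.1 - d * q.2.2)
    rw [lerp2, lerp3]; ring
  · rw [lerp3]
    show d * (lerp p q u).2.1 + c * (lerp p q u).2.2 =
      (1 - u) * (d * p.2.1 + c * p.2.2) + u * (d * q.2.1 + c * q.2.2)
    rw [lerp2, lerp3]; ring

theorem aff_Rz (c d : ℝ) : Aff (Rz c d) := by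
  intro p q u
  refine vext ?_ ?_ ?_
  · rw [lerp1]
    show c * (lerp p q u).1 - d * (lerp p q u).2.1 =
      (1 - u) * (c * p.1 - d * p.2.1) + u * (c * q.1 - d * q.2.1)
    rw [lerp1, lerp2]; ring
  · rw [lerp2]
    show d * (lerp p q u).1 + c * (lerp p q u).2.1 =
      (1 - u) * (d * p.1 + c * p.2.1) + u * (d * q.1 + c * q.2.1)
    rw [lerp1, lerp2]; ring
  · rw [lerp3]; show (lerp p q u).2.2 = (1 - u) * p.2.2 + u * q.2.2
    rw [lerp3]

theorem aff_Sc (r s t : ℝ) : Aff (Sc r s t) := by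
  intro p q u
  refine vext ?_ ?_ ?_
  · rw [lerp1]; show r * (lerp p q u).1 = (1 - u) * (r * p.1) + u * (r * q.1)
    rw [lerp1]; ring
  · rw [lerp2]; show s * (lerp p q u).2.1 = (1 - u) * (s * p.2.1) + u * (s * q.2.1)
    rw [lerp2]; ring
  · rw [lerp3]; show t * (lerp p q u).2.2 = (1 - u) * (t * p.2.2) + u * (t * q.2.2)
    rw [lerp3]; ring

theorem inj_Rx {c d : ℝ} (h : c ^ 2 + d ^ 2 = 1) : Function.Injective (Rx c d) := by
  intro p q hpq
  have h1' : (Rx c d p).1 = (Rx c d q).1 := by rw [hpq]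
  have h1 : p.1 = q.1 := h1'
  have h2 : c * p.2.1 - d * p.2.2 = c * q.2.1 - d * q.2.2 := congrArg (fun x => x.2.1) hpq
  have h3 : d * p.2.1 + c * p.2.2 = d * q.2.1 + c * q.2.2 := congrArg (fun x => x.2.2) hpq
  refine vext h1 ?_ ?_
  · linear_combination c * h2 + d * h3 + (q.2.1 - p.2.1) * h
  · linear_combination -d * h2 + c * h3 + (q.2.2 - p.2.2) * h

theorem inj_Rz {c d : ℝ} (h : c ^ 2 + d ^ 2 = 1) : Function.Injective (Rz c d) := by
  intro p q hpq
  have h2 : c * p.1 - d * p.2.1 = c * q.1 - d * q.2.1 := congrArg (fun x => x.1) hpq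
  have h3 : d * p.1 + c * p.2.1 = d * q.1 + c * q.2.1 := congrArg (fun x => x.2.1) hpq
  have h1 : p.2.2 = q.2.2 := congrArg (fun x => x.2.2) hpq
  refine vext ?_ ?_ h1
  · linear_combination c * h2 + d * h3 + (q.1 - p.1) * h
  · linear_combination -d * h2 + c * h3 + (q.2.1 - p.2.1) * h

theorem inj_Sc {r s t : ℝ} (hr : 0 < r) (hs : 0 < s) (ht : 0 < t) :
    Function.Injective (Sc r s t) := by
  intro p q hpq
  have h1 : r * p.1 = r * q.1 := congrArg Prod.fst hpq
  have h2 : s * p.2.1 = s * q.2.1 := congrArg (fun x => x.2.1) hpq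
  have h3 : t * p.2.2 = t * q.2.2 := congrArg (fun x => x.2.2) hpq
  exact vext (mul_left_cancel₀ hr.ne' h1) (mul_left_cancel₀ hs.ne' h2)
    (mul_left_cancel₀ ht.ne' h3)

theorem pos_lin {s r : ℝ} (h0 : 0 ≤ s) (h1 : s ≤ 1) (hr : 0 < r) : 0 < (1 - s) + s * r := by
  rcases eq_or_lt_of_le h0 with h | h
  · rw [← h]; norm_num
  · have : 0 < s * r := mul_pos h hr
    linarith

end MOT

open MOT in
theorem S_motion_proof : S_motion := by
  intro l hl
  have hcs : ∀ s : ℝ, Real.cos (s * (Real.pi / 2)) ^ 2 + Real.sin (s * (Real.pi / 2)) ^ 2 = 1 :=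
    fun s => Real.cos_sq_add_sin_sq _
  refine ⟨?_, ?_, ?_, ?_⟩
  · intro t
    have h := same_map (fun s p => p + s • t) (fun p => by simp) (fun p => by fun_prop)
      (fun s _ _ => aff_tr (s • t)) (fun s _ _ => add_left_injective (s • t)) hl
    simp only [one_smul] at h
    exact h
  · have h := same_map (fun s => Rx (Real.cos (s * (Real.pi / 2))) (Real.sin (s * (Real.pi / 2))))
      (fun p => by simp [Rx]) (fun p => by unfold Rx; fun_prop)
      (fun s _ _ => aff_Rx _ _) (fun s _ _ => inj_Rx (hcs s)) hl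
    have e : Rx (Real.cos ((1 : ℝ) * (Real.pi / 2))) (Real.sin ((1 : ℝ) * (Real.pi / 2))) =
        fun p => (p.1, -p.2.2, p.2.1) := by
      funext p
      simp [Rx]
    simp only [e] at h
    exact h
  · have h := same_map (fun s => Rz (Real.cos (s * (Real.pi / 2))) (Real.sin (s * (Real.pi / 2))))
      (fun p => by simp [Rz]) (fun p => by unfold Rz; fun_prop)
      (fun s _ _ => aff_Rz _ _) (fun s _ _ => inj_Rz (hcs s)) hl
    have e : Rz (Real.cos ((1 : ℝ) * (Real.pi / 2))) (Real.sin ((1 : ℝ) * (Real.pi / 2))) =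
        fun p => (-p.2.1, p.1, p.2.2) := by
      funext p
      simp [Rz]
    simp only [e] at h
    exact h
  · intro r s t hr hs ht
    have h := same_map (fun u => Sc ((1 - u) + u * r) ((1 - u) + u * s) ((1 - u) + u * t))
      (fun p => by simp [Sc]) (fun p => by unfold Sc; fun_prop)
      (fun u _ _ => aff_Sc _ _ _)
      (fun u h0 h1 => inj_Sc (pos_lin h0 h1 hr) (pos_lin h0 h1 hs) (pos_lin h0 h1 ht)) hl
    have e : Sc ((1 - (1 : ℝ)) + 1 * r) ((1 - (1 : ℝ)) + 1 * s) ((1 - (1 : ℝ)) + 1 * t) =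
        fun p => (r * p.1, s * p.2.1, t * p.2.2) := by
      funext p
      simp [Sc]
    simp only [e] at h
    exact h

end

end KN
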