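import Pool.Agent.H246KN.Stubs

/-!
# Task POOR: closed words with few free plaquettes and few bumps are rare
-/

set_option autoImplicit false

namespace KN

open Finset Filter Topology
open scoped Classical

noncomputable section

namespace POOR

theorem bump_cons {d : Dir} {u : List Dir} {j : ℕ} (h : bump u j) : bump (d :: u) (j + 1) := by
  obtain ⟨h1, h2, h3⟩ := h
  refine ⟨?_, ?_, ?_⟩
  · simp only [List.length_cons]; omega
  · have e1 : (d :: u).getD (j + 1) .xp = u.getD j .xp := by simp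
    have e2 : (d :: u).getD (j + 1 + 2) .xp = u.getD (j + 2) .xp := by
      rw [show j + 1 + 2 = (j + 2) + 1 by ring]; simp
    rw [e1, e2]; exact h2
  · have e1 : (d :: u).getD (j + 1) .xp = u.getD j .xp := by simp
    have e2 : (d :: u).getD (j + 1 + 1) .xp = u.getD (j + 1) .xp := by simp
    rw [e1, e2]; exact h3

theorem bu_le (d : Dir) (u : List Dir) : bu u ≤ bu (d :: u) := by
  unfold bu
  refine Finset.card_le_card_of_injOn (fun j => j + 1) ?_ ?_
  · intro j hj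
    have hj' : j ∈ bumps u := hj
    exact mem_bumps.2 (bump_cons (mem_bumps.1 hj'))
  · intro i _ j _ h
    simpa using h

theorem Hs_ge (p b : Dir) (u : Prop) (k : ℕ) : 1 ≤ Hs p b u k := by
  have hk : (0 : ℝ) ≤ k := Nat.cast_nonneg k
  unfold Hs
  split_ifs <;> linarith

theorem Hx_ge (w : List Dir) : 1 ≤ Hx w := Hs_ge _ _ _ _

theorem tail_inj {w w' : List Dir} (hw : SAP w) (hw' : SAP w') (h : w.tail = w'.tail) :
    w = w' := by
  obtain ⟨h1, h2, _⟩ := hw
  obtain ⟨h1', h2', _⟩ := hw'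
  cases w with
  | nil => simp at h1
  | cons d u =>
    cases w' with
    | nil => simp at h1'
    | cons d' u' =>
      simp only [List.tail_cons] at h
      subst h
      simp only [pos] at h2 h2'
      have : vec d = vec d' := by
        have := h2.trans h2'.symm
        exact add_left_cancel this
      rw [vec_inj this]

theorem saw_tail {w : List Dir} (hw : SAP w) : SAW w.tail := by
  obtain ⟨h1, _, h3⟩ := hw
  cases w with
  | nil => simp at h1
  | cons d u => exact h3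

/-- the constant -/
theorem const_pow : (1050 : ℝ) ≤ (76 / 75 : ℝ) ^ 1000 := by
  have h1 : (2 : ℝ) ≤ (76 / 75 : ℝ) ^ 75 := by
    have h := one_add_mul_le_pow (a := (1 / 75 : ℝ)) (by norm_num) 75
    have e : (1 + 1 / 75 : ℝ) = 76 / 75 := by norm_num
    rw [e] at h
    refine le_trans ?_ h
    norm_num
  calc (1050 : ℝ) ≤ 2 ^ 13 := by norm_num
    _ ≤ ((76 / 75 : ℝ) ^ 75) ^ 13 := by gcongr
    _ = (76 / 75 : ℝ) ^ 975 := by rw [← pow_mul]
    _ ≤ (76 / 75 : ℝ) ^ 1000 := pow_le_pow_right₀ (by norm_num) (by norm_num)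

theorem pow_1050 (n : ℕ) : (1050 : ℝ) ^ (n / 1000) ≤ (76 / 75 : ℝ) ^ n := by
  calc (1050 : ℝ) ^ (n / 1000) ≤ ((76 / 75 : ℝ) ^ 1000) ^ (n / 1000) := by
        gcongr
        exact const_pow
    _ = (76 / 75 : ℝ) ^ (1000 * (n / 1000)) := by rw [← pow_mul]
    _ ≤ (76 / 75 : ℝ) ^ n := pow_le_pow_right₀ (by norm_num) (Nat.mul_div_le n 1000)

theorem term_ge (h2 : S_sat) {n : ℕ} {w : List Dir} (hw : SAP w) (hf : 1000 * fr w ≤ n)
    (hb : 1000 * bu w ≤ n) :
    (20 / 21 : ℝ) ^ 20 * (1 / 1050 : ℝ) ^ (n / 1000) ≤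
      (21 / 20 : ℝ) ^ (Gx w.tail) * (1 / 1000 : ℝ) ^ (bu w.tail) * Hx w.tail := by
  set m := n / 1000 with hm
  have hf' : fr w ≤ m := by omega
  have hb' : bu w.tail ≤ m := by
    have h3 : bu w.tail ≤ bu w := by
      cases w with
      | nil => exact le_rfl
      | cons d u => exact bu_le d u
    omega
  have h4 := h2 w hw
  have h5 : (21 / 20 : ℝ) ^ (-(20 : ℤ) - m) ≤ (21 / 20 : ℝ) ^ (Gx w.tail) := by
    apply zpow_le_zpow_right₀ (by norm_num)
    have : ((fr w : ℕ) : ℤ) ≤ m := by exact_mod_cast hf'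
    omega
  have h6 : (1 / 1000 : ℝ) ^ m ≤ (1 / 1000 : ℝ) ^ (bu w.tail) :=
    pow_le_pow_of_le_one (by norm_num) (by norm_num) hb'
  have h7 : (21 / 20 : ℝ) ^ (-(20 : ℤ) - m) = (20 / 21 : ℝ) ^ 20 * (20 / 21 : ℝ) ^ m := by
    rw [sub_eq_add_neg, zpow_add₀ (by norm_num), zpow_neg, zpow_neg, zpow_natCast,
      show ((20 : ℤ)) = ((20 : ℕ) : ℤ) by norm_num, zpow_natCast, ← inv_pow, ← inv_pow]
    norm_num
  have h8 : (20 / 21 : ℝ) ^ 20 * (1 / 1050 : ℝ) ^ m =
      (21 / 20 : ℝ) ^ (-(20 : ℤ) - m) * (1 / 1000 : ℝ) ^ m * 1 := by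
    rw [h7, mul_one, mul_assoc, ← mul_pow]
    norm_num
  rw [h8]
  gcongr
  exact Hx_ge _

end POOR

theorem S_poor_proof (h1 : S_walks) (h2 : S_sat) : S_poor := by
  refine ⟨2760 * (21 / 20 : ℝ) ^ 20, fun n => ?_⟩
  set A := (W n).filter (fun w => SAP w ∧ 1000 * fr w ≤ n ∧ 1000 * bu w ≤ n) with hA
  rcases lt_or_ge n 4 with hn | hn
  · have : A = ∅ := by
      rw [hA, Finset.filter_eq_empty_iff]
      rintro w hw ⟨⟨h3, _⟩, _⟩
      rw [mem_W] at hw
      omega
    rw [this, Finset.card_empty, Nat.cast_zero]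
    positivity
  · have hmem : ∀ w ∈ A, w.length = n ∧ SAP w ∧ 1000 * fr w ≤ n ∧ 1000 * bu w ≤ n := by
      intro w hw
      rw [hA, Finset.mem_filter, mem_W] at hw
      exact hw
    have hinj : Set.InjOn List.tail (A : Set (List Dir)) := by
      intro w hw w' hw' h
      exact POOR.tail_inj (hmem w hw).2.1 (hmem w' hw').2.1 h
    have himg : A.image List.tail ⊆ (W (n - 1)).filter SAW := by
      intro u hu
      obtain ⟨w, hw, rfl⟩ := Finset.mem_image.1 hu
      rw [Finset.mem_filter, mem_W]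
      refine ⟨?_, POOR.saw_tail (hmem w hw).2.1⟩
      rw [List.length_tail, (hmem w hw).1]
    have hsum := h1 (n - 1) (by omega)
    set c : ℝ := (20 / 21 : ℝ) ^ 20 * (1 / 1050 : ℝ) ^ (n / 1000) with hc
    have hlow : (A.card : ℝ) * c ≤
        ∑ w ∈ (W (n - 1)).filter SAW, (21 / 20 : ℝ) ^ (Gx w) * (1 / 1000 : ℝ) ^ (bu w) * Hx w := by
      calc (A.card : ℝ) * c = ∑ _w ∈ A, c := by rw [Finset.sum_const, nsmul_eq_mul]
        _ ≤ ∑ w ∈ A, (21 / 20 : ℝ) ^ (Gx w.tail) * (1 / 1000 : ℝ) ^ (bu w.tail) * Hx w.tail :=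
            Finset.sum_le_sum fun w hw =>
              POOR.term_ge h2 (hmem w hw).2.1 (hmem w hw).2.2.1 (hmem w hw).2.2.2
        _ = ∑ w ∈ A.image List.tail,
            (21 / 20 : ℝ) ^ (Gx w) * (1 / 1000 : ℝ) ^ (bu w) * Hx w := by
            rw [Finset.sum_image hinj]
        _ ≤ _ := by
            refine Finset.sum_le_sum_of_subset_of_nonneg himg fun w _ _ => ?_
            have := POOR.Hx_ge w
            positivity
    have h3 : (A.card : ℝ) * c ≤ 2760 * (15 / 4 : ℝ) ^ n := by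
      refine (hlow.trans hsum).trans ?_
      have : (15 / 4 : ℝ) ^ (n - 1 - 1) ≤ (15 / 4 : ℝ) ^ n :=
        pow_le_pow_right₀ (by norm_num) (by omega)
      linarith
    have hcc : c * ((21 / 20 : ℝ) ^ 20 * (1050 : ℝ) ^ (n / 1000)) = 1 := by
      rw [hc, mul_mul_mul_comm, ← mul_pow, ← mul_pow]
      norm_num
    calc (A.card : ℝ) = (A.card : ℝ) * c * ((21 / 20 : ℝ) ^ 20 * (1050 : ℝ) ^ (n / 1000)) := by
          rw [mul_assoc, hcc, mul_one]
      _ ≤ 2760 * (15 / 4 : ℝ) ^ n * ((21 / 20 : ℝ) ^ 20 * (76 / 75 : ℝ) ^ n) := by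
          gcongr
          exact POOR.pow_1050 n
      _ = 2760 * (21 / 20 : ℝ) ^ 20 * ((15 / 4 : ℝ) ^ n * (76 / 75 : ℝ) ^ n) := by ring
      _ = 2760 * (21 / 20 : ℝ) ^ 20 * (19 / 5 : ℝ) ^ n := by
          rw [← mul_pow]
          norm_num

end

end KN
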