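import Pool.Agent.H246KN.QR

/-! TASK QL of project KN (helper246), proof by helper439. -/

set_option autoImplicit false

namespace KN

open Finset Filter Topology
open scoped Classical

namespace QL

theorem mem_path_append {l1 l2 : List Dir} {p : Z3} :
    p ∈ path (l1 ++ l2) ↔ p ∈ path l2 ∨ ∃ q ∈ path l1, p = q + pos l2 := by
  rw [path_append, List.mem_append]
  have h1 : path l1 = (path l1).dropLast ++ [0] := by
    have := List.dropLast_append_getLast (path_ne_nil l1)
    rw [path_getLast] at this
    exact this.symm
  constructor
  · rintro (h | h)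
    · obtain ⟨q, hq, rfl⟩ := List.mem_map.1 h
      exact Or.inr ⟨q, List.mem_of_mem_dropLast hq, rfl⟩
    · exact Or.inl h
  · rintro (h | ⟨q, hq, rfl⟩)
    · exact Or.inr h
    · rw [h1, List.mem_append, List.mem_singleton] at hq
      rcases hq with hq | rfl
      · exact Or.inl (List.mem_map.2 ⟨q, hq, rfl⟩)
      · right
        rw [zero_add]
        exact pos_mem_path l2

theorem dropLast_append_path (l1 l2 : List Dir) : (path (l1 ++ l2)).dropLast =
    (path l1).dropLast.map (fun p => p + pos l2) ++ (path l2).dropLast := by
  rw [path_append, List.dropLast_append_of_ne_nil (path_ne_nil l2)]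

theorem nodup_iff {w : List Dir} (h0 : pos w = 0) :
    (path w).tail.Nodup ↔ (path w).dropLast.Nodup := by
  cases w with
  | nil => simp [path]
  | cons d l =>
    have h1 : path (d :: l) = 0 :: path l := by
      rw [path]
      rw [pos] at h0
      rw [h0]
    have h2 : (path (d :: l)).tail = path l := by rw [h1]; rfl
    have h3 : (path (d :: l)).dropLast = 0 :: (path l).dropLast := by
      rw [h1, List.dropLast_cons_of_ne_nil (path_ne_nil l)]
    have h4 : path l = (path l).dropLast ++ [0] := by
      have := List.dropLast_append_getLast (path_ne_nil l)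
      rw [path_getLast] at this
      exact this.symm
    rw [h2, h3]
    conv_lhs => rw [h4]
    exact (List.perm_append_singleton _ _).nodup_iff

theorem SAP_swap {l1 l2 : List Dir} (h : SAP (l1 ++ l2)) : SAP (l2 ++ l1) := by
  obtain ⟨h4, h0, hn⟩ := h
  have h0' : pos (l2 ++ l1) = 0 := by rw [pos_append, add_comm, ← pos_append]; exact h0
  refine ⟨by simp only [List.length_append] at h4 ⊢; omega, h0', ?_⟩
  rw [nodup_iff h0'] 
  rw [nodup_iff h0] at hn
  rw [dropLast_append_path] at hn ⊢
  have h5 : pos l1 + pos l2 = 0 := by rw [← pos_append]; exact h0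
  have h6 : Function.Injective (fun p : Z3 => p + pos l2) := fun p q h => add_right_cancel h
  rw [← List.nodup_map_iff h6, List.map_append, List.map_map]
  have h7 : ((fun p : Z3 => p + pos l2) ∘ fun p => p + pos l1) = id := by
    funext p
    simp [add_assoc, h5]
  rw [h7, List.map_id]
  exact (List.perm_append_comm).nodup_iff.1 hn

end QL

theorem S_quartL_proof : S_quartL := by
  intro Q hQ hQr m
  refine (QR.quart (-1) (Or.inr rfl) Q hQ m .zm (by decide)).trans ?_
  rw [mul_assoc]
  refine Nat.mul_le_mul_left 4 ?_
  set S := (K Q m).filter (fun w => ∃ v : List Dir, w = .zm :: v ∧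
    ∀ p ∈ path v, 0 ≤ p.1) with hS
  have h1 : (QR.Kc (-1) Q m .zm).card ≤ (Finset.range m ×ˢ S).card := by
    refine Finset.card_le_card_of_injOn
      (fun w => (QR.idx (-1) w, w.rotate (QR.idx (-1) w))) ?_ ?_
    · intro w hw
      have hw := Finset.mem_coe.1 hw
      unfold QR.Kc at hw
      rw [Finset.mem_filter] at hw
      have hw' := mem_K.1 hw.1
      obtain ⟨g1, g2, g3⟩ := QR.idx_spec (-1) (Or.inr rfl) w hw'.2.1
      have hlen : w.length = m := hw'.1
      set i := QR.idx (-1) w with hi
      refine Finset.mem_coe.2 (Finset.mem_product.2 ⟨?_, ?_⟩)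
      · simp only
        exact Finset.mem_range.2 (by omega)
      · simp only
        have e1 : w = w.take i ++ .zm :: w.drop (i + 1) := by
          conv_lhs => rw [← List.take_append_drop i w]
          rw [drop_eq_getD_cons w _ g1, hw.2]
        set l1 := w.take i with hl1
        set l2 := w.drop (i + 1) with hl2
        have e2 : w.rotate i = .zm :: (l2 ++ l1) := by
          rw [List.rotate_eq_drop_append_take g1.le, drop_eq_getD_cons w _ g1, hw.2]
          rfl
        have e3 : SAP (w.rotate i) := by
          rw [e2]
          have : SAP ((.zm :: l2) ++ l1) := by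
            apply QL.SAP_swap
            rw [← e1]; exact hw'.2.1
          exact this
        rw [hS, Finset.mem_filter, mem_K]
        refine ⟨⟨by rw [List.length_rotate]; exact hlen, e3, (hQr w hw'.2.1 i).1 hw'.2.2⟩,
          l2 ++ l1, e2, ?_⟩
        intro p hp
        have h0 : pos l1 + pos (.zm :: l2) = 0 := by
          rw [← pos_append, ← e1]; exact hw'.2.1.2.1
        have hv : (pos (Dir.zm :: l2)).1 = (pos l2).1 := by
          simp [pos, vec]
        rw [QL.mem_path_append] at hp
        rcases hp with hp | ⟨q, hq, rfl⟩
        · have h5 : p + pos (.zm :: l2) ∈ path w := by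
            rw [e1, QL.mem_path_append]
            exact Or.inr ⟨p, hp, rfl⟩
          have h6 := g3 _ h5
          rw [Prod.fst_add, hv] at h6
          linarith
        · have h5 : q ∈ path w := by
            rw [e1, QL.mem_path_append]
            left
            simp only [path, List.mem_cons]
            exact Or.inr hq
          have h6 := g3 _ h5
          have h7 := congrArg Prod.fst h0
          rw [Prod.fst_add, hv] at h7
          simp only [Prod.fst_zero] at h7
          rw [Prod.fst_add]
          linarith
    · intro w _ w' _ h
      simp only [Prod.mk.injEq] at h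
      rw [h.1] at h
      exact List.rotate_injective _ h.2
  rwa [Finset.card_product, Finset.card_range] at h1

end KN
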