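import Pool.Agent.H246KN.Stubs

/-! TASK QR of project KN (helper246), proof by helper439. -/

set_option autoImplicit false

namespace KN

open Finset Filter Topology
open scoped Classical

namespace QR

/-- the edge `i` is in an extremal plane -/
def P (ε : ℤ) (w : List Dir) (i : ℕ) : Prop :=
  i < w.length ∧ ax (w.getD i .xp) ≠ 0 ∧ ∀ p ∈ path w, ε * p.1 ≤ ε * (pos (w.drop (i + 1))).1

theorem vec_fst_of_ax {d : Dir} (h : ax d ≠ 0) : (vec d).1 = 0 := by
  cases d <;> first | rfl | exact absurd rfl h

theorem vec_opp (ε : ℤ) (hε : ε = 1 ∨ ε = -1) (d d' : Dir) (h : ax d = 0) (h' : ax d' = 0)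
    (h1 : 0 ≤ ε * (vec d).1) (h2 : ε * (vec d').1 ≤ 0) : vec d' = - vec d := by
  rcases hε with rfl | rfl <;> cases d <;> cases d' <;> simp_all [ax, vec]

theorem exists_P (ε : ℤ) (hε : ε = 1 ∨ ε = -1) (w : List Dir) (hw : SAP w) : ∃ i, P ε w i := by
  obtain ⟨h4, h0, hn⟩ := hw
  -- distinctness
  have hd : ∀ i j, 1 ≤ i → i < j → j ≤ w.length → pos (w.drop i) ≠ pos (w.drop j) := by
    intro i j hi hij hj he
    have h1 : i - 1 < (path w).tail.length := by rw [List.length_tail, path_length]; omega
    have h2 : j - 1 < (path w).tail.length := by rw [List.length_tail, path_length]; omega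
    have h3 : (path w).tail[i-1] = (path w).tail[j-1] := by
      rw [List.getElem_tail, List.getElem_tail, path_getElem, path_getElem]
      rw [Nat.sub_add_cancel hi, Nat.sub_add_cancel (by omega : 1 ≤ j)]
      exact he
    have := (List.Nodup.getElem_inj_iff hn).1 h3
    omega
  -- index of a maximal vertex
  obtain ⟨j, hj, hmax⟩ : ∃ j < w.length, ∀ p ∈ path w, ε * p.1 ≤ ε * (pos (w.drop j)).1 := by
    obtain ⟨p, hp, hpm⟩ := (path w).toFinset.exists_max_image (fun p => ε * p.1)
      ⟨0, List.mem_toFinset.2 (zero_mem_path w)⟩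
    rw [List.mem_toFinset, mem_path_iff] at hp
    obtain ⟨j, hj, rfl⟩ := hp
    rcases Nat.lt_or_ge j w.length with h | h
    · exact ⟨j, h, fun p hp => hpm p (List.mem_toFinset.2 hp)⟩
    · have : j = w.length := by omega
      subst this
      refine ⟨0, by omega, fun p hp => ?_⟩
      have := hpm p (List.mem_toFinset.2 hp)
      simpa [h0, pos] using this
  have e1 := pos_drop w j hj
  -- letter at j
  by_cases hax : ax (w.getD j .xp) ≠ 0
  · refine ⟨j, hj, hax, fun p hp => ?_⟩
    have := hmax p hp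
    rw [e1, Prod.fst_add, vec_fst_of_ax hax, add_zero] at this
    exact this
  · push Not at hax
    have hlow : ε * (pos (w.drop (j+1))).1 ≤ ε * (pos (w.drop j)).1 :=
      hmax _ ((mem_path_iff w _).2 ⟨j+1, hj, rfl⟩)
    have hs1 : 0 ≤ ε * (vec (w.getD j .xp)).1 := by
      rw [e1, Prod.fst_add, mul_add] at hlow
      linarith
    rcases Nat.eq_zero_or_pos j with hj0 | hj0
    · subst hj0
      have hn1 : w.length - 1 < w.length := by omega
      have e2 := pos_drop w (w.length - 1) hn1
      have e3 : w.length - 1 + 1 = w.length := by omega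
      rw [e3, List.drop_length] at e2
      have e4 : pos (w.drop 0) = 0 := by simpa using h0
      by_cases hax2 : ax (w.getD (w.length - 1) .xp) ≠ 0
      · refine ⟨w.length - 1, hn1, hax2, fun p hp => ?_⟩
        rw [e3, List.drop_length]
        have := hmax p hp
        rw [e4] at this
        exact this
      · exfalso
        push Not at hax2
        have h5 := hmax _ ((mem_path_iff w _).2 ⟨w.length - 1, hn1.le, rfl⟩)
        refine hd 1 (w.length - 1) le_rfl (by omega) (by omega) ?_
        have hs2 : ε * (vec (w.getD (w.length - 1) .xp)).1 ≤ 0 := by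
          rw [e4, e2] at h5
          simpa [pos] using h5
        have h6 := vec_opp ε hε _ _ hax hax2 hs1 hs2
        rw [e2, h6]
        rw [e4] at e1
        simp only [zero_add] at e1
        simp only [pos, zero_add]
        exact eq_neg_of_add_eq_zero_left e1.symm
    · have e2 := pos_drop w (j - 1) (by omega)
      rw [Nat.sub_add_cancel hj0] at e2
      by_cases hax2 : ax (w.getD (j - 1) .xp) ≠ 0
      · refine ⟨j - 1, by omega, hax2, fun p hp => ?_⟩
        rw [Nat.sub_add_cancel hj0]
        exact hmax p hp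
      · exfalso
        push Not at hax2
        have h5 := hmax _ ((mem_path_iff w _).2 ⟨j - 1, by omega, rfl⟩)
        have hs2 : ε * (vec (w.getD (j - 1) .xp)).1 ≤ 0 := by
          rw [e2, Prod.fst_add, mul_add] at h5
          linarith
        have h6 := vec_opp ε hε _ _ hax hax2 hs1 hs2
        have h7 : pos (w.drop (j - 1)) = pos (w.drop (j + 1)) := by
          rw [e2, h6, e1]; abel
        rcases Nat.lt_or_ge 1 j with hj1 | hj1
        · exact hd (j - 1) (j + 1) (by omega) (by omega) (by omega) h7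
        · have : j = 1 := by omega
          subst this
          refine hd 2 w.length (by omega) (by omega) le_rfl ?_
          rw [List.drop_length, show (2 : ℕ) = 1 + 1 from rfl, ← h7]
          simpa [pos] using h0

noncomputable def idx (ε : ℤ) (w : List Dir) : ℕ :=
  if h : ∃ i, P ε w i then Nat.find h else 0

theorem idx_spec (ε : ℤ) (hε : ε = 1 ∨ ε = -1) (w : List Dir) (hw : SAP w) :
    P ε w (idx ε w) := by
  have h := exists_P ε hε w hw
  unfold idx
  rw [dif_pos h]
  exact Nat.find_spec h

def R (p : Z3) : Z3 := (p.1, -p.2.2, p.2.1)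

theorem R_add (p q : Z3) : R (p + q) = R p + R q := by
  unfold R
  ext <;> simp
  ring

theorem R_inj : Function.Injective R := by
  rintro ⟨x, y, z⟩ ⟨x', y', z'⟩ h
  simp only [R, Prod.mk.injEq, neg_inj] at h
  simp [h.1, h.2.1, h.2.2]

theorem vec_rx (d : Dir) : vec (rx d) = R (vec d) := by cases d <;> decide

theorem pos_rx (w : List Dir) : pos (w.map rx) = R (pos w) := by
  induction w with
  | nil => rfl
  | cons d l ih => simp only [List.map_cons, pos, ih, vec_rx, R_add]

theorem path_rx (w : List Dir) : path (w.map rx) = (path w).map R := by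
  induction w with
  | nil => rfl
  | cons d l ih => simp only [List.map_cons, path, ih, vec_rx, R_add, pos_rx]

theorem SAP_rx {w : List Dir} (hw : SAP w) : SAP (w.map rx) := by
  obtain ⟨h4, h0, hn⟩ := hw
  refine ⟨by simpa using h4, by rw [pos_rx, h0]; rfl, ?_⟩
  rw [path_rx, ← List.map_tail]
  exact hn.map R_inj

theorem rx_inj : Function.Injective rx := by
  intro a b h
  cases a <;> cases b <;> first | rfl | (simp [rx] at h)

theorem ax_rx (d : Dir) : ax (rx d) = 0 ↔ ax d = 0 := by
  cases d <;> simp [ax, rx]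

theorem getD_rx (w : List Dir) (i : ℕ) : (w.map rx).getD i .xp = rx (w.getD i .xp) := by
  have := List.getD_map (l := w) (d := Dir.xp) (n := i) rx
  exact this

theorem P_rx (ε : ℤ) (w : List Dir) : P ε (w.map rx) = P ε w := by
  funext i
  unfold P
  rw [getD_rx, path_rx, ← List.map_drop, pos_rx, List.length_map, Ne, Ne, ax_rx]
  have h1 : (∀ p ∈ List.map R (path w), ε * p.1 ≤ ε * (R (pos (List.drop (i + 1) w))).1) ↔
      (∀ p ∈ path w, ε * p.1 ≤ ε * (pos (List.drop (i + 1) w)).1) := by
    simp only [List.mem_map, forall_exists_index, and_imp, forall_apply_eq_imp_iff₂]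
    rfl
  rw [h1]

theorem idx_rx (ε : ℤ) (w : List Dir) : idx ε (w.map rx) = idx ε w := by
  unfold idx
  simp only [P_rx]

noncomputable def Kc (ε : ℤ) (Q : List Dir → Prop) (n : ℕ) (c : Dir) : Finset (List Dir) :=
  (K Q n).filter (fun w => w.getD (idx ε w) .xp = c)

theorem card_le (ε : ℤ) (Q : List Dir → Prop) (hQ : ∀ w, SAP w → (Q w ↔ Q (w.map rx))) (n : ℕ)
    (c : Dir) : (Kc ε Q n c).card ≤ (Kc ε Q n (rx c)).card := by
  refine Finset.card_le_card_of_injOn (fun w => w.map rx) ?_ ?_
  · intro w hw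
    have hw := Finset.mem_coe.1 hw
    unfold Kc at hw
    rw [Finset.mem_filter, mem_K] at hw
    obtain ⟨⟨h1, h2, h3⟩, h4⟩ := hw
    refine Finset.mem_coe.2 ?_
    unfold Kc
    rw [Finset.mem_filter, mem_K]
    refine ⟨⟨by simpa using h1, SAP_rx h2, (hQ w h2).1 h3⟩, ?_⟩
    rw [getD_rx, idx_rx, h4]
  · exact (List.map_injective_iff.2 rx_inj).injOn

theorem quart (ε : ℤ) (hε : ε = 1 ∨ ε = -1) (Q : List Dir → Prop)
    (hQ : ∀ w, SAP w → (Q w ↔ Q (w.map rx))) (n : ℕ)
    (c : Dir) (hc : ax c ≠ 0) : a Q n ≤ 4 * (Kc ε Q n c).card := by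
  have h1 := card_le ε Q hQ n .yp
  have h2 := card_le ε Q hQ n .zp
  have h3 := card_le ε Q hQ n .ym
  have h4 := card_le ε Q hQ n .zm
  simp only [rx] at h1 h2 h3 h4
  have h5 : K Q n ⊆ Kc ε Q n .yp ∪ Kc ε Q n .zp ∪ Kc ε Q n .ym ∪ Kc ε Q n .zm := by
    intro w hw
    have hw' := mem_K.1 hw
    have h6 := (idx_spec ε hε w hw'.2.1).2.1
    have h7 : ∀ d : Dir, w.getD (idx ε w) .xp = d → w ∈ Kc ε Q n d := by
      intro d hd
      exact Finset.mem_filter.2 ⟨hw, hd⟩
    simp only [Finset.mem_union]
    generalize hg : w.getD (idx ε w) .xp = d at h6 h7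
    cases d
    · exact absurd rfl h6
    · exact absurd rfl h6
    · exact Or.inl (Or.inl (Or.inl (h7 _ rfl)))
    · exact Or.inl (Or.inr (h7 _ rfl))
    · exact Or.inl (Or.inl (Or.inr (h7 _ rfl)))
    · exact Or.inr (h7 _ rfl)
  have h6 := (Finset.card_le_card h5).trans ((Finset.card_union_le _ _).trans
    (Nat.add_le_add_right ((Finset.card_union_le _ _).trans
    (Nat.add_le_add_right (Finset.card_union_le _ _) _)) _))
  unfold a
  cases c
  · exact absurd rfl hc
  · exact absurd rfl hc
  all_goals omega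

end QR

theorem S_quartR_proof : S_quartR := by
  intro Q hQ n
  refine (QR.quart 1 (Or.inl rfl) Q hQ n .zp (by decide)).trans ?_
  refine Nat.mul_le_mul_left 4 (Finset.card_le_card ?_)
  intro w hw
  unfold QR.Kc at hw
  rw [Finset.mem_filter] at hw ⊢
  refine ⟨hw.1, ?_⟩
  have hw' := mem_K.1 hw.1
  obtain ⟨h1, h2, h3⟩ := QR.idx_spec 1 (Or.inl rfl) w hw'.2.1
  refine ⟨w.take (QR.idx 1 w), w.drop (QR.idx 1 w + 1), ?_, fun p hp => ?_⟩
  · conv_lhs => rw [← List.take_append_drop (QR.idx 1 w) w]
    rw [drop_eq_getD_cons w _ h1, hw.2]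
  · have := h3 p hp
    simpa using this

end KN
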