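import Pool.Agent.H246KN.Stubs

/-!
# Task REFL: independence of the frame
-/

set_option autoImplicit false

namespace KN

namespace REFL

/-- motions of the frame -/
theorem insB_ofFn (l α : List V) (u w : V) :
    List.ofFn (Fin.append (fun i : Fin l.length => l.get i)
      (fun i : Fin α.length => Fm (l.getLastD 0) (l.headD 0) u w (α.get i))) = insB l α u w := by
  rw [List.ofFn_fin_append, List.ofFn_get]
  unfold insB
  congr 1
  conv_rhs => rw [← List.ofFn_get α]
  rw [List.map_ofFn]
  rfl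

theorem det3_smul (D u w : V) (δ : ℝ) : det3 D (δ • u) (δ • w) = δ ^ 2 * det3 D u w := by
  simp only [det3, Prod.smul_fst, Prod.smul_snd, smul_eq_mul]
  ring

theorem kappa_nonneg {κ : ℝ} {α : List V} (h : IsBead κ α) : 0 ≤ κ := by
  obtain ⟨p, hp⟩ := List.exists_mem_of_ne_nil α h.ne
  obtain ⟨h0, h1, h2⟩ := h.cone p hp
  have h3 : 0 < min p.1 (1 - p.1) := lt_min h0 (by linarith)
  have h4 := h2.2.2.1
  by_contra hneg
  push Not at hneg
  have h5 : κ * min p.1 (1 - p.1) < 0 := mul_neg_of_neg_of_pos hneg h3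
  linarith [abs_nonneg p.2.1]

/-- the relation between frames -/
def R (l α : List V) (u w u' w' : V) : Prop :=
  ∃ δ₀ : ℝ, 0 < δ₀ ∧ ∀ δ δ' : ℝ, 0 < δ → δ ≤ δ₀ → 0 < δ' → δ' ≤ δ₀ →
    Same (insB l α (δ • u) (δ • w)) (insB l α (δ' • u') (δ' • w'))

theorem R.trans {l α : List V} {u w u' w' u'' w'' : V} (h : R l α u w u' w')
    (h' : R l α u' w' u'' w'') : R l α u w u'' w'' := by
  obtain ⟨d, hd, h1⟩ := h
  obtain ⟨d', hd', h2⟩ := h'
  refine ⟨min d d', lt_min hd hd', fun δ δ' a b c e => ?_⟩
  exact (h1 δ (min d d') a (b.trans (min_le_left _ _)) (lt_min hd hd') (min_le_left _ _)).trans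
    (h2 (min d d') δ' (lt_min hd hd') (min_le_right _ _) c (e.trans (min_le_right _ _)))

theorem R_path (hcone : S_cone) (hbead : S_bead) {κ : ℝ} {l α : List V} (hl : Simple l)
    (hα : IsBead κ α) (u w : ℝ → V) (hu : Continuous u) (hw : Continuous w)
    (hdet : ∀ t : ℝ, 0 ≤ t → t ≤ 1 → det3 (l.headD 0 - l.getLastD 0) (u t) (w t) ≠ 0) :
    R l α (u 0) (w 0) (u 1) (w 1) := by
  obtain ⟨δ₀, hδ₀, hCF⟩ := hcone l.length (fun _ => l.get) u w κ (kappa_nonneg hα)
    (fun i => continuous_const) hu hw (fun t _ _ => by rw [List.ofFn_get]; exact hl)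
  simp only [List.ofFn_get] at hCF
  refine ⟨δ₀, hδ₀, fun δ δ' a b c e => ?_⟩
  obtain ⟨dt, hdt⟩ : ∃ dt : ℝ → ℝ, dt = fun t => (1 - t) * δ + t * δ' := ⟨_, rfl⟩
  have hdc : Continuous dt := by
    rw [hdt]
    fun_prop
  have hd0 : dt 0 = δ := by rw [hdt]; simp
  have hd1 : dt 1 = δ' := by rw [hdt]; simp
  have hdp : ∀ t : ℝ, 0 ≤ t → t ≤ 1 → 0 < dt t ∧ dt t ≤ δ₀ := by
    intro t h0 h1
    rw [hdt]
    simp only
    constructor
    · rcases h0.eq_or_lt with h | h
      · rw [← h]; simpa using a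
      · have := mul_pos h c
        have := mul_nonneg (sub_nonneg.2 h1) a.le
        linarith
    · have h2 := mul_le_mul_of_nonneg_left b (sub_nonneg.2 h1)
      have h3 := mul_le_mul_of_nonneg_left e h0
      linarith
  have hm := Move.iso (l.length + α.length) (fun t => Fin.append (fun i : Fin l.length => l.get i)
      (fun i : Fin α.length => Fm (l.getLastD 0) (l.headD 0) (dt t • u t) (dt t • w t) (α.get i)))
      ?_ ?_
  · simp only [insB_ofFn, hd0, hd1] at hm
    exact Same.of_move hm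
  · intro i
    refine Fin.addCases (fun j => ?_) (fun j => ?_) i
    · simp only [Fin.append_left]
      exact continuous_const
    · simp only [Fin.append_right, Fm]
      have h1 : Continuous fun t => (α.get j).2.1 • (dt t • u t) :=
        (continuous_const (y := (α.get j).2.1)).smul (hdc.smul hu)
      have h2 : Continuous fun t => (α.get j).2.2 • (dt t • w t) :=
        (continuous_const (y := (α.get j).2.2)).smul (hdc.smul hw)
      exact (continuous_const.add h1).add h2
  · intro t h0 h1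
    simp only [insB_ofFn]
    obtain ⟨h2, h3⟩ := hdp t h0 h1
    refine hbead κ l α _ _ hl hα (hCF t h0 h1 (dt t) h2 h3) ?_
    rw [det3_smul]
    exact mul_ne_zero (pow_ne_zero 2 h2.ne') (hdet t h0 h1)

theorem det3_seg (D u w u' w' : V) (t : ℝ) :
    det3 D ((1 - t) • u + t • u') ((1 - t) • w + t • w') =
      (1 - t) ^ 2 * det3 D u w + t ^ 2 * det3 D u' w' +
        t * (1 - t) * (det3 D u w' + det3 D u' w) := by
  simp only [det3, Prod.smul_fst, Prod.smul_snd, Prod.fst_add, Prod.snd_add, smul_eq_mul]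
  ring

theorem R_seg (hcone : S_cone) (hbead : S_bead) {κ : ℝ} {l α : List V} (hl : Simple l)
    (hα : IsBead κ α) (u w u' w' : V)
    (h1 : 0 < det3 (l.headD 0 - l.getLastD 0) u w) (h2 : 0 < det3 (l.headD 0 - l.getLastD 0) u' w')
    (h3 : 0 ≤ det3 (l.headD 0 - l.getLastD 0) u w' + det3 (l.headD 0 - l.getLastD 0) u' w) :
    R l α u w u' w' := by
  have hc : ∀ a b : V, Continuous fun t : ℝ => (1 - t) • a + t • b := by
    intro a b
    have e1 : Continuous fun t : ℝ => (1 - t) • a :=
      (continuous_const.sub continuous_id).smul continuous_const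
    have e2 : Continuous fun t : ℝ => t • b := continuous_id.smul continuous_const
    exact e1.add e2
  have h := R_path hcone hbead hl hα (fun t => (1 - t) • u + t • u')
    (fun t => (1 - t) • w + t • w') (hc _ _) (hc _ _) ?_
  · simpa using h
  · intro t h0 h1'
    rw [det3_seg]
    have e1 : 0 ≤ t * (1 - t) * (det3 (l.headD 0 - l.getLastD 0) u w' +
      det3 (l.headD 0 - l.getLastD 0) u' w) :=
      mul_nonneg (mul_nonneg h0 (sub_nonneg.2 h1')) h3
    rcases h0.eq_or_lt with h | h
    · rw [← h]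
      simp only [sub_zero, one_pow, one_mul]
      have : (0 : ℝ) ^ 2 = 0 := by norm_num
      rw [this]
      simp only [zero_mul, add_zero]
      exact h1.ne'
    · have e2 : 0 < t ^ 2 * det3 (l.headD 0 - l.getLastD 0) u' w' := mul_pos (pow_pos h 2) h2
      have e3 : 0 ≤ (1 - t) ^ 2 * det3 (l.headD 0 - l.getLastD 0) u w :=
        mul_nonneg (sq_nonneg _) h1.le
      have : 0 < (1 - t) ^ 2 * det3 (l.headD 0 - l.getLastD 0) u w +
        t ^ 2 * det3 (l.headD 0 - l.getLastD 0) u' w' + t * (1 - t) *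
          (det3 (l.headD 0 - l.getLastD 0) u w' + det3 (l.headD 0 - l.getLastD 0) u' w) := by
        linarith
      exact this.ne'

end REFL

open REFL in
/-- TASK REFL -/
theorem S_gsRefl_proof (hcone : S_cone) (hbead : S_bead) : S_gsRefl := by
  intro κ l α hl hα u w u' w' h1 h2
  obtain ⟨D, hD⟩ : ∃ D : V, D = l.headD 0 - l.getLastD 0 := ⟨_, rfl⟩
  have hseg := @R_seg hcone hbead κ l α hl hα
  rw [← hD] at h1 h2 hseg
  by_cases h3 : 0 ≤ det3 D u w' + det3 D u' w
  · exact hseg u w u' w' h1 h2 h3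
  · push Not at h3
    have e1 : det3 D w (-u) = det3 D u w := by
      simp only [det3, Prod.fst_neg, Prod.snd_neg]
      ring
    have e2 : det3 D (-u) (-w) = det3 D u w := by
      simp only [det3, Prod.fst_neg, Prod.snd_neg]
      ring
    have e3 : det3 D u (-u) + det3 D w w = 0 := by
      simp only [det3, Prod.fst_neg, Prod.snd_neg]
      ring
    have e4 : det3 D w (-w) + det3 D (-u) (-u) = 0 := by
      simp only [det3, Prod.fst_neg, Prod.snd_neg]
      ring
    have e5 : det3 D (-u) w' + det3 D u' (-w) = -(det3 D u w' + det3 D u' w) := by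
      simp only [det3, Prod.fst_neg, Prod.snd_neg]
      ring
    have r1 := hseg u w w (-u) h1 (by rw [e1]; exact h1) e3.ge
    have r2 := hseg w (-u) (-u) (-w) (by rw [e1]; exact h1) (by rw [e2]; exact h1) e4.ge
    have r3 := hseg (-u) (-w) u' w' (by rw [e2]; exact h1) h2 (by rw [e5]; linarith)
    exact (r1.trans r2).trans r3

end KN
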