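import Pool.Agent.H246KN.Stubs

/-!
# Removal of a bump
-/

set_option autoImplicit false

namespace KN.REM

open Finset KN
open scoped Classical

theorem key (w l2 : List Dir) (L1 : List Z3) (A B : Z3)
    (hp : path w = L1 ++ A :: B :: path l2) (hne : L1 ≠ []) (h0 : pos w = 0)
    (hn : (path w).tail.Nodup) :
    A ∉ L1 ++ path l2 ∧ B ∉ L1 ++ path l2 ∧ (L1.tail ++ path l2).Nodup := by
  obtain ⟨x, L', rfl⟩ := List.exists_cons_of_ne_nil hne
  have hx : x = 0 := by
    have h1 := head_path w
    simp only [hp, List.cons_append, List.head_cons] at h1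
    rw [h1, h0]
  subst hx
  have hz := zero_mem_path l2
  rw [hp] at hn
  simp only [List.cons_append, List.tail_cons] at hn ⊢
  rw [List.nodup_append] at hn
  obtain ⟨h1, h2, h3⟩ := hn
  rw [List.nodup_cons, List.nodup_cons] at h2
  obtain ⟨h4, h5, h6⟩ := h2
  have hA0 : A ≠ 0 := fun h => h4 (List.mem_cons_of_mem _ (h ▸ hz))
  have hB0 : B ≠ 0 := fun h => h5 (h ▸ hz)
  refine ⟨?_, ?_, ?_⟩
  · intro h
    rcases List.mem_cons.1 h with h | h
    · exact hA0 h
    · rcases List.mem_append.1 h with h | h
      · exact h3 A h A (by simp) rfl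
      · exact h4 (List.mem_cons_of_mem _ h)
  · intro h
    rcases List.mem_cons.1 h with h | h
    · exact hB0 h
    · rcases List.mem_append.1 h with h | h
      · exact h3 B h B (by simp) rfl
      · exact h5 h
  · rw [List.nodup_append]
    exact ⟨h1, h6, fun a ha b hb => h3 a ha b (by simp [hb])⟩

theorem split3 (w : List Dir) (j : ℕ) (h : j + 2 < w.length) :
    w = w.take j ++ w.getD j .xp :: w.getD (j + 1) .xp :: w.getD (j + 2) .xp :: w.drop (j + 3) := by
  have h1 := drop_eq_getD_cons w j (by omega)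
  have h2 := drop_eq_getD_cons w (j + 1) (by omega)
  have h3 := drop_eq_getD_cons w (j + 2) (by omega)
  conv_lhs => rw [← List.take_append_drop j w, h1, h2, h3]

theorem main (l1 l2 : List Dir) (d e : Dir) (hperp : perp d e)
    (hw : SAP (l1 ++ neg d :: e :: d :: l2)) (h6 : 6 ≤ (l1 ++ neg d :: e :: d :: l2).length) :
    SAP (l1 ++ e :: l2) ∧ site (l1 ++ e :: l2) l1.length d ∧
      ins (l1 ++ e :: l2) l1.length d = l1 ++ neg d :: e :: d :: l2 := by
  obtain ⟨-, h0, hn⟩ := hw
  have hQ : pos l2 + vec d + vec e + vec (neg d) = pos l2 + vec e := by rw [vec_neg]; abel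
  have hp : path (l1 ++ neg d :: e :: d :: l2) =
      ((path l1).dropLast.map (fun p => p + (pos l2 + vec e)) ++ [pos l2 + vec e]) ++
        (pos l2 + vec d + vec e) :: (pos l2 + vec d) :: path l2 := by
    rw [path_append]
    simp only [path, pos, hQ, List.append_assoc, List.cons_append, List.nil_append]
  have hp' : path (l1 ++ e :: l2) =
      ((path l1).dropLast.map (fun p => p + (pos l2 + vec e)) ++ [pos l2 + vec e]) ++ path l2 := by
    rw [path_append]
    simp only [path, pos, List.append_assoc, List.cons_append, List.nil_append]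
  obtain ⟨k1, k2, k3⟩ := key _ l2 _ _ _ hp (by simp) h0 hn
  have hlen : (l1 ++ e :: l2).length + 2 = (l1 ++ neg d :: e :: d :: l2).length := by
    simp only [List.length_append, List.length_cons]; omega
  have hg : (l1 ++ e :: l2).getD l1.length .xp = e := by simp
  have hd : (l1 ++ e :: l2).drop (l1.length + 1) = l2 := by
    rw [List.drop_append]; simp
  refine ⟨⟨by omega, ?_, ?_⟩, ⟨?_, ?_, ?_, ?_⟩, ?_⟩
  · rw [pos_append] at h0 ⊢
    simp only [pos] at h0 ⊢
    rw [hQ] at h0
    exact h0
  · rw [hp', List.tail_append_of_ne_nil (by simp)]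
    exact k3
  · simp
  · rw [hg]; exact hperp
  · rw [hd, hp']; exact k2
  · rw [hd, hg, hp']; exact k1
  · unfold ins
    rw [hg, hd]
    simp

end KN.REM

namespace KN

theorem S_rem_proof : S_rem := by
  intro w j hw h6 hb
  obtain ⟨hj, hn, hp⟩ := hb
  have hs := REM.split3 w j hj
  generalize hl1 : w.take j = l1 at hs
  generalize hl2 : w.drop (j + 3) = l2 at hs
  generalize hd : w.getD (j + 2) .xp = d at *
  generalize he : w.getD (j + 1) .xp = e at *
  rw [hn] at hs hp
  have hlen : l1.length = j := by rw [← hl1, List.length_take]; omega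
  have hrem : rem w j = l1 ++ e :: l2 := by
    unfold rem
    rw [hl1, hl2, he]
    simp
  have hperp : perp d e := by
    have : ax (neg d) = ax d := by cases d <;> rfl
    unfold perp at hp ⊢
    rwa [this] at hp
  have hm := REM.main l1 l2 d e hperp (hs ▸ hw) (hs ▸ h6)
  rw [hlen] at hm
  rw [hrem]
  refine ⟨hm.1, ?_, hm.2.1, ?_⟩
  · rw [hs]; simp only [List.length_append, List.length_cons]; omega
  · rw [hm.2.2]; exact hs.symm

end KN
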