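import Pool.Agent.H246KN.Stubs

/-!
# T5: reversal of polygons (task REV, helper92)
-/

set_option autoImplicit false

namespace KN

namespace REV

theorem lerp_swap (p q : V) (u : ℝ) : lerp q p u = lerp p q (1 - u) := by
  unfold lerp
  rw [sub_sub_cancel, add_comm]

theorem chain_rev (q : V) (m : List V) : ∀ p : V,
    ((chain p (m ++ [q])).map Prod.swap).reverse = chain q (m.reverse ++ [p]) := by
  induction m with
  | nil => intro p; rfl
  | cons r m ih =>
    intro p
    have h1 : chain p (r :: m ++ [q]) = (p, r) :: chain r (m ++ [q]) := rfl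
    rw [h1, List.map_cons, List.reverse_cons, ih r, List.reverse_cons, List.append_assoc]
    show chain q (m.reverse ++ [r]) ++ [(r, p)] = chain q (m.reverse ++ r :: [p])
    rw [chain_append q r m.reverse [p]]
    rfl

theorem edges_perm (p : V) (l : List V) : (edges (p :: l)).Perm (edges (l ++ [p])) := by
  cases l with
  | nil => exact List.Perm.refl _
  | cons q l' =>
    have h1 : edges (p :: q :: l') = (p, q) :: chain q (l' ++ [p]) := rfl
    have h2 : edges (q :: l' ++ [p]) = chain q (l' ++ [p]) ++ [(p, q)] := by
      have : edges (q :: l' ++ [p]) = chain q (l' ++ p :: [q]) := by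
        simp [edges]
      rw [this, chain_append]
      rfl
    rw [h1, h2]
    exact (List.perm_append_singleton _ _).symm

theorem edges_rev (l : List V) : (edges l.reverse).Perm ((edges l).map Prod.swap) := by
  cases l with
  | nil => exact List.Perm.refl _
  | cons p l =>
    rw [List.reverse_cons]
    have h1 : edges (p :: l.reverse) = ((edges (p :: l)).map Prod.swap).reverse := by
      show chain p (l.reverse ++ [p]) = ((chain p (l ++ [p])).map Prod.swap).reverse
      rw [chain_rev]
    exact ((edges_perm p l.reverse).symm.trans (h1 ▸ List.Perm.refl _)).trans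
      (List.reverse_perm _)

theorem chain_getElem (m : List V) : ∀ (p : V) (i : ℕ) (h : i < (chain p m).length)
    (h1 : i < (p :: m).length) (h2 : i < m.length), (chain p m)[i] = ((p :: m)[i], m[i]) := by
  induction m with
  | nil =>
    intro p i h
    exact absurd h (by simp [chain])
  | cons r m ih =>
    intro p i h h1 h2
    cases i with
    | zero => rfl
    | succ i =>
      have h3 := ih r i (by simpa [chain] using h) (by simpa using h1) (by simpa using h2)
      simpa [chain] using h3

theorem next (p : V) (l : List V) (i : Fin (l.length + 1)) (h : (i : ℕ) < (edges (p :: l)).length)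
    (h' : ((i + 1 : Fin (l.length + 1)) : ℕ) < (edges (p :: l)).length) :
    (edges (p :: l))[(i : ℕ)].2 = (edges (p :: l))[((i + 1 : Fin (l.length + 1)) : ℕ)].1 := by
  have hl : (l ++ [p]).length = l.length + 1 := by simp
  have hi1 : (i : ℕ) < (l ++ [p]).length := by rw [hl]; exact i.2
  have hi2 : (i : ℕ) < (p :: (l ++ [p])).length := by rw [List.length_cons]; omega
  have hj1 : ((i + 1 : Fin (l.length + 1)) : ℕ) < (l ++ [p]).length := by
    rw [hl]; exact (i + 1).2
  have hj2 : ((i + 1 : Fin (l.length + 1)) : ℕ) < (p :: (l ++ [p])).length := by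
    rw [List.length_cons]; omega
  have e1 : (edges (p :: l))[(i : ℕ)] = ((p :: (l ++ [p]))[(i : ℕ)], (l ++ [p])[(i : ℕ)]) :=
    chain_getElem (l ++ [p]) p i h _ _
  have e2 : (edges (p :: l))[((i + 1 : Fin (l.length + 1)) : ℕ)] =
      ((p :: (l ++ [p]))[((i + 1 : Fin (l.length + 1)) : ℕ)],
      (l ++ [p])[((i + 1 : Fin (l.length + 1)) : ℕ)]) :=
    chain_getElem (l ++ [p]) p _ h' _ _
  rw [e1, e2]
  simp only
  by_cases hi : (i : ℕ) = l.length
  · have h3 : i = Fin.last l.length := Fin.ext hi
    have h4 : ((i + 1 : Fin (l.length + 1)) : ℕ) = 0 := by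
      rw [h3, Fin.last_add_one]
      rfl
    simp only [h4, hi]
    simp
  · have h4 : ((i + 1 : Fin (l.length + 1)) : ℕ) = i + 1 := by
      rw [Fin.val_add_one]
      rw [if_neg]
      intro h5
      exact hi (congrArg Fin.val h5)
    simp only [h4]
    simp

theorem core {n : ℕ} (E : Fin (n + 1) → V × V) (hn : ∀ i, (E i).2 = (E (i + 1)).1)
    (hD : ∀ i j, i ≠ j → Disj (E i) (E j)) (hnd : ∀ i, (E i).1 ≠ (E i).2) (i j : Fin (n + 1))
    (hij : i ≠ j) : Disj (E i).swap (E j).swap := by
  have hnd' : ∀ (k : Fin (n + 1)) (b : ℝ), 0 < b → (E k).1 ≠ lerp (E k).1 (E k).2 b := by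
    intro k b hb h
    apply hnd k
    have h1 : b • ((E k).2 - (E k).1) = 0 := by
      have h2 : lerp (E k).1 (E k).2 b = (E k).1 + b • ((E k).2 - (E k).1) := by
        unfold lerp
        module
      rw [h2] at h
      exact (left_eq_add.1 h)
    rcases smul_eq_zero.1 h1 with h2 | h2
    · exact absurd h2 hb.ne'
    · exact (sub_eq_zero.1 h2).symm
  -- one of the points is an end point
  have key : ∀ (i j : Fin (n + 1)), i ≠ j → ∀ b : ℝ, 0 < b → b ≤ 1 →
      (E i).2 ≠ lerp (E j).1 (E j).2 b := by
    intro i j hij b hb0 hb1 h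
    rcases hb1.lt_or_eq with hb | rfl
    · by_cases hj : i + 1 = j
      · rw [hn i, hj] at h
        exact hnd' j b hb0 h
      · apply hD (i + 1) j hj 0 b le_rfl one_pos hb0.le hb
        rw [lerp_zero, ← hn i]
        exact h
    · rw [lerp_one] at h
      have h1 : i + 1 ≠ j + 1 := fun h2 => hij (add_right_cancel h2)
      apply hD (i + 1) (j + 1) h1 0 0 le_rfl one_pos le_rfl one_pos
      rw [lerp_zero, lerp_zero, ← hn i, ← hn j]
      exact h
  intro u v hu0 hu1 hv0 hv1 h
  simp only [Prod.fst_swap, Prod.snd_swap] at h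
  rw [lerp_swap (E i).1 (E i).2 u, lerp_swap (E j).1 (E j).2 v] at h
  rcases hu0.lt_or_eq with hu | hu
  · rcases hv0.lt_or_eq with hv | hv
    · exact hD i j hij (1 - u) (1 - v) (by linarith) (by linarith) (by linarith) (by linarith) h
    · rw [← hv, sub_zero, lerp_one] at h
      exact key j i hij.symm (1 - u) (by linarith) (by linarith) h.symm
  · rw [← hu, sub_zero, lerp_one] at h
    exact key i j hij (1 - v) (by linarith) (by linarith) h

theorem simple_rev (l : List V) (h : Simple l) : Simple l.reverse := by
  obtain ⟨h1, h2, h3⟩ := h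
  refine ⟨by simpa using h1, ?_, ?_⟩
  · rw [(edges_rev l).pairwise_iff (fun {_ _} hd => Disj.symm hd), List.pairwise_map]
    obtain ⟨p, m, rfl⟩ := List.exists_cons_of_ne_nil h1
    rw [List.pairwise_iff_getElem] at h2 ⊢
    have hlen : (edges (p :: m)).length = m.length + 1 := by rw [edges_length]; rfl
    obtain ⟨E, hE⟩ : ∃ E : Fin (m.length + 1) → V × V,
        ∀ i : Fin (m.length + 1), E i = (edges (p :: m))[(i : ℕ)]'(by rw [hlen]; exact i.2) :=
      ⟨fun i => (edges (p :: m))[(i : ℕ)]'(by rw [hlen]; exact i.2), fun _ => rfl⟩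
    intro i j hi hj hij
    have hc := core E (fun i => by
        rw [hE, hE]
        exact next p m i _ _)
      (fun i j hij => by
        rw [hE, hE]
        rcases lt_or_gt_of_ne (fun h => hij (Fin.ext h) : (i : ℕ) ≠ j) with h | h
        · exact h2 i j _ _ h
        · exact (h2 j i _ _ h).symm)
      (fun i => by
        rw [hE]
        exact h3 _ (List.getElem_mem _))
      ⟨i, by rw [← hlen]; exact hi⟩ ⟨j, by rw [← hlen]; exact hj⟩
      (fun h => by
        have := congrArg Fin.val h
        simp only at this
        omega)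
    rw [hE, hE] at hc
    exact hc
  · intro e he
    rw [(edges_rev l).mem_iff, List.mem_map] at he
    obtain ⟨f, hf, rfl⟩ := he
    exact (h3 f hf).symm

theorem simple_iff (l : List V) : Simple l ↔ Simple l.reverse := by
  refine ⟨simple_rev l, fun h => ?_⟩
  have := simple_rev _ h
  rwa [List.reverse_reverse] at this

theorem move_rev (hrot : S_rot) (hsub : S_sub) {l l' : List V} (h : Move l l') :
    Same l.reverse l'.reverse := by
  cases h with
  | iso k γ hc hs =>
    have h1 : ∀ f : Fin k → V, (List.ofFn f).reverse = List.ofFn (fun i => f (Fin.rev i)) := by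
      intro f
      apply List.ext_getElem
      · simp
      · intro i h1 h2
        rw [List.getElem_reverse, List.getElem_ofFn, List.getElem_ofFn]
        congr 1
        apply Fin.ext
        simp [Fin.rev]
        omega
    rw [h1, h1]
    apply Same.of_move
    refine Move.iso k (fun t i => γ t (Fin.rev i)) (fun i => hc (Fin.rev i)) ?_
    intro t ht0 ht1
    rw [← h1]
    exact simple_rev _ (hs t ht0 ht1)
  | rot p l hs =>
    have h1 := simple_rev _ hs
    rw [List.reverse_cons] at h1 ⊢
    rw [List.reverse_append, List.reverse_singleton]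
    exact (hrot l.reverse [p] h1).2
  | sub p l q s hs h0 h1 =>
    obtain ⟨L, hL⟩ : ∃ L, L = l.reverse := ⟨_, rfl⟩
    have e1 : (p :: l ++ [q]).reverse = (q :: L) ++ [p] := by
      rw [hL]
      simp
    have e2 : (p :: l ++ [q, lerp q p s]).reverse = (lerp q p s :: q :: L) ++ [p] := by
      rw [hL]
      simp
    have h2 := simple_rev _ hs
    rw [e1] at h2
    rw [e1, e2]
    obtain ⟨h3, h4⟩ := hrot (q :: L) [p] h2
    have h5 := hsub [] L p q [1 - s] (List.pairwise_singleton _ _) (by
      intro t ht
      rw [List.mem_singleton] at ht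
      subst ht
      constructor <;> linarith)
    have h6 : lerp p q (1 - s) = lerp q p s := (lerp_swap p q s).symm
    simp only [List.nil_append, List.map_cons, List.map_nil, h6, List.cons_append] at h5
    have h7 : Simple (p :: q :: L) := h3
    have h8 := h5.1.1 h7
    have h9 := h5.2 h7
    obtain ⟨_, h11⟩ := hrot [p] (lerp q p s :: q :: L) h8
    exact h4.trans (h9.trans h11)

end REV

theorem S_rev_proof (hrot : S_rot) (hsub : S_sub) : S_rev := by
  intro l l'
  refine ⟨REV.simple_iff l, fun h => ?_⟩
  induction h with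
  | rel x y hxy => exact REV.move_rev hrot hsub hxy
  | refl x => exact Same.refl _
  | symm x y _ ih => exact ih.symm
  | trans x y z _ _ ih1 ih2 => exact ih1.trans ih2

end KN
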