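import Pool.Agent.H246KN.Stubs

set_option autoImplicit false

namespace KN

open Finset Filter Topology
open scoped Classical

theorem S_root_proof : S_root := by
  intro x L hx hL hr
  -- differences of logarithms
  have h1 : Tendsto (fun k : ℕ => Real.log (x (k + 1)) - Real.log (x k)) atTop (𝓝 (Real.log L)) := by
    have h2 := ((Real.continuousAt_log hL.ne').tendsto).comp hr
    refine h2.congr' ?_
    have hx1 : ∀ᶠ k : ℕ in atTop, 0 < x (k + 1) := (tendsto_add_atTop_nat 1).eventually hx
    filter_upwards [hx, hx1] with k hk hk1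
    simp only [Function.comp]
    rw [Real.log_div hk1.ne' hk.ne']
  have h3 := h1.cesaro
  have h4 : ∀ n : ℕ, ∑ i ∈ range n, (Real.log (x (i + 1)) - Real.log (x i)) =
      Real.log (x n) - Real.log (x 0) := fun n => Finset.sum_range_sub (fun i => Real.log (x i)) n
  simp only [h4] at h3
  have h5 : Tendsto (fun n : ℕ => (n : ℝ)⁻¹ * Real.log (x 0)) atTop (𝓝 0) := by
    have := (tendsto_inv_atTop_nhds_zero_nat (𝕜 := ℝ)).mul_const (Real.log (x 0))
    simpa using this
  have h6 : Tendsto (fun n : ℕ => (n : ℝ)⁻¹ * Real.log (x n)) atTop (𝓝 (Real.log L)) := by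
    have := h3.add h5
    rw [add_zero] at this
    refine this.congr fun n => ?_
    ring
  have h7 : Tendsto (fun n : ℕ => Real.exp ((n : ℝ)⁻¹ * Real.log (x n) * (1 / 2))) atTop
      (𝓝 (Real.exp (Real.log L * (1 / 2)))) :=
    (Real.continuous_exp.tendsto _).comp (h6.mul_const (1 / 2))
  have e : Real.exp (Real.log L * (1 / 2)) = L ^ (1 / 2 : ℝ) := by
    rw [Real.rpow_def_of_pos hL]
  rw [e] at h7
  refine h7.congr' ?_
  filter_upwards [hx] with k hk
  rw [Real.rpow_def_of_pos hk]
  congr 1
  rw [one_div (2 * (k : ℝ)), mul_inv]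
  ring

end KN
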