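import Pool.Agent.H246KN.Stubs

set_option autoImplicit false

namespace KN

open Finset Filter Topology
open scoped Classical

namespace SAT

noncomputable section

def X (w : List Dir) (t : ℕ) : Z3 := pos (w.drop (w.length - t))
def bb (w : List Dir) (t : ℕ) : Dir := w.getD (w.length - t) .xp
def JJ (w : List Dir) (t : ℕ) : Finset Dir := Jc (w.drop (w.length - t))

theorem X_succ (w : List Dir) (t : ℕ) (h : t + 1 ≤ w.length) :
    X w (t + 1) = X w t + vec (bb w (t + 1)) := by
  unfold X bb
  rw [pos_drop w (w.length - (t + 1)) (by omega)]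
  have : w.length - (t + 1) + 1 = w.length - t := by omega
  rw [this]

theorem X_zero (w : List Dir) : X w 0 = 0 := by
  unfold X; simp [pos]

theorem X_inj (w : List Dir) (hw : SAP w) (s t : ℕ) (hs : s < w.length) (ht : t < w.length)
    (h : X w s = X w t) : s = t := by
  obtain ⟨h4, h0, hn⟩ := hw
  have hl : (path w).tail.length = w.length := by rw [List.length_tail, path_length]; omega
  have hg : ∀ i (hi : i < (path w).tail.length), (path w).tail[i] = pos (w.drop (i + 1)) := by
    intro i hi
    rw [List.getElem_tail]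
    exact path_getElem w (i + 1) _
  have hs' : w.length - s - 1 < (path w).tail.length := by rw [hl]; omega
  have ht' : w.length - t - 1 < (path w).tail.length := by rw [hl]; omega
  have e1 : (path w).tail[w.length - s - 1] = X w s := by
    rw [hg _ hs']; unfold X; congr 2; omega
  have e2 : (path w).tail[w.length - t - 1] = X w t := by
    rw [hg _ ht']; unfold X; congr 2; omega
  have := (hn.getElem_inj_iff (hi := hs') (hj := ht')).1 (by rw [e1, e2, h])
  omega

theorem mem_path' (w : List Dir) (hw : SAP w) (p : Z3) (h : p ∈ path w) :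
    ∃ t < w.length, p = X w t := by
  obtain ⟨h4, h0, hn⟩ := hw
  obtain ⟨i, hi, rfl⟩ := (mem_path_iff w p).1 h
  rcases Nat.eq_zero_or_pos i with rfl | hi0
  · exact ⟨0, by omega, by rw [X_zero, List.drop_zero, h0]⟩
  · refine ⟨w.length - i, by omega, ?_⟩
    unfold X
    congr 2
    omega

theorem mem_tail2 (u : List Dir) (p : Z3) :
    p ∈ (path u).tail.tail ↔ ∃ i, 2 ≤ i ∧ i ≤ u.length ∧ p = pos (u.drop i) := by
  match u with
  | [] =>
    simp only [path, List.tail_cons, List.tail_nil, List.not_mem_nil, List.length_nil, false_iff]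
    rintro ⟨i, h1, h2, -⟩
    omega
  | [d] =>
    simp only [path, List.tail_cons, List.not_mem_nil, List.length_cons,
      List.length_nil, false_iff]
    rintro ⟨i, h1, h2, -⟩
    omega
  | d :: e :: u =>
    simp only [path, List.tail_cons]
    rw [mem_path_iff]
    constructor
    · rintro ⟨i, hi, rfl⟩
      exact ⟨i + 2, by omega, by simpa using hi, by simp⟩
    · rintro ⟨i, h2, hi, rfl⟩
      obtain ⟨j, rfl⟩ := Nat.exists_eq_add_of_le' h2
      exact ⟨j, by simpa using hi, by simp⟩

theorem mem_J (w : List Dir) (t : ℕ) (ht : t ≤ w.length) (v : Dir) :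
    v ∈ JJ w t ↔ ∃ s, s + 2 ≤ t ∧ X w t + vec v = X w s := by
  unfold JJ Jc
  simp only [mem_filter, mem_univ, true_and]
  rw [mem_tail2]
  have hl : (w.drop (w.length - t)).length = t := by rw [List.length_drop]; omega
  rw [hl]
  constructor
  · rintro ⟨i, h2, hi, h⟩
    refine ⟨t - i, by omega, ?_⟩
    unfold X
    rw [h, List.drop_drop]
    congr 2
    omega
  · rintro ⟨s, hs, h⟩
    refine ⟨t - s, by omega, by omega, ?_⟩
    unfold X at h
    rw [h, List.drop_drop]
    congr 2
    omega

theorem J_empty (w : List Dir) (t : ℕ) (ht : t ≤ w.length) (h : t < 2) : JJ w t = ∅ := by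
  rw [Finset.eq_empty_iff_forall_notMem]
  intro v hv
  obtain ⟨s, hs, -⟩ := (mem_J w t ht v).1 hv
  omega

theorem drop_bb (w : List Dir) (t : ℕ) (ht : t + 1 ≤ w.length) :
    w.drop (w.length - (t + 1)) = bb w (t + 1) :: w.drop (w.length - t) := by
  rw [drop_eq_getD_cons w _ (by omega)]
  unfold bb
  congr 2
  omega

theorem ex_eq (w : List Dir) (k : ℕ) (hk : k + 2 ≤ w.length) :
    ex (w.drop (w.length - (k + 1))) (bb w (k + 2)) =
      e0 (bb w k) (bb w (k + 1)) (JJ w (k + 1)) (JJ w k) (bb w (k + 2)) := by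
  unfold ex
  have h1 : (w.drop (w.length - (k + 1))).getD 0 .xp = bb w (k + 1) := by
    rw [drop_bb w k (by omega)]; rfl
  have h2 : Jc (w.drop (w.length - (k + 1))).tail = JJ w k := by
    rw [drop_bb w k (by omega)]; rfl
  have h3 : Jc (w.drop (w.length - (k + 1))) = JJ w (k + 1) := rfl
  rw [h1, h2, h3]
  cases k with
  | zero =>
    have : JJ w (0 + 1) = ∅ := J_empty w 1 (by omega) (by omega)
    rw [this]
    unfold e0
    simp
  | succ k =>
    have h4 : (w.drop (w.length - (k + 1 + 1))).getD 1 (bb w (k + 1 + 1)) = bb w (k + 1) := by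
      rw [drop_bb w (k + 1) (by omega), drop_bb w k (by omega)]; rfl
    rw [h4]

theorem Gx_sum (w : List Dir) (m : ℕ) (hm : m + 2 ≤ w.length) :
    Gx (w.drop (w.length - (m + 2))) = ∑ k ∈ range (m + 1),
      e0 (bb w k) (bb w (k + 1)) (JJ w (k + 1)) (JJ w k) (bb w (k + 2)) := by
  induction m with
  | zero =>
    rw [Finset.sum_range_one, ← ex_eq w 0 (by omega), drop_bb w (0 + 1) (by omega),
      drop_bb w 0 (by omega)]
    simp [Gx]
  | succ m ih =>
    rw [Finset.sum_range_succ, ← ih (by omega), ← ex_eq w (m + 1) (by omega)]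
    rw [drop_bb w (m + 1 + 1) (by omega), drop_bb w (m + 1) (by omega)]
    rfl

/-- the number of later neighbours -/
def f (w : List Dir) (r : ℕ) : ℕ :=
  ((range w.length).filter (fun s => r + 2 ≤ s ∧ ∃ v, X w s + vec v = X w r)).card

def g (w : List Dir) (s : ℕ) : ℕ :=
  ((range w.length).filter (fun r => r + 2 ≤ s ∧ ∃ v, X w s + vec v = X w r)).card

theorem sum_f (w : List Dir) : ∑ r ∈ range w.length, f w r = ∑ s ∈ range w.length, g w s :=
  Finset.sum_card_bipartiteAbove_eq_sum_card_bipartiteBelow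
    (fun r s => r + 2 ≤ s ∧ ∃ v, X w s + vec v = X w r)

theorem g_le (w : List Dir) (hw : SAP w) (s : ℕ) (hs : s < w.length) :
    g w s ≤ (JJ w s).card := by
  unfold g
  apply Finset.card_le_card_of_forall_subsingleton (fun r v => X w s + vec v = X w r)
  · intro r hr
    obtain ⟨hr, h2, v, hv⟩ := Finset.mem_filter.1 hr
    exact ⟨v, (mem_J w s hs.le v).2 ⟨r, h2, hv⟩, hv⟩
  · rintro v hv r ⟨hr, h1⟩ r' ⟨hr', h1'⟩
    obtain ⟨hr, -⟩ := Finset.mem_filter.1 hr
    obtain ⟨hr', -⟩ := Finset.mem_filter.1 hr'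
    exact X_inj w hw r r' (mem_range.1 hr) (mem_range.1 hr') (by rw [← h1, ← h1'])

def L (w : List Dir) (r : ℕ) : Finset Dir :=
  univ.filter (fun d => ∃ s, r + 2 ≤ s ∧ s < w.length ∧ X w r + vec d = X w s)

theorem L_le (w : List Dir) (r : ℕ) : (L w r).card ≤ f w r := by
  unfold L f
  apply Finset.card_le_card_of_forall_subsingleton (fun d s => X w r + vec d = X w s)
  · intro d hd
    obtain ⟨-, s, h1, h2, h3⟩ := Finset.mem_filter.1 hd
    refine ⟨s, ?_, h3⟩
    rw [Finset.mem_filter, Finset.mem_range]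
    refine ⟨h2, h1, neg d, ?_⟩
    rw [vec_neg, ← h3]
    abel
  · rintro s hs d ⟨hd, h1⟩ d' ⟨hd', h1'⟩
    exact vec_inj (add_left_cancel (h1.trans h1'.symm))

theorem cardA : ∀ a b c : Dir, (4 : ℤ) - (if perp b a then 1 else 0) - (if perp c b then 1 else 0) ≤
    (((univ : Finset Dir).filter (fun d => perp d b ∧ d ≠ neg a ∧ d ≠ c)).card : ℤ) := by
  decide

theorem local_ineq (w : List Dir) (hw : SAP w) (m : ℕ) (hm : m + 4 ≤ w.length) :
    (4 : ℤ) - (if perp (bb w (m + 2)) (bb w (m + 1)) then 1 else 0) -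
        (if perp (bb w (m + 3)) (bb w (m + 2)) then 1 else 0) ≤
      (((univ : Finset Dir).filter (fun d => site w (w.length - (m + 2)) d)).card : ℤ) +
      (((JJ w (m + 1)).filter (fun j => perp j (bb w (m + 2)))).card : ℤ) -
      (if perp (bb w (m + 3)) (bb w (m + 2)) ∧ bb w (m + 3) ∈ JJ w (m + 1) then 1 else 0) +
      (((JJ w (m + 2)).filter
        (fun j => perp j (bb w (m + 2)) ∧ j ≠ neg (bb w (m + 1)))).card : ℤ) +
      f w (m + 1) + f w (m + 2) := by
  have hA := cardA (bb w (m + 1)) (bb w (m + 2)) (bb w (m + 3))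
  have hsub : (univ : Finset Dir).filter (fun d => perp d (bb w (m + 2)) ∧
      d ≠ neg (bb w (m + 1)) ∧ d ≠ bb w (m + 3)) ⊆
      (((univ.filter (fun d => site w (w.length - (m + 2)) d)) ∪
        ((JJ w (m + 1)).filter (fun j => perp j (bb w (m + 2)))).erase (bb w (m + 3))) ∪
        ((JJ w (m + 2)).filter (fun j => perp j (bb w (m + 2)) ∧ j ≠ neg (bb w (m + 1))))) ∪
        (L w (m + 1) ∪ L w (m + 2)) := by
    intro d hd
    obtain ⟨-, hp, hn, hc⟩ := Finset.mem_filter.1 hd
    have hX1 : X w (m + 1) = X w m + vec (bb w (m + 1)) := X_succ w m (by omega)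
    have hX2 : X w (m + 2) = X w (m + 1) + vec (bb w (m + 2)) := X_succ w (m + 1) (by omega)
    have hX3 : X w (m + 3) = X w (m + 2) + vec (bb w (m + 3)) := X_succ w (m + 2) (by omega)
    have hd0 : ∀ p : Z3, p + vec d ≠ p := by
      intro p h
      have : vec d = 0 := by simpa using h
      revert this
      cases d <;> decide
    simp only [Finset.mem_union, Finset.mem_erase, Finset.mem_filter, Finset.mem_univ, true_and]
    by_cases h1 : X w (m + 1) + vec d ∈ path w
    · obtain ⟨s, hs, hsX⟩ := mem_path' w hw _ h1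
      rcases lt_trichotomy s (m + 1) with hlt | heq | hgt
      · rcases Nat.lt_or_ge s m with hlt' | hge'
        · left; left; right
          exact ⟨hc, (mem_J w (m + 1) (by omega) d).2 ⟨s, by omega, hsX⟩, hp⟩
        · exfalso
          have : s = m := by omega
          subst this
          apply hn
          apply vec_inj
          rw [vec_neg]
          rw [hX1, add_assoc] at hsX
          have h0 : vec (bb w (s + 1)) + vec d = 0 := by simpa using hsX
          rw [eq_neg_iff_add_eq_zero, add_comm]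
          exact h0
      · subst heq
        exact absurd hsX (hd0 _)
      · rcases Nat.lt_or_ge (m + 2) s with h2 | h2
        · right; left
          unfold L
          rw [Finset.mem_filter]
          exact ⟨Finset.mem_univ _, s, by omega, hs, hsX⟩
        · exfalso
          have : s = m + 2 := by omega
          subst this
          rw [hX2] at hsX
          have : d = bb w (m + 2) := vec_inj (add_left_cancel hsX)
          rw [this] at hp
          exact hp rfl
    · by_cases h2 : X w (m + 2) + vec d ∈ path w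
      · obtain ⟨s, hs, hsX⟩ := mem_path' w hw _ h2
        rcases lt_trichotomy s (m + 2) with hlt | heq | hgt
        · rcases Nat.lt_or_ge s (m + 1) with hlt' | hge'
          · left; right
            exact ⟨(mem_J w (m + 2) (by omega) d).2 ⟨s, by omega, hsX⟩, hp, hn⟩
          · exfalso
            have : s = m + 1 := by omega
            subst this
            rw [hX2, add_assoc] at hsX
            have h0 : vec (bb w (m + 2)) + vec d = 0 := by simpa using hsX
            have : d = neg (bb w (m + 2)) := by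
              apply vec_inj
              rw [vec_neg, eq_neg_iff_add_eq_zero, add_comm]
              exact h0
            rw [this] at hp
            revert hp
            generalize bb w (m + 2) = e
            cases e <;> decide
        · subst heq
          exact absurd hsX (hd0 _)
        · rcases Nat.lt_or_ge (m + 3) s with h3 | h3
          · right; right
            unfold L
            rw [Finset.mem_filter]
            exact ⟨Finset.mem_univ _, s, by omega, hs, hsX⟩
          · exfalso
            have : s = m + 3 := by omega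
            subst this
            rw [hX3] at hsX
            exact hc (vec_inj (add_left_cancel hsX))
      · left; left; left
        refine ⟨by omega, hp, ?_, ?_⟩
        · have : w.length - (m + 2) + 1 = w.length - (m + 1) := by omega
          rw [this]
          exact h1
        · have : w.length - (m + 2) + 1 = w.length - (m + 1) := by omega
          rw [this]
          have e : pos (w.drop (w.length - (m + 1))) + vec d +
              vec (w.getD (w.length - (m + 2)) .xp) = X w (m + 2) + vec d := by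
            rw [hX2]
            show X w (m + 1) + vec d + vec (bb w (m + 2)) = _
            abel
          rw [e]
          exact h2
  have hcard := Finset.card_le_card hsub
  have u1 := Finset.card_union_le (((univ.filter (fun d => site w (w.length - (m + 2)) d)) ∪
        ((JJ w (m + 1)).filter (fun j => perp j (bb w (m + 2)))).erase (bb w (m + 3))) ∪
        ((JJ w (m + 2)).filter (fun j => perp j (bb w (m + 2)) ∧ j ≠ neg (bb w (m + 1)))))
        (L w (m + 1) ∪ L w (m + 2))
  have u2 := Finset.card_union_le ((univ.filter (fun d => site w (w.length - (m + 2)) d)) ∪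
        ((JJ w (m + 1)).filter (fun j => perp j (bb w (m + 2)))).erase (bb w (m + 3)))
        ((JJ w (m + 2)).filter (fun j => perp j (bb w (m + 2)) ∧ j ≠ neg (bb w (m + 1))))
  have u3 := Finset.card_union_le (univ.filter (fun d => site w (w.length - (m + 2)) d))
        (((JJ w (m + 1)).filter (fun j => perp j (bb w (m + 2)))).erase (bb w (m + 3)))
  have u4 := Finset.card_union_le (L w (m + 1)) (L w (m + 2))
  have u5 := L_le w (m + 1)
  have u6 := L_le w (m + 2)
  have u7 : ((((JJ w (m + 1)).filter (fun j => perp j (bb w (m + 2)))).erase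
      (bb w (m + 3))).card : ℤ) =
      (((JJ w (m + 1)).filter (fun j => perp j (bb w (m + 2)))).card : ℤ) -
      (if perp (bb w (m + 3)) (bb w (m + 2)) ∧ bb w (m + 3) ∈ JJ w (m + 1) then 1 else 0) := by
    by_cases h : perp (bb w (m + 3)) (bb w (m + 2)) ∧ bb w (m + 3) ∈ JJ w (m + 1)
    · rw [if_pos h]
      have hmem : bb w (m + 3) ∈ (JJ w (m + 1)).filter (fun j => perp j (bb w (m + 2))) :=
        Finset.mem_filter.2 ⟨h.2, h.1⟩
      have := Finset.card_erase_add_one hmem
      omega
    · rw [if_neg h, Finset.erase_eq_of_notMem]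
      · simp
      · intro hmem
        obtain ⟨h1, h2⟩ := Finset.mem_filter.1 hmem
        exact h ⟨h2, h1⟩
  omega

theorem fr_ge (w : List Dir) (N : ℕ) (hN : w.length = N + 3) :
    ∑ m ∈ range N, ((univ : Finset Dir).filter (fun d => site w (w.length - (m + 2)) d)).card ≤
      fr w := by
  rw [← Finset.card_sigma]
  unfold fr
  apply Finset.card_le_card_of_injOn (fun q => (w.length - (q.1 + 2), q.2))
  · rintro ⟨m, d⟩ hq
    have hq' := Finset.mem_sigma.1 (Finset.mem_coe.1 hq)
    rw [Finset.mem_coe, mem_sites]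
    exact (Finset.mem_filter.1 hq'.2).2
  · rintro ⟨m, d⟩ hq ⟨m', d'⟩ hq' h
    have h1 := (Finset.mem_sigma.1 (Finset.mem_coe.1 hq)).1
    have h1' := (Finset.mem_sigma.1 (Finset.mem_coe.1 hq')).1
    have h2 : w.length - (m + 2) = w.length - (m' + 2) := congrArg Prod.fst h
    have h3 : d = d' := congrArg Prod.snd h
    have h4 := Finset.mem_range.1 h1
    have h4' := Finset.mem_range.1 h1'
    dsimp only at h4 h4'
    have : m = m' := by omega
    subst this h3
    rfl

end

end SAT

/-- E4c: few free plaquettes force a large exponent -/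
theorem S_sat_proof : S_sat := by
  intro w hw
  obtain ⟨h4, -, -⟩ := id hw
  obtain ⟨N, hN⟩ : ∃ N, w.length = N + 3 := ⟨w.length - 3, by omega⟩
  have htail : w.tail = w.drop (w.length - (N + 2)) := by
    rw [← List.drop_one]; congr 1; omega
  rw [htail, SAT.Gx_sum w N (by omega)]
  have hfr := SAT.fr_ge w N hN
  -- abbreviations
  set T : ℕ → ℤ := fun m => if perp (SAT.bb w (m + 2)) (SAT.bb w (m + 1)) then 1 else 0 with hT
  set c : ℕ → ℤ := fun m => if perp (SAT.bb w (m + 2)) (SAT.bb w (m + 1)) ∧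
    SAT.bb w (m + 2) ∈ SAT.JJ w m then 1 else 0 with hc
  set P : ℕ → ℤ := fun m =>
    (((SAT.JJ w (m + 1)).filter (fun j => perp j (SAT.bb w (m + 2)))).card : ℤ) with hP
  set Q : ℕ → ℤ := fun m => (((SAT.JJ w (m + 1)).filter
    (fun j => perp j (SAT.bb w (m + 1)) ∧ j ≠ neg (SAT.bb w m))).card : ℤ) with hQ
  set j : ℕ → ℤ := fun m => ((SAT.JJ w m).card : ℤ) with hj
  set F : ℕ → ℤ := fun m =>
    (((univ : Finset Dir).filter (fun d => site w (w.length - (m + 2)) d)).card : ℤ) with hF
  have hfr' : ∑ m ∈ range N, F m ≤ fr w := by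
    have : ((∑ m ∈ range N, ((univ : Finset Dir).filter
      (fun d => site w (w.length - (m + 2)) d)).card : ℕ) : ℤ) ≤ (fr w : ℤ) := by exact_mod_cast hfr
    rw [Nat.cast_sum] at this
    exact this
  have hloc : ∀ m ∈ range N, 4 - T m - T (m + 1) ≤ F m + P m - c (m + 1) + Q (m + 1) +
      SAT.f w (m + 1) + SAT.f w (m + 2) := by
    intro m hm
    have hm' := Finset.mem_range.1 hm
    exact SAT.local_ineq w hw m (by omega)
  have hsum := Finset.sum_le_sum hloc
  have he : ∀ k ∈ range (N + 1), e0 (SAT.bb w k) (SAT.bb w (k + 1)) (SAT.JJ w (k + 1))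
      (SAT.JJ w k) (SAT.bb w (k + 2)) = 2 * j (k + 1) + Q k - 4 + 2 * T k + P k - c k := by
    intro k _
    unfold e0
    simp only [hT, hc, hP, hQ, hj]
    by_cases h : perp (SAT.bb w (k + 2)) (SAT.bb w (k + 1))
    · rw [if_pos h, if_pos h]; ring
    · rw [if_neg h, if_neg h]; ring
  rw [Finset.sum_congr rfl he]
  simp only [Finset.sum_add_distrib, Finset.sum_sub_distrib, Finset.sum_const, Finset.card_range,
    nsmul_eq_mul] at hsum ⊢
  -- the late contacts
  have hN' : ∑ r ∈ range w.length, ((SAT.f w r : ℕ) : ℤ) ≤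
      ∑ s ∈ range w.length, j s := by
    have h1 := SAT.sum_f w
    have h2 : ∑ s ∈ range w.length, SAT.g w s ≤ ∑ s ∈ range w.length, (SAT.JJ w s).card :=
      Finset.sum_le_sum fun s hs => SAT.g_le w hw s (Finset.mem_range.1 hs)
    rw [← h1] at h2
    simp only [hj]
    exact_mod_cast h2
  have hjtot : ∑ s ∈ range w.length, j s ≤ ∑ m ∈ range (N + 1), j (m + 1) + 6 := by
    rw [hN]
    have e1 : ∑ s ∈ range (N + 3), j s = ∑ m ∈ range (N + 2), j (m + 1) + j 0 :=
      Finset.sum_range_succ' j (N + 2)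
    have e2 : ∑ m ∈ range (N + 2), j (m + 1) = ∑ m ∈ range (N + 1), j (m + 1) + j (N + 1 + 1) :=
      Finset.sum_range_succ (fun m => j (m + 1)) (N + 1)
    have e3 : j 0 = 0 := by
      simp only [hj]
      rw [SAT.J_empty w 0 (by omega) (by omega)]
      simp
    have e4 : j (N + 1 + 1) ≤ 6 := by
      simp only [hj]
      have := Finset.card_le_univ (SAT.JJ w (N + 1 + 1))
      have h6 : Fintype.card Dir = 6 := by decide
      rw [h6] at this
      exact_mod_cast this
    linarith
  have hf1 : ∑ m ∈ range N, ((SAT.f w (m + 1) : ℕ) : ℤ) ≤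
      ∑ r ∈ range w.length, ((SAT.f w r : ℕ) : ℤ) := by
    have e1 : ∑ r ∈ range (N + 1), ((SAT.f w r : ℕ) : ℤ) =
      ∑ m ∈ range N, ((SAT.f w (m + 1) : ℕ) : ℤ) + ((SAT.f w 0 : ℕ) : ℤ) :=
      Finset.sum_range_succ' (fun r => ((SAT.f w r : ℕ) : ℤ)) N
    have e2 : ∑ r ∈ range (N + 1), ((SAT.f w r : ℕ) : ℤ) ≤
        ∑ r ∈ range w.length, ((SAT.f w r : ℕ) : ℤ) :=
      Finset.sum_le_sum_of_subset_of_nonneg (Finset.range_subset_range.2 (by omega))
        (fun _ _ _ => by positivity)
    have e3 : (0 : ℤ) ≤ ((SAT.f w 0 : ℕ) : ℤ) := by positivity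
    linarith
  have hf2 : ∑ m ∈ range N, ((SAT.f w (m + 2) : ℕ) : ℤ) ≤
      ∑ r ∈ range w.length, ((SAT.f w r : ℕ) : ℤ) := by
    have e0 : ∑ r ∈ range (N + 1 + 1), ((SAT.f w r : ℕ) : ℤ) =
      ∑ m ∈ range (N + 1), ((SAT.f w (m + 1) : ℕ) : ℤ) + ((SAT.f w 0 : ℕ) : ℤ) :=
      Finset.sum_range_succ' (fun r => ((SAT.f w r : ℕ) : ℤ)) (N + 1)
    have e1 : ∑ r ∈ range (N + 1), ((SAT.f w (r + 1) : ℕ) : ℤ) =
      ∑ m ∈ range N, ((SAT.f w (m + 1 + 1) : ℕ) : ℤ) + ((SAT.f w (0 + 1) : ℕ) : ℤ) :=
      Finset.sum_range_succ' (fun r => ((SAT.f w (r + 1) : ℕ) : ℤ)) N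
    have e2 : ∑ r ∈ range (N + 1 + 1), ((SAT.f w r : ℕ) : ℤ) ≤
        ∑ r ∈ range w.length, ((SAT.f w r : ℕ) : ℤ) :=
      Finset.sum_le_sum_of_subset_of_nonneg (Finset.range_subset_range.2 (by omega))
        (fun _ _ _ => by positivity)
    have e3 : (0 : ℤ) ≤ ((SAT.f w 0 : ℕ) : ℤ) := by positivity
    have e4 : (0 : ℤ) ≤ ((SAT.f w (0 + 1) : ℕ) : ℤ) := by positivity
    have e5 : ∑ m ∈ range N, ((SAT.f w (m + 2) : ℕ) : ℤ) =
      ∑ m ∈ range N, ((SAT.f w (m + 1 + 1) : ℕ) : ℤ) := rfl
    linarith
  -- shifts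
  have sQ : ∑ k ∈ range (N + 1), Q k = ∑ m ∈ range N, Q (m + 1) + Q 0 :=
    Finset.sum_range_succ' Q N
  have sc : ∑ k ∈ range (N + 1), c k = ∑ m ∈ range N, c (m + 1) + c 0 :=
    Finset.sum_range_succ' c N
  have sP : ∑ k ∈ range (N + 1), P k = ∑ m ∈ range N, P m + P N := Finset.sum_range_succ P N
  have sT1 : ∑ k ∈ range (N + 1), T k = ∑ m ∈ range N, T m + T N := Finset.sum_range_succ T N
  have sT2 : ∑ k ∈ range (N + 1), T k = ∑ m ∈ range N, T (m + 1) + T 0 :=
    Finset.sum_range_succ' T N
  have c0 : c 0 = 0 := by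
    simp only [hc]
    rw [SAT.J_empty w 0 (by omega) (by omega)]
    simp
  have Q0 : 0 ≤ Q 0 := by simp only [hQ]; positivity
  have PN : 0 ≤ P N := by simp only [hP]; positivity
  have TN : 0 ≤ T N := by simp only [hT]; split_ifs <;> norm_num
  have T0 : 0 ≤ T 0 := by simp only [hT]; split_ifs <;> norm_num
  have m1 : ∑ k ∈ range (N + 1), 2 * j (k + 1) = 2 * ∑ k ∈ range (N + 1), j (k + 1) := by
    rw [Finset.mul_sum]
  have m2 : ∑ k ∈ range (N + 1), 2 * T k = 2 * ∑ k ∈ range (N + 1), T k := by
    rw [Finset.mul_sum]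
  rw [m1, m2]
  push_cast
  linarith

end KN
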