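import Pool.Agent.H246KN.Stubs

/-!
# SHA: the small copy of the left polygon is a bead
-/

set_option autoImplicit false

namespace KN

open Finset Filter Topology
open scoped Classical

namespace SHA

theorem chain_mem (p : V) (l : List V) : ∀ e ∈ chain p l, e.1 ∈ p :: l ∧ e.2 ∈ l := by
  induction l generalizing p with
  | nil => intro e he; simp [chain] at he
  | cons q l ih =>
    intro e he
    simp only [chain, List.mem_cons] at he
    rcases he with rfl | he
    · simp
    · obtain ⟨h1, h2⟩ := ih q e he
      exact ⟨List.mem_cons_of_mem _ h1, List.mem_cons_of_mem _ h2⟩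

/-- the affine map -/
noncomputable def A (s : ℝ) (p : V) : V := loc (Ts s p)

theorem A_eq (s : ℝ) (p : V) :
    A s p = (1 / 2 + s * (p.2.2 - 1 / 2), s * (1 - p.1), -(s * p.2.1)) := by
  have : 1 - (1 + s * (p.1 - 1)) = s * (1 - p.1) := by ring
  simp only [A, loc, Ts, this]

theorem A_lerp (s : ℝ) (p q : V) (u : ℝ) : lerp (A s p) (A s q) u = A s (lerp p q u) := by
  rw [A_eq, A_eq, A_eq]
  simp only [lerp, Prod.smul_mk, Prod.mk_add_mk, smul_eq_mul, Prod.fst_add, Prod.smul_fst,
    Prod.snd_add, Prod.smul_snd]
  refine Prod.ext ?_ (Prod.ext ?_ ?_)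
  · simp only; ring
  · simp only; ring
  · simp only; ring

theorem A_inj {s : ℝ} (hs : 0 < s) {p q : V} (h : A s p = A s q) : p = q := by
  rw [A_eq, A_eq] at h
  simp only [Prod.mk.injEq] at h
  obtain ⟨h1, h2, h3⟩ := h
  have e1 : p.2.2 = q.2.2 := by
    have : s * (p.2.2 - 1 / 2) = s * (q.2.2 - 1 / 2) := by linarith
    have := mul_left_cancel₀ hs.ne' this
    linarith
  have e2 : p.1 = q.1 := by
    have := mul_left_cancel₀ hs.ne' h2
    linarith
  have e3 : p.2.1 = q.2.1 := by
    have : s * p.2.1 = s * q.2.1 := by linarith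
    exact mul_left_cancel₀ hs.ne' this
  exact Prod.ext e2 (Prod.ext e3 e1)

theorem exists_bound (l : List V) : ∃ M : ℝ, 1 ≤ M ∧ ∀ p ∈ l, |p.1| ≤ M ∧ |p.2.1| ≤ M ∧
    |p.2.2 - 1 / 2| ≤ M := by
  induction l with
  | nil => exact ⟨1, le_refl _, by simp⟩
  | cons q l ih =>
    obtain ⟨M, hM, h⟩ := ih
    refine ⟨max M (max |q.1| (max |q.2.1| |q.2.2 - 1 / 2|)), le_trans hM (le_max_left _ _), ?_⟩
    intro p hp
    rcases List.mem_cons.mp hp with rfl | hp
    · exact ⟨le_trans (le_max_left _ _) (le_max_right _ _),
        le_trans (le_trans (le_max_left _ _) (le_max_right _ _)) (le_max_right _ _),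
        le_trans (le_trans (le_max_right _ _) (le_max_right _ _)) (le_max_right _ _)⟩
    · obtain ⟨h1, h2, h3⟩ := h p hp
      exact ⟨le_trans h1 (le_max_left _ _), le_trans h2 (le_max_left _ _),
        le_trans h3 (le_max_left _ _)⟩

theorem lerp1 (p q : V) (u : ℝ) : (lerp p q u).1 = (1 - u) * p.1 + u * q.1 := by
  simp [lerp]

theorem lerp2 (p q : V) (u : ℝ) : (lerp p q u).2.1 = (1 - u) * p.2.1 + u * q.2.1 := by
  simp [lerp]

theorem lerp3 (p q : V) (u : ℝ) : (lerp p q u).2.2 = (1 - u) * p.2.2 + u * q.2.2 := by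
  simp [lerp]

end SHA

open SHA in
theorem S_shA_proof : S_shA := by
  rintro lw ⟨hS, hX, hhead, hlast⟩
  obtain ⟨M, hM, hb⟩ := exists_bound lw
  -- shape of the list
  obtain ⟨l', rfl⟩ : ∃ l', lw = (0, 0, 0) :: l' := by
    cases lw with
    | nil => simp at hhead
    | cons p l =>
      simp only [List.head?_cons, Option.some.injEq] at hhead
      exact ⟨l, by rw [hhead]⟩
  obtain ⟨l'', rfl⟩ : ∃ l'', l' = l'' ++ [((0, 0, 1) : V)] := by
    rcases List.eq_nil_or_concat l' with rfl | ⟨l2, b, rfl⟩
    · simp at hlast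
    · refine ⟨l2, ?_⟩
      rw [List.concat_eq_append, ← List.cons_append, List.getLast?_append] at hlast
      simp only [List.getLast?_singleton, Option.some_or, Option.some.injEq] at hlast
      rw [List.concat_eq_append, hlast]
  have hM4 : 0 < 4 * (M + 1) := by linarith
  set s : ℝ := 1 / (4 * (M + 1)) with hs
  have hs0 : 0 < s := by positivity
  have hsM : s * (M + 1) = 1 / 4 := by rw [hs]; field_simp
  have hs8 : s ≤ 1 / 8 := by nlinarith
  have hE : edges ((0, 0, 0) :: (l'' ++ [((0, 0, 1) : V)])) =
      chain (0, 0, 0) (l'' ++ [((0, 0, 1) : V)]) ++ [((0, 0, 1), (0, 0, 0))] := by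
    rw [edges, List.append_assoc, List.singleton_append, chain_append]
    rfl
  obtain ⟨_, hD, hN⟩ := hS
  rw [hE] at hD hN
  set C0 := chain (0, 0, 0) (l'' ++ [((0, 0, 1) : V)]) with hC0
  rw [List.pairwise_append] at hD
  obtain ⟨hD1, _, hD2⟩ := hD
  -- points of the edges of the polygon
  have hpt : ∀ e ∈ C0, ∀ u : ℝ, 0 ≤ u → u < 1 → (lerp e.1 e.2 u).1 ≤ 0 := by
    intro e he u hu0 hu1
    obtain ⟨h1, h2⟩ := chain_mem _ _ e he
    have h3 := hX _ h1
    have h4 := hX _ (List.mem_cons_of_mem _ h2)
    rw [lerp1]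
    nlinarith
  have hchain : chain 0 (bd s ((0, 0, 0) :: (l'' ++ [((0, 0, 1) : V)])) ++ [((1, 0, 0) : V)]) =
      (0, A s (1, 0, 0)) :: (A s (1, 0, 0), A s (0, 0, 0)) ::
        (C0.map (fun e => (A s e.1, A s e.2)) ++
          [(A s (0, 0, 1), A s (1, 0, 1)), (A s (1, 0, 1), (1, 0, 0))]) := by
    have h1 : bd s ((0, 0, 0) :: (l'' ++ [((0, 0, 1) : V)])) ++ [((1, 0, 0) : V)] =
        A s (1, 0, 0) :: A s (0, 0, 0) :: ((l''.map (A s)) ++ A s (0, 0, 1) ::
          [A s (1, 0, 1), (1, 0, 0)]) := by
      simp [bd, A, Function.comp_def]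
    rw [h1]
    simp only [chain]
    rw [chain_append, hC0, ← chain_map]
    simp [chain]
  have hg : A s (1, 0, 0) = (1 / 2 - s / 2, 0, 0) := by
    rw [A_eq]
    refine Prod.ext ?_ (Prod.ext ?_ ?_)
    · simp only; ring
    · simp
    · simp
  have hh : A s (1, 0, 1) = (1 / 2 + s / 2, 0, 0) := by
    rw [A_eq]
    refine Prod.ext ?_ (Prod.ext ?_ ?_)
    · simp only; ring
    · simp
    · simp
  have h0 : A s (0, 0, 0) = (1 / 2 - s / 2, s, 0) := by
    rw [A_eq]
    refine Prod.ext ?_ (Prod.ext ?_ ?_)
    · simp only; ring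
    · simp
    · simp
  have h1 : A s (0, 0, 1) = (1 / 2 + s / 2, s, 0) := by
    rw [A_eq]
    refine Prod.ext ?_ (Prod.ext ?_ ?_)
    · simp only; ring
    · simp
    · simp
  -- second coordinate of the points of the image
  have hpy : ∀ e ∈ C0, ∀ u : ℝ, 0 ≤ u → u < 1 → s ≤ (lerp (A s e.1) (A s e.2) u).2.1 := by
    intro e he u hu0 hu1
    have h3 := hpt e he u hu0 hu1
    rw [A_lerp, A_eq]
    simp only
    nlinarith
  refine ⟨s, 4, hs0, by linarith, ?_, ?_, ?_, ?_, ?_, ?_⟩
  · simp [bd]
  · -- the cone
    intro p hp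
    have hp' : ∃ q : V, p = A s q ∧ q.1 ≤ 1 ∧ |q.1| ≤ M ∧ |q.2.1| ≤ M ∧ |q.2.2 - 1 / 2| ≤ M := by
      simp only [bd, List.mem_map, List.mem_append, List.mem_cons, List.not_mem_nil,
        or_false] at hp
      obtain ⟨a, ha, rfl⟩ := hp
      rcases ha with (rfl | ⟨q, hq, rfl⟩) | rfl
      · refine ⟨(1, 0, 0), rfl, by norm_num, ?_, ?_, ?_⟩
        · simpa using hM
        · simp; linarith
        · norm_num [abs_of_neg]; linarith
      · have hq' : q ∈ (0, 0, 0) :: (l'' ++ [((0, 0, 1) : V)]) := by
          simpa using hq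
        obtain ⟨b1, b2, b3⟩ := hb q hq'
        exact ⟨q, rfl, le_trans (hX q hq') zero_le_one, b1, b2, b3⟩
      · refine ⟨(1, 0, 1), rfl, by norm_num, ?_, ?_, ?_⟩
        · simpa using hM
        · simp; linarith
        · norm_num; linarith
    obtain ⟨q, rfl, hq1, b1, b2, b3⟩ := hp'
    rw [A_eq]
    simp only
    have c1 := abs_le.mp b1
    have c2 := abs_le.mp b2
    have c3 := abs_le.mp b3
    have hsM' : s * M ≤ 1 / 4 := by nlinarith
    have d1 : s * (q.2.2 - 1 / 2) ≤ 1 / 4 := by nlinarith
    have d2 : -(1 / 4) ≤ s * (q.2.2 - 1 / 2) := by nlinarith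
    have hmin : 1 / 4 ≤ min (1 / 2 + s * (q.2.2 - 1 / 2)) (1 - (1 / 2 + s * (q.2.2 - 1 / 2))) :=
      le_min (by linarith) (by linarith)
    refine ⟨by linarith, by linarith, by simp only; linarith, by simp only; linarith, ?_, ?_⟩
    · simp only
      rw [abs_le]
      constructor <;> nlinarith
    · simp only
      rw [abs_le]
      constructor <;> nlinarith
  · -- disjointness
    rw [hchain, hg, hh, h0, h1]
    simp only [List.pairwise_cons, List.pairwise_append, List.mem_append, List.mem_cons,
      List.mem_map, List.not_mem_nil, or_false]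
    refine ⟨?_, ?_, ?_, ?_, ?_⟩
    · intro e he
      rcases he with rfl | ⟨e', he', rfl⟩ | rfl | rfl
      · intro u v hu0 hu1 hv0 hv1 heq
        have := congrArg Prod.fst heq
        rw [lerp1, lerp1] at this
        simp only [Prod.fst_zero] at this
        nlinarith
      · intro u v hu0 hu1 hv0 hv1 heq
        have := congrArg (fun p : V => p.2.1) heq
        simp only at this
        have h3 := hpy e' he' v hv0 hv1
        rw [lerp2] at this
        simp only [Prod.snd_zero, Prod.fst_zero, mul_zero, add_zero] at this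
        linarith
      · intro u v hu0 hu1 hv0 hv1 heq
        have := congrArg Prod.fst heq
        rw [lerp1, lerp1] at this
        simp only [Prod.fst_zero] at this
        nlinarith
      · intro u v hu0 hu1 hv0 hv1 heq
        have := congrArg Prod.fst heq
        rw [lerp1, lerp1] at this
        simp only [Prod.fst_zero] at this
        nlinarith
    · intro e he
      rcases he with ⟨e', he', rfl⟩ | rfl | rfl
      · intro u v hu0 hu1 hv0 hv1 heq
        have := congrArg (fun p : V => p.2.1) heq
        simp only at this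
        have h3 := hpy e' he' v hv0 hv1
        rw [lerp2] at this
        simp only [mul_zero, zero_add] at this
        nlinarith
      · intro u v hu0 hu1 hv0 hv1 heq
        have := congrArg Prod.fst heq
        rw [lerp1, lerp1] at this
        simp only at this
        nlinarith
      · intro u v hu0 hu1 hv0 hv1 heq
        have := congrArg Prod.fst heq
        rw [lerp1, lerp1] at this
        simp only at this
        nlinarith
    · rw [List.pairwise_map]
      refine hD1.imp ?_
      intro a b hab u v hu0 hu1 hv0 hv1 heq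
      simp only at heq
      rw [A_lerp, A_lerp] at heq
      exact hab u v hu0 hu1 hv0 hv1 (A_inj hs0 heq)
    · refine ⟨?_, by simp⟩
      intro e he
      subst he
      intro u v hu0 hu1 hv0 hv1 heq
      have := congrArg (fun p : V => p.2.1) heq
      simp only at this
      rw [lerp2, lerp2] at this
      simp only [mul_zero, add_zero] at this
      nlinarith
    · rintro _ ⟨e, he, rfl⟩ e' he'
      rcases he' with rfl | rfl
      · intro u v hu0 hu1 hv0 hv1 heq
        have h3 := hpy e he u hu0 hu1
        have h4 := congrArg (fun p : V => p.2.1) heq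
        simp only at h4
        rw [h4, lerp2] at h3
        simp only [mul_zero, add_zero] at h3
        have hv : v = 0 := by nlinarith
        subst hv
        rw [lerp_zero, ← h1, A_lerp] at heq
        have h5 := A_inj hs0 heq
        refine hD2 e he ((0, 0, 1), (0, 0, 0)) (by simp) u 0 hu0 hu1 le_rfl zero_lt_one ?_
        rw [lerp_zero]
        exact h5
      · intro u v hu0 hu1 hv0 hv1 heq
        have h3 := hpy e he u hu0 hu1
        have h4 := congrArg (fun p : V => p.2.1) heq
        simp only at h4
        rw [h4, lerp2] at h3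
        simp only [mul_zero, add_zero] at h3
        linarith
  · -- the edges are not degenerate
    rw [hchain, hg, hh, h0, h1]
    intro e he
    simp only [List.mem_append, List.mem_cons, List.mem_map, List.not_mem_nil, or_false] at he
    rcases he with rfl | rfl | ⟨e', he', rfl⟩ | rfl | rfl
    · intro heq
      have := congrArg Prod.fst heq
      simp only [Prod.fst_zero] at this
      linarith
    · intro heq
      have := congrArg (fun p : V => p.2.1) heq
      simp only at this
      linarith
    · intro heq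
      simp only at heq
      exact hN e' (by simp [he']) (A_inj hs0 heq)
    · intro heq
      have := congrArg (fun p : V => p.2.1) heq
      simp only at this
      linarith
    · intro heq
      have := congrArg Prod.fst heq
      simp only at this
      linarith
  · have : (bd s ((0, 0, 0) :: (l'' ++ [((0, 0, 1) : V)]))).headD 0 = A s (1, 0, 0) := rfl
    rw [this, hg]
    rfl
  · have : (bd s ((0, 0, 0) :: (l'' ++ [((0, 0, 1) : V)]))).getLastD 0 = A s (1, 0, 1) := by
      unfold bd
      rw [List.map_append, List.map_singleton, List.getLastD_concat]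
      rfl
    rw [this, hh]
    rfl

end KN
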