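import Pool.Agent.H246KN.Stubs

set_option autoImplicit false

namespace KN.SHX

open Finset Filter Topology
open scoped Classical

theorem mem_chain {p : V} {l : List V} {e : V × V} (h : e ∈ chain p l) :
    e.1 ∈ p :: l ∧ e.2 ∈ l := by
  induction l generalizing p with
  | nil => simp [chain] at h
  | cons q l ih =>
    simp only [chain, List.mem_cons] at h
    rcases h with h | h
    · subst h; simp
    · have := ih h
      exact ⟨List.mem_cons_of_mem _ this.1, List.mem_cons_of_mem _ this.2⟩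

/-- list with prescribed head and last element -/
theorem split_list {l : List V} {p q : V} (hpq : p ≠ q) (h1 : l.head? = some p)
    (h2 : l.getLast? = some q) : ∃ m, l = p :: (m ++ [q]) := by
  obtain ⟨m, rfl⟩ : ∃ m, l = p :: m := by
    cases l with
    | nil => simp at h1
    | cons r m => simp at h1; exact ⟨m, by rw [h1]⟩
  have hm : m ≠ [] := by
    rintro rfl
    simp at h2
    exact hpq h2
  refine ⟨m.dropLast, ?_⟩
  rw [List.getLast?_cons, List.getLast?_eq_some_getLast hm] at h2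
  simp only [Option.getD_some, Option.some.injEq] at h2
  rw [← h2, List.dropLast_append_getLast hm]

theorem lerp_x (p q : V) (u : ℝ) : (lerp p q u).1 = (1 - u) * p.1 + u * q.1 := rfl
theorem lerp_y (p q : V) (u : ℝ) : (lerp p q u).2.1 = (1 - u) * p.2.1 + u * q.2.1 := rfl
theorem lerp_z (p q : V) (u : ℝ) : (lerp p q u).2.2 = (1 - u) * p.2.2 + u * q.2.2 := rfl

theorem Ts_lerp (s : ℝ) (p q : V) (u : ℝ) : Ts s (lerp p q u) = lerp (Ts s p) (Ts s q) u := by
  apply Prod.ext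
  · simp only [Ts, lerp_x]; ring
  · apply Prod.ext
    · simp only [Ts, lerp_y]; ring
    · simp only [Ts, lerp_z]; ring

theorem Ts_inj {s : ℝ} (hs : 0 < s) {p q : V} (h : Ts s p = Ts s q) : p = q := by
  have h1 : 1 + s * (p.1 - 1) = 1 + s * (q.1 - 1) := congrArg Prod.fst h
  have h2 : s * p.2.1 = s * q.2.1 := congrArg (fun x : V => x.2.1) h
  have h3 : 1 / 2 + s * (p.2.2 - 1 / 2) = 1 / 2 + s * (q.2.2 - 1 / 2) :=
    congrArg (fun x : V => x.2.2) h
  have h4 := mul_left_cancel₀ hs.ne' (show s * (p.1 - 1) = s * (q.1 - 1) by linarith)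
  have h5 := mul_left_cancel₀ hs.ne' h2
  have h6 := mul_left_cancel₀ hs.ne'
    (show s * (p.2.2 - 1 / 2) = s * (q.2.2 - 1 / 2) by linarith)
  exact Prod.ext (by linarith) (Prod.ext h5 (by linarith))

theorem TO (s : ℝ) : Ts s (0, 0, 0) = (1 - s, 0, 1 / 2 - s / 2) := by
  simp only [Ts]; refine Prod.ext ?_ (Prod.ext ?_ ?_) <;> simp <;> ring

theorem TZ (s : ℝ) : Ts s (0, 0, 1) = (1 - s, 0, 1 / 2 + s / 2) := by
  simp only [Ts]; refine Prod.ext ?_ (Prod.ext ?_ ?_) <;> simp <;> ring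

theorem TP (s : ℝ) : Ts s (1, 0, 0) = (1, 0, 1 / 2 - s / 2) := by
  simp only [Ts]; refine Prod.ext ?_ (Prod.ext ?_ ?_) <;> simp <;> ring

theorem TQ (s : ℝ) : Ts s (1, 0, 1) = (1, 0, 1 / 2 + s / 2) := by
  simp only [Ts]; refine Prod.ext ?_ (Prod.ext ?_ ?_) <;> simp <;> ring

/-- the condition of `S_hg` -/
def Ok (e : V × V) : Prop := e.1 ≠ e.2 ∧ ∀ r : ℝ, 0 ≤ r → r < 1 →
    (lerp e.1 e.2 r).1 < 1 ∨
      ((lerp e.1 e.2 r).1 = 1 ∧ (lerp e.1 e.2 r).2.1 = 0 ∧ 0 ≤ (lerp e.1 e.2 r).2.2 ∧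
        (lerp e.1 e.2 r).2.2 < 1)

/-- the middle part -/
structure Mid (s : ℝ) (c : List (V × V)) : Prop where
  pw : c.Pairwise Disj
  nd : ∀ e ∈ c, e.1 ≠ e.2
  le : ∀ e ∈ c, ∀ u : ℝ, 0 ≤ u → u < 1 → (lerp e.1 e.2 u).1 ≤ 1 - s
  ne : ∀ e ∈ c, ∀ u : ℝ, 0 ≤ u → u < 1 → lerp e.1 e.2 u ≠ (1 - s, 0, 1 / 2 + s / 2)

theorem mid_of (s : ℝ) (hs : 0 < s) (m : List V)
    (h1 : Simple (((0, 0, 0) : V) :: (m ++ [((0, 0, 1) : V)])))
    (h2 : ∀ p ∈ (((0, 0, 0) : V) :: (m ++ [((0, 0, 1) : V)])), p.1 ≤ 0) :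
    Mid s (chain (Ts s (0, 0, 0)) (m.map (Ts s) ++ [Ts s (0, 0, 1)])) := by
  have e1 : edges (((0, 0, 0) : V) :: (m ++ [((0, 0, 1) : V)])) =
      chain (0, 0, 0) (m ++ [(0, 0, 1)]) ++ [((0, 0, 1), (0, 0, 0))] := by
    have h := chain_append (0, 0, 0) (0, 0, 1) m [(0, 0, 0)]
    simp only [chain] at h
    simp only [edges, List.append_assoc, List.cons_append, List.nil_append]
    exact h
  obtain ⟨-, hp, hnd⟩ := h1
  rw [e1, List.pairwise_append] at hp
  rw [e1] at hnd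
  have e2 : chain (Ts s (0, 0, 0)) (m.map (Ts s) ++ [Ts s (0, 0, 1)]) =
      (chain (0, 0, 0) (m ++ [(0, 0, 1)])).map (fun e => (Ts s e.1, Ts s e.2)) := by
    rw [← chain_map]; simp
  rw [e2]
  constructor
  · rw [List.pairwise_map]
    refine hp.1.imp ?_
    intro e e' h u v hu0 hu1 hv0 hv1 heq
    simp only at heq
    rw [← Ts_lerp, ← Ts_lerp] at heq
    exact h u v hu0 hu1 hv0 hv1 (Ts_inj hs heq)
  · intro e he
    rw [List.mem_map] at he
    obtain ⟨e', he', rfl⟩ := he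
    intro h
    exact hnd e' (List.mem_append_left _ he') (Ts_inj hs h)
  · intro e he u hu0 hu1
    rw [List.mem_map] at he
    obtain ⟨e', he', rfl⟩ := he
    simp only
    rw [← Ts_lerp]
    have hmem := mem_chain he'
    have a1 : e'.1.1 ≤ 0 := h2 _ hmem.1
    have a2 : e'.2.1 ≤ 0 := h2 _ (List.mem_cons_of_mem _ hmem.2)
    have a3 : (lerp e'.1 e'.2 u).1 ≤ 0 := by rw [lerp_x]; nlinarith
    show 1 + s * ((lerp e'.1 e'.2 u).1 - 1) ≤ 1 - s
    nlinarith
  · intro e he u hu0 hu1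
    rw [List.mem_map] at he
    obtain ⟨e', he', rfl⟩ := he
    simp only
    rw [← Ts_lerp, ← TZ]
    intro h
    have h3 := Ts_inj hs h
    have h4 := hp.2.2 e' he' ((0, 0, 1), (0, 0, 0)) (by simp) u 0 hu0 hu1 le_rfl one_pos
    apply h4
    rw [h3, lerp_zero]

theorem glueAB (s : ℝ) (hs : 0 < s) (A c B : List (V × V)) (hc : Mid s c)
    (A1 : A.Pairwise Disj) (B1 : B.Pairwise Disj)
    (A2 : ∀ e ∈ A, e.1 ≠ e.2) (B2 : ∀ e ∈ B, e.1 ≠ e.2)
    (A3 : ∀ e ∈ A, ∀ u : ℝ, 0 ≤ u → u < 1 → 1 - s < (lerp e.1 e.2 u).1 ∧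
      (lerp e.1 e.2 u).1 ≤ 1 ∧ (lerp e.1 e.2 u).2.1 = 0 ∧ 0 ≤ (lerp e.1 e.2 u).2.2 ∧
      (lerp e.1 e.2 u).2.2 ≤ 1 / 2 - s / 2)
    (B3 : ∀ e ∈ B, ∀ u : ℝ, 0 ≤ u → u < 1 →
      (1 - s < (lerp e.1 e.2 u).1 ∨ lerp e.1 e.2 u = (1 - s, 0, 1 / 2 + s / 2)) ∧
      (lerp e.1 e.2 u).1 ≤ 1 ∧ (lerp e.1 e.2 u).2.1 = 0 ∧
      1 / 2 + s / 2 ≤ (lerp e.1 e.2 u).2.2 ∧
      ((lerp e.1 e.2 u).1 = 1 → (lerp e.1 e.2 u).2.2 < 1)) :
    (A ++ (c ++ B)).Pairwise Disj ∧ ∀ e ∈ A ++ (c ++ B), Ok e := by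
  constructor
  · rw [List.pairwise_append, List.pairwise_append]
    refine ⟨A1, ⟨hc.pw, B1, ?_⟩, ?_⟩
    · intro e he e' he' u v hu0 hu1 hv0 hv1 heq
      have h1 := hc.le e he u hu0 hu1
      have h2 := hc.ne e he u hu0 hu1
      obtain ⟨h3, -⟩ := B3 e' he' v hv0 hv1
      rcases h3 with h3 | h3
      · rw [heq] at h1; linarith
      · rw [heq] at h2; exact h2 h3
    · intro e he e' he' u v hu0 hu1 hv0 hv1 heq
      obtain ⟨h1, h2, h3, h4, h5⟩ := A3 e he u hu0 hu1
      rw [List.mem_append] at he'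
      rcases he' with he' | he'
      · have h6 := hc.le e' he' v hv0 hv1
        rw [heq] at h1; linarith
      · obtain ⟨-, -, -, h6, -⟩ := B3 e' he' v hv0 hv1
        rw [heq] at h5; linarith
  · intro e he
    rw [List.mem_append, List.mem_append] at he
    rcases he with he | he | he
    · refine ⟨A2 e he, fun r hr0 hr1 => ?_⟩
      obtain ⟨h1, h2, h3, h4, h5⟩ := A3 e he r hr0 hr1
      rcases lt_or_eq_of_le h2 with h | h
      · exact Or.inl h
      · exact Or.inr ⟨h, h3, h4, by linarith⟩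
    · refine ⟨hc.nd e he, fun r hr0 hr1 => Or.inl ?_⟩
      have := hc.le e he r hr0 hr1
      linarith
    · refine ⟨B2 e he, fun r hr0 hr1 => ?_⟩
      obtain ⟨-, h2, h3, h4, h5⟩ := B3 e he r hr0 hr1
      rcases lt_or_eq_of_le h2 with h | h
      · exact Or.inl h
      · exact Or.inr ⟨h, h3, by linarith, h5 h⟩

/-- arc with straight connectors -/
theorem arc1 (s : ℝ) (hs : 0 < s) (hs1 : s ≤ 1) (m : List V)
    (h1 : Simple (((0, 0, 0) : V) :: (m ++ [((0, 0, 1) : V)])))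
    (h2 : ∀ p ∈ (((0, 0, 0) : V) :: (m ++ [((0, 0, 1) : V)])), p.1 ≤ 0) :
    (chain (1, 0, 0) ((((0, 0, 0) : V) :: (m ++ [((0, 0, 1) : V)])).map (Ts s) ++
      [((1, 0, 1) : V)])).Pairwise Disj ∧
    ∀ e ∈ chain (1, 0, 0) ((((0, 0, 0) : V) :: (m ++ [((0, 0, 1) : V)])).map (Ts s) ++
      [((1, 0, 1) : V)]), Ok e := by
  have e0 : chain (1, 0, 0) ((((0, 0, 0) : V) :: (m ++ [((0, 0, 1) : V)])).map (Ts s) ++
      [((1, 0, 1) : V)]) = [((1, 0, 0), Ts s (0, 0, 0))] ++
      (chain (Ts s (0, 0, 0)) (m.map (Ts s) ++ [Ts s (0, 0, 1)]) ++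
        [(Ts s (0, 0, 1), (1, 0, 1))]) := by
    have h := chain_append (Ts s (0, 0, 0)) (Ts s (0, 0, 1)) (m.map (Ts s)) [(1, 0, 1)]
    simp only [chain] at h
    simp only [List.map_cons, List.map_append, List.map_nil, List.cons_append, chain,
      List.append_assoc, List.nil_append]
    rw [h]
  rw [e0]
  apply glueAB s hs _ _ _ (mid_of s hs m h1 h2)
  · simp
  · simp
  · intro e he
    rw [List.mem_singleton] at he
    subst he
    rw [TO]
    intro h
    have := congrArg Prod.fst h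
    simp at this
    linarith
  · intro e he
    rw [List.mem_singleton] at he
    subst he
    rw [TZ]
    intro h
    have := congrArg Prod.fst h
    simp at this
    linarith
  · intro e he u hu0 hu1
    rw [List.mem_singleton] at he
    subst he
    simp only [TO, lerp_x, lerp_y, lerp_z]
    refine ⟨?_, ?_, ?_, ?_, ?_⟩ <;> nlinarith
  · intro e he u hu0 hu1
    rw [List.mem_singleton] at he
    subst he
    have hx : (lerp (Ts s (0, 0, 1)) (1, 0, 1) u).1 = 1 - s + u * s := by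
      simp only [TZ, lerp_x]; ring
    refine ⟨?_, ?_, ?_, ?_, ?_⟩
    · rcases lt_or_eq_of_le hu0 with h | h
      · left; simp only; rw [hx]; nlinarith
      · right; rw [← h]; simp only; rw [lerp_zero, TZ]
    · simp only; rw [hx]; nlinarith
    · simp only [TZ, lerp_y]; ring
    · simp only [TZ, lerp_z]; nlinarith
    · simp only
      rw [hx]
      intro h
      nlinarith

/-- the bent connectors at time `t` -/
noncomputable def gt (s t : ℝ) : V := (1 - s / 2 * (1 - t), 0, (1 - s) / 4 * (1 + t))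
noncomputable def ht (s t : ℝ) : V := (1 - s / 2 * (1 - t), 0, (1 - t) * ((3 + s) / 4) + t * (1 / 2 + s / 2))

/-- arc with bent connectors -/
theorem arc2 (s : ℝ) (hs : 0 < s) (hs1 : s < 1) (t : ℝ) (ht0 : 0 ≤ t) (ht1 : t ≤ 1) (m : List V)
    (h1 : Simple (((0, 0, 0) : V) :: (m ++ [((0, 0, 1) : V)])))
    (h2 : ∀ p ∈ (((0, 0, 0) : V) :: (m ++ [((0, 0, 1) : V)])), p.1 ≤ 0) :
    (chain (1, 0, 0) (((gt s t :: (((0, 0, 0) : V) :: (m ++ [((0, 0, 1) : V)])).map (Ts s)) ++
      [ht s t]) ++ [((1, 0, 1) : V)])).Pairwise Disj ∧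
    ∀ e ∈ chain (1, 0, 0) (((gt s t :: (((0, 0, 0) : V) :: (m ++ [((0, 0, 1) : V)])).map (Ts s)) ++
      [ht s t]) ++ [((1, 0, 1) : V)]), Ok e := by
  have e0 : chain (1, 0, 0) (((gt s t :: (((0, 0, 0) : V) :: (m ++ [((0, 0, 1) : V)])).map (Ts s)) ++
      [ht s t]) ++ [((1, 0, 1) : V)]) = [((1, 0, 0), gt s t), (gt s t, Ts s (0, 0, 0))] ++
      (chain (Ts s (0, 0, 0)) (m.map (Ts s) ++ [Ts s (0, 0, 1)]) ++
        [(Ts s (0, 0, 1), ht s t), (ht s t, (1, 0, 1))]) := by
    have h := chain_append (Ts s (0, 0, 0)) (Ts s (0, 0, 1)) (m.map (Ts s)) [ht s t, (1, 0, 1)]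
    simp only [chain] at h
    simp only [List.map_cons, List.map_append, List.map_nil, List.cons_append, chain,
      List.append_assoc, List.nil_append]
    rw [h]
  rw [e0]
  have hst : 0 ≤ s * (1 - t) := mul_nonneg hs.le (by linarith)
  have hst1 : s * (1 - t) ≤ s := by nlinarith
  have hg3 : 0 < (1 - s) / 4 * (1 + t) := by
    apply mul_pos <;> linarith
  have hg3' : (1 - s) / 4 * (1 + t) ≤ 1 / 2 - s / 2 := by nlinarith
  have hh3 : 1 / 2 + s / 2 ≤ (1 - t) * ((3 + s) / 4) + t * (1 / 2 + s / 2) := by nlinarith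
  have hh3' : (1 - t) * ((3 + s) / 4) + t * (1 / 2 + s / 2) < 1 := by nlinarith
  have hh3'' : t < 1 → 1 / 2 + s / 2 < (1 - t) * ((3 + s) / 4) + t * (1 / 2 + s / 2) := by
    intro h; nlinarith
  apply glueAB s hs _ _ _ (mid_of s hs m h1 h2)
  · rw [List.pairwise_cons]
    refine ⟨?_, by simp⟩
    intro e he u v hu0 hu1 hv0 hv1 heq
    rw [List.mem_singleton] at he
    subst he
    have hz := congrArg (fun p : V => p.2.2) heq
    simp only [lerp_z, TO, gt] at hz
    have : u * ((1 - s) / 4 * (1 + t)) < (1 - s) / 4 * (1 + t) := by nlinarith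
    nlinarith
  · rw [List.pairwise_cons]
    refine ⟨?_, by simp⟩
    intro e he u v hu0 hu1 hv0 hv1 heq
    rw [List.mem_singleton] at he
    subst he
    have hz := congrArg (fun p : V => p.2.2) heq
    have hx := congrArg (fun p : V => p.1) heq
    simp only [lerp_z, TZ, ht] at hz
    simp only [lerp_x, TZ, ht] at hx
    set Z := (1 - t) * ((3 + s) / 4) + t * (1 / 2 + s / 2) with hZ
    -- heights
    have a1 : (1 - u) * (1 / 2 + s / 2) + u * Z ≤ Z := by nlinarith
    have a2 : Z + v * (1 - Z) ≤ Z := by nlinarith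
    have a3 : v * (1 - Z) ≤ 0 := by linarith
    have a4 : v = 0 := by
      by_contra hv
      have : 0 < v := lt_of_le_of_ne hv0 (Ne.symm hv)
      nlinarith
    subst a4
    nlinarith
  · intro e he
    simp only [List.mem_cons, List.not_mem_nil, or_false] at he
    rcases he with rfl | rfl
    · intro h
      have := congrArg (fun p : V => p.2.2) h
      simp only [gt] at this
      linarith
    · intro h
      have := congrArg (fun p : V => p.1) h
      simp only [gt, TO] at this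
      linarith
  · intro e he
    simp only [List.mem_cons, List.not_mem_nil, or_false] at he
    rcases he with rfl | rfl
    · intro h
      have := congrArg (fun p : V => p.1) h
      simp only [ht, TZ] at this
      linarith
    · intro h
      have := congrArg (fun p : V => p.2.2) h
      simp only [ht] at this
      linarith
  · intro e he u hu0 hu1
    simp only [List.mem_cons, List.not_mem_nil, or_false] at he
    rcases he with rfl | rfl
    · simp only [lerp_x, lerp_y, lerp_z, gt]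
      refine ⟨?_, ?_, ?_, ?_, ?_⟩ <;> nlinarith
    · simp only [lerp_x, lerp_y, lerp_z, gt, TO]
      refine ⟨?_, ?_, ?_, ?_, ?_⟩
      · nlinarith
      · nlinarith
      · ring
      · nlinarith
      · nlinarith
  · intro e he u hu0 hu1
    simp only [List.mem_cons, List.not_mem_nil, or_false] at he
    rcases he with rfl | rfl
    · refine ⟨?_, ?_, ?_, ?_, ?_⟩
      · rcases lt_or_eq_of_le hu0 with h | h
        · left; simp only [lerp_x, TZ, ht]; nlinarith
        · right; rw [← h]; simp only; rw [lerp_zero, TZ]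
      · simp only [lerp_x, TZ, ht]; nlinarith
      · simp only [lerp_y, TZ, ht]; ring
      · simp only [lerp_z, TZ, ht]; nlinarith
      · intro _; simp only [lerp_z, TZ, ht]; nlinarith
    · refine ⟨?_, ?_, ?_, ?_, ?_⟩
      · left; simp only [lerp_x, ht]; nlinarith
      · simp only [lerp_x, ht]; nlinarith
      · simp only [lerp_y, ht]; ring
      · simp only [lerp_z, ht]; nlinarith
      · intro _; simp only [lerp_z, ht]; nlinarith

end KN.SHX
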