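import Pool.Agent.H246KN.HG
import Pool.Agent.H246KN.SHX

set_option autoImplicit false

namespace KN.SHB

open Finset Filter Topology
open scoped Classical

theorem lerp_self (p : V) (t : ℝ) : lerp p p t = p := by
  apply Prod.ext
  · simp only [SHX.lerp_x]; ring
  · apply Prod.ext
    · simp only [SHX.lerp_y]; ring
    · simp only [SHX.lerp_z]; ring

theorem lerp_Ts (s : ℝ) (p : V) (t : ℝ) : lerp p (Ts s p) t = Ts (1 - t + t * s) p := by
  apply Prod.ext
  · simp only [SHX.lerp_x, Ts]; ring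
  · apply Prod.ext
    · simp only [SHX.lerp_y, Ts]; ring
    · simp only [SHX.lerp_z, Ts]; ring

theorem zip_self (l : List V) (t : ℝ) : List.zipWith (fun p q => lerp p q t) l l = l := by
  induction l with
  | nil => rfl
  | cons p l ih => simp only [List.zipWith_cons_cons, lerp_self, ih]

theorem zip_map (f g : V → V) (t : ℝ) (h : ∀ p, lerp p (f p) t = g p) (l : List V) :
    List.zipWith (fun p q => lerp p q t) l (l.map f) = l.map g := by
  induction l with
  | nil => rfl
  | cons p l ih => simp only [List.map_cons, List.zipWith_cons_cons, h, ih]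

theorem simple_arc {lv β : List V} (hv : HR lv)
    (h1 : (chain (1, 0, 0) (β ++ [((1, 0, 1) : V)])).Pairwise Disj)
    (h2 : ∀ e ∈ chain (1, 0, 0) (β ++ [((1, 0, 1) : V)]), SHX.Ok e) : Simple (lv ++ β) :=
  S_hg_proof lv β hv.1 hv.2.1 hv.2.2.1 hv.2.2.2 h1 h2

theorem simple_map {lw lv : List V} (hw : HL lw) (hv : HR lv) (s : ℝ) (hs : 0 < s) (hs1 : s ≤ 1) :
    Simple (lv ++ lw.map (Ts s)) := by
  obtain ⟨m, rfl⟩ := SHX.split_list (p := (0, 0, 0)) (q := (0, 0, 1)) (by simp) hw.2.2.1 hw.2.2.2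
  obtain ⟨a1, a2⟩ := SHX.arc1 s hs hs1 m hw.1 hw.2.1
  exact simple_arc hv a1 a2

end KN.SHB

namespace KN

theorem S_shB_proof (hlin : S_lin) : S_shB := by
  intro lw lv hw hv s hs hs1
  refine ⟨?_, SHB.simple_map hw hv s hs hs1.le⟩
  apply hlin _ _ (by simp)
  intro t ht0 ht1
  rw [List.zipWith_append rfl, SHB.zip_self,
    SHB.zip_map (Ts s) (Ts (1 - t + t * s)) t (fun p => SHB.lerp_Ts s p t)]
  apply SHB.simple_map hw hv
  · nlinarith
  · nlinarith

end KN
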