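import Pool.Agent.H246KN.SHB

set_option autoImplicit false

namespace KN.SHD

open Finset Filter Topology
open scoped Classical

/-- transverse scaling -/
def Se (ε : ℝ) (p : V) : V := (1 - ε * (1 - p.1), ε * p.2.1, p.2.2)

theorem Se_lerp (s : ℝ) (p q : V) (u : ℝ) : Se s (lerp p q u) = lerp (Se s p) (Se s q) u := by
  apply Prod.ext
  · simp only [Se, SHX.lerp_x]; ring
  · apply Prod.ext
    · simp only [Se, SHX.lerp_y]; ring
    · simp only [Se, SHX.lerp_z]

theorem Se_inj {s : ℝ} (hs : 0 < s) {p q : V} (h : Se s p = Se s q) : p = q := by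
  have h1 : 1 - s * (1 - p.1) = 1 - s * (1 - q.1) := congrArg Prod.fst h
  have h2 : s * p.2.1 = s * q.2.1 := congrArg (fun x : V => x.2.1) h
  have h3' : (Se s p).2.2 = (Se s q).2.2 := by rw [h]
  have h3 : p.2.2 = q.2.2 := h3'
  have h4 := mul_left_cancel₀ hs.ne' (show s * (1 - p.1) = s * (1 - q.1) by linarith)
  have h5 := mul_left_cancel₀ hs.ne' h2
  exact Prod.ext (by linarith) (Prod.ext h5 h3)

theorem chain_Se (ε : ℝ) (L : List V) : chain (1, 0, 0) (L.map (Se ε) ++ [((1, 0, 1) : V)]) =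
      (chain (1, 0, 0) (L ++ [((1, 0, 1) : V)])).map (fun e => (Se ε e.1, Se ε e.2)) := by
  rw [← chain_map]
  have b1 : Se ε (1, 0, 0) = (1, 0, 0) := by simp [Se]
  have b2 : Se ε (1, 0, 1) = (1, 0, 1) := by simp [Se]
  rw [List.map_append, List.map_cons, List.map_nil, b1, b2]

theorem gt_one (s : ℝ) : SHX.gt s 1 = Ts s (1, 0, 0) := by
  rw [SHX.TP]; unfold SHX.gt
  refine Prod.ext ?_ (Prod.ext ?_ ?_) <;> simp <;> ring

theorem ht_one (s : ℝ) : SHX.ht s 1 = Ts s (1, 0, 1) := by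
  rw [SHX.TQ]; unfold SHX.ht
  refine Prod.ext ?_ (Prod.ext ?_ ?_) <;> simp

theorem insB_eq {lw lv : List V} (hv : HR lv) (s δ : ℝ) :
    insB lv (bd s lw) (δ • (-1, 0, 0)) (δ • (0, -1, 0)) =
      lv ++ ((Ts s (1, 0, 0) :: lw.map (Ts s)) ++ [Ts s (1, 0, 1)]).map (Se δ) := by
  have h1 : lv.getLastD 0 = (1, 0, 0) := by
    have := hv.2.2.2
    rw [List.getLastD_eq_getLast?, this]; rfl
  have h2 : lv.headD 0 = (1, 0, 1) := by
    have := hv.2.2.1
    rw [List.headD_eq_head?_getD, this]; rfl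
  unfold insB bd
  rw [h1, h2]
  congr 1
  rw [List.map_map]
  congr 1
  funext p
  simp only [Function.comp, Fm, loc, Se]
  refine Prod.ext ?_ (Prod.ext ?_ ?_)
  · simp; ring
  · simp; ring
  · simp

end KN.SHD

namespace KN

theorem S_shD_proof (hlin : S_lin) : S_shD := by
  intro lw lv hw hv s hs hs1 δ hδ hδ1
  rw [SHD.insB_eq hv]
  set L := ((Ts s (1, 0, 0) :: lw.map (Ts s)) ++ [Ts s (1, 0, 1)]) with hL
  apply hlin _ _ (by simp)
  intro t ht0 ht1
  have hε : 0 < 1 - t + t * δ := by nlinarith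
  have hε1 : 1 - t + t * δ ≤ 1 := by nlinarith
  rw [List.zipWith_append rfl, SHB.zip_self,
    SHB.zip_map (SHD.Se δ) (SHD.Se (1 - t + t * δ)) t (fun p => by
      apply Prod.ext
      · simp only [SHX.lerp_x, SHD.Se]; ring
      · apply Prod.ext
        · simp only [SHX.lerp_y, SHD.Se]; ring
        · simp only [SHX.lerp_z, SHD.Se]; ring)]
  set ε := 1 - t + t * δ with hεd
  obtain ⟨m, hm⟩ := SHX.split_list (p := (0, 0, 0)) (q := (0, 0, 1)) (by simp) hw.2.2.1 hw.2.2.2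
  have hw1 := hw.1
  have hw2 := hw.2.1
  rw [hm] at hw1 hw2
  obtain ⟨a1, a2⟩ := SHX.arc2 s hs hs1 1 zero_le_one le_rfl m hw1 hw2
  rw [SHD.gt_one, SHD.ht_one, ← hm] at a1 a2
  have e0 := SHD.chain_Se ε L
  apply SHB.simple_arc hv
  · rw [e0, List.pairwise_map]
    refine a1.imp ?_
    intro e e' h u v hu0 hu1 hv0 hv1 heq
    simp only at heq
    rw [← SHD.Se_lerp, ← SHD.Se_lerp] at heq
    exact h u v hu0 hu1 hv0 hv1 (SHD.Se_inj hε heq)
  · intro e he
    rw [e0, List.mem_map] at he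
    obtain ⟨e', he', rfl⟩ := he
    obtain ⟨b1, b2⟩ := a2 e' he'
    refine ⟨fun h => b1 (SHD.Se_inj hε h), ?_⟩
    intro r hr0 hr1
    simp only
    rw [← SHD.Se_lerp]
    rcases b2 r hr0 hr1 with b3 | ⟨b3, b4, b5, b6⟩
    · left
      show 1 - ε * (1 - (lerp e'.1 e'.2 r).1) < 1
      nlinarith
    · right
      refine ⟨?_, ?_, b5, b6⟩
      · show 1 - ε * (1 - (lerp e'.1 e'.2 r).1) = 1
        rw [b3]; ring
      · show ε * (lerp e'.1 e'.2 r).2.1 = 0
        rw [b4]; ring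

end KN
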