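import Pool.Agent.H246KN.Stubs

/-!
# T9: the square is reversible
-/

set_option autoImplicit false

namespace KN

open Finset Filter Topology
open scoped Classical

namespace SQ

theorem sap_sqw : SAP sqw := by
  refine ⟨by decide, by decide, ?_⟩
  have h : (path sqw).tail = [((0, 0, 1) : Z3), (1, 0, 1), (1, 0, 0), (0, 0, 0)] := by decide
  rw [h]
  simp

theorem sq_eq : sq = [((0, 0, 1) : V), (1, 0, 1), (1, 0, 0), (0, 0, 0)] := by
  have h : path sqw.tail = [((0, 0, 1) : Z3), (1, 0, 1), (1, 0, 0), (0, 0, 0)] := by decide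
  unfold sq vl
  rw [h]
  simp [emb]

end SQ

/-- T9 -/
theorem S_sq_proof (h1 : S_simple) (h4 : S_motion) : S_sq := by
  have hS : Simple sq := h1 sqw SQ.sap_sqw
  refine ⟨hS, SQ.sap_sqw, ?_⟩
  have a1 := (h4 sq hS).2.1
  have a2 := (h4 _ a1.2).2.1
  have a3 := (h4 _ a2.2).1 (0, 0, 1)
  have h := (a1.1.trans a2.1).trans a3.1
  have e : ((List.map (fun p : V => (p.1, -p.2.2, p.2.1))
      (List.map (fun p : V => (p.1, -p.2.2, p.2.1)) sq)).map (fun p => p + (0, 0, 1))) =
      sq.reverse := by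
    rw [SQ.sq_eq]
    simp
  rwa [e] at h

end KN
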