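import Pool.Agent.H246KN.Stubs

/-!
# T2: subdivision of an edge
-/

set_option autoImplicit false

namespace KN

open Finset Filter Topology
open scoped Classical

namespace SUB

theorem lerp_lerp_left (p q : V) (s u : ℝ) : lerp p (lerp p q s) u = lerp p q (s * u) := by
  simp only [lerp]
  module

theorem lerp_lerp_right (p q : V) (s u : ℝ) :
    lerp (lerp p q s) q u = lerp p q (s + (1 - s) * u) := by
  simp only [lerp]
  module

theorem lerp_inj {p q : V} (h : p ≠ q) {u v : ℝ} (huv : lerp p q u = lerp p q v) : u = v := by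
  by_contra hne
  apply h
  have h1 : (v - u) • (p - q) = 0 := by
    have : lerp p q u - lerp p q v = (v - u) • (p - q) := by
      simp only [lerp]
      module
    rw [← this, huv, sub_self]
  rcases smul_eq_zero.1 h1 with h2 | h2
  · exact absurd (by linarith : u = v) hne
  · exact sub_eq_zero.1 h2

theorem disj_split (p q : V) (s : ℝ) (h0 : 0 < s) (h1 : s < 1) (e : V × V) :
    Disj (p, q) e ↔ Disj (p, lerp p q s) e ∧ Disj (lerp p q s, q) e := by
  constructor
  · intro h
    refine ⟨fun u v hu0 hu1 hv0 hv1 => ?_, fun u v hu0 hu1 hv0 hv1 => ?_⟩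
    · show lerp p (lerp p q s) u ≠ _
      rw [lerp_lerp_left]
      exact h (s * u) v (by positivity) (by nlinarith) hv0 hv1
    · show lerp (lerp p q s) q u ≠ _
      rw [lerp_lerp_right]
      have h2 : 0 < 1 - s := by linarith
      exact h (s + (1 - s) * u) v (by positivity) (by nlinarith) hv0 hv1
  · rintro ⟨h2, h3⟩ u v hu0 hu1 hv0 hv1
    show lerp p q u ≠ _
    by_cases hus : u < s
    · have h4 := h2 (u / s) v (by positivity) ((div_lt_one h0).2 hus) hv0 hv1
      have h5 : lerp (p, lerp p q s).1 (p, lerp p q s).2 (u / s) = lerp p q u := by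
        show lerp p (lerp p q s) (u / s) = _
        rw [lerp_lerp_left]
        congr 1
        field_simp
      rw [h5] at h4
      exact h4
    · have h6 : 0 < 1 - s := by linarith
      have h4 := h3 ((u - s) / (1 - s)) v (div_nonneg (by linarith) h6.le)
        ((div_lt_one h6).2 (by linarith)) hv0 hv1
      have h5 : lerp (lerp p q s, q).1 (lerp p q s, q).2 ((u - s) / (1 - s)) = lerp p q u := by
        show lerp (lerp p q s) q ((u - s) / (1 - s)) = _
        rw [lerp_lerp_right]
        congr 1
        field_simp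
        ring
      rw [h5] at h4
      exact h4

theorem simple_one (p q : V) (l : List V) (s : ℝ) (h0 : 0 < s) (h1 : s < 1) :
    Simple (p :: q :: l) ↔ Simple (p :: lerp p q s :: q :: l) := by
  have e1 : edges (p :: q :: l) = (p, q) :: chain q (l ++ [p]) := rfl
  have e2 : edges (p :: lerp p q s :: q :: l) =
      (p, lerp p q s) :: (lerp p q s, q) :: chain q (l ++ [p]) := rfl
  have hpr : p = lerp p q s ↔ p = q := by
    constructor
    · intro h
      by_contra hne
      have h2 := lerp_inj hne (u := 0) (v := s) (by rw [lerp_zero]; exact h)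
      exact h0.ne h2
    · rintro rfl
      simp only [lerp]
      module
  have hrq : lerp p q s = q ↔ p = q := by
    constructor
    · intro h
      by_contra hne
      have h2 := lerp_inj hne (u := s) (v := 1) (by rw [lerp_one]; exact h)
      exact h1.ne h2
    · rintro rfl
      simp only [lerp]
      module
  unfold Simple
  rw [e1, e2]
  simp only [List.pairwise_cons, List.mem_cons, forall_eq_or_imp, ne_eq, reduceCtorEq,
    not_false_eq_true, true_and]
  constructor
  · rintro ⟨⟨h2, h3⟩, h4, h5⟩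
    refine ⟨⟨⟨?_, fun e he => ((disj_split p q s h0 h1 e).1 (h2 e he)).1⟩,
      fun e he => ((disj_split p q s h0 h1 e).1 (h2 e he)).2, h3⟩, ?_, ?_, h5⟩
    · intro u v hu0 hu1 hv0 hv1
      show lerp p (lerp p q s) u ≠ lerp (lerp p q s) q v
      rw [lerp_lerp_left, lerp_lerp_right]
      intro h
      have h6 := lerp_inj h4 h
      have h7 : 0 < 1 - s := by linarith
      have h8 : 0 ≤ (1 - s) * v := by positivity
      nlinarith
    · rw [hpr]; exact h4
    · rw [hrq]; exact h4
  · rintro ⟨⟨⟨_, h2⟩, h3, h4⟩, h5, h6, h7⟩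
    refine ⟨⟨fun e he => (disj_split p q s h0 h1 e).2 ⟨h2 e he, h3 e he⟩, h4⟩, ?_, h7⟩
    rw [← hpr]; exact h5

theorem simple_rot (hr : S_rot) (l1 l2 : List V) : Simple (l1 ++ l2) ↔ Simple (l2 ++ l1) :=
  ⟨fun h => (hr l1 l2 h).1, fun h => (hr l2 l1 h).1⟩

theorem simple_one' (hr : S_rot) (l1 l2 : List V) (p q : V) (s : ℝ) (h0 : 0 < s) (h1 : s < 1) :
    Simple (l1 ++ p :: q :: l2) ↔ Simple (l1 ++ p :: lerp p q s :: q :: l2) := by
  rw [simple_rot hr, simple_rot hr l1]
  exact simple_one p q (l2 ++ l1) s h0 h1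

theorem same_one (hr : S_rot) (l1 l2 : List V) (p q : V) (s : ℝ) (h0 : 0 < s) (h1 : s < 1)
    (hs : Simple (l1 ++ p :: q :: l2)) :
    Same (l1 ++ p :: q :: l2) (l1 ++ p :: lerp p q s :: q :: l2) := by
  have e1 : l1 ++ p :: q :: l2 = (l1 ++ [p]) ++ (q :: l2) := by simp
  have h2 := hr (l1 ++ [p]) (q :: l2) (by rw [← e1]; exact hs)
  have e2 : (q :: l2) ++ (l1 ++ [p]) = q :: (l2 ++ l1) ++ [p] := by simp
  have h3 : Move (q :: (l2 ++ l1) ++ [p]) (q :: (l2 ++ l1) ++ [p, lerp p q s]) :=
    Move.sub q (l2 ++ l1) p s (by rw [← e2]; exact h2.1) h0 h1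
  have e3 : q :: (l2 ++ l1) ++ [p, lerp p q s] = (q :: l2) ++ (l1 ++ [p, lerp p q s]) := by simp
  have e4 : l1 ++ p :: lerp p q s :: q :: l2 = (l1 ++ [p, lerp p q s]) ++ (q :: l2) := by simp
  have h4 := hr (q :: l2) (l1 ++ [p, lerp p q s]) (by
    rw [simple_rot hr, ← e4]
    exact (simple_one' hr l1 l2 p q s h0 h1).1 hs)
  rw [e4, e1]
  refine h2.2.trans ?_
  rw [e2]
  refine (Same.of_move h3).trans ?_
  rw [e3]
  exact h4.2

end SUB

open SUB in
theorem S_sub_proof (hr : S_rot) : S_sub := by
  intro l1 l2 p q ss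
  obtain ⟨n, hn⟩ : ∃ n, ss.length = n := ⟨_, rfl⟩
  induction n generalizing l1 p ss with
  | zero =>
    intro _ _
    rw [List.length_eq_zero_iff] at hn
    subst hn
    simp only [List.map_nil, List.append_assoc, List.cons_append, List.nil_append, iff_self,
      true_and]
    exact fun _ => Same.refl _
  | succ n ih =>
    intro hss h01
    obtain ⟨s, ss, rfl⟩ := List.exists_cons_of_length_eq_add_one hn
    have hs := h01 s (by simp)
    have h1s : 0 < 1 - s := by linarith [hs.2]
    have hlt : ∀ t ∈ ss, s < t := fun t ht => (List.pairwise_cons.1 hss).1 t ht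
    set r := lerp p q s with hr'
    set ss' := ss.map (fun t => (t - s) / (1 - s)) with hss'
    have hmap : ss'.map (lerp r q) = ss.map (lerp p q) := by
      rw [hss', List.map_map]
      refine List.map_congr_left fun t _ => ?_
      simp only [Function.comp_apply]
      rw [hr', lerp_lerp_right]
      congr 1
      field_simp
      ring
    have h2 := ih (l1 ++ [p]) r ss' (by simp [hss']; simpa using hn) (by
      rw [hss', List.pairwise_map]
      refine (List.pairwise_cons.1 hss).2.imp fun {a b} hab => ?_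
      exact (div_lt_div_iff_of_pos_right h1s).2 (by linarith)) (by
      intro t ht
      rw [hss', List.mem_map] at ht
      obtain ⟨a, ha, rfl⟩ := ht
      have h3 := hlt a ha
      have h4 := h01 a (by simp [ha])
      exact ⟨div_pos (by linarith) h1s, (div_lt_one h1s).2 (by linarith [h4.2])⟩)
    rw [hmap] at h2
    have e1 : l1 ++ [p] ++ r :: q :: l2 = l1 ++ p :: r :: q :: l2 := by simp
    have e2 : l1 ++ [p] ++ r :: ss.map (lerp p q) ++ q :: l2 =
        l1 ++ p :: (s :: ss).map (lerp p q) ++ q :: l2 := by simp [hr']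
    rw [e1, e2] at h2
    refine ⟨(simple_one' hr l1 l2 p q s hs.1 hs.2).trans h2.1, fun h => ?_⟩
    refine (same_one hr l1 l2 p q s hs.1 hs.2 h).trans (h2.2 ?_)
    exact (simple_one' hr l1 l2 p q s hs.1 hs.2).1 h

end KN
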