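import Pool.Agent.H246KN.Stubs

/-!
# Subdivision of the closing edge, bead on the second part
-/

set_option autoImplicit false

namespace KN

open Finset Filter Topology
open scoped Classical

namespace SUBL

/-- the affine map that sends `[0, (1,0,0)]` to `[(σ,0,0), (1,0,0)]` -/
noncomputable def A (σ : ℝ) (p : V) : V := (σ + (1 - σ) * p.1, p.2.1, p.2.2)

theorem A_lerp (σ : ℝ) (p q : V) (u : ℝ) : A σ (lerp p q u) = lerp (A σ p) (A σ q) u := by
  obtain ⟨x, y, z⟩ := p
  obtain ⟨x', y', z'⟩ := q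
  simp only [A, lerp, Prod.smul_mk, smul_eq_mul, Prod.mk_add_mk, Prod.mk.injEq, and_true]
  ring

theorem A_inj {σ : ℝ} (hσ : σ < 1) {p q : V} (h : A σ p = A σ q) : p = q := by
  obtain ⟨x, y, z⟩ := p
  obtain ⟨x', y', z'⟩ := q
  simp only [A, Prod.mk.injEq] at h
  obtain ⟨h1, h2, h3⟩ := h
  have h4 : (1 - σ) * (x - x') = 0 := by linarith
  have h5 : x - x' = 0 := by
    rcases mul_eq_zero.1 h4 with h | h
    · linarith
    · exact h
  simp only [Prod.mk.injEq]
  exact ⟨by linarith, h2, h3⟩

theorem A_zero (p : V) : A 0 p = p := by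
  simp [A]

theorem A_one (σ : ℝ) : A σ (1, 0, 0) = (1, 0, 0) := by
  simp [A]

theorem mem_chain {p : V} {l : List V} {e : V × V} (h : e ∈ chain p l) :
    e.1 ∈ p :: l ∧ e.2 ∈ l := by
  induction l generalizing p with
  | nil => simp [chain] at h
  | cons q l ih =>
    simp only [chain, List.mem_cons] at h
    rcases h with rfl | h
    · simp
    · have := ih h
      exact ⟨List.mem_cons_of_mem _ this.1, List.mem_cons_of_mem _ this.2⟩

theorem bead_nonneg {κ : ℝ} {α : List V} (h : IsBead κ α) : 0 ≤ κ := by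
  obtain ⟨a, α', rfl⟩ := List.exists_cons_of_ne_nil h.ne
  obtain ⟨h1, h2, h3⟩ := h.cone a (by simp)
  obtain ⟨_, _, h4, _⟩ := h3
  by_contra hk
  have h5 : 0 < min a.1 (1 - a.1) := lt_min h1 (by linarith)
  have h6 : κ * min a.1 (1 - a.1) < 0 := mul_neg_of_neg_of_pos (not_le.1 hk) h5
  have := abs_nonneg a.2.1
  linarith

theorem bead_mono {κ κ' : ℝ} {α : List V} (h : IsBead κ α) (hk : κ ≤ κ') : IsBead κ' α where
  ne := h.ne
  cone := by
    intro p hp
    obtain ⟨h1, h2, h3, h4, h5, h6⟩ := h.cone p hp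
    have h7 : κ * min p.1 (1 - p.1) ≤ κ' * min p.1 (1 - p.1) :=
      mul_le_mul_of_nonneg_right hk (le_min h3 (by linarith))
    exact ⟨h1, h2, h3, h4, h5.trans h7, h6.trans h7⟩
  disj := h.disj
  nd := h.nd
  hd := h.hd
  lst := h.lst

theorem bead_A {κ : ℝ} {α : List V} (h : IsBead κ α) {σ : ℝ} (h0 : 0 ≤ σ) (h1 : σ < 1) :
    IsBead (κ / (1 - σ)) (α.map (A σ)) := by
  have hκ := bead_nonneg h
  have h1σ : 0 < 1 - σ := by linarith
  obtain ⟨a, α', rfl⟩ := List.exists_cons_of_ne_nil h.ne
  have ha := h.cone a (by simp)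
  have ha2 : a.2 = 0 := by simpa using h.hd
  have hpos : 0 < σ + (1 - σ) * a.1 := by
    have := mul_pos h1σ ha.1
    linarith
  have hch : chain 0 ((a :: α').map (A σ) ++ [((1, 0, 0) : V)]) =
      (0, A σ a) :: (chain a (α' ++ [((1, 0, 0) : V)])).map (fun e => (A σ e.1, A σ e.2)) := by
    rw [← chain_map]
    simp [chain, A_one]
  have hch0 : chain 0 ((a :: α') ++ [((1, 0, 0) : V)]) =
      (0, a) :: chain a (α' ++ [((1, 0, 0) : V)]) := rfl
  have hd := h.disj
  rw [hch0, List.pairwise_cons] at hd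
  have hnd := h.nd
  rw [hch0] at hnd
  refine ⟨by simp, ?_, ?_, ?_, ?_, ?_⟩
  · intro p hp
    rw [List.mem_map] at hp
    obtain ⟨q, hq, rfl⟩ := hp
    obtain ⟨g1, g2, g3, g4, g5, g6⟩ := h.cone q hq
    have e1 : 0 < (1 - σ) * q.1 := mul_pos h1σ g1
    have e2 : 0 < (1 - σ) * (1 - q.1) := mul_pos h1σ (by linarith)
    have e3 : (1 - σ) * min q.1 (1 - q.1) ≤
        min (σ + (1 - σ) * q.1) (1 - (σ + (1 - σ) * q.1)) := by
      refine le_min ?_ ?_
      · have := mul_le_mul_of_nonneg_left (min_le_left q.1 (1 - q.1)) h1σ.le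
        linarith
      · have := mul_le_mul_of_nonneg_left (min_le_right q.1 (1 - q.1)) h1σ.le
        linarith
    have e4 : κ * min q.1 (1 - q.1) ≤
        κ / (1 - σ) * min (σ + (1 - σ) * q.1) (1 - (σ + (1 - σ) * q.1)) := by
      have := mul_le_mul_of_nonneg_left e3 (div_nonneg hκ h1σ.le)
      refine le_trans (le_of_eq ?_) this
      field_simp
    refine ⟨?_, ?_, ?_, ?_, ?_, ?_⟩
    · show 0 < σ + (1 - σ) * q.1
      linarith
    · show σ + (1 - σ) * q.1 < 1
      nlinarith
    · show 0 ≤ σ + (1 - σ) * q.1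
      linarith
    · show σ + (1 - σ) * q.1 ≤ 1
      nlinarith
    · exact g5.trans e4
    · exact g6.trans e4
  · rw [hch, List.pairwise_cons]
    refine ⟨?_, ?_⟩
    · intro e' he'
      rw [List.mem_map] at he'
      obtain ⟨e, he, rfl⟩ := he'
      intro u v hu hu1 hv hv1 heq
      simp only at heq
      rw [← A_lerp] at heq
      set X : V := lerp e.1 e.2 v with hX
      have hmem := mem_chain he
      have hnn : ∀ q ∈ a :: (α' ++ [((1, 0, 0) : V)]), 0 ≤ q.1 := by
        intro q hq
        rw [← List.cons_append, List.mem_append] at hq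
        rcases hq with hq | hq
        · exact (h.cone q hq).1.le
        · rw [List.mem_singleton] at hq
          subst hq
          norm_num
      have hX1 : 0 ≤ X.1 := by
        have k1 := hnn e.1 hmem.1
        have k2 := hnn e.2 (List.mem_cons_of_mem _ hmem.2)
        have : X.1 = (1 - v) * e.1.1 + v * e.2.1 := by
          simp [hX, lerp]
        rw [this]
        have h1v : 0 ≤ 1 - v := by linarith
        exact add_nonneg (mul_nonneg h1v k1) (mul_nonneg hv k2)
      have c1 : u * (σ + (1 - σ) * a.1) = σ + (1 - σ) * X.1 := by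
        have := congrArg Prod.fst heq
        simpa [lerp, A] using this
      have c2 : X.2.1 = 0 := by
        have := congrArg (fun p : V => p.2.1) heq
        have ha21 : a.2.1 = 0 := by rw [ha2]; rfl
        simpa [lerp, A, ha21] using this.symm
      have c3 : X.2.2 = 0 := by
        have := congrArg (fun p : V => p.2.2) heq
        have ha22 : a.2.2 = 0 := by rw [ha2]; rfl
        simpa [lerp, A, ha22] using this.symm
      have c4 : X.1 < a.1 := by
        have : u * (σ + (1 - σ) * a.1) < 1 * (σ + (1 - σ) * a.1) :=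
          mul_lt_mul_of_pos_right hu1 hpos
        have h5 : (1 - σ) * X.1 < (1 - σ) * a.1 := by linarith
        exact lt_of_mul_lt_mul_left h5 h1σ.le
      refine hd.1 e he (X.1 / a.1) v (div_nonneg hX1 ha.1.le) ((div_lt_one ha.1).2 c4) hv hv1 ?_
      rw [← hX]
      have ha21 : a.2.1 = 0 := by rw [ha2]; rfl
      have ha22 : a.2.2 = 0 := by rw [ha2]; rfl
      have hane : a.1 ≠ 0 := ha.1.ne'
      refine Prod.ext ?_ (Prod.ext ?_ ?_)
      · simp [lerp]
        field_simp
      · simp [lerp, ha21, c2]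
      · simp [lerp, ha22, c3]
    · rw [List.pairwise_map]
      refine hd.2.imp ?_
      intro e e' hee u v hu hu1 hv hv1 heq
      simp only at heq
      rw [← A_lerp, ← A_lerp] at heq
      exact hee u v hu hu1 hv hv1 (A_inj h1 heq)
  · rw [hch]
    intro e' he'
    rw [List.mem_cons] at he'
    rcases he' with rfl | he'
    · intro heq
      simp only at heq
      have := congrArg Prod.fst heq
      simp only [A, Prod.fst_zero] at this
      linarith
    · rw [List.mem_map] at he'
      obtain ⟨e, he, rfl⟩ := he'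
      intro heq
      exact hnd e (List.mem_cons_of_mem _ he) (A_inj h1 heq)
  · simp only [List.map_cons, List.headD_cons, A]
    rw [ha2]
  · have h2 := h.lst
    rcases List.eq_nil_or_concat (a :: α') with h3 | ⟨β, b, h3⟩
    · simp at h3
    · rw [h3] at h2 ⊢
      simp only [List.concat_eq_append, List.map_append, List.map_cons, List.map_nil,
        List.getLastD_concat, A] at h2 ⊢
      rw [h2]

/-- the affine maps fit -/
theorem Fm_A (p q u w : V) (s : ℝ) (x : V) :
    Fm (lerp p q s) q u w x = Fm p q u w (A s x) := by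
  obtain ⟨p1, p2, p3⟩ := p
  obtain ⟨q1, q2, q3⟩ := q
  obtain ⟨u1, u2, u3⟩ := u
  obtain ⟨w1, w2, w3⟩ := w
  obtain ⟨x1, x2, x3⟩ := x
  simp only [Fm, lerp, A, Prod.smul_mk, smul_eq_mul, Prod.mk_add_mk, Prod.mk_sub_mk,
    Prod.mk.injEq]
  refine ⟨by ring, by ring, by ring⟩

theorem det_smul (D u w : V) (c δ : ℝ) :
    det3 (c • D) (δ • u) (δ • w) = c * δ ^ 2 * det3 D u w := by
  obtain ⟨d1, d2, d3⟩ := D
  obtain ⟨u1, u2, u3⟩ := u
  obtain ⟨w1, w2, w3⟩ := w
  simp only [det3, Prod.smul_mk, smul_eq_mul]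
  ring

theorem sub_lerp (p q : V) (s : ℝ) : q - lerp p q s = (1 - s) • (q - p) := by
  obtain ⟨p1, p2, p3⟩ := p
  obtain ⟨q1, q2, q3⟩ := q
  simp only [lerp, Prod.smul_mk, smul_eq_mul, Prod.mk_add_mk, Prod.mk_sub_mk, Prod.mk.injEq]
  refine ⟨by ring, by ring, by ring⟩

/-- the point on the first edge of the bead -/
theorem point {p q u w : V} {s x : ℝ} (hs : 0 < s) (hs1 : s < 1) (hx : 0 < x) :
    lerp p (Fm p q u w (s + (1 - s) * x, 0, 0)) (s / (s + (1 - s) * x)) = lerp p q s := by
  have h : s + (1 - s) * x ≠ 0 := by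
    have : 0 < (1 - s) * x := mul_pos (by linarith) hx
    linarith
  obtain ⟨p1, p2, p3⟩ := p
  obtain ⟨q1, q2, q3⟩ := q
  obtain ⟨u1, u2, u3⟩ := u
  obtain ⟨w1, w2, w3⟩ := w
  simp only [Fm, lerp, Prod.smul_mk, smul_eq_mul, Prod.mk_add_mk, Prod.mk_sub_mk,
    Prod.mk.injEq]
  refine ⟨?_, ?_, ?_⟩ <;> · field_simp; ring

/-- the polygon with the longer bead is the subdivided polygon with the bead -/
theorem same_sub (h4 : S_sub) {κ : ℝ} {l α : List V} {s : ℝ} (u w : V) (hl : l ≠ [])
    (hb : IsBead κ α) (hs : 0 < s) (hs1 : s < 1) (hS : Simple (insB l (α.map (A s)) u w)) :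
    Same (insB l (α.map (A s)) u w)
      (insB (l ++ [lerp (l.getLastD 0) (l.headD 0) s]) α u w) := by
  obtain ⟨a, α', rfl⟩ := List.exists_cons_of_ne_nil hb.ne
  have ha := hb.cone a (by simp)
  have ha2 : a.2 = 0 := by simpa using hb.hd
  have haA : A s a = (s + (1 - s) * a.1, 0, 0) := by
    simp only [A]
    rw [ha2]
    rfl
  rcases List.eq_nil_or_concat l with h3 | ⟨l1, p, h3⟩
  · exact absurd h3 hl
  · have hp : l.getLastD 0 = p := by rw [h3]; simp
    set q : V := l.headD 0 with hq
    have hq2 : (l ++ [lerp p q s]).headD 0 = q := by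
      obtain ⟨b, l', hl'⟩ := List.exists_cons_of_ne_nil hl
      rw [hq, hl']
      simp
    have e1 : insB l ((a :: α').map (A s)) u w =
        l1 ++ p :: Fm p q u w (A s a) :: (α'.map (A s)).map (Fm p q u w) := by
      simp only [insB, hp, ← hq]
      rw [h3]
      simp
    have e2 : insB (l ++ [lerp (l.getLastD 0) q s]) (a :: α') u w =
        l1 ++ p :: (([s / (s + (1 - s) * a.1)] : List ℝ).map (lerp p (Fm p q u w (A s a)))) ++
          Fm p q u w (A s a) :: (α'.map (A s)).map (Fm p q u w) := by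
      rw [hp]
      simp only [insB, hq2]
      have h5 : (l ++ [lerp p q s]).getLastD 0 = lerp p q s := by simp
      rw [h5]
      have h6 : Fm (lerp p q s) q u w = Fm p q u w ∘ A s := by
        funext x
        exact Fm_A p q u w s x
      rw [h6]
      simp only [List.map_cons, List.map_nil, List.map_map]
      rw [haA, point hs hs1 ha.1, ← haA, h3]
      simp
    rw [e1] at hS ⊢
    rw [e2]
    refine (h4 l1 ((α'.map (A s)).map (Fm p q u w)) p (Fm p q u w (A s a))
      [s / (s + (1 - s) * a.1)] (by simp) ?_).2 hS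
    intro t ht
    rw [List.mem_singleton] at ht
    subst ht
    have h7 : 0 < (1 - s) * a.1 := mul_pos (by linarith) ha.1
    have h8 : 0 < s + (1 - s) * a.1 := by linarith
    exact ⟨div_pos hs h8, (div_lt_one h8).2 (by linarith)⟩

/-- the bead can be moved to the second part of the edge -/
theorem gs_A (h1 : S_fam) {κ : ℝ} {l α : List V} {s : ℝ} (hl : Simple l) (hb : IsBead κ α)
    (hs : 0 < s) (hs1 : s < 1) : GS l α l (α.map (A s)) := by
  have hκ := bead_nonneg hb
  have h2 := h1 l.length α.length (fun _ => l.get) (fun t i => A (s * t) (α.get i))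
    (κ / (1 - s)) (div_nonneg hκ (by linarith)) (fun _ => continuous_const) ?_ ?_ ?_
  · simp only [mul_zero, mul_one, A_zero] at h2
    have e1 : List.ofFn l.get = l := List.ofFn_get l
    have e2 : List.ofFn (fun i => α.get i) = α := List.ofFn_get α
    have e3 : List.ofFn (fun i => A s (α.get i)) = α.map (A s) := by
      have : (fun i => A s (α.get i)) = A s ∘ α.get := rfl
      rw [this, ← List.map_ofFn, List.ofFn_get]
    rw [e1, e2, e3] at h2
    exact h2
  · intro i
    simp only [A]
    fun_prop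
  · intro t _ _
    rw [List.ofFn_get]
    exact hl
  · intro t ht0 ht1
    have e3 : List.ofFn (fun i => A (s * t) (α.get i)) = α.map (A (s * t)) := by
      have : (fun i => A (s * t) (α.get i)) = A (s * t) ∘ α.get := rfl
      rw [this, ← List.map_ofFn, List.ofFn_get]
    rw [e3]
    have h5 : s * t ≤ s := by nlinarith
    refine bead_mono (bead_A hb (mul_nonneg hs.le ht0) (by linarith)) ?_
    exact div_le_div_of_nonneg_left hκ (by linarith) (by linarith)

end SUBL

theorem S_subL_proof (h1 : S_fam) (h2 : S_cone) (h3 : S_bead) (h4 : S_sub) : S_subL := by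
  intro κ l α s hl hb hs hs1 u w u' w' hd hd'
  have hlne : l ≠ [] := hl.1
  have hκ := SUBL.bead_nonneg hb
  set p : V := l.getLastD 0 with hp
  set q : V := l.headD 0 with hq
  have e1 : (l ++ [lerp p q s]).headD 0 = q := by
    obtain ⟨b, l', hl'⟩ := List.exists_cons_of_ne_nil hlne
    rw [hq, hl']
    simp
  have e2 : (l ++ [lerp p q s]).getLastD 0 = lerp p q s := by simp
  rw [e1, e2, SUBL.sub_lerp] at hd'
  have e3 : det3 ((1 - s) • (q - p)) u' w' = (1 - s) * det3 (q - p) u' w' := by
    have := SUBL.det_smul (q - p) u' w' (1 - s) 1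
    simpa using this
  rw [e3] at hd'
  have hd2 : 0 < det3 (q - p) u' w' := by
    rcases (mul_pos_iff.1 hd') with h | h
    · exact h.2
    · linarith [h.1]
  obtain ⟨δ1, hδ1, H1⟩ := SUBL.gs_A h1 hl hb hs hs1 u w u' w' hd hd2
  have hbA := SUBL.bead_A hb hs.le hs1
  obtain ⟨δ2, hδ2, H2⟩ := h2 l.length (fun _ => l.get) (fun _ => u') (fun _ => w')
    (κ / (1 - s)) (div_nonneg hκ (by linarith)) (fun _ => continuous_const) continuous_const
    continuous_const (fun t _ _ => by rw [List.ofFn_get]; exact hl)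
  refine ⟨min δ1 δ2, lt_min hδ1 hδ2, ?_⟩
  intro δ δ' hδ hδle hδ' hδle'
  have H3 := H1 δ δ' hδ (hδle.trans (min_le_left _ _)) hδ' (hδle'.trans (min_le_left _ _))
  have H4 := H2 0 le_rfl zero_le_one δ' hδ' (hδle'.trans (min_le_right _ _))
  simp only [List.ofFn_get] at H4
  have H5 : Simple (insB l (α.map (SUBL.A s)) (δ' • u') (δ' • w')) := by
    refine h3 (κ / (1 - s)) l _ _ _ hl hbA H4 ?_
    have := SUBL.det_smul (q - p) u' w' 1 δ'
    rw [one_smul] at this
    rw [← hp, ← hq, this]
    positivity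
  exact H3.trans (SUBL.same_sub h4 (δ' • u') (δ' • w') hlne hb hs hs1 H5)

end KN
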