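import Pool.Agent.H246KN.Stubs

/-!
# Task SUBM: subdivision of an edge which does not carry the bead (helper959)
-/

set_option autoImplicit false

namespace KN

namespace SUBM

/-- The constant of a bead is non-negative. -/
theorem kap_nonneg {κ : ℝ} {α : List V} (h : IsBead κ α) : 0 ≤ κ := by
  obtain ⟨p, hp⟩ := List.exists_mem_of_ne_nil α h.ne
  obtain ⟨h0, h1, h2⟩ := h.cone p hp
  obtain ⟨-, -, h3, -⟩ := h2
  have hm : 0 < min p.1 (1 - p.1) := lt_min h0 (by linarith)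
  by_contra hk
  push Not at hk
  have := abs_nonneg p.2.1
  nlinarith

theorem det3_smul (x u w : V) (δ : ℝ) : det3 x (δ • u) (δ • w) = δ ^ 2 * det3 x u w := by
  simp only [det3, Prod.smul_fst, Prod.smul_snd, smul_eq_mul]
  ring

/-- A small bead on a simple polygon gives a simple polygon. -/
theorem simple_insB (h1 : S_cone) (h2 : S_bead) {κ : ℝ} {l α : List V} (hl : Simple l)
    (hα : IsBead κ α) {u w : V} (hd : 0 < det3 (l.headD 0 - l.getLastD 0) u w) :
    ∃ δ₀ : ℝ, 0 < δ₀ ∧ ∀ δ : ℝ, 0 < δ → δ ≤ δ₀ → Simple (insB l α (δ • u) (δ • w)) := by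
  have hof : List.ofFn (fun i : Fin l.length => l.get i) = l := List.ofFn_get l
  obtain ⟨δ₀, h0, hδ⟩ := h1 l.length (fun _ i => l.get i) (fun _ => u) (fun _ => w) κ
    (kap_nonneg hα) (fun _ => continuous_const) continuous_const continuous_const
    (fun t _ _ => by rw [hof]; exact hl)
  refine ⟨δ₀, h0, fun δ hδ0 hδ1 => ?_⟩
  have hCF := hδ 0 le_rfl zero_le_one δ hδ0 hδ1
  rw [hof] at hCF
  refine h2 κ l α (δ • u) (δ • w) hl hα hCF ?_
  rw [det3_smul]
  positivity

theorem head_eq (l1 l2 : List V) (p q m : V) :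
    (l1 ++ p :: m :: q :: l2).headD 0 = (l1 ++ p :: q :: l2).headD 0 := by
  cases l1 <;> rfl

theorem last_eq (l1 l2 : List V) (p q m : V) :
    (l1 ++ p :: m :: q :: l2).getLastD 0 = (l1 ++ p :: q :: l2).getLastD 0 := by
  simp [List.getLastD_eq_getLast?, List.getLast?_append, List.getLast?_cons]

end SUBM

theorem S_subM_proof (h1 : S_cone) (h2 : S_bead) (h3 : S_sub) (h4 : S_gsRefl) : S_subM := by
  intro κ l1 l2 α p q s hl hα hs0 hs1 u w u' w' hd hd'
  rw [SUBM.head_eq, SUBM.last_eq] at hd'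
  obtain ⟨δ₁, hδ₁, k1⟩ := h4 κ _ α hl hα u w u' w' hd hd'
  obtain ⟨δ₂, hδ₂, k2⟩ := SUBM.simple_insB h1 h2 hl hα hd'
  refine ⟨min δ₁ δ₂, lt_min hδ₁ hδ₂, fun δ δ' a1 a2 a3 a4 => ?_⟩
  refine (k1 δ δ' a1 (a2.trans (min_le_left _ _)) a3 (a4.trans (min_le_left _ _))).trans ?_
  have hS := k2 δ' a3 (a4.trans (min_le_right _ _))
  unfold insB at hS ⊢
  rw [SUBM.head_eq, SUBM.last_eq]
  have := (h3 l1 (l2 ++ α.map (Fm ((l1 ++ p :: q :: l2).getLastD 0)
    ((l1 ++ p :: q :: l2).headD 0) (δ' • u') (δ' • w'))) p q [s] (List.pairwise_singleton _ _)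
    (by simpa using ⟨hs0, hs1⟩)).2
  simp only [List.append_assoc, List.cons_append, List.map_cons, List.map_nil,
    List.nil_append] at this hS ⊢
  exact this hS

end KN
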