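import Pool.Agent.H246KN.Stubs

/-!
# Subdivision of the closing edge, bead on the first part
-/

set_option autoImplicit false

namespace KN

open Finset Filter Topology
open scoped Classical

namespace SUBR

/-- the affine map that sends `[0, (1,0,0)]` to `[0, (σ,0,0)]` -/
noncomputable def B (σ : ℝ) (p : V) : V := (σ * p.1, p.2.1, p.2.2)

theorem B_lerp (σ : ℝ) (p q : V) (u : ℝ) : B σ (lerp p q u) = lerp (B σ p) (B σ q) u := by
  obtain ⟨x, y, z⟩ := p
  obtain ⟨x', y', z'⟩ := q
  simp only [B, lerp, Prod.smul_mk, smul_eq_mul, Prod.mk_add_mk, Prod.mk.injEq, and_true]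
  ring

theorem B_inj {σ : ℝ} (hσ : 0 < σ) {p q : V} (h : B σ p = B σ q) : p = q := by
  obtain ⟨x, y, z⟩ := p
  obtain ⟨x', y', z'⟩ := q
  simp only [B, Prod.mk.injEq] at h
  obtain ⟨h1, h2, h3⟩ := h
  have h5 : x = x' := mul_left_cancel₀ hσ.ne' h1
  simp only [Prod.mk.injEq]
  exact ⟨h5, h2, h3⟩

theorem B_one (p : V) : B 1 p = p := by
  simp [B]

theorem B_zero (σ : ℝ) : B σ 0 = 0 := by
  simp only [B, Prod.fst_zero, Prod.snd_zero, mul_zero]
  rfl

theorem mem_chain {p : V} {l : List V} {e : V × V} (h : e ∈ chain p l) :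
    e.1 ∈ p :: l ∧ e.2 ∈ l := by
  induction l generalizing p with
  | nil => simp [chain] at h
  | cons q l ih =>
    simp only [chain, List.mem_cons] at h
    rcases h with rfl | h
    · simp
    · have := ih h
      exact ⟨List.mem_cons_of_mem _ this.1, List.mem_cons_of_mem _ this.2⟩

theorem bead_nonneg {κ : ℝ} {α : List V} (h : IsBead κ α) : 0 ≤ κ := by
  obtain ⟨a, α', rfl⟩ := List.exists_cons_of_ne_nil h.ne
  obtain ⟨h1, h2, h3⟩ := h.cone a (by simp)
  obtain ⟨_, _, h4, _⟩ := h3
  by_contra hk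
  have h5 : 0 < min a.1 (1 - a.1) := lt_min h1 (by linarith)
  have h6 : κ * min a.1 (1 - a.1) < 0 := mul_neg_of_neg_of_pos (not_le.1 hk) h5
  have := abs_nonneg a.2.1
  linarith

theorem bead_mono {κ κ' : ℝ} {α : List V} (h : IsBead κ α) (hk : κ ≤ κ') : IsBead κ' α where
  ne := h.ne
  cone := by
    intro p hp
    obtain ⟨h1, h2, h3, h4, h5, h6⟩ := h.cone p hp
    have h7 : κ * min p.1 (1 - p.1) ≤ κ' * min p.1 (1 - p.1) :=
      mul_le_mul_of_nonneg_right hk (le_min h3 (by linarith))
    exact ⟨h1, h2, h3, h4, h5.trans h7, h6.trans h7⟩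
  disj := h.disj
  nd := h.nd
  hd := h.hd
  lst := h.lst

theorem chain_snoc (p a b : V) (l : List V) :
    chain p ((l ++ [a]) ++ [b]) = chain p (l ++ [a]) ++ [(a, b)] := by
  rw [List.append_assoc]
  exact chain_append p a l [b]

theorem bead_B {κ : ℝ} {α : List V} (h : IsBead κ α) {σ : ℝ} (h0 : 0 < σ) (h1 : σ ≤ 1) :
    IsBead (κ / σ) (α.map (B σ)) := by
  have hκ := bead_nonneg h
  obtain ⟨α', a, rfl⟩ : ∃ α' a, α = α' ++ [a] := by
    rcases List.eq_nil_or_concat α with h3 | ⟨β, b, h3⟩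
    · exact absurd h3 h.ne
    · exact ⟨β, b, by rw [h3, List.concat_eq_append]⟩
  have ha := h.cone a (by simp)
  have ha2 : a.2 = 0 := by simpa using h.lst
  have ha21 : a.2.1 = 0 := by rw [ha2]; rfl
  have ha22 : a.2.2 = 0 := by rw [ha2]; rfl
  have hlt : σ * a.1 < 1 := by nlinarith [ha.1, ha.2.1]
  have hch : chain 0 ((α' ++ [a]).map (B σ) ++ [((1, 0, 0) : V)]) =
      (chain 0 (α' ++ [a])).map (fun e => (B σ e.1, B σ e.2)) ++ [(B σ a, (1, 0, 0))] := by
    rw [← chain_map, List.map_append, List.map_cons, List.map_nil, chain_snoc, B_zero]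
  have hch0 : chain 0 ((α' ++ [a]) ++ [((1, 0, 0) : V)]) =
      chain 0 (α' ++ [a]) ++ [(a, (1, 0, 0))] := chain_snoc _ _ _ _
  have hd := h.disj
  rw [hch0, List.pairwise_append] at hd
  have hnd := h.nd
  rw [hch0] at hnd
  refine ⟨by simp, ?_, ?_, ?_, ?_, ?_⟩
  · intro p hp
    rw [List.mem_map] at hp
    obtain ⟨q, hq, rfl⟩ := hp
    obtain ⟨g1, g2, g3, g4, g5, g6⟩ := h.cone q hq
    have e1 : 0 < σ * q.1 := mul_pos h0 g1
    have e2 : 0 ≤ (1 - σ) * (1 - q.1) := mul_nonneg (by linarith) (by linarith)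
    have e5 : σ * q.1 < 1 := by nlinarith
    have e3 : σ * min q.1 (1 - q.1) ≤ min (σ * q.1) (1 - (σ * q.1)) := by
      refine le_min ?_ ?_
      · exact mul_le_mul_of_nonneg_left (min_le_left q.1 (1 - q.1)) h0.le
      · have := mul_le_mul_of_nonneg_left (min_le_right q.1 (1 - q.1)) h0.le
        linarith
    have e4 : κ * min q.1 (1 - q.1) ≤ κ / σ * min (σ * q.1) (1 - (σ * q.1)) := by
      have := mul_le_mul_of_nonneg_left e3 (div_nonneg hκ h0.le)
      refine le_trans (le_of_eq ?_) this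
      field_simp
    exact ⟨e1, e5, e1.le, e5.le, g5.trans e4, g6.trans e4⟩
  · rw [hch, List.pairwise_append]
    refine ⟨?_, by simp, ?_⟩
    · rw [List.pairwise_map]
      refine hd.1.imp ?_
      intro e e' hee u v hu hu1 hv hv1 heq
      simp only at heq
      rw [← B_lerp, ← B_lerp] at heq
      exact hee u v hu hu1 hv hv1 (B_inj h0 heq)
    · intro e' he' e'' he''
      rw [List.mem_singleton] at he''
      subst he''
      rw [List.mem_map] at he'
      obtain ⟨e, he, rfl⟩ := he'
      intro u v hu hu1 hv hv1 heq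
      simp only at heq
      rw [← B_lerp] at heq
      set X : V := lerp e.1 e.2 u with hX
      have hmem := mem_chain he
      have hnn : ∀ q ∈ (0 : V) :: (α' ++ [a]), q.1 < 1 := by
        intro q hq
        rw [List.mem_cons] at hq
        rcases hq with rfl | hq
        · norm_num
        · exact (h.cone q hq).2.1
      have hX1 : X.1 < 1 := by
        have k1 := hnn e.1 hmem.1
        have k2 := hnn e.2 (List.mem_cons_of_mem _ hmem.2)
        have : X.1 = (1 - u) * e.1.1 + u * e.2.1 := by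
          simp [hX, lerp]
        rw [this]
        nlinarith
      have c1 : σ * X.1 = (1 - v) * (σ * a.1) + v := by
        have := congrArg Prod.fst heq
        simpa [lerp, B] using this
      have c2 : X.2.1 = 0 := by
        have := congrArg (fun p : V => p.2.1) heq
        simpa [lerp, B, ha21] using this
      have c3 : X.2.2 = 0 := by
        have := congrArg (fun p : V => p.2.2) heq
        simpa [lerp, B, ha22] using this
      have c4 : a.1 ≤ X.1 := by
        have h5 : σ * a.1 ≤ σ * X.1 := by nlinarith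
        exact le_of_mul_le_mul_left h5 h0
      have h6 : 0 < 1 - a.1 := by linarith [ha.2.1]
      refine hd.2.2 e he _ (List.mem_singleton.2 rfl) u ((X.1 - a.1) / (1 - a.1)) hu hu1
        (div_nonneg (by linarith) h6.le) ((div_lt_one h6).2 (by linarith)) ?_
      rw [← hX]
      have hane : 1 - a.1 ≠ 0 := h6.ne'
      refine Prod.ext ?_ (Prod.ext ?_ ?_)
      · simp [lerp]
        field_simp
        ring
      · simp [lerp, ha21, c2]
      · simp [lerp, ha22, c3]
  · rw [hch]
    intro e' he'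
    rw [List.mem_append] at he'
    rcases he' with he' | he'
    · rw [List.mem_map] at he'
      obtain ⟨e, he, rfl⟩ := he'
      intro heq
      exact hnd e (List.mem_append_left _ he) (B_inj h0 heq)
    · rw [List.mem_singleton] at he'
      subst he'
      intro heq
      simp only at heq
      have := congrArg Prod.fst heq
      simp only [B] at this
      linarith
  · have h2 := h.hd
    obtain ⟨b, β, hβ⟩ := List.exists_cons_of_ne_nil h.ne
    rw [hβ] at h2 ⊢
    simp only [List.map_cons, List.headD_cons, B] at h2 ⊢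
    rw [h2]
  · simp only [List.map_append, List.map_cons, List.map_nil, List.getLastD_concat, B]
    rw [ha2]

/-- the affine maps fit -/
theorem Fm_B (p q u w : V) (s : ℝ) (x : V) :
    Fm p (lerp p q s) u w x = Fm p q u w (B s x) := by
  obtain ⟨p1, p2, p3⟩ := p
  obtain ⟨q1, q2, q3⟩ := q
  obtain ⟨u1, u2, u3⟩ := u
  obtain ⟨w1, w2, w3⟩ := w
  obtain ⟨x1, x2, x3⟩ := x
  simp only [Fm, lerp, B, Prod.smul_mk, smul_eq_mul, Prod.mk_add_mk, Prod.mk_sub_mk,
    Prod.mk.injEq]
  refine ⟨by ring, by ring, by ring⟩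

theorem det_smul (D u w : V) (c δ : ℝ) :
    det3 (c • D) (δ • u) (δ • w) = c * δ ^ 2 * det3 D u w := by
  obtain ⟨d1, d2, d3⟩ := D
  obtain ⟨u1, u2, u3⟩ := u
  obtain ⟨w1, w2, w3⟩ := w
  simp only [det3, Prod.smul_mk, smul_eq_mul]
  ring

theorem lerp_sub (p q : V) (s : ℝ) : lerp p q s - p = s • (q - p) := by
  obtain ⟨p1, p2, p3⟩ := p
  obtain ⟨q1, q2, q3⟩ := q
  simp only [lerp, Prod.smul_mk, smul_eq_mul, Prod.mk_add_mk, Prod.mk_sub_mk, Prod.mk.injEq]
  refine ⟨by ring, by ring, by ring⟩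

/-- the point on the last edge of the bead -/
theorem point {p q u w : V} {s x : ℝ} (hs : 0 < s) (hs1 : s < 1) (hx1 : x < 1) :
    lerp (Fm p q u w (s * x, 0, 0)) q (s * (1 - x) / (1 - s * x)) = lerp p q s := by
  have h : 1 - s * x ≠ 0 := by
    have : 0 < 1 - s * x := by nlinarith
    exact this.ne'
  obtain ⟨p1, p2, p3⟩ := p
  obtain ⟨q1, q2, q3⟩ := q
  obtain ⟨u1, u2, u3⟩ := u
  obtain ⟨w1, w2, w3⟩ := w
  simp only [Fm, lerp, Prod.smul_mk, smul_eq_mul, Prod.mk_add_mk, Prod.mk_sub_mk,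
    Prod.mk.injEq]
  refine ⟨?_, ?_, ?_⟩ <;> · field_simp; ring

/-- the polygon with the longer bead is the subdivided polygon with the bead -/
theorem same_sub (h4 : S_sub) (h5 : S_rot) {κ : ℝ} {l α : List V} {s : ℝ} (u w : V)
    (hl : l ≠ []) (hb : IsBead κ α) (hs : 0 < s) (hs1 : s < 1)
    (hS : Simple (insB l (α.map (B s)) u w)) :
    Same (insB l (α.map (B s)) u w)
      (insB (lerp (l.getLastD 0) (l.headD 0) s :: l) α u w) := by
  obtain ⟨α', a, rfl⟩ : ∃ α' a, α = α' ++ [a] := by
    rcases List.eq_nil_or_concat α with h3 | ⟨β, b, h3⟩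
    · exact absurd h3 hb.ne
    · exact ⟨β, b, by rw [h3, List.concat_eq_append]⟩
  have ha := hb.cone a (by simp)
  have ha2 : a.2 = 0 := by simpa using hb.lst
  have haB : B s a = (s * a.1, 0, 0) := by
    simp only [B]
    rw [ha2]
    rfl
  obtain ⟨q, l0, rfl⟩ := List.exists_cons_of_ne_nil hl
  set p : V := (q :: l0).getLastD 0 with hp
  have hp2 : (lerp p q s :: q :: l0).getLastD 0 = p := by
    rw [hp]
    simp
  set G : V := Fm p q u w (B s a) with hG
  set β : List V := (α'.map (B s)).map (Fm p q u w) with hβ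
  have e1 : insB (q :: l0) ((α' ++ [a]).map (B s)) u w = (q :: (l0 ++ β)) ++ [G] := by
    simp only [insB, ← hp, List.headD_cons]
    simp [hβ, hG]
  have e2 : insB (lerp p q s :: q :: l0) (α' ++ [a]) u w =
      (lerp p q s :: q :: (l0 ++ β)) ++ [G] := by
    simp only [insB, hp2, List.headD_cons]
    have h6 : Fm p (lerp p q s) u w = Fm p q u w ∘ B s := by
      funext x
      exact Fm_B p q u w s x
    rw [h6]
    simp [hβ, hG]
  rw [List.headD_cons, e2]
  rw [e1] at hS ⊢
  have r1 := h5 (q :: (l0 ++ β)) [G] hS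
  have r2 := h4 [] (l0 ++ β) G q [s * (1 - a.1) / (1 - s * a.1)] (by simp) (by
    intro t ht
    rw [List.mem_singleton] at ht
    subst ht
    have k1 : 0 < 1 - s * a.1 := by nlinarith [ha.1, ha.2.1]
    have k2 : 0 < s * (1 - a.1) := mul_pos hs (by linarith [ha.2.1])
    exact ⟨div_pos k2 k1, (div_lt_one k1).2 (by nlinarith)⟩)
  have e3 : lerp G q (s * (1 - a.1) / (1 - s * a.1)) = lerp p q s := by
    rw [hG, haB]
    exact point hs hs1 ha.2.1
  simp only [List.nil_append, List.map_cons, List.map_nil, e3, List.cons_append] at r2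
  have r3 : Simple (G :: q :: (l0 ++ β)) := r1.1
  have r4 := h5 [G] (lerp p q s :: q :: (l0 ++ β)) (r2.1.1 r3)
  exact (r1.2.trans (r2.2 r3)).trans r4.2

/-- the bead can be moved to the first part of the edge -/
theorem gs_B (h1 : S_fam) {κ : ℝ} {l α : List V} {s : ℝ} (hl : Simple l) (hb : IsBead κ α)
    (hs : 0 < s) (hs1 : s < 1) : GS l α l (α.map (B s)) := by
  have hκ := bead_nonneg hb
  have h2 := h1 l.length α.length (fun _ => l.get) (fun t i => B (1 - (1 - s) * t) (α.get i))
    (κ / s) (div_nonneg hκ hs.le) (fun _ => continuous_const) ?_ ?_ ?_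
  · simp only [mul_zero, mul_one, sub_zero, sub_sub_cancel, B_one] at h2
    have e1 : List.ofFn l.get = l := List.ofFn_get l
    have e2 : List.ofFn (fun i => α.get i) = α := List.ofFn_get α
    have e3 : List.ofFn (fun i => B s (α.get i)) = α.map (B s) := by
      have : (fun i => B s (α.get i)) = B s ∘ α.get := rfl
      rw [this, ← List.map_ofFn, List.ofFn_get]
    rw [e1, e2, e3] at h2
    exact h2
  · intro i
    simp only [B]
    fun_prop
  · intro t _ _
    rw [List.ofFn_get]
    exact hl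
  · intro t ht0 ht1
    have e3 : List.ofFn (fun i => B (1 - (1 - s) * t) (α.get i)) =
        α.map (B (1 - (1 - s) * t)) := by
      have : (fun i => B (1 - (1 - s) * t) (α.get i)) = B (1 - (1 - s) * t) ∘ α.get := rfl
      rw [this, ← List.map_ofFn, List.ofFn_get]
    rw [e3]
    have k1 : (1 - s) * t ≤ 1 - s := by nlinarith
    have k2 : 0 ≤ (1 - s) * t := mul_nonneg (by linarith) ht0
    refine bead_mono (bead_B hb (by linarith) (by linarith)) ?_
    exact div_le_div_of_nonneg_left hκ hs (by linarith)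

end SUBR

theorem S_subR_proof (h1 : S_fam) (h2 : S_cone) (h3 : S_bead) (h4 : S_sub) (h5 : S_rot) :
    S_subR := by
  intro κ l α s hl hb hs hs1 u w u' w' hd hd'
  have hlne : l ≠ [] := hl.1
  have hκ := SUBR.bead_nonneg hb
  set p : V := l.getLastD 0 with hp
  set q : V := l.headD 0 with hq
  have e1 : (lerp p q s :: l).headD 0 = lerp p q s := rfl
  have e2 : (lerp p q s :: l).getLastD 0 = p := by
    obtain ⟨b, l', hl'⟩ := List.exists_cons_of_ne_nil hlne
    rw [hp, hl']
    simp
  rw [e1, e2, SUBR.lerp_sub] at hd'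
  have e3 : det3 (s • (q - p)) u' w' = s * det3 (q - p) u' w' := by
    have := SUBR.det_smul (q - p) u' w' s 1
    simpa using this
  rw [e3] at hd'
  have hd2 : 0 < det3 (q - p) u' w' := by
    rcases (mul_pos_iff.1 hd') with h | h
    · exact h.2
    · linarith [h.1]
  obtain ⟨δ1, hδ1, H1⟩ := SUBR.gs_B h1 hl hb hs hs1 u w u' w' hd hd2
  have hbB := SUBR.bead_B hb hs hs1.le
  obtain ⟨δ2, hδ2, H2⟩ := h2 l.length (fun _ => l.get) (fun _ => u') (fun _ => w')
    (κ / s) (div_nonneg hκ hs.le) (fun _ => continuous_const) continuous_const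
    continuous_const (fun t _ _ => by rw [List.ofFn_get]; exact hl)
  refine ⟨min δ1 δ2, lt_min hδ1 hδ2, ?_⟩
  intro δ δ' hδ hδle hδ' hδle'
  have H3 := H1 δ δ' hδ (hδle.trans (min_le_left _ _)) hδ' (hδle'.trans (min_le_left _ _))
  have H4 := H2 0 le_rfl zero_le_one δ' hδ' (hδle'.trans (min_le_right _ _))
  simp only [List.ofFn_get] at H4
  have H5 : Simple (insB l (α.map (SUBR.B s)) (δ' • u') (δ' • w')) := by
    refine h3 (κ / s) l _ _ _ hl hbB H4 ?_
    have := SUBR.det_smul (q - p) u' w' 1 δ'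
    rw [one_smul] at this
    rw [← hp, ← hq, this]
    positivity
  exact H3.trans (SUBR.same_sub h4 h5 (δ' • u') (δ' • w') hlne hb hs hs1 H5)

end KN
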