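import Pool.Agent.H246KN.Stubs

set_option autoImplicit false

namespace KN

open Finset Filter Topology
open scoped Classical

theorem S_sum_proof (h1 : S_ins) (h2 : S_rem) : S_sum := by
  intro Q hQ n hn F
  rw [Finset.sum_sigma', Finset.sum_sigma']
  refine Finset.sum_bij'
    (fun (x : (_ : List Dir) × (ℕ × Dir)) _ => (⟨ins x.1 x.2.1 x.2.2, x.2.1⟩ :
      (_ : List Dir) × ℕ))
    (fun (y : (_ : List Dir) × ℕ) _ => (⟨rem y.1 y.2, (y.2, y.1.getD (y.2 + 2) .xp)⟩ :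
      (_ : List Dir) × (ℕ × Dir))) ?_ ?_ ?_ ?_ ?_
  · rintro ⟨w, i, d⟩ hx
    rw [Finset.mem_sigma, mem_K, mem_sites] at hx
    obtain ⟨⟨hl, hS, hq⟩, hs⟩ := hx
    obtain ⟨hS', hl', hb, -, -⟩ := h1 w i d hS hs
    rw [Finset.mem_sigma, mem_K, mem_bumps]
    refine ⟨⟨?_, hS', (hQ w hS i d hs).1 hq⟩, hb⟩
    show (ins w i d).length = n + 2
    rw [hl']
    exact congrArg (· + 2) hl
  · rintro ⟨w, j⟩ hy
    rw [Finset.mem_sigma, mem_K, mem_bumps] at hy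
    obtain ⟨⟨hl, hS, hq⟩, hb⟩ := hy
    have hl1 : w.length = n + 2 := hl
    obtain ⟨hS', hl', hs, hi⟩ := h2 w j hS (by omega) hb
    rw [Finset.mem_sigma, mem_K, mem_sites]
    refine ⟨⟨?_, hS', (hQ _ hS' j _ hs).2 (by rw [hi]; exact hq)⟩, hs⟩
    show (rem w j).length = n
    omega
  · rintro ⟨w, i, d⟩ hx
    rw [Finset.mem_sigma, mem_K, mem_sites] at hx
    obtain ⟨⟨hl, hS, hq⟩, hs⟩ := hx
    obtain ⟨-, -, -, h3, h4⟩ := h1 w i d hS hs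
    show (⟨rem (ins w i d) i, (i, (ins w i d).getD (i + 2) .xp)⟩ : (_ : List Dir) × (ℕ × Dir)) =
      ⟨w, i, d⟩
    rw [h3, h4]
  · rintro ⟨w, j⟩ hy
    rw [Finset.mem_sigma, mem_K, mem_bumps] at hy
    obtain ⟨⟨hl, hS, hq⟩, hb⟩ := hy
    have hl1 : w.length = n + 2 := hl
    obtain ⟨-, -, -, hi⟩ := h2 w j hS (by omega) hb
    show (⟨ins (rem w j) j (w.getD (j + 2) .xp), j⟩ : (_ : List Dir) × ℕ) = ⟨w, j⟩
    rw [hi]
  · rintro ⟨w, i, d⟩ hx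
    rw [Finset.mem_sigma, mem_K, mem_sites] at hx
    obtain ⟨⟨hl, hS, hq⟩, hs⟩ := hx
    obtain ⟨-, -, -, h3, -⟩ := h1 w i d hS hs
    show F w (ins w i d) = F (rem (ins w i d) i) (ins w i d)
    rw [h3]

end KN
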