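import Pool.Agent.H246KN.Stubs

/-!
# Task SUP: supermultiplicativity
-/

set_option autoImplicit false

namespace KN

open Finset Filter Topology
open scoped Classical

namespace SUP

/-- the indices of the vertices in the block of `v` -/
theorem block (l1 v l2 : List Dir) (h : GH l1 v l2) (i : ℕ) :
    (i ≤ (glue l1 v l2).length ∧ (pos l2).1 < (pos ((glue l1 v l2).drop i)).1) ↔
      (l1.length + 1 ≤ i ∧ i ≤ l1.length + 1 + v.length) := by
  obtain ⟨_, h1, h2, h3⟩ := h
  have hv : pos v = (0, 0, 1) := by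
    have := h2.2.1
    rw [pos] at this
    have h4 : pos v = - vec .zm := eq_neg_of_add_eq_zero_left this
    rw [h4]; decide
  constructor
  · rintro ⟨hi, hlt⟩
    by_contra hcon
    rw [not_and_or, not_le, not_le] at hcon
    rcases hcon with hc | hc
    · have hi1 : i ≤ l1.length := by omega
      have hmem : pos ((l1 ++ .zp :: l2).drop i) ∈ path (l1 ++ .zp :: l2) := by
        rw [mem_path_iff]
        exact ⟨i, by simp; omega, rfl⟩
      have h5 := h1 _ hmem
      rw [List.drop_append_of_le_length hi1, pos_append, pos] at h5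
      rw [glue, List.drop_append_of_le_length hi1, pos_append, pos, pos_append, pos, hv] at hlt
      simp only [vec, Prod.fst_add] at h5 hlt
      omega
    · obtain ⟨j, rfl⟩ := Nat.exists_eq_add_of_le (Nat.succ_le_of_lt hc)
      have hj : j ≤ l2.length := by
        simp only [glue, List.length_append, List.length_cons] at hi
        omega
      have e1 : (glue l1 v l2).drop ((l1.length + 1 + v.length).succ + j) = l2.drop j := by
        have : glue l1 v l2 = (l1 ++ (.xm :: (v ++ [Dir.xp]))) ++ l2 := by simp [glue]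
        rw [this]
        have hlen : (l1.length + 1 + v.length).succ + j =
            (l1 ++ (Dir.xm :: (v ++ [Dir.xp]))).length + j := by simp; omega
        rw [hlen, List.drop_length_add_append]
      have hmem : pos (l2.drop j) ∈ path (l1 ++ .zp :: l2) := by
        rw [mem_path_iff]
        refine ⟨l1.length + 1 + j, by simp; omega, ?_⟩
        have : l1 ++ Dir.zp :: l2 = (l1 ++ [Dir.zp]) ++ l2 := by simp
        rw [this]
        have hlen : l1.length + 1 + j = (l1 ++ [Dir.zp]).length + j := by simp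
        rw [hlen, List.drop_length_add_append]
      rw [e1] at hlt
      exact absurd (h1 _ hmem) (not_le.mpr hlt)
  · rintro ⟨ha, hb⟩
    obtain ⟨j, rfl⟩ := Nat.exists_eq_add_of_le ha
    have hj : j ≤ v.length := by omega
    refine ⟨by simp [glue]; omega, ?_⟩
    have e1 : (glue l1 v l2).drop (l1.length + 1 + j) = v.drop j ++ .xp :: l2 := by
      have : glue l1 v l2 = (l1 ++ [Dir.xm]) ++ (v ++ .xp :: l2) := by simp [glue]
      rw [this]
      have hlen : l1.length + 1 + j = (l1 ++ [Dir.xm]).length + j := by simp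
      rw [hlen, List.drop_length_add_append, List.drop_append_of_le_length hj]
    have hmem : pos (v.drop j) ∈ path v := by
      rw [mem_path_iff]; exact ⟨j, hj, rfl⟩
    have h5 := h3 _ hmem
    rw [e1, pos_append, pos]
    simp only [vec, Prod.fst_add]
    omega

theorem len_le (l1 v l2 l1' v' l2' : List Dir) (h : GH l1 v l2) (h' : GH l1' v' l2')
    (hv : v.length = v'.length) (he : glue l1 v l2 = glue l1' v' l2')
    (hX : (pos l2).1 ≤ (pos l2').1) : l1.length = l1'.length := by
  have k1 := (block l1' v' l2' h' (l1'.length + 1)).mpr ⟨le_rfl, by omega⟩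
  have k2 := (block l1' v' l2' h' (l1'.length + 1 + v'.length)).mpr ⟨by omega, le_rfl⟩
  rw [← he] at k1 k2
  have m1 := (block l1 v l2 h (l1'.length + 1)).mp ⟨k1.1, lt_of_le_of_lt hX k1.2⟩
  have m2 := (block l1 v l2 h (l1'.length + 1 + v'.length)).mp ⟨k2.1, lt_of_le_of_lt hX k2.2⟩
  omega

theorem inj (l1 v l2 l1' v' l2' : List Dir) (h : GH l1 v l2) (h' : GH l1' v' l2')
    (hv : v.length = v'.length) (he : glue l1 v l2 = glue l1' v' l2') :
    l1 = l1' ∧ v = v' ∧ l2 = l2' := by
  have hl : l1.length = l1'.length := by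
    rcases le_total (pos l2).1 (pos l2').1 with hX | hX
    · exact len_le l1 v l2 l1' v' l2' h h' hv he hX
    · exact (len_le l1' v' l2' l1 v l2 h' h hv.symm he.symm hX).symm
  unfold glue at he
  obtain ⟨e1, e2⟩ := List.append_inj he hl
  have e3 : v ++ .xp :: l2 = v' ++ .xp :: l2' := (List.cons.inj e2).2
  obtain ⟨e4, e5⟩ := List.append_inj e3 hv
  exact ⟨e1, e4, (List.cons.inj e5).2⟩

theorem KT_of_same {k : List V} {w w' : List Dir} (h : Same (vl w) (vl w')) :
    KT k w ↔ KT k w' := by
  constructor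
  · rintro (h1 | h1)
    · exact Or.inl (h.symm.trans h1)
    · exact Or.inr (h.symm.trans h1)
  · rintro (h1 | h1)
    · exact Or.inl (h.trans h1)
    · exact Or.inr (h.trans h1)

end SUP

theorem S_super_proof (hg : S_glueSAP) (hg1 : S_glue1) (hw : S_words) (hsq : S_sq)
    (hR : S_quartR) (hL : S_quartL) : S_super := by
  intro k n m
  have hA := hR (KT k) (fun w hS => SUP.KT_of_same ((hw w hS).1.2)) n
  have hB := hL U (fun w hS => SUP.KT_of_same ((hw w hS).1.2))
    (fun w hS j => SUP.KT_of_same (((hw w hS).2.2 j).2)) m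
  set A := (K (KT k) n).filter (fun w => ∃ l1 l2 : List Dir, w = l1 ++ .zp :: l2 ∧
    ∀ p ∈ path w, p.1 ≤ (pos l2).1) with hAdef
  set B := (K U m).filter (fun w => ∃ v : List Dir, w = .zm :: v ∧
    ∀ p ∈ path v, 0 ≤ p.1) with hBdef
  have hA' : ∀ w ∈ A, ∃ l1 l2 : List Dir, w = l1 ++ .zp :: l2 ∧
      ∀ p ∈ path w, p.1 ≤ (pos l2).1 := fun w h => (mem_filter.mp h).2
  have hB' : ∀ w ∈ B, ∃ v : List Dir, w = .zm :: v ∧ ∀ p ∈ path v, 0 ≤ p.1 :=
    fun w h => (mem_filter.mp h).2
  choose! l1 l2 h12 using hA'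
  choose! v hv using hB'
  have hGH : ∀ w ∈ A, ∀ w' ∈ B, GH (l1 w) (v w') (l2 w) := by
    intro w hwA w' hwB
    obtain ⟨e1, e2⟩ := h12 w hwA
    obtain ⟨e3, e4⟩ := hv w' hwB
    have s1 := (mem_K.mp (mem_filter.mp hwA).1).2.1
    have s2 := (mem_K.mp (mem_filter.mp hwB).1).2.1
    refine ⟨e1 ▸ s1, ?_, e3 ▸ s2, e4⟩
    rw [← e1]; exact e2
  have key : A.card * B.card ≤ a (KT k) (n + m) := by
    rw [← card_product]
    unfold a
    refine card_le_card_of_injOn (fun p => glue (l1 p.1) (v p.2) (l2 p.1)) ?_ ?_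
    · rintro ⟨w, w'⟩ hp
      rw [mem_coe, mem_product] at hp
      obtain ⟨hwA, hwB⟩ := hp
      have G := hGH w hwA w' hwB
      have s1 := mem_K.mp (mem_filter.mp hwA).1
      have s2 := mem_K.mp (mem_filter.mp hwB).1
      rw [mem_coe, mem_K]
      refine ⟨?_, hg _ _ _ G, ?_⟩
      · have e1 := s1.1
        have e2 := s2.1
        rw [(h12 w hwA).1] at e1
        rw [(hv w' hwB).1] at e2
        simp only [List.length_append, List.length_cons] at e1 e2
        simp only [glue, List.length_append, List.length_cons]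
        omega
      · have u1 : Same (vl (.zm :: v w')) sq := by
          rw [← (hv w' hwB).1]
          rcases s2.2.2 with h | h
          · exact h
          · exact h.trans hsq.2.2.symm
        have u2 := hg1 _ _ _ G u1
        rw [← (h12 w hwA).1] at u2
        exact (SUP.KT_of_same u2).mpr s1.2.2
    · rintro ⟨w, w'⟩ hp ⟨x, x'⟩ hq he
      rw [mem_coe, mem_product] at hp hq
      obtain ⟨hwA, hwB⟩ := hp
      obtain ⟨hxA, hxB⟩ := hq
      simp only at he hwA hwB hxA hxB
      have lv : (v w').length = (v x').length := by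
        have e1 := (mem_K.mp (mem_filter.mp hwB).1).1
        have e2 := (mem_K.mp (mem_filter.mp hxB).1).1
        rw [(hv w' hwB).1] at e1
        rw [(hv x' hxB).1] at e2
        simp only [List.length_cons] at e1 e2
        omega
      obtain ⟨i1, i2, i3⟩ := SUP.inj _ _ _ _ _ _ (hGH w hwA w' hwB) (hGH x hxA x' hxB) lv he
      have ew : w = x := by rw [(h12 w hwA).1, (h12 x hxA).1, i1, i3]
      have ew' : w' = x' := by rw [(hv w' hwB).1, (hv x' hxB).1, i2]
      rw [ew, ew']
  calc a (KT k) n * a U m ≤ (4 * A.card) * (4 * m * B.card) := Nat.mul_le_mul hA hB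
    _ = 16 * m * (A.card * B.card) := by ring
    _ ≤ 16 * m * a (KT k) (n + m) := Nat.mul_le_mul_left _ key

end KN
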