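import Pool.Agent.H246KN.Stubs

/-! TRANS: symmetry and transitivity of `GS`. -/

set_option autoImplicit false

namespace KN

namespace TRANS

lemma mem_chain (q : V) : ∀ (t : List V) (p : V), ((p :: t).getLastD 0, q) ∈ chain p (t ++ [q])
  | [], p => by simp [chain]
  | a :: t, p => by
    rw [List.cons_append]
    have h := mem_chain q t a
    unfold chain
    refine List.mem_cons_of_mem _ ?_
    have h2 : (p :: a :: t).getLastD 0 = (a :: t).getLastD 0 := by simp
    rw [h2]
    exact h

lemma closing_ne {l : List V} (h : Simple l) : l.headD 0 - l.getLastD 0 ≠ 0 := by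
  obtain ⟨h1, -, h3⟩ := h
  cases l with
  | nil => exact absurd rfl h1
  | cons p t =>
    have h4 := h3 _ (mem_chain p t p)
    intro h5
    apply h4
    exact (sub_eq_zero.1 h5).symm

lemma frame {D : V} (h : D ≠ 0) : ∃ u w : V, 0 < det3 D u w := by
  obtain ⟨a, b, c⟩ := D
  by_cases ha : a = 0
  · by_cases hb : b = 0
    · by_cases hc : c = 0
      · subst ha hb hc
        exact absurd rfl h
      · refine ⟨(1, 0, 0), (0, c, 0), ?_⟩
        have : 0 < c ^ 2 := by positivity
        simp only [det3]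
        nlinarith
    · refine ⟨(0, 0, 1), (b, 0, 0), ?_⟩
      have : 0 < b ^ 2 := by positivity
      simp only [det3]
      nlinarith
  · refine ⟨(0, 1, 0), (0, 0, a), ?_⟩
    have : 0 < a ^ 2 := by positivity
    simp only [det3]
    nlinarith

end TRANS

open TRANS in
theorem S_gsTrans_proof : S_gsTrans := by
  refine ⟨?_, ?_⟩
  · intro l α l' α' h u w u' w' h1 h2
    obtain ⟨d, hd, H⟩ := h u' w' u w h2 h1
    exact ⟨d, hd, fun δ δ' a1 a2 a3 a4 => (H δ' δ a3 a4 a1 a2).symm⟩
  · intro l α l' α' l'' α'' hs h h' u w u' w' h1 h2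
    obtain ⟨v, z, h3⟩ := frame (closing_ne hs)
    obtain ⟨d, hd, H⟩ := h u w v z h1 h3
    obtain ⟨d', hd', H'⟩ := h' v z u' w' h3 h2
    refine ⟨min d d', lt_min hd hd', fun δ δ' a1 a2 a3 a4 => ?_⟩
    have m := lt_min hd hd'
    exact Relation.EqvGen.trans _ _ _ (H δ (min d d') a1 (a2.trans (min_le_left _ _)) m (min_le_left _ _))
      (H' (min d d') δ' m (min_le_right _ _) a3 (a4.trans (min_le_right _ _)))

end KN
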