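import Pool.Agent.H246KN.Stubs

/-! TASK UP (helper580 for helper246): `j` insertions. -/

set_option autoImplicit false

namespace KN

open Finset
open scoped Classical

namespace UP

/-- one step -/
theorem step (hins : S_ins) (hch : S_change) (Q : List Dir → Prop) (hQ : Inv Q) (n β F : ℕ)
    (B : Finset (List Dir)) (hB : B ⊆ K Q n) (hw : ∀ w ∈ B, F ≤ fr w ∧ bu w ≤ β) :
    ∃ B' : Finset (List Dir), B' ⊆ K Q (n + 2) ∧ (∀ w ∈ B', F ≤ fr w + 28 ∧ bu w ≤ β + 5) ∧
      B.card * F ≤ B'.card * (β + 5) := by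
  set B' : Finset (List Dir) := B.biUnion (fun w => (sites w).image (fun q => ins w q.1 q.2))
    with hB'
  have hmem : ∀ w', w' ∈ B' ↔ ∃ w ∈ B, ∃ i d, site w i d ∧ ins w i d = w' := by
    intro w'
    rw [hB', Finset.mem_biUnion]
    constructor
    · rintro ⟨w, hwB, hw'⟩
      rw [Finset.mem_image] at hw'
      obtain ⟨⟨i, d⟩, hq, he⟩ := hw'
      exact ⟨w, hwB, i, d, mem_sites.mp hq, he⟩
    · rintro ⟨w, hwB, i, d, hs, he⟩
      refine ⟨w, hwB, ?_⟩
      rw [Finset.mem_image]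
      exact ⟨(i, d), mem_sites.mpr hs, he⟩
  have hst : ∀ w' ∈ B', F ≤ fr w' + 28 ∧ bu w' ≤ β + 5 := by
    intro w' hw'
    obtain ⟨w, hwB, i, d, hs, rfl⟩ := (hmem w').mp hw'
    have h1 := mem_K.mp (hB hwB)
    have h2 := hch w i d h1.2.1 hs
    have h3 := hw w hwB
    omega
  refine ⟨B', ?_, hst, ?_⟩
  · intro w' hw'
    obtain ⟨w, hwB, i, d, hs, rfl⟩ := (hmem w').mp hw'
    have h1 := mem_K.mp (hB hwB)
    have h2 := hins w i d h1.2.1 hs
    rw [mem_K]
    exact ⟨by rw [h2.2.1, h1.1], h2.1, (hQ w h1.2.1 i d hs).mp h1.2.2⟩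
  · calc B.card * F = ∑ _w ∈ B, F := by rw [Finset.sum_const, smul_eq_mul]
      _ ≤ ∑ w ∈ B, (sites w).card := Finset.sum_le_sum (fun w h => (hw w h).1)
      _ = (B.sigma (fun w => sites w)).card := by rw [Finset.card_sigma]
      _ ≤ (B'.sigma (fun w => bumps w)).card := by
          apply Finset.card_le_card_of_injOn (fun x => ⟨ins x.1 x.2.1 x.2.2, x.2.1⟩)
          · rintro ⟨w, i, d⟩ hx
            rw [Finset.mem_coe, Finset.mem_sigma] at hx
            rw [Finset.mem_coe, Finset.mem_sigma]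
            have hs := mem_sites.mp hx.2
            have h1 := mem_K.mp (hB hx.1)
            have h2 := hins w i d h1.2.1 hs
            exact ⟨(hmem _).mpr ⟨w, hx.1, i, d, hs, rfl⟩, mem_bumps.mpr h2.2.2.1⟩
          · rintro ⟨w, i, d⟩ hx ⟨w', i', d'⟩ hx' he
            rw [Finset.mem_coe, Finset.mem_sigma] at hx hx'
            have hs := mem_sites.mp hx.2
            have hs' := mem_sites.mp hx'.2
            have h2 := hins w i d (mem_K.mp (hB hx.1)).2.1 hs
            have h2' := hins w' i' d' (mem_K.mp (hB hx'.1)).2.1 hs'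
            simp only [Sigma.mk.injEq, heq_eq_eq] at he
            obtain ⟨he1, he2⟩ := he
            subst he2
            have e1 : w = w' := by rw [← h2.2.2.2.1, ← h2'.2.2.2.1, he1]
            have e2 : d = d' := by rw [← h2.2.2.2.2, ← h2'.2.2.2.2, he1]
            rw [e1, e2]
      _ = ∑ w ∈ B', bu w := by rw [Finset.card_sigma]; rfl
      _ ≤ ∑ _w ∈ B', (β + 5) := Finset.sum_le_sum (fun w h => (hst w h).2)
      _ = B'.card * (β + 5) := by rw [Finset.sum_const, smul_eq_mul]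

theorem main (hins : S_ins) (hch : S_change) (Q : List Dir → Prop) (hQ : Inv Q) (F0 β0 : ℕ) :
    ∀ (j n β F : ℕ) (B : Finset (List Dir)), F0 + 28 * j ≤ F → β + 5 * j ≤ β0 → B ⊆ K Q n →
      (∀ w ∈ B, F ≤ fr w ∧ bu w ≤ β) → B.card * F0 ^ j ≤ a Q (n + 2 * j) * β0 ^ j := by
  intro j
  induction j with
  | zero =>
    intro n β F B _ _ hB _
    simp only [pow_zero, mul_one, mul_zero, add_zero]
    exact Finset.card_le_card hB
  | succ j ih =>
    intro n β F B hF hβ hB hw
    obtain ⟨B', hB'1, hB'2, hB'3⟩ := step hins hch Q hQ n β F B hB hw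
    have h1 := ih (n + 2) (β + 5) (F - 28) B' (by omega) (by omega) hB'1 (fun w h => by
      have := hB'2 w h
      omega)
    have h2 : B.card * F0 ≤ B'.card * β0 :=
      (Nat.mul_le_mul_left _ (by omega)).trans (hB'3.trans (Nat.mul_le_mul_left _ (by omega)))
    calc B.card * F0 ^ (j + 1) = (B.card * F0) * F0 ^ j := by ring
      _ ≤ (B'.card * β0) * F0 ^ j := Nat.mul_le_mul_right _ h2
      _ = (B'.card * F0 ^ j) * β0 := by ring
      _ ≤ (a Q (n + 2 + 2 * j) * β0 ^ j) * β0 := Nat.mul_le_mul_right _ h1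
      _ = a Q (n + 2 * (j + 1)) * β0 ^ (j + 1) := by
          rw [show n + 2 + 2 * j = n + 2 * (j + 1) by ring]
          ring

end UP

theorem S_up_proof (hins : S_ins) (hch : S_change) : S_up := by
  intro Q hQ n β F j B _ hF hB hw
  have h := UP.main hins hch Q hQ (F - 28 * j) (β + 5 * j) j n β F B (by omega) le_rfl hB hw
  have h' : ((B.card * (F - 28 * j) ^ j : ℕ) : ℝ) ≤ ((a Q (n + 2 * j) * (β + 5 * j) ^ j : ℕ) : ℝ) :=
    by exact_mod_cast h
  push_cast [Nat.cast_sub hF] at h'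
  exact h'

end KN
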