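import Pool.Agent.H246KN.Stubs

/-!
# Rotations of words and change of the root (task WRD)
-/

set_option autoImplicit false

namespace KN

open Finset Filter Topology
open scoped Classical

namespace WRD

/-- rotation of the lattice around the first axis -/
def RX (p : Z3) : Z3 := (p.1, -p.2.2, p.2.1)

/-- rotation of the lattice by 180 degrees around the third axis -/
def RZ (p : Z3) : Z3 := (-p.1, -p.2.1, p.2.2)

theorem vec_rx (d : Dir) : vec (rx d) = RX (vec d) := by cases d <;> decide

theorem vec_rz (d : Dir) : vec (rz d) = RZ (vec d) := by cases d <;> decide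

theorem RX_add (p q : Z3) : RX (p + q) = RX p + RX q := by
  unfold RX
  ext <;> simp [add_comm]

theorem RZ_add (p q : Z3) : RZ (p + q) = RZ p + RZ q := by
  unfold RZ
  ext <;> simp [add_comm]

theorem RX_inj : Function.Injective RX := by
  rintro ⟨a, b, c⟩ ⟨a', b', c'⟩ h
  simp only [RX, Prod.mk.injEq, neg_inj] at h
  rw [h.1, h.2.1, h.2.2]

theorem RZ_inj : Function.Injective RZ := by
  rintro ⟨a, b, c⟩ ⟨a', b', c'⟩ h
  simp only [RZ, Prod.mk.injEq, neg_inj] at h
  rw [h.1, h.2.1, h.2.2]

/-- images of paths under additive maps -/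
theorem path_map (f : Dir → Dir) (g : Z3 → Z3) (hv : ∀ d, vec (f d) = g (vec d)) (h0 : g 0 = 0)
    (ha : ∀ p q, g (p + q) = g p + g q) (w : List Dir) :
    pos (w.map f) = g (pos w) ∧ path (w.map f) = (path w).map g := by
  induction w with
  | nil => simp [pos, path, h0]
  | cons d w ih =>
    constructor
    · simp only [List.map_cons, pos]
      rw [ih.1, hv, ha]
    · simp only [List.map_cons, path]
      rw [ih.1, ih.2, hv, ha]

theorem SAP_map (f : Dir → Dir) (g : Z3 → Z3) (hv : ∀ d, vec (f d) = g (vec d)) (h0 : g 0 = 0)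
    (ha : ∀ p q, g (p + q) = g p + g q) (hi : Function.Injective g) {w : List Dir} (hw : SAP w) :
    SAP (w.map f) := by
  obtain ⟨h1, h2, h3⟩ := hw
  refine ⟨by simpa using h1, ?_, ?_⟩
  · rw [(path_map f g hv h0 ha w).1, h2, h0]
  · rw [(path_map f g hv h0 ha w).2, ← List.map_tail]
    exact h3.map hi

theorem vl_map (f : Dir → Dir) (g : Z3 → Z3) (hv : ∀ d, vec (f d) = g (vec d)) (h0 : g 0 = 0)
    (ha : ∀ p q, g (p + q) = g p + g q) (w : List Dir) :
    vl (w.map f) = (path w.tail).map (fun p => emb (g p)) := by
  unfold vl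
  rw [← List.map_tail, (path_map f g hv h0 ha w.tail).2, List.map_map]
  rfl

/-- one step of the change of the root -/
theorem rot_one (h1 : S_simple) (h2 : S_motion) (h3 : S_rot) {w : List Dir} (hw : SAP w) :
    SAP (w.rotate 1) ∧ Same (vl w) (vl (w.rotate 1)) := by
  have hs := h1 w hw
  obtain ⟨hl, hp, hn⟩ := hw
  match w, hl, hp, hn, hs with
  | d :: e :: w', hl, hp, hn, hs =>
    have hrot : (d :: e :: w').rotate 1 = e :: (w' ++ [d]) := by
      rw [List.rotate_cons_succ]; simp
    rw [hrot]
    have hpos : pos (e :: w') = - vec d := by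
      have : pos (e :: w') + vec d = 0 := hp
      exact eq_neg_of_add_eq_zero_left this
    have hlast : path w' = (path w').dropLast ++ [0] := by
      conv_lhs => rw [← List.dropLast_append_getLast (path_ne_nil w'), path_getLast]
    set D := (path w').dropLast with hD
    have hA : path (e :: w') = - vec d :: (D ++ [0]) := by
      rw [← hlast, ← hpos]; rfl
    have hB : path (w' ++ [d]) = (D.map (fun p => p + vec d)) ++ [vec d, 0] := by
      rw [path_append]
      simp only [pos, path, zero_add]
      rfl
    have hA' : (path (e :: w')).map (fun p => p + vec d) =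
        [0] ++ (D.map (fun p => p + vec d) ++ [vec d]) := by
      rw [hA]; simp
    have hB' : path (w' ++ [d]) = (D.map (fun p => p + vec d) ++ [vec d]) ++ [0] := by
      rw [hB]; simp
    have hperm : List.Perm (path (w' ++ [d])) ((path (e :: w')).map (fun p => p + vec d)) := by
      rw [hA', hB']
      exact List.perm_append_comm
    refine ⟨⟨by simp at hl ⊢; omega, ?_, ?_⟩, ?_⟩
    · have : e :: (w' ++ [d]) = (e :: w') ++ [d] := rfl
      rw [this, pos_append, hpos]
      simp [pos]
    · have : (path (e :: (w' ++ [d]))).tail = path (w' ++ [d]) := rfl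
      rw [this, hperm.nodup_iff]
      refine List.Nodup.map (add_left_injective (vec d)) ?_
      exact hn
    · have e1 : vl (d :: e :: w') = (path (e :: w')).map emb := rfl
      have e2 : vl (e :: (w' ++ [d])) = (path (w' ++ [d])).map emb := rfl
      have hadd : ∀ p : Z3, emb (p + vec d) = emb p + emb (vec d) := by
        intro p
        unfold emb
        ext <;> simp
      have h4 := (h2 _ hs).1 (emb (vec d))
      have e3 : (vl (d :: e :: w')).map (fun p => p + emb (vec d)) =
          [emb 0] ++ ((D.map (fun p => p + vec d) ++ [vec d])).map emb := by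
        rw [e1, List.map_map]
        have : ((fun p => p + emb (vec d)) ∘ emb) = (fun p : Z3 => emb (p + vec d)) := by
          funext p
          exact (hadd p).symm
        rw [this]
        have h5 : (path (e :: w')).map (fun p => emb (p + vec d)) =
            ((path (e :: w')).map (fun p => p + vec d)).map emb := by
          rw [List.map_map]; rfl
        rw [h5, hA', List.map_append]
        rfl
      have e4 : vl (e :: (w' ++ [d])) =
          ((D.map (fun p => p + vec d) ++ [vec d])).map emb ++ [emb 0] := by
        rw [e2, hB', List.map_append]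
        rfl
      rw [e3] at h4
      have h5 := h3 _ _ h4.2
      rw [e4]
      exact h4.1.trans h5.2

end WRD

theorem S_words_proof (h1 : S_simple) (h2 : S_motion) (h3 : S_rot) : S_words := by
  intro w hw
  have hs := h1 w hw
  refine ⟨⟨?_, ?_⟩, ⟨?_, ?_⟩, ?_⟩
  · exact WRD.SAP_map rx WRD.RX WRD.vec_rx rfl WRD.RX_add WRD.RX_inj hw
  · have h4 := (h2 _ hs).2.1.1
    rw [WRD.vl_map rx WRD.RX WRD.vec_rx rfl WRD.RX_add]
    have e1 : (vl w).map (fun p => (p.1, -p.2.2, p.2.1)) =
        (path w.tail).map (fun p => emb (WRD.RX p)) := by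
      unfold vl
      rw [List.map_map]
      refine List.map_congr_left fun p _ => ?_
      simp [emb, WRD.RX]
    rw [e1] at h4
    exact h4
  · exact WRD.SAP_map rz WRD.RZ WRD.vec_rz rfl WRD.RZ_add WRD.RZ_inj hw
  · have h4 := (h2 _ hs).2.2.1
    have h5 := (h2 _ h4.2).2.2.1.1
    rw [WRD.vl_map rz WRD.RZ WRD.vec_rz rfl WRD.RZ_add]
    have e1 : ((vl w).map (fun p => (-p.2.1, p.1, p.2.2))).map (fun p => (-p.2.1, p.1, p.2.2)) =
        (path w.tail).map (fun p => emb (WRD.RZ p)) := by
      unfold vl
      rw [List.map_map, List.map_map]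
      refine List.map_congr_left fun p _ => ?_
      simp [emb, WRD.RZ]
    rw [e1] at h5
    exact h4.1.trans h5
  · intro k
    induction k with
    | zero => rw [List.rotate_zero]; exact ⟨hw, Same.refl _⟩
    | succ k ih =>
      have h4 := WRD.rot_one h1 h2 h3 ih.1
      rw [List.rotate_rotate] at h4
      exact ⟨h4.1, ih.2.trans h4.2⟩

end KN
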