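import Pool.Agent.H246KN.FIN2
import Pool.Agent.H246KN.INS
import Pool.Agent.H246KN.REM
import Pool.Agent.H246KN.SUM
import Pool.Agent.H246KN.CHG
import Pool.Agent.H246KN.UP
import Pool.Agent.H246KN.DOWN
import Pool.Agent.H246KN.FIN
import Pool.Agent.H246KN.WALKS
import Pool.Agent.H246KN.SAT
import Pool.Agent.H246KN.POOR
import Pool.Agent.H246KN.PAT
import Pool.Agent.H246KN.CONV
import Pool.Agent.H246KN.KES2
import Pool.Agent.H246KN.FIVE
import Pool.Agent.H246KN.CLASS
import Pool.Agent.H246KN.ROOT
import Pool.Agent.H246KN.ROT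
import Pool.Agent.H246KN.SUB
import Pool.Agent.H246KN.LIN
import Pool.Agent.H246KN.MOT
import Pool.Agent.H246KN.SIM
import Pool.Agent.H246KN.LOC
import Pool.Agent.H246KN.WRD
import Pool.Agent.H246KN.SQ
import Pool.Agent.H246KN.CONE
import Pool.Agent.H246KN.BEAD
import Pool.Agent.H246KN.REFL
import Pool.Agent.H246KN.TRANS
import Pool.Agent.H246KN.FAM
import Pool.Agent.H246KN.SUBL
import Pool.Agent.H246KN.SUBR
import Pool.Agent.H246KN.SUBM
import Pool.Agent.H246KN.CORN
import Pool.Agent.H246KN.GSROT
import Pool.Agent.H246KN.GS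
import Pool.Agent.H246KN.HG
import Pool.Agent.H246KN.SHA
import Pool.Agent.H246KN.SHB
import Pool.Agent.H246KN.SHC
import Pool.Agent.H246KN.SHD
import Pool.Agent.H246KN.CONN
import Pool.Agent.H246KN.GSAP
import Pool.Agent.H246KN.GL1
import Pool.Agent.H246KN.GL2
import Pool.Agent.H246KN.INV
import Pool.Agent.H246KN.QR
import Pool.Agent.H246KN.QL
import Pool.Agent.H246KN.SUP
import Pool.Agent.H246KN.ATT
import Pool.Agent.H246KN.LAYN
import Pool.Agent.H246KN.LAYS
import Pool.Agent.H246KN.LAYU
import Pool.Agent.H246KN.LOW
import Pool.Agent.H246KN.MU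
import Pool.Agent.H246KN.REV

set_option autoImplicit false

namespace KN

theorem c_sub : S_sub := S_sub_proof S_rot_proof
theorem c_rev : S_rev := S_rev_proof S_rot_proof c_sub
theorem c_local : S_local :=
  S_local_proof S_rot_proof c_sub S_lin_proof S_simple_proof S_ins_proof

theorem c_sum : S_sum := S_sum_proof S_ins_proof S_rem_proof
theorem c_up : S_up := S_up_proof S_ins_proof S_change_proof
theorem c_down : S_down := S_down_proof S_rem_proof S_change_proof
theorem c_walks : S_walks := S_walks_proof S_fin_proof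
theorem c_poor : S_poor := S_poor_proof c_walks S_sat_proof
theorem c_pattern : S_pattern := S_pattern_proof c_poor c_up c_down
theorem c_convex : S_convex := S_convex_proof S_ins_proof c_sum S_change_proof
theorem c_class : S_class := S_class_proof c_pattern c_convex S_kesten_proof2

theorem c_words : S_words := S_words_proof S_simple_proof S_motion_proof S_rot_proof
theorem c_sq : S_sq := S_sq_proof S_simple_proof S_motion_proof
theorem c_inv : S_inv := S_inv_proof c_local
theorem c_gsRefl : S_gsRefl := S_gsRefl_proof S_cone_proof S_bead_proof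
theorem c_fam : S_fam := S_fam_proof S_cone_proof S_bead_proof c_gsRefl S_gsTrans_proof
theorem c_subM : S_subM := S_subM_proof S_cone_proof S_bead_proof c_sub c_gsRefl
theorem c_subL : S_subL := S_subL_proof c_fam S_cone_proof S_bead_proof c_sub
theorem c_subR : S_subR := S_subR_proof c_fam S_cone_proof S_bead_proof c_sub S_rot_proof
theorem c_gsRot : S_gsRot :=
  S_gsRot_proof c_subL c_subR c_subM S_corner_proof c_fam S_gsTrans_proof S_rot_proof c_sub
theorem c_gs : S_gs :=
  S_gs_proof c_fam c_gsRot c_subL S_gsTrans_proof c_gsRefl S_rot_proof c_sub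
theorem c_shB : S_shB := S_shB_proof S_lin_proof
theorem c_shC : S_shC := S_shC_proof S_rot_proof c_sub S_lin_proof
theorem c_shD : S_shD := S_shD_proof S_lin_proof
theorem c_connect : S_connect := S_connect_proof S_shA_proof c_shB c_shC c_shD c_gs
theorem c_glue1 : S_glue1 :=
  S_glue1_proof S_glueSAP_proof c_connect S_simple_proof S_rot_proof S_motion_proof c_local
    S_ins_proof
theorem c_glue2 : S_glue2 := S_glue2_proof c_glue1 c_words S_glueSAP_proof
theorem c_super : S_super :=
  S_super_proof S_glueSAP_proof c_glue1 c_words c_sq S_quartR_proof S_quartL_proof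
theorem c_attach : S_attach :=
  S_attach_proof S_glueSAP_proof c_glue2 c_words c_sq S_quartR_proof S_quartL_proof
theorem c_layU : S_layU :=
  S_layU_proof S_simple_proof S_laySAP_proof S_lin_proof S_rot_proof c_sub S_motion_proof c_sq c_rev
theorem c_low : S_low := S_low_proof S_layers_proof S_laySAP_proof c_layU
theorem c_mu : S_mu :=
  S_mu_proof c_super c_low S_five_proof S_ins_proof c_inv S_quartR_proof c_words

theorem main : Main :=
  main_of c_mu c_class S_root_proof c_attach S_five_proof c_pattern c_inv

end KN
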