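import Pool.Agent.H246KN.Defs

/-!
# Classes of knot types: definitions
-/

set_option autoImplicit false

namespace KN

open Finset Filter Topology
open scoped Classical

noncomputable section

/-- `Q` is a union of (unoriented) knot types of lattice polygons -/
structure KClass (Q : List Dir → Prop) : Prop where
  same : ∀ w w', SAP w → SAP w' → Same (vl w) (vl w') → Q w → Q w'
  rev : ∀ w w', SAP w → SAP w' → Same (vl w) (vl w').reverse → Q w → Q w'

/-- `l1 ++ zp :: l2` is a polygon in the half-space to the left of its edge `zp` (first coordinate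
at most the one of this edge), and `zm :: v` is a polygon in the half-space to the right of its
edge `zm` -/
def Facing (l1 v l2 : List Dir) : Prop :=
  SAP (l1 ++ .zp :: l2) ∧ (∀ p ∈ path (l1 ++ .zp :: l2), p.1 ≤ (pos l2).1) ∧
    SAP (.zm :: v) ∧ ∀ p ∈ path v, 0 ≤ p.1

/-- their connected sum: the two edges are deleted, the second polygon is put one unit to the right
of the first one, and the ends are joined by the steps `xp` and `xm` -/
def join (l1 v l2 : List Dir) : List Dir := l1 ++ .xm :: (v ++ .xp :: l2)

/-- `Q` is closed under connected sums -/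
def CSum (Q : List Dir → Prop) : Prop := ∀ l1 v l2 : List Dir, Facing l1 v l2 →
  Q (l1 ++ .zp :: l2) → Q (.zm :: v) → Q (join l1 v l2)

/-- the number of polygons with `n` edges of class `Q` -/
def pq (Q : List Dir → Prop) (n : ℕ) : ℝ := (a Q n : ℝ) / (2 * n)

/-- their growth rate -/
def gr (Q : List Dir → Prop) : ℝ :=
  limsup (fun j : ℕ => (pq Q (2 * j)) ^ (1 / (2 * j : ℝ))) atTop

end

end KN
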