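import Pool.Agent.H246KN.Stubs

/-!
# T1: change of the first vertex
-/

set_option autoImplicit false

namespace KN

namespace ROT

theorem edges_perm (p : V) (l : List V) : (edges (p :: l)).Perm (edges (l ++ [p])) := by
  cases l with
  | nil => exact List.Perm.refl _
  | cons q l' =>
    have h1 : edges (p :: q :: l') = (p, q) :: chain q (l' ++ [p]) := rfl
    have h2 : edges (q :: l' ++ [p]) = chain q (l' ++ [p]) ++ [(p, q)] := by
      have : edges (q :: l' ++ [p]) = chain q (l' ++ p :: [q]) := by
        simp [edges]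
      rw [this, chain_append]
      rfl
    rw [h1, h2]
    exact (List.perm_append_singleton _ _).symm

theorem simple_step (p : V) (l : List V) (h : Simple (p :: l)) : Simple (l ++ [p]) := by
  obtain ⟨_, h2, h3⟩ := h
  refine ⟨by simp, ?_, ?_⟩
  · exact ((edges_perm p l).pairwise_iff (fun {_ _} hd => Disj.symm hd)).1 h2
  · intro e he
    exact h3 e ((edges_perm p l).mem_iff.2 he)

theorem main (l1 : List V) : ∀ l2 : List V, Simple (l1 ++ l2) →
    Simple (l2 ++ l1) ∧ Same (l1 ++ l2) (l2 ++ l1) := by
  induction l1 with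
  | nil =>
    intro l2 h
    simp only [List.nil_append, List.append_nil] at h ⊢
    exact ⟨h, Same.refl _⟩
  | cons p l1 ih =>
    intro l2 h
    have h' : Simple (l1 ++ (l2 ++ [p])) := by
      rw [← List.append_assoc]
      exact simple_step p (l1 ++ l2) h
    obtain ⟨h3, h4⟩ := ih (l2 ++ [p]) h'
    have e1 : l2 ++ [p] ++ l1 = l2 ++ p :: l1 := by simp
    rw [e1] at h3 h4
    refine ⟨h3, ?_⟩
    have h5 : Same (p :: (l1 ++ l2)) ((l1 ++ l2) ++ [p]) := Same.of_move (Move.rot p (l1 ++ l2) h)
    rw [List.append_assoc] at h5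
    exact h5.trans h4

end ROT

theorem S_rot_proof : S_rot := fun l1 l2 h => ROT.main l1 l2 h

end KN
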