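import Pool.Agent.H246KN.All
import Pool.Agent.H246KN.Cls

/-!
# Classes of knot types

The ratio limit theorem for arbitrary classes of knot types.
-/

set_option autoImplicit false

namespace KN

open Finset Filter Topology
open scoped Classical

noncomputable section

namespace GEN

theorem pn_eq (Q : List Dir → Prop) (j : ℕ) : pq Q (2 * j) = (a Q (2 * j) : ℝ) / (2 * (2 * j)) := by
  unfold pq; push_cast; rfl

theorem pn_nonneg (Q : List Dir → Prop) (n : ℕ) : 0 ≤ pq Q n := by unfold pq; positivity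

theorem a_eq (Q : List Dir → Prop) (j : ℕ) (hj : 0 < j) :
    (a Q (2 * j) : ℝ) = pq Q (2 * j) * (2 * (2 * j)) := by
  have : (0 : ℝ) < j := by exact_mod_cast hj
  rw [pn_eq]; field_simp

theorem pn_le_a (Q : List Dir → Prop) (j : ℕ) (hj : 0 < j) : pq Q (2 * j) ≤ a Q (2 * j) := by
  have h1 : (1 : ℝ) ≤ j := by exact_mod_cast hj
  rw [a_eq Q j hj]
  have := pn_nonneg Q (2 * j)
  nlinarith

/-- the roots of `pn` and of `a` behave in the same way -/
theorem root_eq (Q : List Dir → Prop) (j : ℕ) (hj : 0 < j) :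
    (a Q (2 * j) : ℝ) ^ (1 / (2 * j : ℝ)) =
      (pq Q (2 * j)) ^ (1 / (2 * j : ℝ)) * (2 * (2 * j : ℝ)) ^ (1 / (2 * j : ℝ)) := by
  rw [a_eq Q j hj, Real.mul_rpow (pn_nonneg _ _) (by positivity)]

theorem root_iff (Q : List Dir → Prop) (L : ℝ) :
    Tendsto (fun j : ℕ => (pq Q (2 * j)) ^ (1 / (2 * j : ℝ))) atTop (𝓝 L) ↔
      Tendsto (fun j : ℕ => (a Q (2 * j) : ℝ) ^ (1 / (2 * j : ℝ))) atTop (𝓝 L) := by
  constructor
  · intro h
    have h1 := h.mul (tpoly 2 (by norm_num))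
    rw [mul_one] at h1
    refine h1.congr' ?_
    filter_upwards [eventually_gt_atTop 0] with j hj
    exact (root_eq Q j hj).symm
  · intro h
    have h1 := h.div (tpoly 2 (by norm_num)) one_ne_zero
    rw [div_one] at h1
    refine h1.congr' ?_
    filter_upwards [eventually_gt_atTop 0] with j hj
    have : (0 : ℝ) < j := by exact_mod_cast hj
    rw [Pi.div_apply, root_eq Q j hj, mul_div_assoc, div_self (by positivity), mul_one]

/-- ratios -/
theorem ratio_eq (Q : List Dir → Prop) (j : ℕ) (hj : 0 < j) :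
    pq Q (2 * j + 2) / pq Q (2 * j) =
      (a Q (2 * j + 2) : ℝ) / a Q (2 * j) * (j / (j + 1)) := by
  have h1 : (0 : ℝ) < j := by exact_mod_cast hj
  have e : 2 * j + 2 = 2 * (j + 1) := by ring
  rw [e, pn_eq, pn_eq]
  push_cast
  rcases eq_or_ne (a Q (2 * j) : ℝ) 0 with h | h
  · rw [h]; simp
  · field_simp

theorem ratio_iff (Q : List Dir → Prop) (L : ℝ) :
    Tendsto (fun j : ℕ => pq Q (2 * j + 2) / pq Q (2 * j)) atTop (𝓝 L) ↔
      Tendsto (fun j : ℕ => (a Q (2 * j + 2) : ℝ) / a Q (2 * j)) atTop (𝓝 L) := by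
  constructor
  · intro h
    have h1 := h.div tfrac one_ne_zero
    rw [div_one] at h1
    refine h1.congr' ?_
    filter_upwards [eventually_gt_atTop 0] with j hj
    have : (0 : ℝ) < j := by exact_mod_cast hj
    rw [Pi.div_apply, ratio_eq Q j hj, mul_div_assoc, div_self (by positivity), mul_one]
  · intro h
    have h1 := h.mul tfrac
    rw [mul_one] at h1
    refine h1.congr' ?_
    filter_upwards [eventually_gt_atTop 0] with j hj
    rw [ratio_eq Q j hj]

/-! ### bounds -/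

theorem root_le (hfive : S_five) (Q : List Dir → Prop) :
    ∀ j : ℕ, 0 < j → (a Q (2 * j) : ℝ) ^ (1 / (2 * j : ℝ)) ≤ 2 ^ (1 / (2 * j : ℝ)) * 5 := by
  intro j hj
  have h1 : (0 : ℝ) < j := by exact_mod_cast hj
  have h2 := hfive Q (2 * j)
  calc (a Q (2 * j) : ℝ) ^ (1 / (2 * j : ℝ)) ≤ (2 * 5 ^ (2 * j)) ^ (1 / (2 * j : ℝ)) :=
        Real.rpow_le_rpow (by positivity) h2 (by positivity)
    _ = 2 ^ (1 / (2 * j : ℝ)) * 5 := by
        rw [Real.mul_rpow (by norm_num) (by positivity), ← Real.rpow_natCast, ← Real.rpow_mul (by norm_num)]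
        congr 1
        push_cast
        rw [mul_one_div_cancel (by positivity), Real.rpow_one]

theorem pn_root_nonneg (Q : List Dir → Prop) (j : ℕ) : 0 ≤ (pq Q (2 * j)) ^ (1 / (2 * j : ℝ)) :=
  Real.rpow_nonneg (pn_nonneg _ _) _

theorem pn_root_le (hfive : S_five) (Q : List Dir → Prop) (j : ℕ) (hj : 0 < j) :
    (pq Q (2 * j)) ^ (1 / (2 * j : ℝ)) ≤ 2 ^ (1 / (2 * j : ℝ)) * 5 :=
  (Real.rpow_le_rpow (pn_nonneg _ _) (pn_le_a Q j hj) (by positivity)).trans (root_le hfive Q j hj)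

theorem bdd_above (hfive : S_five) (Q : List Dir → Prop) :
    IsBoundedUnder (· ≤ ·) atTop (fun j : ℕ => (pq Q (2 * j)) ^ (1 / (2 * j : ℝ))) := by
  have h := ((tconst 2 (by norm_num)).mul_const 5).isBoundedUnder_le
  refine h.mono_le ?_
  filter_upwards [eventually_gt_atTop 0] with j hj using pn_root_le hfive Q j hj

theorem bdd_below (Q : List Dir → Prop) :
    IsBoundedUnder (· ≥ ·) atTop (fun j : ℕ => (pq Q (2 * j)) ^ (1 / (2 * j : ℝ))) :=
  isBoundedUnder_of ⟨0, fun j => pn_root_nonneg Q j⟩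

theorem gr_le (hfive : S_five) (Q : List Dir → Prop) : gr Q ≤ 5 := by
  have h := ((tconst 2 (by norm_num)).mul_const 5)
  rw [one_mul] at h
  unfold gr
  calc _ ≤ limsup (fun j : ℕ => (2 : ℝ) ^ (1 / (2 * j : ℝ)) * 5) atTop := by
        refine limsup_le_limsup ?_ (bdd_below Q).isCoboundedUnder_le h.isBoundedUnder_le
        filter_upwards [eventually_gt_atTop 0] with j hj using pn_root_le hfive Q j hj
    _ = 5 := h.limsup_eq

/-- upper bound by the growth rate -/
theorem upper (hfive : S_five) (Q : List Dir → Prop) (hg : 0 < gr Q) (τ : ℝ) (hτ : 0 < τ) :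
    ∃ C : ℝ, ∀ n : ℕ, (a Q n : ℝ) ≤ C * ((1 + τ) * gr Q) ^ n := by
  have h1 : ∀ᶠ j : ℕ in atTop,
      (pq Q (2 * j)) ^ (1 / (2 * j : ℝ)) < (1 + τ / 2) * gr Q :=
    eventually_lt_of_limsup_lt (by unfold gr at hg ⊢; nlinarith) (bdd_above hfive Q)
  have h2 : ∀ᶠ j : ℕ in atTop,
      (2 * (2 * j : ℝ)) ^ (1 / (2 * j : ℝ)) < (1 + τ) / (1 + τ / 2) := by
    refine (tpoly 2 (by norm_num)).eventually_lt_const ?_
    rw [lt_div_iff₀ (by positivity)]; linarith
  have h3 : ∀ᶠ j : ℕ in atTop, (a Q (2 * j) : ℝ) ≤ ((1 + τ) * gr Q) ^ (2 * j) := by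
    filter_upwards [h1, h2, eventually_gt_atTop 0] with j h1 h2 hj
    have hj' : (0 : ℝ) < j := by exact_mod_cast hj
    have h4 : (a Q (2 * j) : ℝ) ^ (1 / (2 * j : ℝ)) ≤ (1 + τ) * gr Q := by
      rw [root_eq Q j hj]
      calc _ ≤ (1 + τ / 2) * gr Q * ((1 + τ) / (1 + τ / 2)) :=
            mul_le_mul h1.le h2.le (by positivity) (by positivity)
        _ = _ := by field_simp
    calc (a Q (2 * j) : ℝ) = ((a Q (2 * j) : ℝ) ^ (1 / (2 * j : ℝ))) ^ (2 * j) := by
          rw [← Real.rpow_natCast, ← Real.rpow_mul (by positivity)]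
          push_cast
          rw [one_div_mul_cancel (by positivity), Real.rpow_one]
      _ ≤ _ := pow_le_pow_left₀ (by positivity) h4 _
  obtain ⟨J, hJ⟩ := eventually_atTop.1 h3
  -- constant for small n
  have hpos : ∀ n : ℕ, 0 < ((1 + τ) * gr Q) ^ n := fun n => by positivity
  refine ⟨1 + ∑ n ∈ range (2 * J), (a Q n : ℝ) / ((1 + τ) * gr Q) ^ n, fun n => ?_⟩
  have hs : 0 ≤ ∑ n ∈ range (2 * J), (a Q n : ℝ) / ((1 + τ) * gr Q) ^ n :=
    sum_nonneg fun n _ => by positivity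
  by_cases hn : n < 2 * J
  · have h5 := single_le_sum (f := fun n => (a Q n : ℝ) / ((1 + τ) * gr Q) ^ n)
      (fun n _ => by positivity) (mem_range.2 hn)
    have h6 : (a Q n : ℝ) =
        (a Q n : ℝ) / ((1 + τ) * gr Q) ^ n * ((1 + τ) * gr Q) ^ n := by
      field_simp
    rw [h6]
    refine mul_le_mul_of_nonneg_right ?_ (hpos n).le
    linarith
  · rcases Nat.even_or_odd' n with ⟨j, rfl | rfl⟩
    · have h5 := hJ j (by omega)
      nlinarith [hpos (2 * j)]
    · rw [a_odd _ _ (by omega)]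
      have := hpos (2 * j + 1)
      push_cast
      positivity

/-! ### ratio limits -/

/-- the `ε`-`δ` statement for `a` -/
theorem class_a (hclass : S_class) (hfive : S_five) (Q : List Dir → Prop) (hinv : Inv Q)
    (hg : 19 / 5 < gr Q) (ε : ℝ) (hε : 0 < ε) :
    ∃ δ : ℝ, 0 < δ ∧ δ < 1 ∧ ∀ᶠ j : ℕ in atTop,
      ((1 - δ) * gr Q) ^ (2 * j) ≤ (a Q (2 * j) : ℝ) →
      |(a Q (2 * j + 2) : ℝ) / a Q (2 * j) - gr Q ^ 2| ≤ ε :=
  hclass Q hinv (gr Q) hg (gr_le hfive Q)
    (fun τ hτ => upper hfive Q (by linarith) τ hτ) ε hε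

/-- the `ε`-`δ` statement for `pn` -/
theorem class_pn (hclass : S_class) (hfive : S_five) (Q : List Dir → Prop) (hinv : Inv Q)
    (hg : 19 / 5 < gr Q) (ε : ℝ) (hε : 0 < ε) :
    ∃ δ : ℝ, 0 < δ ∧ δ < 1 ∧ ∀ᶠ j : ℕ in atTop,
      ((1 - δ) * gr Q) ^ (2 * j) ≤ pq Q (2 * j) →
      |pq Q (2 * j + 2) / pq Q (2 * j) - gr Q ^ 2| ≤ ε := by
  obtain ⟨δ, hδ, hδ1, h⟩ := class_a hclass hfive Q hinv hg (ε / 2) (by positivity)
  refine ⟨δ, hδ, hδ1, ?_⟩
  have h0 : Tendsto (fun j : ℕ => gr Q ^ 2 * (1 - (j : ℝ) / (j + 1))) atTop (𝓝 0) := by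
    have := (tfrac.const_sub 1).const_mul (gr Q ^ 2)
    simpa using this
  filter_upwards [h, eventually_gt_atTop 0, h0.eventually_lt_const (show (0 : ℝ) < ε / 2 by positivity)]
    with j h hj h0 hp
  have h1 := h (hp.trans (pn_le_a Q j hj))
  have hj' : (0 : ℝ) < j := by exact_mod_cast hj
  rw [ratio_eq Q j hj]
  set r := (a Q (2 * j + 2) : ℝ) / a Q (2 * j)
  have hf0 : 0 ≤ (j : ℝ) / (j + 1) := by positivity
  have hf1 : (j : ℝ) / (j + 1) ≤ 1 := by rw [div_le_one (by positivity)]; linarith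
  have e : r * (j / (j + 1)) - gr Q ^ 2 =
      (r - gr Q ^ 2) * (j / (j + 1)) - gr Q ^ 2 * (1 - (j : ℝ) / (j + 1)) := by ring
  rw [e]
  calc _ ≤ |(r - gr Q ^ 2) * (j / (j + 1))| + |gr Q ^ 2 * (1 - (j : ℝ) / (j + 1))| :=
        abs_sub _ _
    _ ≤ ε / 2 + ε / 2 := by
        refine add_le_add ?_ ?_
        · rw [abs_mul, abs_of_nonneg hf0]
          calc _ ≤ |r - gr Q ^ 2| * 1 := mul_le_mul_of_nonneg_left hf1 (abs_nonneg _)
            _ ≤ _ := by linarith
        · rw [abs_of_nonneg (mul_nonneg (sq_nonneg _) (by linarith))]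
          exact h0.le
    _ = ε := by ring

/-- if the roots converge then the ratios converge -/
theorem ratio_of_root (hclass : S_class) (hfive : S_five) (Q : List Dir → Prop) (hinv : Inv Q) (L : ℝ)
    (hL : 19 / 5 < L) (h : Tendsto (fun j : ℕ => (pq Q (2 * j)) ^ (1 / (2 * j : ℝ))) atTop (𝓝 L)) :
    Tendsto (fun j : ℕ => pq Q (2 * j + 2) / pq Q (2 * j)) atTop (𝓝 (L ^ 2)) := by
  have hg : gr Q = L := h.limsup_eq
  rw [Metric.tendsto_atTop']
  intro ε hε
  obtain ⟨δ, hδ, hδ1, h1⟩ := class_pn hclass hfive Q hinv (by rw [hg]; exact hL) (ε / 2) (by positivity)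
  rw [hg] at h1
  have h2 : ∀ᶠ j : ℕ in atTop, (1 - δ) * L < (pq Q (2 * j)) ^ (1 / (2 * j : ℝ)) :=
    h.eventually_const_lt (by nlinarith)
  have h3 : ∀ᶠ j : ℕ in atTop, dist (pq Q (2 * j + 2) / pq Q (2 * j)) (L ^ 2) < ε := by
    filter_upwards [h1, h2, eventually_gt_atTop 0] with j h1 h2 hj
    have hj' : (0 : ℝ) < j := by exact_mod_cast hj
    have h4 : ((1 - δ) * L) ^ (2 * j) ≤ pq Q (2 * j) := by
      calc _ ≤ ((pq Q (2 * j)) ^ (1 / (2 * j : ℝ))) ^ (2 * j) :=
            pow_le_pow_left₀ (by nlinarith) h2.le _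
        _ = pq Q (2 * j) := by
            rw [← Real.rpow_natCast, ← Real.rpow_mul (pn_nonneg _ _)]
            push_cast
            rw [one_div_mul_cancel (by positivity), Real.rpow_one]
    rw [Real.dist_eq]
    linarith [h1 h4]
  obtain ⟨N, hN⟩ := eventually_atTop.1 h3
  exact ⟨N, fun n hn => hN n (le_of_lt hn)⟩

/-- positive numbers -/
theorem root_pos {Q : List Dir → Prop} {L : ℝ} (hL : 0 < L)
    (h : Tendsto (fun j : ℕ => (pq Q (2 * j)) ^ (1 / (2 * j : ℝ))) atTop (𝓝 L)) :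
    ∀ᶠ j : ℕ in atTop, 0 < pq Q (2 * j) := by
  filter_upwards [h.eventually_const_lt hL, eventually_gt_atTop 0] with j h1 hj
  have hj' : (0 : ℝ) < j := by exact_mod_cast hj
  rcases (pn_nonneg Q (2 * j)).lt_or_eq with h2 | h2
  · exact h2
  · rw [← h2, Real.zero_rpow (by positivity)] at h1
    exact absurd h1 (lt_irrefl _)

/-- comparison with the unknot -/
theorem compare (Q : List Dir → Prop) (hatt : ∃ m : ℕ, ∀ n : ℕ, a U n ≤ 4 * a Q (n + m)) (L : ℝ) (hL : 0 < L)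
    (h : Tendsto (fun j : ℕ => (pq U (2 * j)) ^ (1 / (2 * j : ℝ))) atTop (𝓝 L))
    (hr : Tendsto (fun j : ℕ => pq U (2 * j + 2) / pq U (2 * j)) atTop (𝓝 (L ^ 2))) :
    ∃ c : ℝ, 0 < c ∧ ∀ᶠ j : ℕ in atTop, c * pq U (2 * j) ≤ pq Q (2 * j) := by
  obtain ⟨m, hm⟩ := hatt
  have hpos := root_pos hL h
  -- m is even
  obtain ⟨j0, hj0, hj0'⟩ := (hpos.and (eventually_gt_atTop 0)).exists
  have hm2 : m % 2 = 0 := by
    by_contra hodd
    have h1 := hm (2 * j0)
    rw [a_odd Q (2 * j0 + m) (by omega)] at h1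
    have h2 : a (U) (2 * j0) = 0 := by omega
    rw [pn_eq, h2] at hj0
    simp at hj0
  obtain ⟨s, rfl⟩ : ∃ s, m = 2 * s := ⟨m / 2, by omega⟩
  -- ratios of a
  have hra := (ratio_iff U (L ^ 2)).1 hr
  have hstep : ∀ᶠ j : ℕ in atTop, (a U (2 * (j + 1)) : ℝ) ≤ (L ^ 2 + 1) * a U (2 * j) := by
    filter_upwards [hra.eventually_lt_const (show L ^ 2 < L ^ 2 + 1 by linarith), hpos,
      eventually_gt_atTop 0] with j h1 h2 hj
    have h3 : (0 : ℝ) < a (U) (2 * j) := h2.trans_le (pn_le_a U j hj)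
    rw [div_lt_iff₀ h3] at h1
    exact h1.le
  obtain ⟨J, hJ⟩ := eventually_atTop.1 hstep
  have hmul : ∀ i j : ℕ, J ≤ j → (a U (2 * (j + i)) : ℝ) ≤ (L ^ 2 + 1) ^ i * a U (2 * j) := by
    intro i
    induction i with
    | zero => intro j _; simp
    | succ i ih =>
      intro j hj
      have h1 := hJ (j + i) (by omega)
      have h2 := ih j hj
      calc (a U (2 * (j + (i + 1))) : ℝ) ≤ (L ^ 2 + 1) * a U (2 * (j + i)) := by
            rw [← add_assoc]; exact h1
        _ ≤ (L ^ 2 + 1) * ((L ^ 2 + 1) ^ i * a U (2 * j)) :=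
            mul_le_mul_of_nonneg_left h2 (by positivity)
        _ = _ := by ring
  refine ⟨1 / (4 * (L ^ 2 + 1) ^ s), by positivity, ?_⟩
  filter_upwards [eventually_ge_atTop (J + s + 1)] with j hj
  have h1 := hmul s (j - s) (by omega)
  have h2 := hm (2 * (j - s))
  rw [show j - s + s = j by omega] at h1
  rw [show 2 * (j - s) + 2 * s = 2 * j by omega] at h2
  have h2' : (a U (2 * (j - s)) : ℝ) ≤ 4 * a Q (2 * j) := by exact_mod_cast h2
  have h3 : (a U (2 * j) : ℝ) ≤ (4 * (L ^ 2 + 1) ^ s) * a Q (2 * j) := by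
    calc (a U (2 * j) : ℝ) ≤ (L ^ 2 + 1) ^ s * a U (2 * (j - s)) := h1
      _ ≤ (L ^ 2 + 1) ^ s * (4 * a Q (2 * j)) := mul_le_mul_of_nonneg_left h2' (by positivity)
      _ = _ := by ring
  have hj' : (0 : ℝ) < j := by exact_mod_cast (show 0 < j by omega)
  rw [pn_eq, pn_eq]
  rw [div_mul_div_comm, div_le_div_iff₀ (by positivity) (by positivity)]
  have hp : (0 : ℝ) ≤ 2 * (2 * j) := by positivity
  nlinarith [mul_le_mul_of_nonneg_right h3 hp]

/-- lower bound for the growth rates -/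
theorem gr_ge (hfive : S_five) (Q : List Dir → Prop) (L c : ℝ) (hc : 0 < c)
    (h : Tendsto (fun j : ℕ => (pq U (2 * j)) ^ (1 / (2 * j : ℝ))) atTop (𝓝 L))
    (hle : ∀ᶠ j : ℕ in atTop, c * pq U (2 * j) ≤ pq Q (2 * j)) : L ≤ gr Q := by
  have h1 := (tconst c hc).mul h
  rw [one_mul] at h1
  rw [← h1.limsup_eq]
  unfold gr
  refine limsup_le_limsup ?_ h1.isCoboundedUnder_le (bdd_above hfive Q)
  filter_upwards [hle] with j hj
  rw [← Real.mul_rpow hc.le (pn_nonneg _ _)]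
  exact Real.rpow_le_rpow (mul_nonneg hc.le (pn_nonneg _ _)) hj (by positivity)

/-- if the ratios converge then the roots converge -/
theorem root_of_ratio (hroot : S_root) (Q : List Dir → Prop) (hpos : ∀ᶠ j : ℕ in atTop, 0 < pq Q (2 * j))
    (L : ℝ) (h : Tendsto (fun j : ℕ => pq Q (2 * j + 2) / pq Q (2 * j)) atTop (𝓝 L)) :
    ∃ L' : ℝ, Tendsto (fun j : ℕ => (pq Q (2 * j)) ^ (1 / (2 * j : ℝ))) atTop (𝓝 L') := by
  have ha := (ratio_iff Q L).1 h
  have hposa : ∀ᶠ j : ℕ in atTop, 0 < (a Q (2 * j) : ℝ) := by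
    filter_upwards [hpos, eventually_gt_atTop 0] with j h1 hj using h1.trans_le (pn_le_a Q j hj)
  have hL0 : 0 ≤ L := ge_of_tendsto' ha fun j => by positivity
  have hL : 0 < L := by
    rcases hL0.lt_or_eq with h1 | h1
    · exact h1
    · exfalso
      rw [← h1] at ha
      have h2 : ∀ᶠ j : ℕ in atTop, a Q (2 * (j + 1)) < a Q (2 * j) := by
        filter_upwards [ha.eventually_lt_const one_pos, hposa] with j h2 h3
        rw [div_lt_one h3] at h2
        exact_mod_cast h2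
      obtain ⟨J, hJ⟩ := eventually_atTop.1 h2
      have h3 : ∀ i : ℕ, a Q (2 * (J + i)) + i ≤ a Q (2 * J) := by
        intro i
        induction i with
        | zero => simp
        | succ i ih =>
          have h5 := hJ (J + i) (by omega)
          have e : J + (i + 1) = J + i + 1 := by ring
          rw [e]
          omega
      have := h3 (a Q (2 * J) + 1)
      omega
  have h4 := hroot (fun j => (a Q (2 * j) : ℝ)) L hposa hL ha
  exact ⟨_, (root_iff Q _).2 h4⟩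


/-! ### classes -/

theorem inv_of (Q : List Dir → Prop) (hQ : KClass Q) : Inv Q := by
  intro w hw i d hs
  have h1 := c_local w i d hw hs
  have h2 := (S_ins_proof w i d hw hs).1
  exact ⟨hQ.same _ _ hw h2 h1, hQ.same _ _ h2 hw h1.symm⟩

theorem rx_of (Q : List Dir → Prop) (hQ : KClass Q) (w : List Dir) (hw : SAP w) :
    Q w ↔ Q (w.map rx) := by
  obtain ⟨h1, h2⟩ := (c_words w hw).1
  exact ⟨hQ.same _ _ hw h1 h2, hQ.same _ _ h1 hw h2.symm⟩

theorem rot_of (Q : List Dir → Prop) (hQ : KClass Q) (w : List Dir) (hw : SAP w) (k : ℕ) :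
    Q w ↔ Q (w.rotate k) := by
  obtain ⟨h1, h2⟩ := (c_words w hw).2.2 k
  exact ⟨hQ.same _ _ hw h1 h2, hQ.same _ _ h1 hw h2.symm⟩

/-- a single knot type is a class -/
theorem kt_class (k : List V) : KClass (KT k) := by
  constructor
  · rintro w w' _ _ h (h1 | h1)
    · exact Or.inl (h.symm.trans h1)
    · exact Or.inr (h.symm.trans h1)
  · rintro w w' _ _ h (h1 | h1)
    · right
      have h2 := (c_rev _ _).2 h
      rw [List.reverse_reverse] at h2
      exact h2.symm.trans ((c_rev _ _).2 h1)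
    · left
      have h2 := (c_rev _ _).2 h
      rw [List.reverse_reverse] at h2
      have h3 := (c_rev _ _).2 h1
      rw [List.reverse_reverse] at h3
      exact h2.symm.trans h3

theorem u_same {w : List Dir} (h : U w) : Same (vl w) sq := by
  rcases h with h | h
  · exact h
  · exact h.trans c_sq.2.2.symm

/-- the unknot is closed under connected sums -/
theorem u_csum : CSum U := by
  intro l1 v l2 h h1 h2
  exact Or.inl ((c_glue1 l1 v l2 h (u_same h2)).trans (u_same h1))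

/-- supermultiplicativity -/
theorem super (Q : List Dir → Prop) (hQ : KClass Q) (hc : CSum Q) (n m : ℕ) :
    a Q n * a Q m ≤ 16 * m * a Q (n + m) := by
  have hA := S_quartR_proof Q (rx_of Q hQ) n
  have hB := S_quartL_proof Q (rx_of Q hQ) (rot_of Q hQ) m
  set A := (K Q n).filter (fun w => ∃ l1 l2 : List Dir, w = l1 ++ .zp :: l2 ∧
    ∀ p ∈ path w, p.1 ≤ (pos l2).1) with hAdef
  set B := (K Q m).filter (fun w => ∃ v : List Dir, w = .zm :: v ∧
    ∀ p ∈ path v, 0 ≤ p.1) with hBdef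
  have hA' : ∀ w ∈ A, ∃ l1 l2 : List Dir, w = l1 ++ .zp :: l2 ∧
      ∀ p ∈ path w, p.1 ≤ (pos l2).1 := fun w h => (mem_filter.mp h).2
  have hB' : ∀ w ∈ B, ∃ v : List Dir, w = .zm :: v ∧ ∀ p ∈ path v, 0 ≤ p.1 :=
    fun w h => (mem_filter.mp h).2
  choose! l1 l2 h12 using hA'
  choose! v hv using hB'
  have hGH : ∀ w ∈ A, ∀ w' ∈ B, GH (l1 w) (v w') (l2 w) := by
    intro w hwA w' hwB
    obtain ⟨e1, e2⟩ := h12 w hwA
    obtain ⟨e3, e4⟩ := hv w' hwB
    have s1 := (mem_K.mp (mem_filter.mp hwA).1).2.1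
    have s2 := (mem_K.mp (mem_filter.mp hwB).1).2.1
    refine ⟨e1 ▸ s1, ?_, e3 ▸ s2, e4⟩
    rw [← e1]; exact e2
  have key : A.card * B.card ≤ a Q (n + m) := by
    rw [← card_product]
    unfold a
    refine card_le_card_of_injOn (fun p => glue (l1 p.1) (v p.2) (l2 p.1)) ?_ ?_
    · rintro ⟨w, w'⟩ hp
      rw [mem_coe, mem_product] at hp
      obtain ⟨hwA, hwB⟩ := hp
      have G := hGH w hwA w' hwB
      have s1 := mem_K.mp (mem_filter.mp hwA).1
      have s2 := mem_K.mp (mem_filter.mp hwB).1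
      rw [mem_coe, mem_K]
      refine ⟨?_, S_glueSAP_proof _ _ _ G, ?_⟩
      · have e1 := s1.1
        have e2 := s2.1
        rw [(h12 w hwA).1] at e1
        rw [(hv w' hwB).1] at e2
        simp only [List.length_append, List.length_cons] at e1 e2
        simp only [glue, List.length_append, List.length_cons]
        omega
      · apply hc _ _ _ G
        · rw [← (h12 w hwA).1]; exact s1.2.2
        · rw [← (hv w' hwB).1]; exact s2.2.2
    · rintro ⟨w, w'⟩ hp ⟨x, x'⟩ hq he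
      rw [mem_coe, mem_product] at hp hq
      obtain ⟨hwA, hwB⟩ := hp
      obtain ⟨hxA, hxB⟩ := hq
      simp only at he hwA hwB hxA hxB
      have lv : (v w').length = (v x').length := by
        have e1 := (mem_K.mp (mem_filter.mp hwB).1).1
        have e2 := (mem_K.mp (mem_filter.mp hxB).1).1
        rw [(hv w' hwB).1] at e1
        rw [(hv x' hxB).1] at e2
        simp only [List.length_cons] at e1 e2
        omega
      obtain ⟨i1, i2, i3⟩ := SUP.inj _ _ _ _ _ _ (hGH w hwA w' hwB) (hGH x hxA x' hxB) lv he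
      have ew : w = x := by rw [(h12 w hwA).1, (h12 x hxA).1, i1, i3]
      have ew' : w' = x' := by rw [(hv w' hwB).1, (hv x' hxB).1, i2]
      rw [ew, ew']
  calc a Q n * a Q m ≤ (4 * A.card) * (4 * m * B.card) := Nat.mul_le_mul hA hB
    _ = 16 * m * (A.card * B.card) := by ring
    _ ≤ 16 * m * a Q (n + m) := Nat.mul_le_mul_left _ key

/-- attaching a fixed polygon of class `Q` to unknotted polygons -/
theorem attach (Q : List Dir → Prop) (hQ : KClass Q) (hne : ∃ w, SAP w ∧ Q w) :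
    ∃ m : ℕ, ∀ n : ℕ, a U n ≤ 4 * a Q (n + m) := by
  obtain ⟨w0, hs, hq⟩ := hne
  obtain ⟨m, hm⟩ := c_attach (vl w0) ⟨w0, hs, Or.inl (Same.refl _)⟩
  refine ⟨m, fun n => (hm n).trans (Nat.mul_le_mul_left 4 ?_)⟩
  unfold a
  refine card_le_card fun w hw => ?_
  rw [mem_K] at hw ⊢
  refine ⟨hw.1, hw.2.1, ?_⟩
  rcases hw.2.2 with h | h
  · exact hQ.same _ _ hs hw.2.1 h.symm hq
  · have h2 := (c_rev _ _).2 h
    rw [List.reverse_reverse] at h2
    exact hQ.rev _ _ hs hw.2.1 h2.symm hq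

/-! ### Fekete's lemma -/

theorem mul_step (s : ℕ) (t : ℕ → ℝ) (h : ∀ n m, s ≤ n → s ≤ m → t n + t m ≤ t (n + m)) (m r : ℕ)
    (hm : s ≤ m) (hr : s ≤ r) (q : ℕ) : (q : ℝ) * t m + t r ≤ t (q * m + r) := by
  induction q with
  | zero => simp
  | succ q ih =>
    have h1 := h (q * m + r) m (by omega) hm
    have h2 : (q + 1) * m + r = q * m + r + m := by ring
    rw [h2]
    push_cast
    linarith

theorem fekete (s : ℕ) (hs : 1 ≤ s) (t : ℕ → ℝ)
    (h : ∀ n m, s ≤ n → s ≤ m → t n + t m ≤ t (n + m)) (B : ℝ)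
    (hB : ∀ n, s ≤ n → t n ≤ B * n) : ∃ L : ℝ, Tendsto (fun n : ℕ => t n / n) atTop (𝓝 L) := by
  set S : Set ℝ := {y | ∃ m : ℕ, s ≤ m ∧ y = t m / m} with hS
  have hbdd : BddAbove S := by
    refine ⟨B, ?_⟩
    rintro y ⟨m, hm, rfl⟩
    have hm0 : (0 : ℝ) < m := by exact_mod_cast (show 0 < m by omega)
    rw [div_le_iff₀ hm0]
    exact hB m hm
  have hne : S.Nonempty := ⟨_, s, le_refl _, rfl⟩
  refine ⟨sSup S, ?_⟩
  rw [Metric.tendsto_atTop]
  intro ε hε
  obtain ⟨y, ⟨m, hm, rfl⟩, hy⟩ := exists_lt_of_lt_csSup hne (show sSup S - ε / 2 < sSup S by linarith)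
  have hm0 : (0 : ℝ) < m := by exact_mod_cast (show 0 < m by omega)
  -- a lower bound for the remainders
  obtain ⟨C, hC⟩ : ∃ C : ℝ, ∀ r ∈ Finset.range (m + s), -C ≤ t r := by
    refine ⟨∑ r ∈ Finset.range (m + s), |t r|, fun r hr => ?_⟩
    have h1 : |t r| ≤ ∑ r ∈ Finset.range (m + s), |t r| :=
      Finset.single_le_sum (f := fun r => |t r|) (fun i _ => abs_nonneg _) hr
    have h2 := neg_abs_le (t r)
    linarith
  obtain ⟨n0, hn0⟩ := exists_nat_gt ((|t m / m| * (m + s) + C) / (ε / 2))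
  refine ⟨n0 + s, fun n hn => ?_⟩
  have hn2 : s ≤ n := by omega
  have hn0' : (0 : ℝ) < n := by exact_mod_cast (show 0 < n by omega)
  set q := (n - s) / m with hq
  set r := n - q * m with hr
  have hqm : q * m ≤ n - s := Nat.div_mul_le_self _ _
  have hlt : n - s < (q + 1) * m := by
    have e1 := Nat.div_add_mod (n - s) m
    have e2 := Nat.mod_lt (n - s) (show 0 < m by omega)
    rw [← hq] at e1
    have e3 : (q + 1) * m = m * q + m := by ring
    omega
  have hr2 : s ≤ r := by omega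
  have hrm : r < m + s := by
    have : (q + 1) * m = q * m + m := by ring
    omega
  have hnqr : n = q * m + r := by omega
  have h1 := mul_step s t h m r hm hr2 q
  rw [← hnqr] at h1
  have h2 := hC r (Finset.mem_range.mpr hrm)
  have hup : t n / n ≤ sSup S := le_csSup hbdd ⟨n, hn2, rfl⟩
  have hqr : (q : ℝ) = ((n : ℝ) - r) / m := by
    have : (n : ℝ) = q * m + r := by exact_mod_cast hnqr
    field_simp
    linarith
  have hlow : t m / m - (|t m / m| * (m + s) + C) / n ≤ t n / n := by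
    have e1 : (q : ℝ) * t m = n * (t m / m) - r * (t m / m) := by
      rw [hqr]; field_simp
    have e2 : (r : ℝ) * (t m / m) ≤ (m + s) * |t m / m| := by
      have hr' : (r : ℝ) ≤ m + s := by exact_mod_cast hrm.le
      calc (r : ℝ) * (t m / m) ≤ r * |t m / m| :=
            mul_le_mul_of_nonneg_left (le_abs_self _) (by positivity)
        _ ≤ (m + s) * |t m / m| := mul_le_mul_of_nonneg_right hr' (abs_nonneg _)
    have e3 : n * (t m / m) - (|t m / m| * (m + s) + C) ≤ t n := by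
      have e4 : (m + s : ℝ) * |t m / m| = |t m / m| * (m + s) := by ring
      linarith [h1, h2, e1, e2]
    rw [sub_le_iff_le_add, ← add_div, le_div_iff₀ hn0']
    have e5 : t m / m * (n : ℝ) = n * (t m / m) := by ring
    linarith [e3]
  have hsmall : (|t m / m| * (m + s) + C) / n < ε / 2 := by
    have hn1 : (n0 : ℝ) ≤ n := by exact_mod_cast (by omega : n0 ≤ n)
    rw [div_lt_iff₀ hn0']
    rw [div_lt_iff₀ (by linarith)] at hn0
    have := mul_le_mul_of_nonneg_left hn1 (show 0 ≤ ε / 2 by linarith)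
    linarith
  rw [Real.dist_eq, abs_lt]
  constructor <;> linarith

/-- the growth constant of a class closed under connected sums -/
theorem lim (Q : List Dir → Prop) (hQ : KClass Q) (hc : CSum Q)
    (hpos : ∀ᶠ j : ℕ in atTop, 0 < (a Q (2 * j) : ℝ)) :
    ∃ L : ℝ, Tendsto (fun k : ℕ => (a Q (2 * k) : ℝ) ^ (1 / (2 * k : ℝ))) atTop (𝓝 L) := by
  obtain ⟨s0, hs0⟩ := eventually_atTop.1 hpos
  set s := s0 + 1 with hs
  set x : ℕ → ℝ := fun k => (a Q (2 * k) : ℝ) with hx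
  have hxpos : ∀ k, s ≤ k → 0 < x k := fun k hk => hs0 k (by omega)
  have hsup : ∀ n m, x n * x m ≤ 32 * m * x (n + m) := by
    intro n m
    have h := super Q hQ hc (2 * n) (2 * m)
    have h' : (a Q (2 * n) : ℝ) * a Q (2 * m) ≤ 16 * (2 * m) * a Q (2 * n + 2 * m) := by
      exact_mod_cast h
    simp only [hx, mul_add]
    linarith
  have hsup' : ∀ n m, x n * x m ≤ 32 * n * x (n + m) := by
    intro n m
    have := hsup m n
    rw [add_comm m n, mul_comm] at this
    exact this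
  set t : ℕ → ℝ := fun k => Real.log (x k / (64 * k)) with ht
  have hk0 : ∀ k : ℕ, s ≤ k → (0 : ℝ) < k := fun k hk => by
    exact_mod_cast (show 0 < k by omega)
  have hyp : ∀ k, s ≤ k → 0 < x k / (64 * k) := fun k hk => by
    have := hxpos k hk
    have := hk0 k hk
    positivity
  have htadd : ∀ n m, s ≤ n → s ≤ m → t n + t m ≤ t (n + m) := by
    intro n m hn hm
    have hn0 := hk0 n hn
    have hm0 := hk0 m hm
    have hn1 : 0 < n := by omega
    have hm1 : 0 < m := by omega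
    simp only [ht]
    rw [← Real.log_mul (hyp n hn).ne' (hyp m hm).ne']
    refine Real.log_le_log (mul_pos (hyp n hn) (hyp m hm)) ?_
    have hx0 : 0 < x (n + m) := hxpos _ (by omega)
    rw [div_mul_div_comm, div_le_div_iff₀ (by positivity) (by positivity)]
    push_cast
    rcases le_total (n : ℝ) m with hnm | hnm
    · have h1 := hsup' n m
      have h2 : x n * x m * (64 * (n + m)) ≤ 32 * n * x (n + m) * (64 * (m + m)) := by
        apply mul_le_mul h1 (by linarith) (by positivity) (by positivity)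
      have e : 32 * n * x (n + m) * (64 * ((m : ℝ) + m)) = x (n + m) * (64 * n * (64 * m)) := by ring
      linarith [h2, e]
    · have h1 := hsup n m
      have h2 : x n * x m * (64 * (n + m)) ≤ 32 * m * x (n + m) * (64 * (n + n)) := by
        apply mul_le_mul h1 (by linarith) (by positivity) (by positivity)
      have e : 32 * m * x (n + m) * (64 * ((n : ℝ) + n)) = x (n + m) * (64 * n * (64 * m)) := by ring
      linarith [h2, e]
  have hxle : ∀ k, x k ≤ 2 * 25 ^ k := by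
    intro k
    have := S_five_proof Q (2 * k)
    rw [pow_mul] at this
    norm_num at this
    exact this
  have htle : ∀ n, s ≤ n → t n ≤ Real.log 25 * n := by
    intro n hn
    have hn1 : (1 : ℝ) ≤ n := by exact_mod_cast (show 1 ≤ n by omega)
    simp only [ht]
    have h1 : x n / (64 * n) ≤ 25 ^ n := by
      rw [div_le_iff₀ (by positivity)]
      have h3 := hxle n
      have h4 : (0 : ℝ) < 25 ^ n := by positivity
      nlinarith
    calc Real.log (x n / (64 * n)) ≤ Real.log (25 ^ n) := Real.log_le_log (hyp n hn) h1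
      _ = Real.log 25 * n := by rw [Real.log_pow]; ring
  obtain ⟨L, hL⟩ := fekete s (by omega) t htadd (Real.log 25) htle
  have hlx : Tendsto (fun k : ℕ => Real.log (x k) / k) atTop (𝓝 L) := by
    have h3 := hL.add MU.tendsto_log_div
    rw [add_zero] at h3
    refine h3.congr' ?_
    filter_upwards [eventually_ge_atTop s] with k hk
    have := hk0 k hk
    have hk0 : (64 * (k : ℝ)) ≠ 0 := by positivity
    simp only [ht]
    rw [Real.log_div (hxpos k hk).ne' hk0, ← add_div]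
    ring
  refine ⟨Real.exp (L / 2), ?_⟩
  have h1 : Tendsto (fun k : ℕ => Real.exp (Real.log (x k) / k / 2)) atTop
      (𝓝 (Real.exp (L / 2))) := (Real.continuous_exp.tendsto _).comp (hlx.div_const 2)
  refine h1.congr' ?_
  filter_upwards [eventually_ge_atTop s] with k hk
  have hk0 : (k : ℝ) ≠ 0 := (hk0 k hk).ne'
  rw [Real.rpow_def_of_pos (hxpos k hk)]
  congr 1
  simp only [hx]
  field_simp

end GEN

open GEN

/-- existence of `μ₀` -/
theorem mu0 : ∃ μ : ℝ, 77 / 20 ≤ μ ∧ μ ≤ 5 ∧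
    Tendsto (fun j : ℕ => (pq U (2 * j)) ^ (1 / (2 * j : ℝ))) atTop (𝓝 μ) := by
  obtain ⟨μ, h1, h2, h3⟩ := c_mu
  exact ⟨μ, h1, h2, (GEN.root_iff U μ).2 h3⟩

theorem class_low (Q : List Dir → Prop) (hQ : KClass Q) (hne : ∃ w, SAP w ∧ Q w) :
    ∃ c : ℝ, 0 < c ∧ ∀ᶠ j : ℕ in atTop, c * pq U (2 * j) ≤ pq Q (2 * j) := by
  obtain ⟨μ, h1, h2, h3⟩ := mu0
  have hr := GEN.ratio_of_root c_class S_five_proof U (inv_of U (kt_class sq)) μ (by linarith) h3
  exact GEN.compare Q (attach Q hQ hne) μ (by linarith) h3 hr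

theorem gr_bounds (Q : List Dir → Prop) (hQ : KClass Q) (hne : ∃ w, SAP w ∧ Q w) :
    77 / 20 ≤ gr Q ∧ gr U ≤ gr Q ∧ gr Q ≤ 5 := by
  obtain ⟨μ, h1, h2, h3⟩ := mu0
  obtain ⟨c, hc, hcomp⟩ := class_low Q hQ hne
  have hge := GEN.gr_ge S_five_proof Q μ c hc h3 hcomp
  have hg : gr U = μ := h3.limsup_eq
  exact ⟨h1.trans hge, hg ▸ hge, GEN.gr_le S_five_proof Q⟩

theorem class_pos (Q : List Dir → Prop) (hQ : KClass Q) (hne : ∃ w, SAP w ∧ Q w) :
    ∀ᶠ j : ℕ in atTop, 0 < pq Q (2 * j) := by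
  obtain ⟨μ, h1, h2, h3⟩ := mu0
  obtain ⟨c, hc, hcomp⟩ := class_low Q hQ hne
  filter_upwards [hcomp, GEN.root_pos (by linarith) h3] with j h4 h5
  have : 0 < c * pq U (2 * j) := mul_pos hc h5
  linarith

/-- pattern theorem -/
theorem class_pattern (Q : List Dir → Prop) (hQ : KClass Q) (hne : ∃ w, SAP w ∧ Q w) :
    ∃ θ C : ℝ, 0 < θ ∧ θ < 1 ∧ ∀ n : ℕ, (bad Q n : ℝ) ≤ C * (θ * gr Q) ^ n := by
  obtain ⟨h1, -, h2⟩ := gr_bounds Q hQ hne
  exact c_pattern Q (inv_of Q hQ) (gr Q) (by linarith) h2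
    (fun τ hτ => GEN.upper S_five_proof Q (by linarith) τ hτ)

/-- ratio theorem -/
theorem class_ratio (Q : List Dir → Prop) (hQ : KClass Q) (hne : ∃ w, SAP w ∧ Q w) :
    ∀ ε : ℝ, 0 < ε → ∃ δ : ℝ, 0 < δ ∧ δ < 1 ∧ ∀ᶠ j : ℕ in atTop,
      ((1 - δ) * gr Q) ^ (2 * j) ≤ pq Q (2 * j) →
      |pq Q (2 * j + 2) / pq Q (2 * j) - gr Q ^ 2| ≤ ε := by
  obtain ⟨h1, -, h2⟩ := gr_bounds Q hQ hne
  exact GEN.class_pn c_class S_five_proof Q (inv_of Q hQ) (by linarith)

/-- equivalence -/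
theorem class_iff (Q : List Dir → Prop) (hQ : KClass Q) (hne : ∃ w, SAP w ∧ Q w) :
    (∃ L : ℝ, Tendsto (fun j : ℕ => (pq Q (2 * j)) ^ (1 / (2 * j : ℝ))) atTop (𝓝 L)) ↔
      ∃ L : ℝ, Tendsto (fun j : ℕ => pq Q (2 * j + 2) / pq Q (2 * j)) atTop (𝓝 L) := by
  obtain ⟨h1, -, h2⟩ := gr_bounds Q hQ hne
  constructor
  · rintro ⟨L, hL⟩
    have hg : gr Q = L := hL.limsup_eq
    exact ⟨_, GEN.ratio_of_root c_class S_five_proof Q (inv_of Q hQ) L (by rw [← hg]; linarith) hL⟩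
  · rintro ⟨L, hL⟩
    exact GEN.root_of_ratio S_root_proof Q (class_pos Q hQ hne) L hL

/-- classes closed under connected sums -/
theorem class_sum (Q : List Dir → Prop) (hQ : KClass Q) (hne : ∃ w, SAP w ∧ Q w)
    (hc : CSum Q) :
    Tendsto (fun j : ℕ => (pq Q (2 * j)) ^ (1 / (2 * j : ℝ))) atTop (𝓝 (gr Q)) ∧
      Tendsto (fun j : ℕ => pq Q (2 * j + 2) / pq Q (2 * j)) atTop (𝓝 (gr Q ^ 2)) := by
  obtain ⟨h1, -, h2⟩ := gr_bounds Q hQ hne
  have hpos : ∀ᶠ j : ℕ in atTop, 0 < (a Q (2 * j) : ℝ) := by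
    filter_upwards [class_pos Q hQ hne, eventually_gt_atTop 0] with j h3 hj
      using h3.trans_le (GEN.pn_le_a Q j hj)
  obtain ⟨L, hL⟩ := GEN.lim Q hQ hc hpos
  have hL' := (GEN.root_iff Q L).2 hL
  have hg : gr Q = L := hL'.limsup_eq
  rw [hg]
  exact ⟨hL', GEN.ratio_of_root c_class S_five_proof Q (inv_of Q hQ) L
    (by rw [← hg]; linarith) hL'⟩

end

end KN
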