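import Mathlib

/-!
# Polygons of fixed knot type in `ℤ³`: definitions

Words over the six unit directions are lists; the *last* letter of the list is the first step
(so `d :: w` is the walk `w` followed by the step `d`).
-/

set_option autoImplicit false

namespace KN

open Finset Filter Topology
open scoped Classical

/-! ## The lattice -/

abbrev Z3 := ℤ × ℤ × ℤ

/-- the six unit directions -/
inductive Dir
  | xp | xm | yp | ym | zp | zm
  deriving DecidableEq

instance : Fintype Dir where
  elems := {.xp, .xm, .yp, .ym, .zp, .zm}
  complete := by intro x; cases x <;> decide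

def vec : Dir → Z3
  | .xp => (1, 0, 0)
  | .xm => (-1, 0, 0)
  | .yp => (0, 1, 0)
  | .ym => (0, -1, 0)
  | .zp => (0, 0, 1)
  | .zm => (0, 0, -1)

def neg : Dir → Dir
  | .xp => .xm
  | .xm => .xp
  | .yp => .ym
  | .ym => .yp
  | .zp => .zm
  | .zm => .zp

/-- the axis of a direction -/
def ax : Dir → Fin 3
  | .xp => 0
  | .xm => 0
  | .yp => 1
  | .ym => 1
  | .zp => 2
  | .zm => 2

def perp (a b : Dir) : Prop := ax a ≠ ax b

instance (a b : Dir) : Decidable (perp a b) := inferInstanceAs (Decidable (ax a ≠ ax b))

/-- end point of a walk from `0` -/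
def pos : List Dir → Z3
  | [] => 0
  | d :: w => pos w + vec d

/-- the vertices of a walk from `0`, the last one first; the last entry of the list is `0` -/
def path : List Dir → List Z3
  | [] => [0]
  | d :: w => (pos w + vec d) :: path w

/-- self-avoiding walks -/
def SAW (w : List Dir) : Prop := (path w).Nodup

/-- closed self-avoiding walks from `0` = polygons with a starting vertex `0` and an orientation -/
def SAP (w : List Dir) : Prop := 4 ≤ w.length ∧ pos w = 0 ∧ (path w).tail.Nodup

/-- `(i, d)` is a free plaquette of `w`: the `i`-th edge can be replaced by three edges around the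
square in direction `d` -/
def site (w : List Dir) (i : ℕ) (d : Dir) : Prop :=
  i < w.length ∧ perp d (w.getD i .xp) ∧ pos (w.drop (i + 1)) + vec d ∉ path w ∧
    pos (w.drop (i + 1)) + vec d + vec (w.getD i .xp) ∉ path w

/-- the replacement -/
def ins (w : List Dir) (i : ℕ) (d : Dir) : List Dir :=
  w.take i ++ [neg d, w.getD i .xp, d] ++ w.drop (i + 1)

/-- three consecutive edges around a square at the positions `j, j + 1, j + 2` -/
def bump (w : List Dir) (j : ℕ) : Prop :=
  j + 2 < w.length ∧ w.getD j .xp = neg (w.getD (j + 2) .xp) ∧
    perp (w.getD j .xp) (w.getD (j + 1) .xp)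

/-- replace the three edges by one -/
def rem (w : List Dir) (j : ℕ) : List Dir :=
  w.take j ++ [w.getD (j + 1) .xp] ++ w.drop (j + 3)

noncomputable section

/-- the set of free plaquettes -/
def sites (w : List Dir) : Finset (ℕ × Dir) :=
  (range w.length ×ˢ (univ : Finset Dir)).filter (fun q => site w q.1 q.2)

/-- the set of bumps -/
def bumps (w : List Dir) : Finset ℕ := (range w.length).filter (fun j => bump w j)

/-- the number of free plaquettes -/
def fr (w : List Dir) : ℕ := (sites w).card

/-- the number of bumps -/
def bu (w : List Dir) : ℕ := (bumps w).card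

/-- all words of length `n` -/
def W (n : ℕ) : Finset (List Dir) :=
  (univ : Finset (Fin n → Dir)).image List.ofFn

/-- closed self-avoiding words of length `n` with the property `Q` -/
def K (Q : List Dir → Prop) (n : ℕ) : Finset (List Dir) :=
  (W n).filter (fun w => SAP w ∧ Q w)

/-- their number -/
def a (Q : List Dir → Prop) (n : ℕ) : ℕ := (K Q n).card

/-- `Q` does not change under local moves -/
def Inv (Q : List Dir → Prop) : Prop :=
  ∀ w, SAP w → ∀ i d, site w i d → (Q w ↔ Q (ins w i d))

/-! ## Polygonal knots -/

abbrev V := ℝ × ℝ × ℝ

def lerp (p q : V) (u : ℝ) : V := (1 - u) • p + u • q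

/-- the half-open segments `[e.1, e.2)` and `[e'.1, e'.2)` are disjoint -/
def Disj (e e' : V × V) : Prop :=
  ∀ u v : ℝ, 0 ≤ u → u < 1 → 0 ≤ v → v < 1 → lerp e.1 e.2 u ≠ lerp e'.1 e'.2 v

/-- the edges of the open chain with vertices `a, l` -/
def chain : V → List V → List (V × V)
  | _, [] => []
  | p, q :: l => (p, q) :: chain q l

/-- the edges of the closed polygon with vertices `l` -/
def edges : List V → List (V × V)
  | [] => []
  | p :: l => chain p (l ++ [p])

/-- the closed polygon with vertices `l` is a simple closed curve: the edges are not degenerate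
and the half-open edges are pairwise disjoint -/
def Simple (l : List V) : Prop :=
  l ≠ [] ∧ (edges l).Pairwise Disj ∧ ∀ e ∈ edges l, e.1 ≠ e.2

/-- the elementary equivalences of polygonal knots: motions through simple closed polygons with a
fixed number of vertices, change of the first vertex, subdivision of an edge -/
inductive Move : List V → List V → Prop
  | iso (k : ℕ) (γ : ℝ → Fin k → V) (hc : ∀ i, Continuous (fun t => γ t i))
      (hs : ∀ t : ℝ, 0 ≤ t → t ≤ 1 → Simple (List.ofFn (γ t))) :
      Move (List.ofFn (γ 0)) (List.ofFn (γ 1))
  | rot (p : V) (l : List V) (hs : Simple (p :: l)) : Move (p :: l) (l ++ [p])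
  | sub (p : V) (l : List V) (q : V) (s : ℝ) (hs : Simple (p :: l ++ [q])) (h0 : 0 < s)
      (h1 : s < 1) : Move (p :: l ++ [q]) (p :: l ++ [q, lerp q p s])

/-- equivalence of (oriented) polygonal knots -/
def Same : List V → List V → Prop := Relation.EqvGen Move

/-- lattice points as points of space -/
def emb (p : Z3) : V := ((p.1 : ℝ), (p.2.1 : ℝ), (p.2.2 : ℝ))

/-- the vertices of the closed polygon given by a closed word -/
def vl (w : List Dir) : List V := (path w.tail).map emb

/-- the knot type of `w` is the one of the polygon `k` (orientations are disregarded) -/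
def KT (k : List V) (w : List Dir) : Prop := Same (vl w) k ∨ Same (vl w) k.reverse

/-- a unit square -/
def sqw : List Dir := [.zm, .xm, .zp, .xp]
def sq : List V := vl sqw

/-- unknotted -/
def U (w : List Dir) : Prop := KT sq w

/-- the number of polygons with `n` edges (up to translation, without orientation and starting
point) of the knot type of `k`: every polygon is counted `2 n` times by `a` -/
def pn (k : List V) (n : ℕ) : ℝ := (a (KT k) n : ℝ) / (2 * n)

end

end KN
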