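import Pool.Agent.H246KN.Stubs

set_option autoImplicit false

namespace KN

open Finset Filter Topology
open scoped Classical

noncomputable section

/-- the exponential growth rate of the polygons of type `k` -/
def growth (k : List V) : ℝ :=
  limsup (fun j : ℕ => (pn k (2 * j)) ^ (1 / (2 * j : ℝ))) atTop

/-- the main statement -/
def Main : Prop :=
  ∃ μ₀ : ℝ, 77 / 20 ≤ μ₀ ∧ μ₀ ≤ 5 ∧
    Tendsto (fun j : ℕ => (pn sq (2 * j)) ^ (1 / (2 * j : ℝ))) atTop (𝓝 μ₀) ∧
    Tendsto (fun j : ℕ => pn sq (2 * j + 2) / pn sq (2 * j)) atTop (𝓝 (μ₀ ^ 2)) ∧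
    ∀ k : List V, (∃ w, SAP w ∧ KT k w) →
      μ₀ ≤ growth k ∧ growth k ≤ 5 ∧
      (∃ θ C : ℝ, 0 < θ ∧ θ < 1 ∧ ∀ n : ℕ, (bad (KT k) n : ℝ) ≤ C * (θ * growth k) ^ n) ∧
      (∀ ε : ℝ, 0 < ε → ∃ δ : ℝ, 0 < δ ∧ δ < 1 ∧ ∀ᶠ j : ℕ in atTop,
        ((1 - δ) * growth k) ^ (2 * j) ≤ pn k (2 * j) →
        |pn k (2 * j + 2) / pn k (2 * j) - growth k ^ 2| ≤ ε) ∧
      ((∃ L : ℝ, Tendsto (fun j : ℕ => (pn k (2 * j)) ^ (1 / (2 * j : ℝ))) atTop (𝓝 L)) ↔
        ∃ L : ℝ, Tendsto (fun j : ℕ => pn k (2 * j + 2) / pn k (2 * j)) atTop (𝓝 L)) ∧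
      ∃ c : ℝ, 0 < c ∧ ∀ᶠ j : ℕ in atTop, c * pn sq (2 * j) ≤ pn k (2 * j)

/-! ### roots of polynomial factors -/

theorem t2 : Tendsto (fun j : ℕ => (2 * (j : ℝ))) atTop atTop :=
  tendsto_natCast_atTop_atTop.const_mul_atTop (by norm_num)

theorem tinv : Tendsto (fun j : ℕ => (1 / (2 * j : ℝ))) atTop (𝓝 0) := by
  have := t2.inv_tendsto_atTop
  refine this.congr fun j => ?_
  simp [Pi.inv_apply]

theorem tconst (c : ℝ) (hc : 0 < c) :
    Tendsto (fun j : ℕ => c ^ (1 / (2 * j : ℝ))) atTop (𝓝 1) := by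
  have h5 := (Real.continuousAt_const_rpow (a := c) (b := 0) hc.ne').tendsto.comp tinv
  rw [Real.rpow_zero] at h5
  exact h5

/-- `(c * (2 j))^(1/(2j)) → 1` -/
theorem tpoly (c : ℝ) (hc : 0 < c) :
    Tendsto (fun j : ℕ => (c * (2 * j : ℝ)) ^ (1 / (2 * j : ℝ))) atTop (𝓝 1) := by
  have h1 : Tendsto (fun x : ℝ => x ^ (1 / x)) atTop (𝓝 1) := tendsto_rpow_div
  have h3 := h1.comp t2
  have h6 := (tconst c hc).mul h3
  simp only [mul_one] at h6
  refine h6.congr' ?_
  filter_upwards [eventually_gt_atTop 0] with j hj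
  have : (0 : ℝ) < j := by exact_mod_cast hj
  simp only [Function.comp]
  rw [← Real.mul_rpow hc.le (by positivity)]

theorem pn_eq (k : List V) (j : ℕ) : pn k (2 * j) = (a (KT k) (2 * j) : ℝ) / (2 * (2 * j)) := by
  unfold pn; push_cast; rfl

theorem pn_nonneg (k : List V) (n : ℕ) : 0 ≤ pn k n := by unfold pn; positivity

theorem a_eq (k : List V) (j : ℕ) (hj : 0 < j) :
    (a (KT k) (2 * j) : ℝ) = pn k (2 * j) * (2 * (2 * j)) := by
  have : (0 : ℝ) < j := by exact_mod_cast hj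
  rw [pn_eq]; field_simp

theorem pn_le_a (k : List V) (j : ℕ) (hj : 0 < j) : pn k (2 * j) ≤ a (KT k) (2 * j) := by
  have h1 : (1 : ℝ) ≤ j := by exact_mod_cast hj
  rw [a_eq k j hj]
  have := pn_nonneg k (2 * j)
  nlinarith

/-- the roots of `pn` and of `a` behave in the same way -/
theorem root_eq (k : List V) (j : ℕ) (hj : 0 < j) :
    (a (KT k) (2 * j) : ℝ) ^ (1 / (2 * j : ℝ)) =
      (pn k (2 * j)) ^ (1 / (2 * j : ℝ)) * (2 * (2 * j : ℝ)) ^ (1 / (2 * j : ℝ)) := by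
  rw [a_eq k j hj, Real.mul_rpow (pn_nonneg _ _) (by positivity)]

theorem root_iff (k : List V) (L : ℝ) :
    Tendsto (fun j : ℕ => (pn k (2 * j)) ^ (1 / (2 * j : ℝ))) atTop (𝓝 L) ↔
      Tendsto (fun j : ℕ => (a (KT k) (2 * j) : ℝ) ^ (1 / (2 * j : ℝ))) atTop (𝓝 L) := by
  constructor
  · intro h
    have h1 := h.mul (tpoly 2 (by norm_num))
    rw [mul_one] at h1
    refine h1.congr' ?_
    filter_upwards [eventually_gt_atTop 0] with j hj
    exact (root_eq k j hj).symm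
  · intro h
    have h1 := h.div (tpoly 2 (by norm_num)) one_ne_zero
    rw [div_one] at h1
    refine h1.congr' ?_
    filter_upwards [eventually_gt_atTop 0] with j hj
    have : (0 : ℝ) < j := by exact_mod_cast hj
    rw [Pi.div_apply, root_eq k j hj, mul_div_assoc, div_self (by positivity), mul_one]

/-- ratios -/
theorem ratio_eq (k : List V) (j : ℕ) (hj : 0 < j) :
    pn k (2 * j + 2) / pn k (2 * j) =
      (a (KT k) (2 * j + 2) : ℝ) / a (KT k) (2 * j) * (j / (j + 1)) := by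
  have h1 : (0 : ℝ) < j := by exact_mod_cast hj
  have e : 2 * j + 2 = 2 * (j + 1) := by ring
  rw [e, pn_eq, pn_eq]
  push_cast
  rcases eq_or_ne (a (KT k) (2 * j) : ℝ) 0 with h | h
  · rw [h]; simp
  · field_simp

theorem tfrac : Tendsto (fun j : ℕ => (j : ℝ) / (j + 1)) atTop (𝓝 1) :=
  tendsto_natCast_div_add_atTop 1

theorem ratio_iff (k : List V) (L : ℝ) :
    Tendsto (fun j : ℕ => pn k (2 * j + 2) / pn k (2 * j)) atTop (𝓝 L) ↔
      Tendsto (fun j : ℕ => (a (KT k) (2 * j + 2) : ℝ) / a (KT k) (2 * j)) atTop (𝓝 L) := by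
  constructor
  · intro h
    have h1 := h.div tfrac one_ne_zero
    rw [div_one] at h1
    refine h1.congr' ?_
    filter_upwards [eventually_gt_atTop 0] with j hj
    have : (0 : ℝ) < j := by exact_mod_cast hj
    rw [Pi.div_apply, ratio_eq k j hj, mul_div_assoc, div_self (by positivity), mul_one]
  · intro h
    have h1 := h.mul tfrac
    rw [mul_one] at h1
    refine h1.congr' ?_
    filter_upwards [eventually_gt_atTop 0] with j hj
    rw [ratio_eq k j hj]

/-! ### bounds -/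

theorem a_odd (Q : List Dir → Prop) (n : ℕ) (h : n % 2 = 1) : a Q n = 0 := by
  unfold a
  rw [card_eq_zero, eq_empty_iff_forall_notMem]
  intro w hw
  obtain ⟨h1, h2, -⟩ := mem_K.1 hw
  have := even_of_closed h2.2.1
  omega

theorem root_le (hfive : S_five) (k : List V) :
    ∀ j : ℕ, 0 < j → (a (KT k) (2 * j) : ℝ) ^ (1 / (2 * j : ℝ)) ≤ 2 ^ (1 / (2 * j : ℝ)) * 5 := by
  intro j hj
  have h1 : (0 : ℝ) < j := by exact_mod_cast hj
  have h2 := hfive (KT k) (2 * j)
  calc (a (KT k) (2 * j) : ℝ) ^ (1 / (2 * j : ℝ)) ≤ (2 * 5 ^ (2 * j)) ^ (1 / (2 * j : ℝ)) :=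
        Real.rpow_le_rpow (by positivity) h2 (by positivity)
    _ = 2 ^ (1 / (2 * j : ℝ)) * 5 := by
        rw [Real.mul_rpow (by norm_num) (by positivity), ← Real.rpow_natCast, ← Real.rpow_mul (by norm_num)]
        congr 1
        push_cast
        rw [mul_one_div_cancel (by positivity), Real.rpow_one]

theorem pn_root_nonneg (k : List V) (j : ℕ) : 0 ≤ (pn k (2 * j)) ^ (1 / (2 * j : ℝ)) :=
  Real.rpow_nonneg (pn_nonneg _ _) _

theorem pn_root_le (hfive : S_five) (k : List V) (j : ℕ) (hj : 0 < j) :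
    (pn k (2 * j)) ^ (1 / (2 * j : ℝ)) ≤ 2 ^ (1 / (2 * j : ℝ)) * 5 :=
  (Real.rpow_le_rpow (pn_nonneg _ _) (pn_le_a k j hj) (by positivity)).trans (root_le hfive k j hj)

theorem bdd_above (hfive : S_five) (k : List V) :
    IsBoundedUnder (· ≤ ·) atTop (fun j : ℕ => (pn k (2 * j)) ^ (1 / (2 * j : ℝ))) := by
  have h := ((tconst 2 (by norm_num)).mul_const 5).isBoundedUnder_le
  refine h.mono_le ?_
  filter_upwards [eventually_gt_atTop 0] with j hj using pn_root_le hfive k j hj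

theorem bdd_below (k : List V) :
    IsBoundedUnder (· ≥ ·) atTop (fun j : ℕ => (pn k (2 * j)) ^ (1 / (2 * j : ℝ))) :=
  isBoundedUnder_of ⟨0, fun j => pn_root_nonneg k j⟩

theorem growth_le (hfive : S_five) (k : List V) : growth k ≤ 5 := by
  have h := ((tconst 2 (by norm_num)).mul_const 5)
  rw [one_mul] at h
  unfold growth
  calc _ ≤ limsup (fun j : ℕ => (2 : ℝ) ^ (1 / (2 * j : ℝ)) * 5) atTop := by
        refine limsup_le_limsup ?_ (bdd_below k).isCoboundedUnder_le h.isBoundedUnder_le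
        filter_upwards [eventually_gt_atTop 0] with j hj using pn_root_le hfive k j hj
    _ = 5 := h.limsup_eq

/-- upper bound by the growth rate -/
theorem upper (hfive : S_five) (k : List V) (hg : 0 < growth k) (τ : ℝ) (hτ : 0 < τ) :
    ∃ C : ℝ, ∀ n : ℕ, (a (KT k) n : ℝ) ≤ C * ((1 + τ) * growth k) ^ n := by
  have h1 : ∀ᶠ j : ℕ in atTop,
      (pn k (2 * j)) ^ (1 / (2 * j : ℝ)) < (1 + τ / 2) * growth k :=
    eventually_lt_of_limsup_lt (by unfold growth at hg ⊢; nlinarith) (bdd_above hfive k)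
  have h2 : ∀ᶠ j : ℕ in atTop,
      (2 * (2 * j : ℝ)) ^ (1 / (2 * j : ℝ)) < (1 + τ) / (1 + τ / 2) := by
    refine (tpoly 2 (by norm_num)).eventually_lt_const ?_
    rw [lt_div_iff₀ (by positivity)]; linarith
  have h3 : ∀ᶠ j : ℕ in atTop, (a (KT k) (2 * j) : ℝ) ≤ ((1 + τ) * growth k) ^ (2 * j) := by
    filter_upwards [h1, h2, eventually_gt_atTop 0] with j h1 h2 hj
    have hj' : (0 : ℝ) < j := by exact_mod_cast hj
    have h4 : (a (KT k) (2 * j) : ℝ) ^ (1 / (2 * j : ℝ)) ≤ (1 + τ) * growth k := by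
      rw [root_eq k j hj]
      calc _ ≤ (1 + τ / 2) * growth k * ((1 + τ) / (1 + τ / 2)) :=
            mul_le_mul h1.le h2.le (by positivity) (by positivity)
        _ = _ := by field_simp
    calc (a (KT k) (2 * j) : ℝ) = ((a (KT k) (2 * j) : ℝ) ^ (1 / (2 * j : ℝ))) ^ (2 * j) := by
          rw [← Real.rpow_natCast, ← Real.rpow_mul (by positivity)]
          push_cast
          rw [one_div_mul_cancel (by positivity), Real.rpow_one]
      _ ≤ _ := pow_le_pow_left₀ (by positivity) h4 _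
  obtain ⟨J, hJ⟩ := eventually_atTop.1 h3
  -- constant for small n
  have hpos : ∀ n : ℕ, 0 < ((1 + τ) * growth k) ^ n := fun n => by positivity
  refine ⟨1 + ∑ n ∈ range (2 * J), (a (KT k) n : ℝ) / ((1 + τ) * growth k) ^ n, fun n => ?_⟩
  have hs : 0 ≤ ∑ n ∈ range (2 * J), (a (KT k) n : ℝ) / ((1 + τ) * growth k) ^ n :=
    sum_nonneg fun n _ => by positivity
  by_cases hn : n < 2 * J
  · have h5 := single_le_sum (f := fun n => (a (KT k) n : ℝ) / ((1 + τ) * growth k) ^ n)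
      (fun n _ => by positivity) (mem_range.2 hn)
    have h6 : (a (KT k) n : ℝ) =
        (a (KT k) n : ℝ) / ((1 + τ) * growth k) ^ n * ((1 + τ) * growth k) ^ n := by
      field_simp
    rw [h6]
    refine mul_le_mul_of_nonneg_right ?_ (hpos n).le
    linarith
  · rcases Nat.even_or_odd' n with ⟨j, rfl | rfl⟩
    · have h5 := hJ j (by omega)
      nlinarith [hpos (2 * j)]
    · rw [a_odd _ _ (by omega)]
      have := hpos (2 * j + 1)
      push_cast
      positivity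

/-! ### ratio limits -/

theorem U_eq : U = KT sq := rfl

/-- the `ε`-`δ` statement for `a` -/
theorem class_a (hclass : S_class) (hfive : S_five) (hinv : S_inv) (k : List V)
    (hg : 19 / 5 < growth k) (ε : ℝ) (hε : 0 < ε) :
    ∃ δ : ℝ, 0 < δ ∧ δ < 1 ∧ ∀ᶠ j : ℕ in atTop,
      ((1 - δ) * growth k) ^ (2 * j) ≤ (a (KT k) (2 * j) : ℝ) →
      |(a (KT k) (2 * j + 2) : ℝ) / a (KT k) (2 * j) - growth k ^ 2| ≤ ε :=
  hclass (KT k) (hinv k) (growth k) hg (growth_le hfive k)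
    (fun τ hτ => upper hfive k (by linarith) τ hτ) ε hε

/-- the `ε`-`δ` statement for `pn` -/
theorem class_pn (hclass : S_class) (hfive : S_five) (hinv : S_inv) (k : List V)
    (hg : 19 / 5 < growth k) (ε : ℝ) (hε : 0 < ε) :
    ∃ δ : ℝ, 0 < δ ∧ δ < 1 ∧ ∀ᶠ j : ℕ in atTop,
      ((1 - δ) * growth k) ^ (2 * j) ≤ pn k (2 * j) →
      |pn k (2 * j + 2) / pn k (2 * j) - growth k ^ 2| ≤ ε := by
  obtain ⟨δ, hδ, hδ1, h⟩ := class_a hclass hfive hinv k hg (ε / 2) (by positivity)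
  refine ⟨δ, hδ, hδ1, ?_⟩
  have h0 : Tendsto (fun j : ℕ => growth k ^ 2 * (1 - (j : ℝ) / (j + 1))) atTop (𝓝 0) := by
    have := (tfrac.const_sub 1).const_mul (growth k ^ 2)
    simpa using this
  filter_upwards [h, eventually_gt_atTop 0, h0.eventually_lt_const (show (0 : ℝ) < ε / 2 by positivity)]
    with j h hj h0 hp
  have h1 := h (hp.trans (pn_le_a k j hj))
  have hj' : (0 : ℝ) < j := by exact_mod_cast hj
  rw [ratio_eq k j hj]
  set r := (a (KT k) (2 * j + 2) : ℝ) / a (KT k) (2 * j)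
  have hf0 : 0 ≤ (j : ℝ) / (j + 1) := by positivity
  have hf1 : (j : ℝ) / (j + 1) ≤ 1 := by rw [div_le_one (by positivity)]; linarith
  have e : r * (j / (j + 1)) - growth k ^ 2 =
      (r - growth k ^ 2) * (j / (j + 1)) - growth k ^ 2 * (1 - (j : ℝ) / (j + 1)) := by ring
  rw [e]
  calc _ ≤ |(r - growth k ^ 2) * (j / (j + 1))| + |growth k ^ 2 * (1 - (j : ℝ) / (j + 1))| :=
        abs_sub _ _
    _ ≤ ε / 2 + ε / 2 := by
        refine add_le_add ?_ ?_
        · rw [abs_mul, abs_of_nonneg hf0]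
          calc _ ≤ |r - growth k ^ 2| * 1 := mul_le_mul_of_nonneg_left hf1 (abs_nonneg _)
            _ ≤ _ := by linarith
        · rw [abs_of_nonneg (mul_nonneg (sq_nonneg _) (by linarith))]
          exact h0.le
    _ = ε := by ring

/-- if the roots converge then the ratios converge -/
theorem ratio_of_root (hclass : S_class) (hfive : S_five) (hinv : S_inv) (k : List V) (L : ℝ)
    (hL : 19 / 5 < L) (h : Tendsto (fun j : ℕ => (pn k (2 * j)) ^ (1 / (2 * j : ℝ))) atTop (𝓝 L)) :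
    Tendsto (fun j : ℕ => pn k (2 * j + 2) / pn k (2 * j)) atTop (𝓝 (L ^ 2)) := by
  have hg : growth k = L := h.limsup_eq
  rw [Metric.tendsto_atTop']
  intro ε hε
  obtain ⟨δ, hδ, hδ1, h1⟩ := class_pn hclass hfive hinv k (by rw [hg]; exact hL) (ε / 2) (by positivity)
  rw [hg] at h1
  have h2 : ∀ᶠ j : ℕ in atTop, (1 - δ) * L < (pn k (2 * j)) ^ (1 / (2 * j : ℝ)) :=
    h.eventually_const_lt (by nlinarith)
  have h3 : ∀ᶠ j : ℕ in atTop, dist (pn k (2 * j + 2) / pn k (2 * j)) (L ^ 2) < ε := by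
    filter_upwards [h1, h2, eventually_gt_atTop 0] with j h1 h2 hj
    have hj' : (0 : ℝ) < j := by exact_mod_cast hj
    have h4 : ((1 - δ) * L) ^ (2 * j) ≤ pn k (2 * j) := by
      calc _ ≤ ((pn k (2 * j)) ^ (1 / (2 * j : ℝ))) ^ (2 * j) :=
            pow_le_pow_left₀ (by nlinarith) h2.le _
        _ = pn k (2 * j) := by
            rw [← Real.rpow_natCast, ← Real.rpow_mul (pn_nonneg _ _)]
            push_cast
            rw [one_div_mul_cancel (by positivity), Real.rpow_one]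
    rw [Real.dist_eq]
    linarith [h1 h4]
  obtain ⟨N, hN⟩ := eventually_atTop.1 h3
  exact ⟨N, fun n hn => hN n (le_of_lt hn)⟩

/-- positive numbers -/
theorem root_pos {k : List V} {L : ℝ} (hL : 0 < L)
    (h : Tendsto (fun j : ℕ => (pn k (2 * j)) ^ (1 / (2 * j : ℝ))) atTop (𝓝 L)) :
    ∀ᶠ j : ℕ in atTop, 0 < pn k (2 * j) := by
  filter_upwards [h.eventually_const_lt hL, eventually_gt_atTop 0] with j h1 hj
  have hj' : (0 : ℝ) < j := by exact_mod_cast hj
  rcases (pn_nonneg k (2 * j)).lt_or_eq with h2 | h2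
  · exact h2
  · rw [← h2, Real.zero_rpow (by positivity)] at h1
    exact absurd h1 (lt_irrefl _)

/-- comparison with the unknot -/
theorem compare (hatt : S_attach) (k : List V) (hk : ∃ w, SAP w ∧ KT k w) (L : ℝ) (hL : 0 < L)
    (h : Tendsto (fun j : ℕ => (pn sq (2 * j)) ^ (1 / (2 * j : ℝ))) atTop (𝓝 L))
    (hr : Tendsto (fun j : ℕ => pn sq (2 * j + 2) / pn sq (2 * j)) atTop (𝓝 (L ^ 2))) :
    ∃ c : ℝ, 0 < c ∧ ∀ᶠ j : ℕ in atTop, c * pn sq (2 * j) ≤ pn k (2 * j) := by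
  obtain ⟨m, hm⟩ := hatt k hk
  have hpos := root_pos hL h
  -- m is even
  obtain ⟨j0, hj0, hj0'⟩ := (hpos.and (eventually_gt_atTop 0)).exists
  have hm2 : m % 2 = 0 := by
    by_contra hodd
    have h1 := hm (2 * j0)
    rw [a_odd (KT k) (2 * j0 + m) (by omega), U_eq] at h1
    have h2 : a (KT sq) (2 * j0) = 0 := by omega
    rw [pn_eq, h2] at hj0
    simp at hj0
  obtain ⟨s, rfl⟩ : ∃ s, m = 2 * s := ⟨m / 2, by omega⟩
  -- ratios of a
  have hra := (ratio_iff sq (L ^ 2)).1 hr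
  have hstep : ∀ᶠ j : ℕ in atTop, (a U (2 * (j + 1)) : ℝ) ≤ (L ^ 2 + 1) * a U (2 * j) := by
    filter_upwards [hra.eventually_lt_const (show L ^ 2 < L ^ 2 + 1 by linarith), hpos,
      eventually_gt_atTop 0] with j h1 h2 hj
    have h3 : (0 : ℝ) < a (KT sq) (2 * j) := h2.trans_le (pn_le_a sq j hj)
    rw [div_lt_iff₀ h3] at h1
    exact h1.le
  obtain ⟨J, hJ⟩ := eventually_atTop.1 hstep
  have hmul : ∀ i j : ℕ, J ≤ j → (a U (2 * (j + i)) : ℝ) ≤ (L ^ 2 + 1) ^ i * a U (2 * j) := by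
    intro i
    induction i with
    | zero => intro j _; simp
    | succ i ih =>
      intro j hj
      have h1 := hJ (j + i) (by omega)
      have h2 := ih j hj
      calc (a U (2 * (j + (i + 1))) : ℝ) ≤ (L ^ 2 + 1) * a U (2 * (j + i)) := by
            rw [← add_assoc]; exact h1
        _ ≤ (L ^ 2 + 1) * ((L ^ 2 + 1) ^ i * a U (2 * j)) :=
            mul_le_mul_of_nonneg_left h2 (by positivity)
        _ = _ := by ring
  refine ⟨1 / (4 * (L ^ 2 + 1) ^ s), by positivity, ?_⟩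
  filter_upwards [eventually_ge_atTop (J + s + 1)] with j hj
  have h1 := hmul s (j - s) (by omega)
  have h2 := hm (2 * (j - s))
  rw [show j - s + s = j by omega] at h1
  rw [show 2 * (j - s) + 2 * s = 2 * j by omega] at h2
  have h2' : (a U (2 * (j - s)) : ℝ) ≤ 4 * a (KT k) (2 * j) := by exact_mod_cast h2
  have h3 : (a U (2 * j) : ℝ) ≤ (4 * (L ^ 2 + 1) ^ s) * a (KT k) (2 * j) := by
    calc (a U (2 * j) : ℝ) ≤ (L ^ 2 + 1) ^ s * a U (2 * (j - s)) := h1
      _ ≤ (L ^ 2 + 1) ^ s * (4 * a (KT k) (2 * j)) := mul_le_mul_of_nonneg_left h2' (by positivity)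
      _ = _ := by ring
  have hj' : (0 : ℝ) < j := by exact_mod_cast (show 0 < j by omega)
  rw [pn_eq, pn_eq, ← U_eq]
  rw [div_mul_div_comm, div_le_div_iff₀ (by positivity) (by positivity)]
  have hp : (0 : ℝ) ≤ 2 * (2 * j) := by positivity
  nlinarith [mul_le_mul_of_nonneg_right h3 hp]

/-- lower bound for the growth rates -/
theorem growth_ge (hfive : S_five) (k : List V) (L c : ℝ) (hc : 0 < c)
    (h : Tendsto (fun j : ℕ => (pn sq (2 * j)) ^ (1 / (2 * j : ℝ))) atTop (𝓝 L))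
    (hle : ∀ᶠ j : ℕ in atTop, c * pn sq (2 * j) ≤ pn k (2 * j)) : L ≤ growth k := by
  have h1 := (tconst c hc).mul h
  rw [one_mul] at h1
  rw [← h1.limsup_eq]
  unfold growth
  refine limsup_le_limsup ?_ h1.isCoboundedUnder_le (bdd_above hfive k)
  filter_upwards [hle] with j hj
  rw [← Real.mul_rpow hc.le (pn_nonneg _ _)]
  exact Real.rpow_le_rpow (mul_nonneg hc.le (pn_nonneg _ _)) hj (by positivity)

/-- if the ratios converge then the roots converge -/
theorem root_of_ratio (hroot : S_root) (k : List V) (hpos : ∀ᶠ j : ℕ in atTop, 0 < pn k (2 * j))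
    (L : ℝ) (h : Tendsto (fun j : ℕ => pn k (2 * j + 2) / pn k (2 * j)) atTop (𝓝 L)) :
    ∃ L' : ℝ, Tendsto (fun j : ℕ => (pn k (2 * j)) ^ (1 / (2 * j : ℝ))) atTop (𝓝 L') := by
  have ha := (ratio_iff k L).1 h
  have hposa : ∀ᶠ j : ℕ in atTop, 0 < (a (KT k) (2 * j) : ℝ) := by
    filter_upwards [hpos, eventually_gt_atTop 0] with j h1 hj using h1.trans_le (pn_le_a k j hj)
  have hL0 : 0 ≤ L := ge_of_tendsto' ha fun j => by positivity
  have hL : 0 < L := by
    rcases hL0.lt_or_eq with h1 | h1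
    · exact h1
    · exfalso
      rw [← h1] at ha
      have h2 : ∀ᶠ j : ℕ in atTop, a (KT k) (2 * (j + 1)) < a (KT k) (2 * j) := by
        filter_upwards [ha.eventually_lt_const one_pos, hposa] with j h2 h3
        rw [div_lt_one h3] at h2
        exact_mod_cast h2
      obtain ⟨J, hJ⟩ := eventually_atTop.1 h2
      have h3 : ∀ i : ℕ, a (KT k) (2 * (J + i)) + i ≤ a (KT k) (2 * J) := by
        intro i
        induction i with
        | zero => simp
        | succ i ih =>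
          have h5 := hJ (J + i) (by omega)
          have e : J + (i + 1) = J + i + 1 := by ring
          rw [e]
          omega
      have := h3 (a (KT k) (2 * J) + 1)
      omega
  have h4 := hroot (fun j => (a (KT k) (2 * j) : ℝ)) L hposa hL ha
  exact ⟨_, (root_iff k _).2 h4⟩

theorem main_of (hmu : S_mu) (hclass : S_class) (hroot : S_root) (hatt : S_attach)
    (hfive : S_five) (hpat : S_pattern) (hinv : S_inv) : Main := by
  obtain ⟨μ, h1, h2, h3⟩ := hmu
  have h3' : Tendsto (fun j : ℕ => (pn sq (2 * j)) ^ (1 / (2 * j : ℝ))) atTop (𝓝 μ) :=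
    (root_iff sq μ).2 h3
  have hr := ratio_of_root hclass hfive hinv sq μ (by linarith) h3'
  refine ⟨μ, h1, h2, h3', hr, fun k hk => ?_⟩
  obtain ⟨c, hc, hcomp⟩ := compare hatt k hk μ (by linarith) h3' hr
  have hge := growth_ge hfive k μ c hc h3' hcomp
  have hle := growth_le hfive k
  have hpos : ∀ᶠ j : ℕ in atTop, 0 < pn k (2 * j) := by
    filter_upwards [hcomp, root_pos (by linarith) h3'] with j h4 h5
    have : 0 < c * pn sq (2 * j) := mul_pos hc h5
    linarith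
  refine ⟨hge, hle, ?_, class_pn hclass hfive hinv k (by linarith), ⟨?_, ?_⟩, c, hc, hcomp⟩
  · exact hpat (KT k) (hinv k) (growth k) (by linarith) hle
      (fun τ hτ => upper hfive k (by linarith) τ hτ)
  · rintro ⟨L, hL⟩
    have hg : growth k = L := hL.limsup_eq
    exact ⟨_, ratio_of_root hclass hfive hinv k L (by rw [← hg]; linarith) hL⟩
  · rintro ⟨L, hL⟩
    exact root_of_ratio hroot k hpos L hL

end

end KN
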