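import Pool.Agent.H246KN.Stubs

/-!
Task GS: beads on equivalent polygons.
-/

set_option autoImplicit false

namespace KN

namespace GSp

theorem kappa_nonneg {κ : ℝ} {α : List V} (h : IsBead κ α) : 0 ≤ κ := by
  obtain ⟨p, hp⟩ := List.exists_mem_of_ne_nil α h.ne
  obtain ⟨h1, h2, h3⟩ := h.cone p hp
  have h4 : 0 < min p.1 (1 - p.1) := lt_min h1 (by linarith)
  have h5 : 0 ≤ κ * min p.1 (1 - p.1) := (abs_nonneg _).trans h3.2.2.1
  by_contra h6
  push Not at h6
  have h7 : κ * min p.1 (1 - p.1) < 0 := mul_neg_of_neg_of_pos h6 h4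
  linarith

/-- the closing edge of a simple polygon can be subdivided -/
theorem simple_sub (hr : S_rot) (hs : S_sub) (p : V) (l : List V) (q : V) (s : ℝ)
    (h : Simple (p :: l ++ [q])) (h0 : 0 < s) (h1 : s < 1) :
    Simple (p :: l ++ [q, lerp q p s]) := by
  have e1 : Simple ((l ++ [q]) ++ [p]) := (hr [p] (l ++ [q]) (by simpa using h)).1
  have e2 : Simple (l ++ q :: p :: []) := by simpa using e1
  have e3 : Simple (l ++ q :: ([s].map (lerp q p)) ++ p :: []) :=
    (hs l [] q p [s] (List.pairwise_singleton _ _) (by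
      intro t ht
      rw [List.mem_singleton] at ht
      rw [ht]
      exact ⟨h0, h1⟩)).1.1 e2
  have e4 : Simple ((l ++ [q, lerp q p s]) ++ [p]) := by simpa using e3
  have e5 := (hr (l ++ [q, lerp q p s]) [p] e4).1
  simpa using e5

/-- the statement for one pair -/
def P (α : List V) (l l' : List V) : Prop :=
  (l = l' ∨ (Simple l ∧ Simple l')) ∧ (Simple l → Simple l' → GS l α l' α)

theorem move (hfam : S_fam) (hrot : S_gsRot) (hsubL : S_subL) (hr : S_rot) (hs : S_sub)
    {κ : ℝ} {α : List V} (hα : IsBead κ α) {l l' : List V} (h : Move l l') : P α l l' := by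
  cases h with
  | iso k γ hc hsim =>
    have s0 := hsim 0 (le_refl _) zero_le_one
    have s1 := hsim 1 zero_le_one (le_refl _)
    refine ⟨Or.inr ⟨s0, s1⟩, fun _ _ => ?_⟩
    have h1 := hfam k α.length γ (fun _ i => α.get i) κ (kappa_nonneg hα) hc
      (fun i => continuous_const) hsim (fun t _ _ => by
        rw [List.ofFn_get]
        exact hα)
    simp only [List.ofFn_get] at h1
    exact h1
  | rot p l hsim =>
    have s1 : Simple (l ++ [p]) := (hr [p] l (by simpa using hsim)).1
    exact ⟨Or.inr ⟨hsim, s1⟩, fun _ _ => hrot κ p l α hsim hα⟩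
  | sub p l q s hsim h0 h1 =>
    have s1 := simple_sub hr hs p l q s hsim h0 h1
    refine ⟨Or.inr ⟨hsim, s1⟩, fun _ _ => ?_⟩
    have h2 := hsubL κ (p :: l ++ [q]) α s hsim hα h0 h1
    have e1 : (p :: l ++ [q]).getLastD 0 = q := by
      rw [List.getLastD_eq_getLast?, List.getLast?_concat]
      rfl
    have e2 : (p :: l ++ [q]).headD 0 = p := by
      simp
    rw [e1, e2] at h2
    have e3 : (p :: l ++ [q]) ++ [lerp q p s] = p :: l ++ [q, lerp q p s] := by simp
    rw [e3] at h2
    exact h2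

end GSp

/-- B10 -/
theorem S_gs_proof (hfam : S_fam) (hrot : S_gsRot) (hsubL : S_subL) (htr : S_gsTrans)
    (hrefl : S_gsRefl) (hr : S_rot) (hs : S_sub) : S_gs := by
  intro κ l l' α hl hl' hα hS
  have key : GSp.P α l l' := by
    unfold Same at hS
    clear hl hl'
    induction hS with
    | rel x y h => exact GSp.move hfam hrot hsubL hr hs hα h
    | refl x => exact ⟨Or.inl rfl, fun h1 _ => hrefl κ x α h1 hα⟩
    | symm x y _ ih =>
      refine ⟨?_, fun h1 h2 => htr.1 _ _ _ _ (ih.2 h2 h1)⟩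
      rcases ih.1 with h | h
      · exact Or.inl h.symm
      · exact Or.inr ⟨h.2, h.1⟩
    | trans x y z _ _ ih1 ih2 =>
      rcases ih1.1 with h | ⟨hx, hy⟩
      · rw [h]; exact ih2
      · rcases ih2.1 with h' | ⟨hy', hz⟩
        · rw [← h']; exact ih1
        · exact ⟨Or.inr ⟨hx, hz⟩, fun _ _ => htr.2 _ _ _ _ _ _ hy (ih1.2 hx hy) (ih2.2 hy' hz)⟩
  exact key.2 hl hl'

end KN
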