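import Pool.Agent.H246KN.Stubs

/-!
Task KES (helper479): Kesten's lemma (pure analysis).
-/

set_option autoImplicit false

namespace KN

open Finset Filter Topology
open scoped Classical

namespace KES

/-- the final contradiction -/
theorem fin {β q : ℝ} {N M k : ℕ} (hβ : 1 < β) (hq : β ^ (8 * N) ≤ q) (hM : k < N * (M + 1))
    (hk : 4 * N < k) {a b : ℝ} (ha : (β⁻¹) ^ (2 * k) ≤ a) (hab : q ^ M * a ≤ b)
    (hb : b ≤ β ^ (4 * k)) : False := by
  have hβ0 : 0 < β := by linarith
  have h1 : β ^ (8 * N * M) ≤ q ^ M := by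
    rw [pow_mul]
    exact pow_le_pow_left₀ (by positivity) hq M
  have h2 : β ^ (8 * N * M) * (β⁻¹) ^ (2 * k) ≤ β ^ (4 * k) := by
    refine le_trans ?_ (hab.trans hb)
    exact mul_le_mul h1 ha (by positivity) (le_trans (by positivity) h1)
  have h3 : β ^ (8 * N * M) ≤ β ^ (6 * k) := by
    have h40 : (β⁻¹) ^ (2 * k) * β ^ (2 * k) = 1 := by
      rw [← mul_pow, inv_mul_cancel₀ hβ0.ne', one_pow]
    have h4 : β ^ (8 * N * M) = β ^ (8 * N * M) * (β⁻¹) ^ (2 * k) * β ^ (2 * k) := by
      rw [mul_assoc (β ^ (8 * N * M)), h40, mul_one]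
    rw [h4, show 6 * k = 4 * k + 2 * k by ring, pow_add]
    exact mul_le_mul_of_nonneg_right h2 (by positivity)
  have h5 : 8 * N * M ≤ 6 * k := (pow_le_pow_iff_right₀ hβ).mp h3
  nlinarith

theorem core (y : ℕ → ℝ) (D θ c : ℝ) (hD : 0 ≤ D) (hθ0 : 0 < θ) (hθ1 : θ < 1)
    (H1 : ∀ τ : ℝ, 0 < τ → ∀ᶠ k : ℕ in atTop, y k ≤ (1 + τ) ^ (2 * k))
    (H2 : ∀ᶠ k : ℕ in atTop, θ ^ (2 * k + 2) ≤ y (k + 1) →
      y (k + 1) ^ 2 ≤ y k * y (k + 2) * (1 + D / k))
    (hy : ∀ k, 0 ≤ y k) (hc0 : 0 < c) (hc1 : c ≤ 1 / 2) :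
    ∃ δ : ℝ, 0 < δ ∧ ∀ᶠ k : ℕ in atTop, (1 - δ) ^ (2 * k) ≤ y k →
      |y (k + 1) / y k - 1| ≤ c := by
  -- the number `N`
  obtain ⟨N, hN2, hNE⟩ : ∃ N : ℕ, 2 ≤ N ∧ Real.exp (2 * D / N) * (1 + c / 2) ≤ 1 + c := by
    have h1 : Tendsto (fun N : ℕ => Real.exp (2 * D / N) * (1 + c / 2)) atTop
        (𝓝 (Real.exp 0 * (1 + c / 2))) :=
      ((Real.continuous_exp.tendsto 0).comp (tendsto_const_div_atTop_nhds_zero_nat (2 * D))
        ).mul_const _
    rw [Real.exp_zero, one_mul] at h1
    have h2 := (h1.eventually_lt_const (show 1 + c / 2 < 1 + c by linarith)).and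
      (eventually_ge_atTop 2)
    obtain ⟨N, h3, h4⟩ := h2.exists
    exact ⟨N, h4, h3.le⟩
  set E : ℝ := Real.exp (2 * D / N) with hE
  have hN0 : (0:ℝ) < N := by
    have : 0 < N := by omega
    exact_mod_cast this
  have hE1 : 1 ≤ E := Real.one_le_exp (by positivity)
  have hE2 : E * (1 - c) ≤ 1 - c / 2 := by
    have h1 : (E * (1 - c)) * (1 + c / 2) ≤ (1 - c / 2) * (1 + c / 2) := by
      have := mul_le_mul_of_nonneg_right hNE (show 0 ≤ 1 - c by linarith)
      nlinarith
    exact le_of_mul_le_mul_right h1 (by linarith)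
  set q : ℝ := 1 + c / 2 with hq
  have hq1 : 1 < q := by rw [hq]; linarith
  have hqc : q * (1 - c / 2) ≤ 1 := by rw [hq]; nlinarith
  -- the number `β`
  obtain ⟨β, hβ1, hβq, hβθ⟩ : ∃ β : ℝ, 1 < β ∧ β ^ (8 * N) ≤ q ∧ θ * β ^ 2 ≤ 1 := by
    have h1 : ∀ᶠ β : ℝ in 𝓝[>] 1, β ^ (8 * N) < q := by
      have h2 : Tendsto (fun β : ℝ => β ^ (8 * N)) (𝓝 1) (𝓝 (1 ^ (8 * N))) :=
        (continuous_pow (8 * N)).tendsto 1
      rw [one_pow] at h2
      exact (h2.eventually_lt_const hq1).filter_mono nhdsWithin_le_nhds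
    have h3 : ∀ᶠ β : ℝ in 𝓝[>] 1, θ * β ^ 2 < 1 := by
      have h2 : Tendsto (fun β : ℝ => θ * β ^ 2) (𝓝 1) (𝓝 (θ * 1 ^ 2)) :=
        (continuous_const.mul (continuous_pow 2)).tendsto 1
      rw [one_pow, mul_one] at h2
      exact (h2.eventually_lt_const hθ1).filter_mono nhdsWithin_le_nhds
    obtain ⟨β, ⟨h4, h5⟩, h6⟩ := ((h1.and h3).and self_mem_nhdsWithin).exists
    exact ⟨β, h6, h4.le, h5.le⟩
  have hβ0 : 0 < β := by linarith
  have hβi : (β⁻¹) ^ 2 ≥ θ := by
    rw [inv_pow, ge_iff_le, ← one_div, le_div_iff₀ (by positivity)]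
    exact hβθ
  obtain ⟨K1, hK1⟩ := eventually_atTop.mp (H1 (β - 1) (by linarith))
  obtain ⟨K2, hK2⟩ := eventually_atTop.mp H2
  refine ⟨1 - β⁻¹, sub_pos.mpr (inv_lt_one_of_one_lt₀ hβ1), ?_⟩
  filter_upwards [eventually_ge_atTop (2 * K1 + 2 * K2 + 4 * N + 2)] with k hk hyk
  rw [sub_sub_cancel] at hyk
  have hk0 : 0 < k := by omega
  have hkR : (0:ℝ) < k := by exact_mod_cast hk0
  have hyk0 : 0 < y k := lt_of_lt_of_le (by positivity) hyk
  set M : ℕ := k / N with hM
  have hNM : N * M ≤ k := Nat.mul_div_le k N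
  have hNM1 : k < N * (M + 1) := by
    rw [hM]
    exact Nat.lt_mul_div_succ k (by omega)
  have hM2 : 2 * M ≤ k := le_trans (Nat.mul_le_mul_right M hN2) hNM
  have hup : ∀ j, K1 ≤ j → j ≤ 2 * k → y j ≤ β ^ (4 * k) := by
    intro j hj hj2
    have h1 := hK1 j hj
    rw [add_sub_cancel] at h1
    refine h1.trans (pow_le_pow_right₀ hβ1.le (by omega))
  have hθk : θ ^ k ≤ y k := by
    refine le_trans ?_ hyk
    rw [pow_mul]
    exact pow_le_pow_left₀ hθ0.le hβi k
  set g : ℝ := 1 + 2 * D / k with hg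
  have hg1 : 1 ≤ g := by
    rw [hg]
    have : 0 ≤ 2 * D / k := by positivity
    linarith
  have hgE : ∀ i, i ≤ M → g ^ i ≤ E := by
    intro i hi
    have h1 : g ≤ Real.exp (2 * D / k) := by
      rw [hg, add_comm]
      exact Real.add_one_le_exp _
    have h2 : g ^ i ≤ Real.exp (2 * D / k) ^ i := pow_le_pow_left₀ (by linarith) h1 i
    rw [← Real.exp_nat_mul] at h2
    refine h2.trans (Real.exp_le_exp.mpr ?_)
    have h3 : (i : ℝ) * N ≤ k := by
      have : i * N ≤ k := by nlinarith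
      exact_mod_cast this
    rw [mul_div_assoc', div_le_div_iff₀ hkR hN0]
    nlinarith
  have hDj : ∀ j : ℕ, k ≤ 2 * j → (1 + D / j) ≤ g := by
    intro j hj
    have hj0 : (0:ℝ) < j := by
      have : 0 < j := by omega
      exact_mod_cast this
    have hjk : (k:ℝ) ≤ 2 * j := by exact_mod_cast hj
    rw [hg]
    have : D / j ≤ 2 * D / k := by
      rw [div_le_div_iff₀ hj0 hkR]
      nlinarith
    linarith
  have hupper : y (k + 1) ≤ (1 + c) * y k := by
    by_contra hcon
    have hcon' : (1 + c) * y k < y (k + 1) := not_le.mp hcon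
    have hind : ∀ i, i ≤ M → (1 + c) * y (k + i) ≤ y (k + i + 1) * g ^ i ∧
        q ^ i * y k ≤ y (k + i) := by
      intro i
      induction i with
      | zero =>
        intro _
        simp only [add_zero, pow_zero, mul_one, one_mul]
        exact ⟨hcon'.le, le_rfl⟩
      | succ i ih =>
        intro hi
        obtain ⟨i1, i2⟩ := ih (by omega)
        have hqi : (1:ℝ) ≤ q ^ i := one_le_pow₀ hq1.le
        have a1 : y k ≤ y (k + i) := by nlinarith
        have a0 : 0 < y (k + i) := lt_of_lt_of_le hyk0 a1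
        have a2 : q * y (k + i) ≤ y (k + i + 1) := by
          have b1 := hgE i (by omega)
          have b2 : y (k + i + 1) * g ^ i ≤ y (k + i + 1) * E :=
            mul_le_mul_of_nonneg_left b1 (hy _)
          have b3 : (E * q) * y (k + i) ≤ (1 + c) * y (k + i) :=
            mul_le_mul_of_nonneg_right hNE (hy _)
          have b4 : (q * y (k + i)) * E ≤ y (k + i + 1) * E := by nlinarith
          exact le_of_mul_le_mul_right b4 (by linarith)
        have a3 : y k ≤ y (k + i + 1) := by nlinarith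
        have a4 : θ ^ (2 * (k + i) + 2) ≤ y (k + i + 1) := by
          refine le_trans ?_ (hθk.trans a3)
          exact pow_le_pow_of_le_one hθ0.le hθ1.le (by omega)
        have a5 := hK2 (k + i) (by omega) a4
        have a6 : (1 + D / ((k + i : ℕ) : ℝ)) ≤ g := hDj (k + i) (by omega)
        have a7 : y (k + i + 1) ^ 2 ≤ y (k + i) * y (k + i + 2) * g := by
          refine a5.trans ?_
          exact mul_le_mul_of_nonneg_left a6 (mul_nonneg (hy _) (hy _))
        have e1 : k + (i + 1) = k + i + 1 := by ring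
        have e2 : k + i + 1 + 1 = k + i + 2 := by ring
        rw [e1, e2]
        refine ⟨?_, ?_⟩
        · have hgi : 0 < g ^ i := by positivity
          have a8 : y (k + i) * ((1 + c) * y (k + i + 1)) ≤
              y (k + i) * (y (k + i + 2) * g ^ (i + 1)) := by
            have c1 : (1 + c) * y (k + i) * y (k + i + 1) ≤
                (y (k + i + 1) * g ^ i) * y (k + i + 1) :=
              mul_le_mul_of_nonneg_right i1 (hy _)
            have c2 : y (k + i + 1) ^ 2 * g ^ i ≤ (y (k + i) * y (k + i + 2) * g) * g ^ i :=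
              mul_le_mul_of_nonneg_right a7 hgi.le
            rw [pow_succ]
            nlinarith
          exact le_of_mul_le_mul_left a8 a0
        · rw [pow_succ]
          nlinarith
    obtain ⟨-, h2⟩ := hind M le_rfl
    exact fin hβ1 hβq hNM1 (by omega) hyk h2 (hup (k + M) (by omega) (by omega))
  have hlower : (1 - c) * y k ≤ y (k + 1) := by
    by_contra hcon
    have hcon' : y (k + 1) < (1 - c) * y k := not_le.mp hcon
    have hind : ∀ i, i ≤ M → y (k - i + 1) ≤ (1 - c) * g ^ i * y (k - i) ∧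
        q ^ i * y k ≤ y (k - i) := by
      intro i
      induction i with
      | zero =>
        intro _
        simp only [Nat.sub_zero, pow_zero, mul_one, one_mul]
        exact ⟨hcon'.le, le_rfl⟩
      | succ i ih =>
        intro hi
        obtain ⟨i1, i2⟩ := ih (by omega)
        obtain ⟨j, hj⟩ : ∃ j, k - i = j + 1 := ⟨k - i - 1, by omega⟩
        have hj' : k - (i + 1) = j := by omega
        rw [hj] at i1 i2
        rw [hj']
        have hqi : (1:ℝ) ≤ q ^ i := one_le_pow₀ hq1.le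
        have a1 : y k ≤ y (j + 1) := by nlinarith
        have a0 : 0 < y (j + 1) := lt_of_lt_of_le hyk0 a1
        have a4 : θ ^ (2 * j + 2) ≤ y (j + 1) := by
          refine le_trans ?_ (hθk.trans a1)
          exact pow_le_pow_of_le_one hθ0.le hθ1.le (by omega)
        have a5 := hK2 j (by omega) a4
        have a6 : (1 + D / (j : ℝ)) ≤ g := hDj j (by omega)
        have a7 : y (j + 1) ^ 2 ≤ y j * y (j + 2) * g := by
          refine a5.trans ?_
          exact mul_le_mul_of_nonneg_left a6 (mul_nonneg (hy _) (hy _))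
        have e2 : j + 1 + 1 = j + 2 := by ring
        rw [e2] at i1
        have b1 : y (j + 1) ≤ (1 - c) * g ^ (i + 1) * y j := by
          have hg0 : 0 ≤ g := by linarith
          have c1 : y j * y (j + 2) * g ≤ y j * ((1 - c) * g ^ i * y (j + 1)) * g :=
            mul_le_mul_of_nonneg_right (mul_le_mul_of_nonneg_left i1 (hy _)) hg0
          have c2 : y (j + 1) * y (j + 1) ≤ ((1 - c) * g ^ (i + 1) * y j) * y (j + 1) := by
            rw [pow_succ]
            nlinarith
          exact le_of_mul_le_mul_right c2 a0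
        refine ⟨b1, ?_⟩
        have b2 : y (j + 1) ≤ (1 - c / 2) * y j := by
          refine b1.trans (mul_le_mul_of_nonneg_right ?_ (hy _))
          have := hgE (i + 1) hi
          have h1c : 0 ≤ 1 - c := by linarith
          calc (1 - c) * g ^ (i + 1) ≤ (1 - c) * E := mul_le_mul_of_nonneg_left this h1c
            _ = E * (1 - c) := by ring
            _ ≤ 1 - c / 2 := hE2
        have b3 : q * y (j + 1) ≤ y j := by
          have d1 : q * y (j + 1) ≤ q * ((1 - c / 2) * y j) :=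
            mul_le_mul_of_nonneg_left b2 (by linarith)
          have d2 : (q * (1 - c / 2)) * y j ≤ 1 * y j := mul_le_mul_of_nonneg_right hqc (hy _)
          nlinarith
        rw [pow_succ]
        nlinarith
    obtain ⟨-, h2⟩ := hind M le_rfl
    exact fin hβ1 hβq hNM1 (by omega) hyk h2 (hup (k - M) (by omega) (by omega))
  rw [abs_le]
  constructor
  · have : 1 - c ≤ y (k + 1) / y k := by rwa [le_div_iff₀ hyk0]
    linarith
  · have : y (k + 1) / y k ≤ 1 + c := by rwa [div_le_iff₀ hyk0]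
    linarith

end KES

theorem S_kesten_proof : S_kesten := by
  intro x μ D θ hμ hD hθ0 hθ1 hx H1 H2 ε hε
  set y : ℕ → ℝ := fun k => x k / μ ^ (2 * k) with hy
  have hμk : ∀ k : ℕ, 0 < μ ^ (2 * k) := fun k => by positivity
  have hxy : ∀ k, x k = y k * μ ^ (2 * k) := by
    intro k
    simp only [hy]
    rw [div_mul_cancel₀ _ (hμk k).ne']
  have hy0 : ∀ k, 0 ≤ y k := fun k => div_nonneg (hx k) (hμk k).le
  set c : ℝ := min (1 / 2) (ε / μ ^ 2) with hc
  have hc0 : 0 < c := lt_min (by norm_num) (by positivity)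
  obtain ⟨δ, hδ, h⟩ := KES.core y D θ c hD hθ0 hθ1 (by
      intro τ hτ
      filter_upwards [H1 τ hτ] with k hk
      rw [hxy k, mul_pow] at hk
      exact le_of_mul_le_mul_right hk (hμk k)) (by
      filter_upwards [H2] with k hk h1
      have h2 : (θ * μ) ^ (2 * k + 2) ≤ x (k + 1) := by
        rw [hxy (k + 1), mul_pow, show 2 * (k + 1) = 2 * k + 2 by ring]
        exact mul_le_mul_of_nonneg_right h1 (by positivity)
      have h3 := hk h2
      rw [hxy (k + 1), hxy k, hxy (k + 2)] at h3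
      have h4 : (y (k + 1) * μ ^ (2 * (k + 1))) ^ 2 = y (k + 1) ^ 2 * μ ^ (4 * k + 4) := by
        rw [mul_pow, ← pow_mul]
        congr 2
        ring
      have h5 : y k * μ ^ (2 * k) * (y (k + 2) * μ ^ (2 * (k + 2))) * (1 + D / k) =
          (y k * y (k + 2) * (1 + D / k)) * μ ^ (4 * k + 4) := by
        have : μ ^ (4 * k + 4) = μ ^ (2 * k) * μ ^ (2 * (k + 2)) := by
          rw [← pow_add]
          congr 1
          ring
        rw [this]
        ring
      rw [h4, h5] at h3
      exact le_of_mul_le_mul_right h3 (by positivity)) hy0 hc0 (min_le_left _ _)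
  refine ⟨δ, hδ, ?_⟩
  filter_upwards [h, eventually_ge_atTop 1] with k hk _ h1
  by_cases hyk0 : y k = 0
  · -- then `(1 - δ) ^ (2 k) = 0`, and the statement `h` gives `1 ≤ c`
    have h2 : (1 - δ) ^ (2 * k) ≤ y k := by
      rw [hxy k, mul_pow] at h1
      exact le_of_mul_le_mul_right h1 (hμk k)
    have h3 := hk h2
    rw [hyk0, div_zero, zero_sub, abs_neg, abs_one] at h3
    have h4 : c ≤ 1 / 2 := min_le_left _ _
    linarith
  · have h2 : (1 - δ) ^ (2 * k) ≤ y k := by
      rw [hxy k, mul_pow] at h1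
      exact le_of_mul_le_mul_right h1 (hμk k)
    have h3 := hk h2
    have h4 : x (k + 1) / x k = (y (k + 1) / y k) * μ ^ 2 := by
      rw [hxy (k + 1), hxy k, show 2 * (k + 1) = 2 * k + 2 by ring, pow_add]
      have := (hμk k).ne'
      field_simp
    rw [h4, show y (k + 1) / y k * μ ^ 2 - μ ^ 2 = (y (k + 1) / y k - 1) * μ ^ 2 by ring, abs_mul,
      abs_of_pos (show 0 < μ ^ 2 by positivity)]
    have h5 : c ≤ ε / μ ^ 2 := min_le_right _ _
    calc |y (k + 1) / y k - 1| * μ ^ 2 ≤ c * μ ^ 2 :=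
          mul_le_mul_of_nonneg_right h3 (by positivity)
      _ ≤ (ε / μ ^ 2) * μ ^ 2 := mul_le_mul_of_nonneg_right h5 (by positivity)
      _ = ε := by field_simp

end KN
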