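import Pool.Agent.H246KN.Stubs

/-!
# Task MU: the growth constant of the unknot
-/

set_option autoImplicit false

namespace KN

open Finset Filter Topology
open scoped Classical

noncomputable section

namespace MU

/-! ### Fekete's lemma for sequences which are superadditive from `2` on -/

theorem mul_step (t : ℕ → ℝ) (h : ∀ n m, 2 ≤ n → 2 ≤ m → t n + t m ≤ t (n + m)) (m r : ℕ)
    (hm : 2 ≤ m) (hr : 2 ≤ r) (q : ℕ) : (q : ℝ) * t m + t r ≤ t (q * m + r) := by
  induction q with
  | zero => simp
  | succ q ih =>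
    have h1 := h (q * m + r) m (by omega) hm
    have h2 : (q + 1) * m + r = q * m + r + m := by ring
    rw [h2]
    push_cast
    linarith

theorem fekete (t : ℕ → ℝ) (h : ∀ n m, 2 ≤ n → 2 ≤ m → t n + t m ≤ t (n + m)) (B : ℝ)
    (hB : ∀ n, 2 ≤ n → t n ≤ B * n) : ∃ L : ℝ, Tendsto (fun n : ℕ => t n / n) atTop (𝓝 L) := by
  set S : Set ℝ := {y | ∃ m : ℕ, 2 ≤ m ∧ y = t m / m} with hS
  have hbdd : BddAbove S := by
    refine ⟨B, ?_⟩
    rintro y ⟨m, hm, rfl⟩
    have hm0 : (0 : ℝ) < m := by positivity
    rw [div_le_iff₀ hm0]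
    exact hB m hm
  have hne : S.Nonempty := ⟨_, 2, le_refl _, rfl⟩
  refine ⟨sSup S, ?_⟩
  rw [Metric.tendsto_atTop]
  intro ε hε
  obtain ⟨y, ⟨m, hm, rfl⟩, hy⟩ := exists_lt_of_lt_csSup hne (show sSup S - ε / 2 < sSup S by linarith)
  have hm0 : (0 : ℝ) < m := by positivity
  -- a lower bound for the remainders
  obtain ⟨C, hC⟩ : ∃ C : ℝ, ∀ r ∈ Finset.range (m + 2), -C ≤ t r := by
    refine ⟨∑ r ∈ Finset.range (m + 2), |t r|, fun r hr => ?_⟩
    have h1 : |t r| ≤ ∑ r ∈ Finset.range (m + 2), |t r| :=
      Finset.single_le_sum (f := fun r => |t r|) (fun i _ => abs_nonneg _) hr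
    have h2 := neg_abs_le (t r)
    linarith
  obtain ⟨n0, hn0⟩ := exists_nat_gt ((|t m / m| * (m + 2) + C) / (ε / 2))
  refine ⟨n0 + 2, fun n hn => ?_⟩
  have hn2 : 2 ≤ n := by omega
  have hn0' : (0 : ℝ) < n := by positivity
  set q := (n - 2) / m with hq
  set r := n - q * m with hr
  have hqm : q * m ≤ n - 2 := Nat.div_mul_le_self _ _
  have hlt : n - 2 < (q + 1) * m := by
    have e1 := Nat.div_add_mod (n - 2) m
    have e2 := Nat.mod_lt (n - 2) (show 0 < m by omega)
    rw [← hq] at e1
    have e3 : (q + 1) * m = m * q + m := by ring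
    omega
  have hr2 : 2 ≤ r := by omega
  have hrm : r < m + 2 := by
    have : (q + 1) * m = q * m + m := by ring
    omega
  have hnqr : n = q * m + r := by omega
  have h1 := mul_step t h m r hm hr2 q
  rw [← hnqr] at h1
  have h2 := hC r (Finset.mem_range.mpr hrm)
  have hup : t n / n ≤ sSup S := le_csSup hbdd ⟨n, hn2, rfl⟩
  have hqr : (q : ℝ) = ((n : ℝ) - r) / m := by
    have : (n : ℝ) = q * m + r := by exact_mod_cast hnqr
    field_simp
    linarith
  have hlow : t m / m - (|t m / m| * (m + 2) + C) / n ≤ t n / n := by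
    have e1 : (q : ℝ) * t m = n * (t m / m) - r * (t m / m) := by
      rw [hqr]; field_simp
    have e2 : (r : ℝ) * (t m / m) ≤ (m + 2) * |t m / m| := by
      have hr' : (r : ℝ) ≤ m + 2 := by exact_mod_cast hrm.le
      calc (r : ℝ) * (t m / m) ≤ r * |t m / m| :=
            mul_le_mul_of_nonneg_left (le_abs_self _) (by positivity)
        _ ≤ (m + 2) * |t m / m| := mul_le_mul_of_nonneg_right hr' (abs_nonneg _)
    have e3 : n * (t m / m) - (|t m / m| * (m + 2) + C) ≤ t n := by nlinarith [h1, h2, e1, e2]
    rw [sub_le_iff_le_add, ← add_div, le_div_iff₀ hn0']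
    nlinarith [e3]
  have hsmall : (|t m / m| * (m + 2) + C) / n < ε / 2 := by
    have hn1 : (n0 : ℝ) ≤ n := by exact_mod_cast (by omega : n0 ≤ n)
    rw [div_lt_iff₀ hn0']
    rw [div_lt_iff₀ (by linarith)] at hn0
    nlinarith
  rw [Real.dist_eq, abs_lt]
  constructor <;> linarith

/-! ### positivity -/

theorem sap_sqw : SAP sqw := by
  refine ⟨by decide, by decide, by decide⟩

theorem same_refl (l : List V) : Same l l := Relation.EqvGen.refl l

theorem same_symm {l l' : List V} (h : Same l l') : Same l' l := Relation.EqvGen.symm _ _ h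

theorem same_trans {l l' l'' : List V} (h : Same l l') (h' : Same l' l'') : Same l l'' :=
  Relation.EqvGen.trans _ _ _ h h'

theorem KT_congr {k : List V} {w w' : List Dir} (h : Same (vl w) (vl w')) : KT k w ↔ KT k w' := by
  constructor
  · rintro (h1 | h1)
    · exact Or.inl (same_trans (same_symm h) h1)
    · exact Or.inr (same_trans (same_symm h) h1)
  · rintro (h1 | h1)
    · exact Or.inl (same_trans h h1)
    · exact Or.inr (same_trans h h1)

theorem pos_four : 0 < a U 4 := by
  refine Finset.card_pos.mpr ⟨sqw, ?_⟩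
  rw [mem_K]
  exact ⟨rfl, sap_sqw, Or.inl (same_refl _)⟩

theorem pos_step (h_ins : S_ins) (h_inv : S_inv) (h_q : S_quartR) (h_w : S_words) (n : ℕ)
    (hn : 0 < a U n) : 0 < a U (n + 2) := by
  have h1 := h_q U (fun w hw => KT_congr ((h_w w hw).1.2)) n
  have h2 : 0 < ((K U n).filter (fun w => ∃ l1 l2 : List Dir, w = l1 ++ .zp :: l2 ∧
      ∀ p ∈ path w, p.1 ≤ (pos l2).1)).card := by omega
  obtain ⟨w, hw⟩ := Finset.card_pos.mp h2
  rw [mem_filter, mem_K] at hw
  obtain ⟨⟨hlen, hsap, hU⟩, l1, l2, hwe, hmax⟩ := hw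
  have hi : l1.length < w.length := by rw [hwe]; simp
  have hget : w.getD l1.length .xp = .zp := by rw [hwe]; simp
  have hdrop : w.drop (l1.length + 1) = l2 := by rw [hwe]; simp
  have hsite : site w l1.length .xp := by
    refine ⟨hi, ?_, ?_, ?_⟩
    · rw [hget]; decide
    · rw [hdrop]
      intro hmem
      have := hmax _ hmem
      simp only [vec, Prod.fst_add] at this
      omega
    · rw [hdrop, hget]
      intro hmem
      have := hmax _ hmem
      simp only [vec, Prod.fst_add] at this
      omega
  obtain ⟨hs, hl, -⟩ := h_ins w l1.length .xp hsap hsite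
  refine Finset.card_pos.mpr ⟨ins w l1.length .xp, ?_⟩
  rw [mem_K]
  exact ⟨by rw [hl, hlen], hs, (h_inv sq w hsap _ _ hsite).mp hU⟩

theorem pos_even (h_ins : S_ins) (h_inv : S_inv) (h_q : S_quartR) (h_w : S_words) (k : ℕ)
    (hk : 2 ≤ k) : 0 < a U (2 * k) := by
  induction k, hk using Nat.le_induction with
  | base => exact pos_four
  | succ k hk ih => exact pos_step h_ins h_inv h_q h_w _ ih

theorem even_of_pos {n : ℕ} (h : 0 < a U n) : n % 2 = 0 := by
  obtain ⟨w, hw⟩ := Finset.card_pos.mp h
  rw [mem_K] at hw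
  rw [← hw.1]
  exact even_of_closed hw.2.1.2.1

/-! ### the limit -/

theorem tendsto_log_div : Tendsto (fun n : ℕ => Real.log (64 * n) / n) atTop (𝓝 0) := by
  have h1 : Tendsto (fun n : ℕ => Real.log (n : ℝ) / n) atTop (𝓝 0) := by
    have h := (Real.isLittleO_log_id_atTop).tendsto_div_nhds_zero
    exact h.comp tendsto_natCast_atTop_atTop
  have h2 : Tendsto (fun n : ℕ => Real.log 64 / (n : ℝ)) atTop (𝓝 0) :=
    tendsto_const_nhds.div_atTop tendsto_natCast_atTop_atTop
  have h3 := h2.add h1
  rw [add_zero] at h3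
  refine h3.congr' ?_
  filter_upwards [eventually_gt_atTop 0] with n hn
  have hn' : (n : ℝ) ≠ 0 := by positivity
  rw [Real.log_mul (by norm_num) hn', add_div]

end MU

open MU in
theorem S_mu_proof (h_super : S_super) (h_low : S_low) (h_five : S_five) (h_ins : S_ins)
    (h_inv : S_inv) (h_q : S_quartR) (h_w : S_words) : S_mu := by
  set x : ℕ → ℝ := fun k => (a U (2 * k) : ℝ) with hx
  have hxpos : ∀ k, 2 ≤ k → 0 < x k := fun k hk => by
    have := pos_even h_ins h_inv h_q h_w k hk
    simp only [hx]; exact_mod_cast this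
  have hsup : ∀ n m, x n * x m ≤ 32 * m * x (n + m) := by
    intro n m
    have h := h_super sq (2 * n) (2 * m)
    have h' : (a U (2 * n) : ℝ) * a U (2 * m) ≤ 16 * (2 * m) * a U (2 * n + 2 * m) := by
      exact_mod_cast h
    simp only [hx, mul_add]
    linarith
  have hsup' : ∀ n m, x n * x m ≤ 32 * n * x (n + m) := by
    intro n m
    have := hsup m n
    rw [add_comm m n, mul_comm] at this
    exact this
  -- the superadditive sequence
  set t : ℕ → ℝ := fun k => Real.log (x k / (64 * k)) with ht
  have hyp : ∀ k, 2 ≤ k → 0 < x k / (64 * k) := fun k hk => by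
    have := hxpos k hk
    positivity
  have htadd : ∀ n m, 2 ≤ n → 2 ≤ m → t n + t m ≤ t (n + m) := by
    intro n m hn hm
    have hn0 : (0 : ℝ) < n := by positivity
    have hm0 : (0 : ℝ) < m := by positivity
    simp only [ht]
    rw [← Real.log_mul (hyp n hn).ne' (hyp m hm).ne']
    refine Real.log_le_log (mul_pos (hyp n hn) (hyp m hm)) ?_
    have hx0 : 0 < x (n + m) := hxpos _ (by omega)
    rw [div_mul_div_comm, div_le_div_iff₀ (by positivity) (by positivity)]
    push_cast
    rcases le_total (n : ℝ) m with hnm | hnm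
    · have h1 := hsup' n m
      have h2 : x n * x m * (64 * (n + m)) ≤ 32 * n * x (n + m) * (64 * (m + m)) := by
        apply mul_le_mul h1 (by linarith) (by positivity) (by positivity)
      nlinarith [h2]
    · have h1 := hsup n m
      have h2 : x n * x m * (64 * (n + m)) ≤ 32 * m * x (n + m) * (64 * (n + n)) := by
        apply mul_le_mul h1 (by linarith) (by positivity) (by positivity)
      nlinarith [h2]
  have hxle : ∀ k, x k ≤ 2 * 25 ^ k := by
    intro k
    have := h_five U (2 * k)
    rw [pow_mul] at this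
    norm_num at this
    exact this
  have htle : ∀ n, 2 ≤ n → t n ≤ Real.log 25 * n := by
    intro n hn
    have hn1 : (2 : ℝ) ≤ n := by exact_mod_cast hn
    simp only [ht]
    have h1 : x n / (64 * n) ≤ 25 ^ n := by
      rw [div_le_iff₀ (by positivity)]
      have h3 := hxle n
      have h4 : (0 : ℝ) < 25 ^ n := by positivity
      nlinarith
    calc Real.log (x n / (64 * n)) ≤ Real.log (25 ^ n) := Real.log_le_log (hyp n hn) h1
      _ = Real.log 25 * n := by rw [Real.log_pow]; ring
  obtain ⟨L, hL⟩ := fekete t htadd (Real.log 25) htle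
  -- logarithms of x
  have hlx : Tendsto (fun k : ℕ => Real.log (x k) / k) atTop (𝓝 L) := by
    have h3 := hL.add tendsto_log_div
    rw [add_zero] at h3
    refine h3.congr' ?_
    filter_upwards [eventually_ge_atTop 2] with k hk
    have hk0 : (64 * (k : ℝ)) ≠ 0 := by positivity
    simp only [ht]
    rw [Real.log_div (hxpos k hk).ne' hk0, ← add_div]
    ring
  refine ⟨Real.exp (L / 2), ?_, ?_, ?_⟩
  · -- lower bound
    obtain ⟨N, r, hN, hlow⟩ := h_low
    have hp : ∀ k, 0 < a U (N * k + r) := by
      intro k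
      have h1 := hlow k
      have h2 : (0 : ℝ) < (77 / 20 : ℝ) ^ (N * k) := by positivity
      have h3 : (0 : ℝ) < (a U (N * k + r) : ℝ) := lt_of_lt_of_le h2 h1
      exact_mod_cast h3
    have hr2 : r % 2 = 0 := by
      have := even_of_pos (hp 0)
      simpa using this
    have hN2 : N % 2 = 0 := by
      have := even_of_pos (hp 1)
      omega
    obtain ⟨N', rfl⟩ : ∃ N', N = 2 * N' := ⟨N / 2, by omega⟩
    obtain ⟨r', rfl⟩ : ∃ r', r = 2 * r' := ⟨r / 2, by omega⟩
    have hN' : 0 < N' := by omega
    have hseq : Tendsto (fun k : ℕ => N' * k + r') atTop atTop := by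
      refine tendsto_atTop_mono (fun k => ?_) tendsto_id
      have : 1 * k ≤ N' * k := Nat.mul_le_mul_right k hN'
      simp only [id]
      omega
    have h1 := hlx.comp hseq
    have h2 : Tendsto (fun k : ℕ => 2 * Real.log (77 / 20) * ((N' * k : ℝ) / (N' * k + r'))) atTop
        (𝓝 (2 * Real.log (77 / 20) * 1)) := by
      refine Tendsto.const_mul _ ?_
      have h3 : Tendsto (fun k : ℕ => (r' : ℝ) / (N' * k + r')) atTop (𝓝 0) := by
        refine tendsto_const_nhds.div_atTop ?_
        have : Tendsto (fun k : ℕ => ((N' * k + r' : ℕ) : ℝ)) atTop atTop :=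
          tendsto_natCast_atTop_atTop.comp hseq
        refine this.congr fun k => ?_
        push_cast
        ring
      have h4 := (tendsto_const_nhds (x := (1 : ℝ)) (f := (atTop : Filter ℕ))).sub h3
      rw [sub_zero] at h4
      refine h4.congr' ?_
      filter_upwards [eventually_gt_atTop 0] with k hk
      have hk' : (0 : ℝ) < k := by exact_mod_cast hk
      have hN'' : (0 : ℝ) < N' := by exact_mod_cast hN'
      have : (N' * k + r' : ℝ) ≠ 0 := by positivity
      field_simp
      ring
    have h5 : 2 * Real.log (77 / 20) * 1 ≤ L := by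
      refine le_of_tendsto_of_tendsto h2 h1 ?_
      filter_upwards [eventually_gt_atTop 0] with k hk
      have hk' : (0 : ℝ) < k := by exact_mod_cast hk
      have hN'' : (0 : ℝ) < N' := by exact_mod_cast hN'
      have hpos : (0 : ℝ) < N' * k + r' := by positivity
      simp only [Function.comp]
      push_cast
      have h6 : Real.log ((77 / 20 : ℝ) ^ (2 * N' * k)) ≤ Real.log (x (N' * k + r')) := by
        refine Real.log_le_log (by positivity) ?_
        have h7 := hlow k
        simp only [hx]
        have h8 : 2 * N' * k + 2 * r' = 2 * (N' * k + r') := by ring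
        rw [h8] at h7
        exact h7
      rw [Real.log_pow] at h6
      push_cast at h6
      rw [le_div_iff₀ hpos]
      have h9 : 2 * Real.log (77 / 20) * ((N' * k : ℝ) / (N' * k + r')) * (N' * k + r') =
          2 * N' * k * Real.log (77 / 20) := by
        field_simp
      rw [h9]
      exact h6
    have h10 : Real.log (77 / 20) ≤ L / 2 := by linarith
    calc (77 / 20 : ℝ) = Real.exp (Real.log (77 / 20)) := (Real.exp_log (by norm_num)).symm
      _ ≤ Real.exp (L / 2) := Real.exp_le_exp.mpr h10
  · -- upper bound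
    have h1 : L ≤ Real.log 25 := by
      refine le_of_tendsto hL ?_
      filter_upwards [eventually_ge_atTop 2] with n hn
      have hn0 : (0 : ℝ) < n := by positivity
      rw [div_le_iff₀ hn0]
      exact htle n hn
    have h2 : Real.log 25 = 2 * Real.log 5 := by
      rw [show (25 : ℝ) = 5 ^ 2 by norm_num, Real.log_pow]; norm_num
    calc Real.exp (L / 2) ≤ Real.exp (Real.log 5) := Real.exp_le_exp.mpr (by linarith)
      _ = 5 := Real.exp_log (by norm_num)
  · have h1 : Tendsto (fun k : ℕ => Real.exp (Real.log (x k) / k / 2)) atTop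
        (𝓝 (Real.exp (L / 2))) := (Real.continuous_exp.tendsto _).comp (hlx.div_const 2)
    refine h1.congr' ?_
    filter_upwards [eventually_ge_atTop 2] with k hk
    have hk0 : (k : ℝ) ≠ 0 := by positivity
    rw [Real.rpow_def_of_pos (hxpos k hk)]
    congr 1
    simp only [hx]
    field_simp

end

end KN
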