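import Pool.Agent.H246KN.Basic

/-!
# Polygons of fixed knot type: the statements of the tasks (as propositions `S_...`)
-/

set_option autoImplicit false

namespace KN

open Finset Filter Topology
open scoped Classical

noncomputable section

/-! ## Part E: entropy (combinatorics of words) -/

/-- E1a: insertion -/
def S_ins : Prop := ∀ (w : List Dir) (i : ℕ) (d : Dir), SAP w → site w i d →
  SAP (ins w i d) ∧ (ins w i d).length = w.length + 2 ∧ bump (ins w i d) i ∧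
    rem (ins w i d) i = w ∧ (ins w i d).getD (i + 2) .xp = d

/-- E1b: removal -/
def S_rem : Prop := ∀ (w : List Dir) (j : ℕ), SAP w → 6 ≤ w.length → bump w j →
  SAP (rem w j) ∧ (rem w j).length + 2 = w.length ∧ site (rem w j) j (w.getD (j + 2) .xp) ∧
    ins (rem w j) j (w.getD (j + 2) .xp) = w

/-- E1c: double counting -/
def S_sum : Prop := ∀ Q : List Dir → Prop, Inv Q → ∀ n : ℕ, 4 ≤ n →
  ∀ F : List Dir → List Dir → ℝ,
  ∑ w ∈ K Q n, ∑ q ∈ sites w, F w (ins w q.1 q.2) =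
    ∑ w ∈ K Q (n + 2), ∑ j ∈ bumps w, F (rem w j) w

/-- E2: an insertion changes the two statistics by bounded amounts -/
def S_change : Prop := ∀ (w : List Dir) (i : ℕ) (d : Dir), SAP w → site w i d →
  fr w ≤ fr (ins w i d) + 28 ∧ fr (ins w i d) ≤ fr w + 12 ∧
    bu (ins w i d) ≤ bu w + 5 ∧ bu w ≤ bu (ins w i d) + 3

/-- E3a: `j` insertions -/
def S_up : Prop := ∀ Q : List Dir → Prop, Inv Q → ∀ (n β F j : ℕ) (B : Finset (List Dir)),
  4 ≤ n → 28 * j ≤ F → B ⊆ K Q n → (∀ w ∈ B, F ≤ fr w ∧ bu w ≤ β) →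
  (B.card : ℝ) * ((F : ℝ) - 28 * j) ^ j ≤ (a Q (n + 2 * j) : ℝ) * ((β : ℝ) + 5 * j) ^ j

/-- E3b: `j` removals -/
def S_down : Prop := ∀ Q : List Dir → Prop, Inv Q → ∀ (n β F j : ℕ) (B : Finset (List Dir)),
  4 + 2 * j ≤ n → 5 * j ≤ β → B ⊆ K Q n → (∀ w ∈ B, β ≤ bu w ∧ fr w ≤ F) →
  (B.card : ℝ) * ((β : ℝ) - 5 * j) ^ j ≤ (a Q (n - 2 * j) : ℝ) * ((F : ℝ) + 28 * j) ^ j

/-- contacts of the end point of `w` with vertices visited at least two steps before -/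
def Jc (w : List Dir) : Finset Dir := univ.filter (fun v => pos w + vec v ∈ (path w).tail.tail)

/-- the exponent of a step `v`, in terms of the previous directions `p, b`, the contacts `J` of the
end point and the contacts `B` of the previous point -/
def e0 (p b : Dir) (J B : Finset Dir) (v : Dir) : ℤ :=
  2 * (J.card : ℤ) + ((J.filter (fun j => perp j b ∧ j ≠ neg p)).card : ℤ) - 4 +
    (if perp v b then 2 else 0) + ((J.filter (fun j => perp j v)).card : ℤ) -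
    (if perp v b ∧ v ∈ B then 1 else 0)

/-- the exponent of the last step of `v :: w` -/
def ex (w : List Dir) (v : Dir) : ℤ :=
  e0 (w.getD 1 (w.getD 0 .xp)) (w.getD 0 .xp) (Jc w) (Jc w.tail) v

/-- the total exponent -/
def Gx : List Dir → ℤ
  | [] => 0
  | [_] => 0
  | v :: b :: w => Gx (b :: w) + ex (b :: w) v

/-- the potential -/
def Hs (p b : Dir) (u : Prop) (k : ℕ) : ℝ :=
  if p = b then 460 + 10 * k else if u then 432 + 12 * k else 370 + 11 * k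

/-- the potential of a walk -/
def Hx (w : List Dir) : ℝ :=
  Hs (w.getD 1 (w.getD 0 .xp)) (w.getD 0 .xp) (neg (w.getD 1 (w.getD 0 .xp)) ∈ Jc w)
    ((Jc w.tail).filter (fun j => perp j (w.getD 0 .xp))).card

/-- E4a: the finite inequality (2560 * 6 cases) -/
def S_fin : Prop := ∀ (p b : Dir) (J B : Finset Dir), p ≠ neg b → neg b ∉ J → b ∉ B → neg p ∉ B →
  ∑ v ∈ (univ : Finset Dir).filter (fun v => v ≠ neg b ∧ v ∉ J),
    (21 / 20 : ℝ) ^ (e0 p b J B v) * (if v = neg p ∧ perp v b then (1 / 1000 : ℝ) else 1) *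
      Hs b v (v ∈ B ∨ v = neg p) (J.filter (fun j => perp j v)).card ≤
    15 / 4 * Hs p b (neg p ∈ J) (B.filter (fun j => perp j b)).card

/-- E4b: the weighted sum over self-avoiding walks -/
def S_walks : Prop := ∀ N : ℕ, 1 ≤ N →
  ∑ w ∈ (W N).filter SAW, (21 / 20 : ℝ) ^ (Gx w) * (1 / 1000 : ℝ) ^ (bu w) * Hx w ≤
    2760 * (15 / 4 : ℝ) ^ (N - 1)

/-- E4c: few free plaquettes force a large exponent -/
def S_sat : Prop := ∀ w : List Dir, SAP w → -(20 : ℤ) - fr w ≤ Gx w.tail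

/-- E4d: polygons with few free plaquettes and few bumps are rare -/
def S_poor : Prop := ∃ C : ℝ, ∀ n : ℕ,
  (((W n).filter (fun w => SAP w ∧ 1000 * fr w ≤ n ∧ 1000 * bu w ≤ n)).card : ℝ) ≤
    C * (19 / 5 : ℝ) ^ n

/-- number of closed words with few free plaquettes or few bumps -/
def bad (Q : List Dir → Prop) (n : ℕ) : ℕ :=
  ((K Q n).filter (fun w => 10 ^ 7 * fr w ≤ n ∨ 10 ^ 7 * bu w ≤ n)).card

/-- E5: the pattern theorem for invariant classes -/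
def S_pattern : Prop := ∀ Q : List Dir → Prop, Inv Q → ∀ μ : ℝ, 19 / 5 < μ → μ ≤ 5 →
  (∀ τ : ℝ, 0 < τ → ∃ C : ℝ, ∀ n : ℕ, (a Q n : ℝ) ≤ C * ((1 + τ) * μ) ^ n) →
  ∃ θ C : ℝ, 0 < θ ∧ θ < 1 ∧ ∀ n : ℕ, (bad Q n : ℝ) ≤ C * (θ * μ) ^ n

/-- E6: approximate logarithmic convexity, at the lengths where `a Q` is not too small -/
def S_convex : Prop := ∀ Q : List Dir → Prop, Inv Q → ∀ μ θ θ₁ C : ℝ, 0 < μ → 0 < θ → θ < θ₁ →
  (∀ n : ℕ, (bad Q n : ℝ) ≤ C * (θ * μ) ^ n) →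
  ∃ D : ℝ, 0 ≤ D ∧ ∀ᶠ k : ℕ in atTop, (θ₁ * μ) ^ (2 * k + 2) ≤ (a Q (2 * k + 2) : ℝ) →
    (a Q (2 * k + 2) : ℝ) ^ 2 ≤ a Q (2 * k) * a Q (2 * k + 4) * (1 + D / k)

/-- E7: Kesten's lemma (pure analysis) -/
def S_kesten : Prop := ∀ (x : ℕ → ℝ) (μ D θ₁ : ℝ), 0 < μ → 0 ≤ D → 0 < θ₁ → θ₁ < 1 →
  (∀ k, 0 ≤ x k) →
  (∀ τ : ℝ, 0 < τ → ∀ᶠ k : ℕ in atTop, x k ≤ ((1 + τ) * μ) ^ (2 * k)) →
  (∀ᶠ k : ℕ in atTop, (θ₁ * μ) ^ (2 * k + 2) ≤ x (k + 1) →
    x (k + 1) ^ 2 ≤ x k * x (k + 2) * (1 + D / k)) →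
  ∀ ε : ℝ, 0 < ε → ∃ δ : ℝ, 0 < δ ∧ δ < 1 ∧ ∀ᶠ k : ℕ in atTop, ((1 - δ) * μ) ^ (2 * k) ≤ x k →
    |x (k + 1) / x k - μ ^ 2| ≤ ε

/-- E8: trivial upper bound -/
def S_five : Prop := ∀ (Q : List Dir → Prop) (n : ℕ), (a Q n : ℝ) ≤ 2 * 5 ^ n

/-! ## Part T: basic facts on polygonal knots -/

/-- T1: change of the first vertex -/
def S_rot : Prop := ∀ l1 l2 : List V, Simple (l1 ++ l2) →
  Simple (l2 ++ l1) ∧ Same (l1 ++ l2) (l2 ++ l1)

/-- T2: subdivision of any edge by several points -/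
def S_sub : Prop := ∀ (l1 l2 : List V) (p q : V) (ss : List ℝ),
  ss.Pairwise (fun s t => s < t) → (∀ s ∈ ss, 0 < s ∧ s < 1) →
  (Simple (l1 ++ p :: q :: l2) ↔ Simple (l1 ++ p :: (ss.map (lerp p q)) ++ q :: l2)) ∧
  (Simple (l1 ++ p :: q :: l2) →
    Same (l1 ++ p :: q :: l2) (l1 ++ p :: (ss.map (lerp p q)) ++ q :: l2))

/-- T3: linear motion of the vertices -/
def S_lin : Prop := ∀ l l' : List V, l.length = l'.length →
  (∀ t : ℝ, 0 ≤ t → t ≤ 1 → Simple (List.zipWith (fun p q => lerp p q t) l l')) → Same l l'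

/-- T4: motions of space: translations, rotations by 90 degrees, positive scalings of the
coordinates -/
def S_motion : Prop := ∀ l : List V, Simple l →
  (∀ t : V, Same l (l.map (fun p => p + t)) ∧ Simple (l.map (fun p => p + t))) ∧
  (Same l (l.map (fun p => (p.1, -p.2.2, p.2.1))) ∧ Simple (l.map (fun p => (p.1, -p.2.2, p.2.1)))) ∧
  (Same l (l.map (fun p => (-p.2.1, p.1, p.2.2))) ∧ Simple (l.map (fun p => (-p.2.1, p.1, p.2.2)))) ∧
  (∀ r s t : ℝ, 0 < r → 0 < s → 0 < t →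
    Same l (l.map (fun p => (r * p.1, s * p.2.1, t * p.2.2))) ∧
      Simple (l.map (fun p => (r * p.1, s * p.2.1, t * p.2.2))))

/-- T5: reversal -/
def S_rev : Prop := ∀ l l' : List V, (Simple l ↔ Simple l.reverse) ∧
  (Same l l' → Same l.reverse l'.reverse)

/-- T6: lattice polygons are simple -/
def S_simple : Prop := ∀ w : List Dir, SAP w → Simple (vl w)

/-- T7: a local move does not change the oriented knot type -/
def S_local : Prop := ∀ (w : List Dir) (i : ℕ) (d : Dir), SAP w → site w i d →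
  Same (vl w) (vl (ins w i d))

/-- rotation of the letters around the first axis -/
def rx : Dir → Dir
  | .xp => .xp
  | .xm => .xm
  | .yp => .zp
  | .zp => .ym
  | .ym => .zm
  | .zm => .yp

/-- rotation of the letters by 180 degrees around the third axis -/
def rz : Dir → Dir
  | .xp => .xm
  | .xm => .xp
  | .yp => .ym
  | .ym => .yp
  | .zp => .zp
  | .zm => .zm

/-- T8: words: rotations of space and change of the starting point -/
def S_words : Prop := ∀ w : List Dir, SAP w →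
  (SAP (w.map rx) ∧ Same (vl w) (vl (w.map rx))) ∧
  (SAP (w.map rz) ∧ Same (vl w) (vl (w.map rz))) ∧
  (∀ k : ℕ, SAP (w.rotate k) ∧ Same (vl w) (vl (w.rotate k)))

/-- T9: the square is reversible -/
def S_sq : Prop := Simple sq ∧ SAP sqw ∧ Same sq sq.reverse

/-! ## Part B: small knotted arcs (beads) on an edge -/

/-- determinant -/
def det3 (x y z : V) : ℝ :=
  x.1 * (y.2.1 * z.2.2 - y.2.2 * z.2.1) - x.2.1 * (y.1 * z.2.2 - y.2.2 * z.1) +
    x.2.2 * (y.1 * z.2.1 - y.2.1 * z.1)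

/-- the affine map that sends the segment from `0` to `(1,0,0)` to the segment `[p, q]` -/
def Fm (p q u w : V) (x : V) : V := p + x.1 • (q - p) + x.2.1 • u + x.2.2 • w

/-- the closed polygon `l` with the closing edge replaced by the arc `α` -/
def insB (l α : List V) (u w : V) : List V := l ++ α.map (Fm (l.getLastD 0) (l.headD 0) u w)

/-- a double cone around the segment from `0` to `(1,0,0)` -/
def Cone (κ : ℝ) (x : V) : Prop :=
  0 ≤ x.1 ∧ x.1 ≤ 1 ∧ |x.2.1| ≤ κ * min x.1 (1 - x.1) ∧ |x.2.2| ≤ κ * min x.1 (1 - x.1)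

/-- `0, α, (1,0,0)` are the vertices of a simple arc in the double cone, with the first and the
last edge on the axis -/
structure IsBead (κ : ℝ) (α : List V) : Prop where
  ne : α ≠ []
  cone : ∀ p ∈ α, 0 < p.1 ∧ p.1 < 1 ∧ Cone κ p
  disj : (chain 0 (α ++ [(1, 0, 0)])).Pairwise Disj
  nd : ∀ e ∈ chain 0 (α ++ [((1, 0, 0) : V)]), e.1 ≠ e.2
  hd : (α.headD 0).2 = 0
  lst : (α.getLastD 0).2 = 0

/-- the edges of `l` without the closing edge -/
def oe : List V → List (V × V)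
  | [] => []
  | p :: l => chain p l

/-- the image of the cone meets the other edges only in the end points of the closing edge -/
def CF (κ : ℝ) (l : List V) (u w : V) : Prop :=
  ∀ x : V, Cone κ x → x.1 < 1 → ∀ e ∈ oe l, ∀ r : ℝ, 0 ≤ r → r < 1 →
    Fm (l.getLastD 0) (l.headD 0) u w x ≠ lerp e.1 e.2 r

/-- B1: uniform thinness -/
def S_cone : Prop := ∀ (k : ℕ) (γ : ℝ → Fin k → V) (u w : ℝ → V) (κ : ℝ), 0 ≤ κ →
  (∀ i, Continuous (fun t => γ t i)) → Continuous u → Continuous w →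
  (∀ t : ℝ, 0 ≤ t → t ≤ 1 → Simple (List.ofFn (γ t))) →
  ∃ δ₀ : ℝ, 0 < δ₀ ∧ ∀ t : ℝ, 0 ≤ t → t ≤ 1 → ∀ δ : ℝ, 0 < δ → δ ≤ δ₀ →
    CF κ (List.ofFn (γ t)) (δ • u t) (δ • w t)

/-- B2: insertion of a bead gives a simple polygon -/
def S_bead : Prop := ∀ (κ : ℝ) (l α : List V) (u w : V), Simple l → IsBead κ α → CF κ l u w →
  det3 (l.headD 0 - l.getLastD 0) u w ≠ 0 → Simple (insB l α u w)

/-- small beads `α` on `l` and `α'` on `l'` give the same knot -/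
def GS (l α l' α' : List V) : Prop := ∀ u w u' w' : V,
  0 < det3 (l.headD 0 - l.getLastD 0) u w → 0 < det3 (l'.headD 0 - l'.getLastD 0) u' w' →
  ∃ δ₀ : ℝ, 0 < δ₀ ∧ ∀ δ δ' : ℝ, 0 < δ → δ ≤ δ₀ → 0 < δ' → δ' ≤ δ₀ →
    Same (insB l α (δ • u) (δ • w)) (insB l' α' (δ' • u') (δ' • w'))

/-- B3: families with a fixed frame -/
def S_fam : Prop := ∀ (k m : ℕ) (γ : ℝ → Fin k → V) (α : ℝ → Fin m → V) (κ : ℝ), 0 ≤ κ →
  (∀ i, Continuous (fun t => γ t i)) → (∀ i, Continuous (fun t => α t i)) →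
  (∀ t : ℝ, 0 ≤ t → t ≤ 1 → Simple (List.ofFn (γ t))) →
  (∀ t : ℝ, 0 ≤ t → t ≤ 1 → IsBead κ (List.ofFn (α t))) →
  GS (List.ofFn (γ 0)) (List.ofFn (α 0)) (List.ofFn (γ 1)) (List.ofFn (α 1))

/-- B4: independence of the frame -/
def S_gsRefl : Prop := ∀ (κ : ℝ) (l α : List V), Simple l → IsBead κ α → GS l α l α

/-- B4': symmetry and transitivity -/
def S_gsTrans : Prop := (∀ l α l' α' : List V, GS l α l' α' → GS l' α' l α) ∧
  (∀ l α l' α' l'' α'' : List V, Simple l' → GS l α l' α' → GS l' α' l'' α'' → GS l α l'' α'')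

/-- B5: subdivision of the closing edge, bead on the second part -/
def S_subL : Prop := ∀ (κ : ℝ) (l α : List V) (s : ℝ), Simple l → IsBead κ α → 0 < s → s < 1 →
  GS l α (l ++ [lerp (l.getLastD 0) (l.headD 0) s]) α

/-- B6: subdivision of the closing edge, bead on the first part -/
def S_subR : Prop := ∀ (κ : ℝ) (l α : List V) (s : ℝ), Simple l → IsBead κ α → 0 < s → s < 1 →
  GS l α (lerp (l.getLastD 0) (l.headD 0) s :: l) α

/-- B7: subdivision of another edge -/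
def S_subM : Prop := ∀ (κ : ℝ) (l1 l2 α : List V) (p q : V) (s : ℝ),
  Simple (l1 ++ p :: q :: l2) → IsBead κ α → 0 < s → s < 1 →
  GS (l1 ++ p :: q :: l2) α (l1 ++ p :: lerp p q s :: q :: l2) α

/-- B8: cutting a corner -/
def S_corner : Prop := ∀ (p b q : V) (l : List V), Simple (p :: b :: (l ++ [q])) →
  ∃ ρ : ℝ, 0 < ρ ∧ ρ < 1 / 2 ∧ ∀ s : ℝ, 0 ≤ s → s ≤ 1 →
    Simple ((p + (s * ρ / 2) • ((q - p) + (b - p))) :: (p + ρ • (b - p)) :: b ::
      (l ++ [q, p + ρ • (q - p)]))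

/-- B9: the bead moves past a vertex -/
def S_gsRot : Prop := ∀ (κ : ℝ) (p : V) (l α : List V), Simple (p :: l) → IsBead κ α →
  GS (p :: l) α (l ++ [p]) α

/-- B10: beads on equivalent polygons -/
def S_gs : Prop := ∀ (κ : ℝ) (l l' α : List V), Simple l → Simple l' → IsBead κ α → Same l l' →
  GS l α l' α

/-- B11a: an arc in a half-space -/
def S_hg : Prop := ∀ lv β : List V, Simple lv → (∀ p ∈ lv, 1 ≤ p.1) →
  lv.head? = some (1, 0, 1) → lv.getLast? = some (1, 0, 0) →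
  (chain (1, 0, 0) (β ++ [((1, 0, 1) : V)])).Pairwise Disj →
  (∀ e ∈ chain (1, 0, 0) (β ++ [((1, 0, 1) : V)]), e.1 ≠ e.2 ∧ ∀ r : ℝ, 0 ≤ r → r < 1 →
    (lerp e.1 e.2 r).1 < 1 ∨
      ((lerp e.1 e.2 r).1 = 1 ∧ (lerp e.1 e.2 r).2.1 = 0 ∧ 0 ≤ (lerp e.1 e.2 r).2.2 ∧
        (lerp e.1 e.2 r).2.2 < 1)) →
  Simple (lv ++ β)

/-- scaling about the point `(1, 0, 1/2)` -/
def Ts (s : ℝ) (p : V) : V := (1 + s * (p.1 - 1), s * p.2.1, 1 / 2 + s * (p.2.2 - 1 / 2))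

/-- local coordinates near the closing edge from `(1,0,0)` to `(1,0,1)` -/
def loc (p : V) : V := (p.2.2, 1 - p.1, -p.2.1)

/-- the bead -/
def bd (s : ℝ) (lw : List V) : List V :=
  ((Ts s (1, 0, 0) :: lw.map (Ts s)) ++ [Ts s (1, 0, 1)]).map loc

/-- hypotheses on the left polygon -/
def HL (lw : List V) : Prop := Simple lw ∧ (∀ p ∈ lw, p.1 ≤ 0) ∧ lw.head? = some (0, 0, 0) ∧
  lw.getLast? = some (0, 0, 1)

/-- hypotheses on the right polygon -/
def HR (lv : List V) : Prop := Simple lv ∧ (∀ p ∈ lv, 1 ≤ p.1) ∧ lv.head? = some (1, 0, 1) ∧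
  lv.getLast? = some (1, 0, 0)

/-- B11b -/
def S_shA : Prop := ∀ lw : List V, HL lw → ∃ s κ : ℝ, 0 < s ∧ s < 1 ∧ IsBead κ (bd s lw)

/-- B11c: scaling of the left polygon -/
def S_shB : Prop := ∀ lw lv : List V, HL lw → HR lv → ∀ s : ℝ, 0 < s → s < 1 →
  Same (lv ++ lw) (lv ++ lw.map (Ts s)) ∧ Simple (lv ++ lw.map (Ts s))

/-- B11d: the connectors -/
def S_shC : Prop := ∀ lw lv : List V, HL lw → HR lv → ∀ s : ℝ, 0 < s → s < 1 →
  Same (lv ++ lw.map (Ts s))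
    (lv ++ ((Ts s (1, 0, 0) :: lw.map (Ts s)) ++ [Ts s (1, 0, 1)]))

/-- B11e: transverse scaling -/
def S_shD : Prop := ∀ lw lv : List V, HL lw → HR lv → ∀ s : ℝ, 0 < s → s < 1 →
  ∀ δ : ℝ, 0 < δ → δ ≤ 1 →
  Same (lv ++ ((Ts s (1, 0, 0) :: lw.map (Ts s)) ++ [Ts s (1, 0, 1)]))
    (insB lv (bd s lw) (δ • (-1, 0, 0)) (δ • (0, -1, 0)))

/-- B12: the connected sum only depends on the knot types -/
def S_connect : Prop := ∀ lw lv lv' : List V, HL lw → HR lv → HR lv' → Same lv lv' →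
  Same (lv ++ lw) (lv' ++ lw)

/-! ## Part C: concatenation of polygons -/

/-- the edge `zp` between `l1` and `l2` is replaced by `xp`, then `v`, then `xm` -/
def glue (l1 v l2 : List Dir) : List Dir := l1 ++ .xm :: (v ++ .xp :: l2)

/-- hypotheses for gluing: `l1 ++ zp :: l2` is a polygon in the half-space to the left of the
distinguished edge, `zm :: v` is a polygon in the right half-space -/
def GH (l1 v l2 : List Dir) : Prop :=
  SAP (l1 ++ .zp :: l2) ∧ (∀ p ∈ path (l1 ++ .zp :: l2), p.1 ≤ (pos l2).1) ∧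
    SAP (.zm :: v) ∧ ∀ p ∈ path v, 0 ≤ p.1

/-- C1 -/
def S_glueSAP : Prop := ∀ l1 v l2 : List Dir, GH l1 v l2 → SAP (glue l1 v l2)

/-- C2: the right polygon is unknotted -/
def S_glue1 : Prop := ∀ l1 v l2 : List Dir, GH l1 v l2 → Same (vl (.zm :: v)) sq →
  Same (vl (glue l1 v l2)) (vl (l1 ++ .zp :: l2))

/-- C3: the left polygon is unknotted -/
def S_glue2 : Prop := ∀ l1 v l2 : List Dir, GH l1 v l2 → Same (vl (l1 ++ .zp :: l2)) sq →
  Same (vl (glue l1 v l2)) (vl (.zm :: v))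

/-- C4: knot types are invariant -/
def S_inv : Prop := ∀ k : List V, Inv (KT k)

/-- C5a: a quarter of the words have a letter `zp` in the plane of maximal first coordinate -/
def S_quartR : Prop := ∀ Q : List Dir → Prop, (∀ w, SAP w → (Q w ↔ Q (w.map rx))) → ∀ n : ℕ,
  a Q n ≤ 4 * ((K Q n).filter (fun w => ∃ l1 l2 : List Dir, w = l1 ++ .zp :: l2 ∧
    ∀ p ∈ path w, p.1 ≤ (pos l2).1)).card

/-- C5b: polygons with a distinguished edge in the plane of minimal first coordinate -/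
def S_quartL : Prop := ∀ Q : List Dir → Prop, (∀ w, SAP w → (Q w ↔ Q (w.map rx))) →
  (∀ w, SAP w → ∀ k : ℕ, (Q w ↔ Q (w.rotate k))) → ∀ m : ℕ,
  a Q m ≤ 4 * m * ((K Q m).filter (fun w => ∃ v : List Dir, w = .zm :: v ∧
    ∀ p ∈ path v, 0 ≤ p.1)).card

/-- C5: supermultiplicativity -/
def S_super : Prop := ∀ (k : List V) (n m : ℕ),
  a (KT k) n * a U m ≤ 16 * m * a (KT k) (n + m)

/-- C6: attaching a fixed polygon -/
def S_attach : Prop := ∀ k : List V, (∃ w, SAP w ∧ KT k w) → ∃ m : ℕ, ∀ n : ℕ,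
  a U n ≤ 4 * a (KT k) (n + m)

/-! ## Part L: many unknotted polygons -/

/-- planar self-avoiding walks of length at most 4 -/
def PW : Finset (List Dir) :=
  (range 5).biUnion (fun j => (W j).filter (fun w => SAW w ∧ ∀ d ∈ w, d ≠ .zp ∧ d ≠ .zm))

/-- layered words: every layer is entered by a step `zp` and contains a walk in `PW` -/
inductive Lay : List Dir → Prop
  | nil : Lay []
  | cons (q w : List Dir) (hq : q ∈ PW) (hw : Lay w) : Lay (q ++ .zp :: w)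

/-- L1: number of layered words -/
def S_layers : Prop := ∃ c : ℝ, 0 < c ∧ ∀ m : ℕ,
  c * (97 / 25 : ℝ) ^ m ≤ (((W m).filter Lay).card : ℝ)

/-- the reversed walk -/
def back (w : List Dir) : List Dir := (w.map neg).reverse

/-- the closed word: up along `A`, over the top, down along `B`, back at the bottom -/
def PP (Y : ℕ) (A B : List Dir) : List Dir :=
  List.replicate Y .ym ++ (back B ++ .zm :: (List.replicate Y .yp ++ .zp :: A))

/-- hypotheses on the pair `A`, `B` -/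
def LH (n M h : ℕ) (A B : List Dir) : Prop :=
  1 ≤ n ∧ A.length = n ∧ B.length = n ∧ Lay A ∧ Lay B ∧ pos A = (0, 0, (h : ℤ)) ∧
    pos B = (0, 0, (h : ℤ)) ∧ (∀ p ∈ path A, |p.2.1| ≤ M) ∧ (∀ p ∈ path B, |p.2.1| ≤ M)

/-- L2 -/
def S_laySAP : Prop := ∀ (n M h : ℕ) (A B : List Dir), LH n M h A B → SAP (PP (2 * M + 2) A B)

/-- L3 -/
def S_layU : Prop := ∀ (n M h : ℕ) (A B : List Dir), LH n M h A B → U (PP (2 * M + 2) A B)

/-- L4: lower bound for the number of unknotted polygons -/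
def S_low : Prop := ∃ N r : ℕ, 0 < N ∧ ∀ k : ℕ, (77 / 20 : ℝ) ^ (N * k) ≤ (a U (N * k + r) : ℝ)

/-! ## Part F: final -/

/-- F1: the growth constant of the unknot -/
def S_mu : Prop := ∃ μ : ℝ, 77 / 20 ≤ μ ∧ μ ≤ 5 ∧
  Tendsto (fun k : ℕ => (a U (2 * k) : ℝ) ^ (1 / (2 * k : ℝ))) atTop (𝓝 μ)

/-- F2: the ratio theorem for invariant classes -/
def S_class : Prop := ∀ Q : List Dir → Prop, Inv Q → ∀ μ : ℝ, 19 / 5 < μ → μ ≤ 5 →
  (∀ τ : ℝ, 0 < τ → ∃ C : ℝ, ∀ n : ℕ, (a Q n : ℝ) ≤ C * ((1 + τ) * μ) ^ n) →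
  ∀ ε : ℝ, 0 < ε → ∃ δ : ℝ, 0 < δ ∧ δ < 1 ∧ ∀ᶠ k : ℕ in atTop,
    ((1 - δ) * μ) ^ (2 * k) ≤ (a Q (2 * k) : ℝ) →
    |(a Q (2 * k + 2) : ℝ) / a Q (2 * k) - μ ^ 2| ≤ ε

/-- F3: if the ratios converge then the roots converge (pure analysis) -/
def S_root : Prop := ∀ (x : ℕ → ℝ) (L : ℝ), (∀ᶠ k : ℕ in atTop, 0 < x k) → 0 < L →
  Tendsto (fun k : ℕ => x (k + 1) / x k) atTop (𝓝 L) →
  Tendsto (fun k : ℕ => (x k) ^ (1 / (2 * k : ℝ))) atTop (𝓝 (L ^ (1 / 2 : ℝ)))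

end

end KN
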